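import Pool.Agent.Work.MP_713a1e_co.E.ChiB

/-!
# The kernel computation for `χ_3`
-/

namespace Pool.Agent.Work.MP_713a1e_co.E.ChiK

set_option maxRecDepth 100000 in
theorem cs3_le : Nat.ble (cs G3 P3 N3 (10 ^ 12) 200) 21520086717 = true := by decide +kernel

end Pool.Agent.Work.MP_713a1e_co.E.ChiK
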