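import Pool.Agent.Work.MP_713a1e_co.E.Defs

/-!
# JOB N1a: the truncated Moebius identity (used by Theta.lean and Chi.lean)

`g` completely multiplicative, `|g| ≤ 1`.  `∑_{m ≤ x} g(m) Λ(m) E(x/m) = ∑_k ν(k) g(k) ∑_{i ≤ x/k} g(i) log i` (because `g · log = g Λ * g`),
`E(y) = EE g ν K ⌊y⌋`.  Then split `∑_{m ≤ x} g(m) Λ(m) (1 - E(x/m))` according to `j = ⌊x/m⌋`:
`m ∈ (x/(j+1), x/j]`.
-/

namespace Pool.Agent.Work.MP_713a1e_co.E

open Chebyshev

/-- `E(j) = ∑_{k ≤ K} ν(k) g(k) ∑_{i ≤ j/k} g(i)` -/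
noncomputable def EE (g ν : ℕ → ℝ) (K j : ℕ) : ℝ :=
  ∑ k ∈ Finset.Icc 1 K, ν k * g k * ∑ i ∈ Finset.Icc 1 (j / k), g i

/-- the identity `g log = g Λ * g`, summed -/
theorem sum_glog {g : ℕ → ℝ} (hg1 : ∀ m n, g (m * n) = g m * g n) (N : ℕ) :
    ∑ i ∈ Finset.Ioc 0 N, g i * Real.log i
      = ∑ m ∈ Finset.Ioc 0 N, g m * ArithmeticFunction.vonMangoldt m *
          ∑ l ∈ Finset.Icc 1 (N / m), g l := by
  set F : ArithmeticFunction ℝ :=
    ⟨fun n => g n * ArithmeticFunction.vonMangoldt n, by simp⟩ with hF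
  set G : ArithmeticFunction ℝ := ⟨fun n => if n = 0 then 0 else g n, by simp⟩ with hG
  have h := ArithmeticFunction.sum_Ioc_mul_eq_sum_sum F G N
  have h1 : ∑ n ∈ Finset.Ioc 0 N, (F * G) n = ∑ i ∈ Finset.Ioc 0 N, g i * Real.log i := by
    apply Finset.sum_congr rfl
    intro n hn
    rw [ArithmeticFunction.mul_apply, ← ArithmeticFunction.vonMangoldt_sum, Finset.mul_sum,
      ← Nat.sum_divisorsAntidiagonal (f := fun i _ => g n * ArithmeticFunction.vonMangoldt i)]
    apply Finset.sum_congr rfl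
    intro p hp
    have hp' := Nat.mem_divisorsAntidiagonal.1 hp
    have h2 : p.2 ≠ 0 := by
      intro h0
      apply hp'.2
      rw [← hp'.1, h0, mul_zero]
    simp only [hF, hG, ArithmeticFunction.coe_mk, if_neg h2]
    rw [← hp'.1, hg1]
    ring
  have h3 : ∑ n ∈ Finset.Ioc 0 N, F n * ∑ m ∈ Finset.Ioc 0 (N / n), G m
      = ∑ m ∈ Finset.Ioc 0 N, g m * ArithmeticFunction.vonMangoldt m *
          ∑ l ∈ Finset.Icc 1 (N / m), g l := by
    apply Finset.sum_congr rfl
    intro n hn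
    have h4 : ∑ m ∈ Finset.Ioc 0 (N / n), G m = ∑ l ∈ Finset.Icc 1 (N / n), g l := by
      have h5 : Finset.Ioc 0 (N / n) = Finset.Icc 1 (N / n) := by
        ext i; simp [Nat.succ_le_iff]
      rw [h5]
      apply Finset.sum_congr rfl
      intro i hi
      have h6 : i ≠ 0 := by
        have := (Finset.mem_Icc.1 hi).1
        omega
      simp [hG, h6]
    rw [h4]
    simp [hF]
  rw [← h1, h, h3]

/-- the truncated identity -/
theorem sum_EE {g : ℕ → ℝ} (hg1 : ∀ m n, g (m * n) = g m * g n) (ν : ℕ → ℝ) (K N : ℕ) :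
    ∑ k ∈ Finset.Icc 1 K, ν k * g k * ∑ i ∈ Finset.Ioc 0 (N / k), g i * Real.log i
      = ∑ m ∈ Finset.Ioc 0 N, g m * ArithmeticFunction.vonMangoldt m * EE g ν K (N / m) := by
  have h1 : ∀ k ∈ Finset.Icc 1 K, ν k * g k * ∑ i ∈ Finset.Ioc 0 (N / k), g i * Real.log i
      = ∑ m ∈ Finset.Ioc 0 N, g m * ArithmeticFunction.vonMangoldt m *
          (ν k * g k * ∑ l ∈ Finset.Icc 1 (N / m / k), g l) := by
    intro k hk
    rw [sum_glog hg1, Finset.mul_sum]
    have hsub : Finset.Ioc 0 (N / k) ⊆ Finset.Ioc 0 N :=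
      Finset.Ioc_subset_Ioc_right (Nat.div_le_self N k)
    rw [← Finset.sum_subset hsub]
    · apply Finset.sum_congr rfl
      intro m hm
      rw [Nat.div_div_eq_div_mul, Nat.div_div_eq_div_mul, mul_comm k m]
      ring
    · intro m hm hm'
      have hk1 : 1 ≤ k := (Finset.mem_Icc.1 hk).1
      have hm1 : 1 ≤ m := (Finset.mem_Ioc.1 hm).1
      have h2 : N / m / k = 0 := by
        have h3 : N / k < m := by
          by_contra h4
          exact hm' (Finset.mem_Ioc.2 ⟨hm1, not_lt.1 h4⟩)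
        rw [Nat.div_div_eq_div_mul, mul_comm m k, ← Nat.div_div_eq_div_mul]
        exact Nat.div_eq_of_lt h3
      rw [h2]
      simp
  rw [Finset.sum_congr rfl h1, Finset.sum_comm]
  apply Finset.sum_congr rfl
  intro m hm
  rw [EE, Finset.mul_sum]

/-- splitting `(N/(J+1), N]` according to `j = ⌊N/m⌋` -/
theorem sum_split (f : ℕ → ℝ) (N J : ℕ) :
    ∑ m ∈ Finset.Ioc (N / (J + 1)) N, f m
      = ∑ j ∈ Finset.Icc 1 J, ∑ m ∈ Finset.Ioc (N / (j + 1)) (N / j), f m := by
  induction J with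
  | zero => simp
  | succ J ih =>
    rw [Finset.sum_Icc_succ_top (by omega), ← ih]
    have h1 : N / (J + 1 + 1) ≤ N / (J + 1) := Nat.div_le_div_left (by omega) (by omega)
    have h2 : N / (J + 1) ≤ N := Nat.div_le_self _ _
    rw [← Finset.sum_Ioc_consecutive f h1 h2, add_comm]

theorem moeb {g : ℕ → ℝ} (hg1 : ∀ m n, g (m * n) = g m * g n) (hg : ∀ n, |g n| ≤ 1) (ν : ℕ → ℝ) (K J : ℕ)
    (B : ℝ) (hB : ∀ j, J < j → |1 - EE g ν K j| ≤ B) {x : ℝ} (_hx : 1 ≤ x) :
    |∑ m ∈ Finset.Ioc 0 ⌊x⌋₊, g m * ArithmeticFunction.vonMangoldt m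
        - ∑ k ∈ Finset.Icc 1 K, ν k * g k * ∑ i ∈ Finset.Ioc 0 ⌊x / k⌋₊, g i * Real.log i| ≤
      ∑ j ∈ Finset.Icc 1 J, |1 - EE g ν K j| * (psi (x / j) - psi (x / (j + 1))) + B * psi (x / (J + 1)) := by
  set N := ⌊x⌋₊ with hN
  have hfl : ∀ k : ℕ, ⌊x / k⌋₊ = N / k := fun k => Nat.floor_div_natCast x k
  have hfl1 : ∀ k : ℕ, ⌊x / ((k : ℝ) + 1)⌋₊ = N / (k + 1) := by
    intro k
    rw [← hfl (k + 1)]
    push_cast
    rfl
  simp_rw [hfl]
  rw [sum_EE hg1, ← Finset.sum_sub_distrib]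
  set Lam := fun m : ℕ => ArithmeticFunction.vonMangoldt m with hLam
  have hLam0 : ∀ m, 0 ≤ Lam m := fun m => ArithmeticFunction.vonMangoldt_nonneg
  set f : ℕ → ℝ := fun m => Lam m * |1 - EE g ν K (N / m)| with hf
  have h1 : |∑ m ∈ Finset.Ioc 0 N, (g m * ArithmeticFunction.vonMangoldt m
      - g m * ArithmeticFunction.vonMangoldt m * EE g ν K (N / m))|
      ≤ ∑ m ∈ Finset.Ioc 0 N, f m := by
    refine (Finset.abs_sum_le_sum_abs _ _).trans (Finset.sum_le_sum fun m _ => ?_)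
    have h2 : g m * ArithmeticFunction.vonMangoldt m
      - g m * ArithmeticFunction.vonMangoldt m * EE g ν K (N / m)
      = g m * (Lam m * (1 - EE g ν K (N / m))) := by simp only [hLam]; ring
    rw [h2, abs_mul, abs_mul, abs_of_nonneg (hLam0 m)]
    have h3 : 0 ≤ Lam m * |1 - EE g ν K (N / m)| := mul_nonneg (hLam0 m) (abs_nonneg _)
    calc |g m| * (Lam m * |1 - EE g ν K (N / m)|) ≤ 1 * (Lam m * |1 - EE g ν K (N / m)|) := by
          exact mul_le_mul_of_nonneg_right (hg m) h3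
      _ = f m := by rw [one_mul]
  refine h1.trans ?_
  have h4 : ∑ m ∈ Finset.Ioc 0 N, f m
      = ∑ m ∈ Finset.Ioc 0 (N / (J + 1)), f m + ∑ m ∈ Finset.Ioc (N / (J + 1)) N, f m := by
    have h2 : N / (J + 1) ≤ N := Nat.div_le_self _ _
    exact (Finset.sum_Ioc_consecutive f (Nat.zero_le _) h2).symm
  rw [h4, sum_split, add_comm]
  apply add_le_add
  · apply Finset.sum_le_sum
    intro j hj
    have hj1 : 1 ≤ j := (Finset.mem_Icc.1 hj).1
    have h5 : psi (x / j) - psi (x / (j + 1)) = ∑ m ∈ Finset.Ioc (N / (j + 1)) (N / j), Lam m := by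
      have h6 : N / (j + 1) ≤ N / j := Nat.div_le_div_left (by omega) (by omega)
      unfold psi
      rw [hfl, hfl1]
      rw [← Finset.sum_Ioc_consecutive (fun m => ArithmeticFunction.vonMangoldt m)
        (Nat.zero_le _) h6]
      simp only [hLam]
      ring
    rw [h5, Finset.mul_sum]
    apply le_of_eq
    apply Finset.sum_congr rfl
    intro m hm
    have h8 : N / m = j := by
      have hm1 := (Finset.mem_Ioc.1 hm).1
      have hm2 := (Finset.mem_Ioc.1 hm).2
      have hmpos : 0 < m := lt_of_le_of_lt (Nat.zero_le _) hm1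
      apply le_antisymm
      · by_contra h9
        push Not at h9
        have h10 : (j + 1) * m ≤ N := by
          have := Nat.div_mul_le_self N m
          exact (Nat.mul_le_mul_right m h9).trans this
        have h11 : m ≤ N / (j + 1) := (Nat.le_div_iff_mul_le (by omega)).2 (by rw [mul_comm]; exact h10)
        omega
      · rw [Nat.le_div_iff_mul_le hmpos]
        have := (Nat.le_div_iff_mul_le (by omega)).1 hm2
        rw [mul_comm]
        exact this
    simp only [hf, h8]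
    ring
  · have h5 : psi (x / (J + 1)) = ∑ m ∈ Finset.Ioc 0 (N / (J + 1)), Lam m := by
      unfold psi
      rw [hfl1]
    rw [h5, Finset.mul_sum]
    apply Finset.sum_le_sum
    intro m hm
    have hm1 := (Finset.mem_Ioc.1 hm).1
    have hm2 := (Finset.mem_Ioc.1 hm).2
    have h6 : J < N / m := by
      have h7 : J + 1 ≤ N / m := by
        rw [Nat.le_div_iff_mul_le hm1]
        have := (Nat.le_div_iff_mul_le (by omega)).1 hm2
        rw [mul_comm]
        exact this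
      omega
    simp only [hf]
    rw [mul_comm]
    exact mul_le_mul_of_nonneg_right (hB _ h6) (hLam0 m)

end Pool.Agent.Work.MP_713a1e_co.E
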