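import Pool.Agent.Work.MP_713a1e_co.E.Mass
import Pool.Agent.Work.MP_713a1e_co.E.Moeb
import Pool.Agent.Work.MP_713a1e_co.E.ChiC
import Pool.Agent.Work.MP_713a1e_co.E.ChiD

/-!
# JOB N2: `|θ(x, χ)| ≤ 0.047 x` for `χ = χ_3, χ_4`, `x ≥ 2^2399`

`E(y) = ∑_{k ≤ K} μ(k) χ(k) A(⌊y/k⌋)`, `A(n) = ∑_{i ≤ n} χ(i) ∈ {0, 1}`.  `∑_m χ(m) Λ(m) E(x/m) = ∑_k μ(k) χ(k) L(x/k)`,
`L(y) = ∑_{n ≤ y} χ(n) log n`, `|L(y)| ≤ log y`.  So
`|ψ(x,χ)| ≤ ∑_{j ≤ J} |1 - E(j)| (ψ(x/j) - ψ(x/(j+1))) + (1 + B) ψ(x/(J+1)) + K log x`,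
`B = max (#{μχ = 1}) (#{μχ = -1})`.
`χ_3`: `K = 91`, `J = 20000`: `∑ |1 - E(j)|/(j(j+1)) = 0.02152` (times 2.05: 0.0441); tail `≤ 0.002`.
`χ_4`: `K = 111`, `J = 20000`: `0.02043` (times 2.05: 0.0419); tail `≤ 0.002`.
The sums over `j` are computed in `ChiA` - `ChiD`; the weights `μ(k) χ(k)` are the explicit lists `P3, N3, P4, N4`.
-/

namespace Pool.Agent.Work.MP_713a1e_co.E

open Chebyshev Finset

namespace ChiK

/-- partial summation -/
theorem abel_log {g : ℕ → ℝ} {a : ℕ → ℕ} (ha : ∀ n, a n ≤ 1) (hA : ∀ n, ∑ i ∈ Icc 1 n, g i = a n) :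
    ∀ n : ℕ, 1 ≤ n → ∃ T : ℝ, 0 ≤ T ∧ T ≤ Real.log n ∧
      ∑ i ∈ Ioc 0 n, g i * Real.log i = a n * Real.log n - T := by
  intro n hn
  induction n, hn using Nat.le_induction with
  | base => exact ⟨0, le_rfl, by simp, by simp⟩
  | succ n hn ih =>
    obtain ⟨T, h0, h1, h2⟩ := ih
    have hlog : Real.log n ≤ Real.log ((n + 1 : ℕ) : ℝ) :=
      Real.log_le_log (by exact_mod_cast hn) (by push_cast; linarith)
    have han : (0 : ℝ) ≤ a n := Nat.cast_nonneg _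
    have han1 : (a n : ℝ) ≤ 1 := by exact_mod_cast ha n
    refine ⟨T + a n * (Real.log ((n + 1 : ℕ) : ℝ) - Real.log n), ?_, ?_, ?_⟩
    · have := mul_nonneg han (sub_nonneg.2 hlog)
      linarith
    · have := mul_le_mul_of_nonneg_right han1 (sub_nonneg.2 hlog)
      linarith
    · have h3 : g (n + 1) = a (n + 1) - a n := by
        rw [← hA, ← hA, Finset.sum_Icc_succ_top (by omega)]
        ring
      rw [Finset.sum_Ioc_succ_top (by omega), h2, h3]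
      ring

theorem abs_sum_log_le {g : ℕ → ℝ} {a : ℕ → ℕ} (ha : ∀ n, a n ≤ 1)
    (hA : ∀ n, ∑ i ∈ Icc 1 n, g i = a n) {y : ℝ} (hy : 1 ≤ y) :
    |∑ i ∈ Ioc 0 ⌊y⌋₊, g i * Real.log i| ≤ Real.log y := by
  have hn : 1 ≤ ⌊y⌋₊ := Nat.le_floor (by exact_mod_cast hy)
  obtain ⟨T, h0, h1, h2⟩ := abel_log ha hA ⌊y⌋₊ hn
  have hl : Real.log (⌊y⌋₊ : ℝ) ≤ Real.log y :=
    Real.log_le_log (by exact_mod_cast hn) (Nat.floor_le (by linarith))
  have hl0 : 0 ≤ Real.log (⌊y⌋₊ : ℝ) := Real.log_nonneg (by exact_mod_cast hn)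
  have han : (0 : ℝ) ≤ a ⌊y⌋₊ := Nat.cast_nonneg _
  have han1 : (a ⌊y⌋₊ : ℝ) ≤ 1 := by exact_mod_cast ha _
  have h3 : 0 ≤ (a ⌊y⌋₊ : ℝ) * Real.log (⌊y⌋₊ : ℝ) := mul_nonneg han hl0
  have h4 := mul_le_mul_of_nonneg_right han1 hl0
  rw [h2, abs_le]
  constructor <;> linarith

/-- `θ` against `ψ` -/
theorem thetaC_sub {g : ℕ → ℝ} (hg : ∀ n, |g n| ≤ 1) {x : ℝ} (hx : 1 ≤ x) :
    |∑ m ∈ Ioc 0 ⌊x⌋₊, g m * ArithmeticFunction.vonMangoldt m - thetaC g x| ≤ 2 * √x * Real.log x := by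
  have h1 : ∑ m ∈ Ioc 0 ⌊x⌋₊, g m * ArithmeticFunction.vonMangoldt m - thetaC g x
      = ∑ m ∈ (Ioc 0 ⌊x⌋₊).filter (fun n => ¬ n.Prime), g m * ArithmeticFunction.vonMangoldt m := by
    rw [← Finset.sum_filter_add_sum_filter_not (Ioc 0 ⌊x⌋₊) Nat.Prime, thetaC]
    have : ∑ m ∈ (Ioc 0 ⌊x⌋₊).filter Nat.Prime, g m * ArithmeticFunction.vonMangoldt m
        = ∑ m ∈ (Ioc 0 ⌊x⌋₊).filter Nat.Prime, g m * Real.log m := by
      apply Finset.sum_congr rfl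
      intro m hm
      rw [ArithmeticFunction.vonMangoldt_apply_prime (Finset.mem_filter.1 hm).2]
    rw [this]
    ring
  rw [h1]
  refine le_trans (Finset.abs_sum_le_sum_abs _ _) ?_
  refine le_trans ?_ (psi_sub_theta_le hx)
  rw [psi_sub_theta_eq_sum_not_prime]
  apply Finset.sum_le_sum
  intro m _
  rw [abs_mul, abs_of_nonneg ArithmeticFunction.vonMangoldt_nonneg]
  have := mul_le_mul_of_nonneg_right (hg m) (ArithmeticFunction.vonMangoldt_nonneg (n := m))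
  linarith

/-- the weights -/
noncomputable def nu (g : ℕ → ℝ) (P N : List ℕ) (k : ℕ) : ℝ :=
  g k * ((if k ∈ P then 1 else 0) - (if k ∈ N then 1 else 0))

theorem EE_eq {g : ℕ → ℝ} {a : ℕ → ℕ} {P N : List ℕ} {K : ℕ} (hA : ∀ n, ∑ i ∈ Icc 1 n, g i = a n)
    (hPn : P.Nodup) (hNn : N.Nodup) (hP : ∀ k ∈ P, 1 ≤ k ∧ k ≤ K ∧ g k * g k = 1)
    (hN : ∀ k ∈ N, 1 ≤ k ∧ k ≤ K ∧ g k * g k = 1) (j : ℕ) :
    EE g (nu g P N) K j
      = ((P.map fun k => a (j / k)).sum : ℝ) - ((N.map fun k => a (j / k)).sum : ℝ) := by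
  have key : ∀ l : List ℕ, l.Nodup → (∀ k ∈ l, 1 ≤ k ∧ k ≤ K ∧ g k * g k = 1) →
      ∑ k ∈ Icc 1 K, g k * (if k ∈ l then 1 else 0) * g k * (a (j / k) : ℝ)
        = ((l.map fun k => a (j / k)).sum : ℝ) := by
    intro l hl h
    have h1 : ((l.map fun k => a (j / k)).sum : ℕ) = ∑ k ∈ l.toFinset, a (j / k) :=
      (List.sum_toFinset _ hl).symm
    rw [h1]
    push_cast
    have h2 : l.toFinset ⊆ Icc 1 K := by
      intro k hk
      have := h k (List.mem_toFinset.1 hk)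
      rw [Finset.mem_Icc]
      exact ⟨this.1, this.2.1⟩
    rw [← Finset.sum_subset h2]
    · apply Finset.sum_congr rfl
      intro k hk
      have hk := List.mem_toFinset.1 hk
      rw [if_pos hk, mul_one, (h k hk).2.2, one_mul]
    · intro k _ hk
      rw [List.mem_toFinset] at hk
      rw [if_neg hk]
      ring
  rw [← key P hPn hP, ← key N hNn hN, ← Finset.sum_sub_distrib]
  unfold EE
  apply Finset.sum_congr rfl
  intro k _
  rw [hA, nu]
  ring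

theorem dist1_eq (p q : ℕ) : |1 - ((p : ℝ) - q)| = dist1 p q := by
  unfold dist1
  show _ = (((p - (q + 1)) + ((q + 1) - p) : ℕ) : ℝ)
  rcases le_total p (q + 1) with h | h
  · rw [Nat.sub_eq_zero_of_le h, zero_add, Nat.cast_sub h, abs_of_nonneg]
    · push_cast; ring
    · have : (p : ℝ) ≤ q + 1 := by exact_mod_cast h
      linarith
  · rw [Nat.sub_eq_zero_of_le h, add_zero, Nat.cast_sub h, abs_of_nonpos]
    · push_cast; ring
    · have : (q : ℝ) + 1 ≤ p := by exact_mod_cast h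
      linarith

theorem sum_map_le {a : ℕ → ℕ} (ha : ∀ n, a n ≤ 1) (l : List ℕ) (j : ℕ) :
    (l.map fun k => a (j / k)).sum ≤ l.length := by
  have := List.sum_le_card_nsmul (l.map fun k => a (j / k)) 1 (by
    intro x hx
    obtain ⟨k, _, rfl⟩ := List.mem_map.1 hx
    exact ha _)
  simpa using this

theorem wt_ge {j : ℕ} (hj : 1 ≤ j) : (1 : ℝ) / (j * (j + 1)) ≤ wt (10 ^ 12) j / 10 ^ 12 := by
  have h1 : (10 ^ 12 : ℕ) < j * (j + 1) * wt (10 ^ 12) j :=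
    Nat.lt_mul_div_succ _ (by positivity)
  have h2 : (10 ^ 12 : ℝ) ≤ j * (j + 1) * wt (10 ^ 12) j := by exact_mod_cast h1.le
  have hj0 : (0 : ℝ) < j := by exact_mod_cast hj
  rw [div_le_div_iff₀ (by positivity) (by norm_num)]
  linarith

/-- size facts -/
theorem sizes {x : ℝ} (hx : (2 : ℝ) ^ 2399 ≤ x) :
    20001 ≤ x ∧ 0 < Real.log x ∧ √x * Real.log x ≤ x / 10 ^ 20 ∧ Real.log x ≤ x / 10 ^ 20 := by
  obtain ⟨hL, hs1, hs2, hss⟩ := big_facts hx
  clear hx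
  have hT1 : 20001 ≤ √x := le_trans (by norm_num) hs2
  clear hs2
  generalize √x = T at *
  generalize Real.log x = L at *
  subst hss
  have hL0 : 0 < L := by linarith
  have h1 : T * L ≤ T * T / 10 ^ 20 := by
    rw [le_div_iff₀ (by norm_num)]
    nlinarith
  refine ⟨by nlinarith, hL0, h1, le_trans ?_ h1⟩
  nlinarith

/-- the tail -/
theorem tail_le {x : ℝ} (hx : 20001 ≤ x) (hTL : √x * Real.log x ≤ x / 10 ^ 20) :
    psi (x / 20001) ≤ 1.3863 * (x / 20001) + 2 * (x / 10 ^ 20) := by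
  have hx0 : 0 < x := by linarith
  have hy1 : 1 ≤ x / 20001 := by
    rw [le_div_iff₀ (by norm_num), one_mul]
    exact hx
  have h1 := psi_le hy1
  have h2 : Real.log 4 ≤ 1.3863 := by
    have : Real.log 4 = 2 * Real.log 2 := by
      rw [show (4 : ℝ) = 2 ^ 2 by norm_num, Real.log_pow]; norm_num
    rw [this]
    have := Real.log_two_lt_d9
    linarith
  have h3 : √(x / 20001) * Real.log (x / 20001) ≤ √x * Real.log x := by
    have hle : x / 20001 ≤ x := div_le_self hx0.le (by norm_num)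
    have h4 : √(x / 20001) ≤ √x := Real.sqrt_le_sqrt hle
    have h5 : Real.log (x / 20001) ≤ Real.log x := Real.log_le_log (by positivity) hle
    have h6 : 0 ≤ Real.log (x / 20001) := Real.log_nonneg hy1
    gcongr
  have h8 : Real.log 4 * (x / 20001) ≤ 1.3863 * (x / 20001) := by gcongr
  have h9 : 2 * √(x / 20001) * Real.log (x / 20001) = 2 * (√(x / 20001) * Real.log (x / 20001)) := by ring
  rw [h9] at h1
  linarith

theorem nu_abs {g : ℕ → ℝ} (hg : ∀ n, |g n| ≤ 1) (P N : List ℕ) (k : ℕ) : |nu g P N k * g k| ≤ 1 := by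
  have h1 := hg k
  have h2 : |((if k ∈ P then 1 else 0) - (if k ∈ N then 1 else 0) : ℝ)| ≤ 1 := by
    split_ifs <;> norm_num
  unfold nu
  rw [abs_mul, abs_mul]
  have h3 := abs_nonneg (g k)
  have h4 := abs_nonneg ((if k ∈ P then 1 else 0) - (if k ∈ N then 1 else 0) : ℝ)
  calc |g k| * |((if k ∈ P then 1 else 0) - (if k ∈ N then 1 else 0) : ℝ)| * |g k|
      ≤ 1 * 1 * 1 := by gcongr
    _ = 1 := by norm_num

/-- the sum over `k` -/
theorem kpart {g : ℕ → ℝ} {a : ℕ → ℕ} {P N : List ℕ} {K : ℕ} (hg : ∀ n, |g n| ≤ 1)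
    (ha : ∀ n, a n ≤ 1) (hA : ∀ n, ∑ i ∈ Icc 1 n, g i = a n) (hK : K ≤ 111)
    {x : ℝ} (hx : 20001 ≤ x) :
    |∑ k ∈ Icc 1 K, nu g P N k * g k * ∑ i ∈ Ioc 0 ⌊x / k⌋₊, g i * Real.log i| ≤ 111 * Real.log x := by
  have hx0 : 0 < x := by linarith
  have hL0 : 0 ≤ Real.log x := Real.log_nonneg (by linarith)
  refine le_trans (Finset.abs_sum_le_sum_abs _ _) ?_
  have h1 : ∀ k ∈ Icc 1 K, |nu g P N k * g k * ∑ i ∈ Ioc 0 ⌊x / k⌋₊, g i * Real.log i| ≤ Real.log x := by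
    intro k hk
    rw [Finset.mem_Icc] at hk
    have hk0 : (1 : ℝ) ≤ k := by exact_mod_cast hk.1
    have hk1 : (k : ℝ) ≤ 111 := by exact_mod_cast hk.2.trans hK
    have hxk : 1 ≤ x / k := by
      rw [le_div_iff₀ (by linarith), one_mul]
      linarith
    have h2 := abs_sum_log_le ha hA hxk
    have h3 : Real.log (x / k) ≤ Real.log x :=
      Real.log_le_log (by positivity) (div_le_self hx0.le hk0)
    rw [abs_mul]
    have h4 := nu_abs hg P N k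
    calc |nu g P N k * g k| * |∑ i ∈ Ioc 0 ⌊x / k⌋₊, g i * Real.log i| ≤ 1 * Real.log x := by
          gcongr
          exact h2.trans h3
      _ = Real.log x := one_mul _
  refine le_trans (Finset.sum_le_card_nsmul _ _ _ h1) ?_
  rw [nsmul_eq_mul, Nat.card_Icc]
  have : ((K + 1 - 1 : ℕ) : ℝ) ≤ 111 := by
    rw [Nat.add_sub_cancel]; exact_mod_cast hK
  gcongr

/-- the sum over `j` -/
theorem jpart {g : ℕ → ℝ} {a : ℕ → ℕ} {P N : List ℕ} {K C : ℕ}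
    (hEE : ∀ j, EE g (nu g P N) K j
      = ((P.map fun k => a (j / k)).sum : ℝ) - ((N.map fun k => a (j / k)).sum : ℝ))
    (hC : ∑ j ∈ Icc 1 20000, dist1 (P.map fun k => a (j / k)).sum (N.map fun k => a (j / k)).sum
      * wt (10 ^ 12) j ≤ C) {x : ℝ} (hx0 : 0 < x)
    (hmass : ∀ j : ℕ, 1 ≤ j → j ≤ 30000 → psi (x / j) - psi (x / (j + 1)) ≤ 2.05 * x / (j * (j + 1))) :
    ∑ j ∈ Icc 1 20000, |1 - EE g (nu g P N) K j| * (psi (x / j) - psi (x / (j + 1)))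
      ≤ 2.05 * x * (C / 10 ^ 12) := by
  have h1 : ∀ j ∈ Icc 1 20000, |1 - EE g (nu g P N) K j| * (psi (x / j) - psi (x / (j + 1)))
      ≤ 2.05 * x / 10 ^ 12 * ((dist1 (P.map fun k => a (j / k)).sum (N.map fun k => a (j / k)).sum
    * wt (10 ^ 12) j : ℕ) : ℝ) := by
    intro j hj
    rw [Finset.mem_Icc] at hj
    have h2 := hmass j hj.1 (hj.2.trans (by norm_num))
    have h3 := wt_ge hj.1
    rw [hEE, dist1_eq, Nat.cast_mul]
    have h4 : (0 : ℝ) ≤ dist1 (P.map fun k => a (j / k)).sum (N.map fun k => a (j / k)).sum :=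
      Nat.cast_nonneg _
    have h5 : psi (x / j) - psi (x / (j + 1)) ≤ 2.05 * x * (wt (10 ^ 12) j / 10 ^ 12) := by
      refine h2.trans ?_
      rw [div_eq_mul_one_div (2.05 * x)]
      exact mul_le_mul_of_nonneg_left h3 (by positivity)
    refine (mul_le_mul_of_nonneg_left h5 h4).trans (le_of_eq ?_)
    ring
  refine le_trans (Finset.sum_le_sum h1) ?_
  rw [← Finset.mul_sum, ← Nat.cast_sum]
  have h2 := mul_le_mul_of_nonneg_left (Nat.cast_le (α := ℝ).2 hC)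
    (show (0 : ℝ) ≤ 2.05 * x / 10 ^ 12 by positivity)
  refine h2.trans (le_of_eq ?_)
  ring

/-- the final comparison -/
theorem final {x S S' K' J' D c t L : ℝ} (hx : 0 < x) (h1 : |S - S'| ≤ 2 * t) (h2 : |S - K'| ≤ J' + 24 * D)
    (h3 : |K'| ≤ 111 * L) (h4 : J' ≤ 2.05 * x * c) (h5 : c ≤ 0.021521)
    (h6 : D ≤ 1.3863 * (x / 20001) + 2 * (x / 10 ^ 20)) (h7 : t ≤ x / 10 ^ 20) (h8 : L ≤ x / 10 ^ 20) :
    |S'| ≤ 0.047 * x := by
  have h9 : 2.05 * x * c ≤ 2.05 * x * 0.021521 := by gcongr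
  have h10 : x / 10 ^ 20 ≤ x / 10 ^ 10 := by
    apply div_le_div_of_nonneg_left hx.le (by norm_num) (by norm_num)
  rw [abs_le] at *
  norm_num at *
  constructor <;> linarith [h1.1, h1.2, h2.1, h2.2, h3.1, h3.2]

/-- the general statement -/
theorem chi_gen {g : ℕ → ℝ} {a : ℕ → ℕ} {P N : List ℕ} {K C : ℕ}
    (hg1 : ∀ m n, g (m * n) = g m * g n) (hg : ∀ n, |g n| ≤ 1) (ha : ∀ n, a n ≤ 1)
    (hA : ∀ n, ∑ i ∈ Icc 1 n, g i = a n)
    (hPn : P.Nodup) (hNn : N.Nodup) (hP : ∀ k ∈ P, 1 ≤ k ∧ k ≤ K ∧ g k * g k = 1)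
    (hN : ∀ k ∈ N, 1 ≤ k ∧ k ≤ K ∧ g k * g k = 1) (hK : K ≤ 111)
    (hPl : P.length ≤ 24) (hNl : N.length ≤ 23)
    (hC : ∑ j ∈ Icc 1 20000, dist1 (P.map fun k => a (j / k)).sum (N.map fun k => a (j / k)).sum
      * wt (10 ^ 12) j ≤ C) (hC2 : C ≤ 21521000000)
    {x : ℝ} (hx : (2 : ℝ) ^ 2399 ≤ x) : |thetaC g x| ≤ 0.047 * x := by
  obtain ⟨hx1, hL0, hTL, hLx⟩ := sizes hx
  have hmass : ∀ j : ℕ, 1 ≤ j → j ≤ 30000 → psi (x / j) - psi (x / (j + 1)) ≤ 2.05 * x / (j * (j + 1)) :=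
    fun j hj hj' => psi_mass hx hj hj'
  clear hx
  have hx0 : 0 < x := by clear hC; linarith
  have hx01 : 1 ≤ x := by clear hC; linarith
  have hEE := EE_eq (K := K) hA hPn hNn hP hN
  have hj := jpart hEE hC hx0 hmass
  clear hC hmass
  -- tail bound
  have hB : ∀ j, 20000 < j → |1 - EE g (nu g P N) K j| ≤ 24 := by
    intro j _
    have h1 : ((P.map fun k => a (j / k)).sum : ℝ) ≤ 24 := by
      exact_mod_cast (sum_map_le ha P j).trans hPl
    have h2 : ((N.map fun k => a (j / k)).sum : ℝ) ≤ 23 := by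
      exact_mod_cast (sum_map_le ha N j).trans hNl
    have h3 : (0 : ℝ) ≤ ((P.map fun k => a (j / k)).sum : ℕ) := Nat.cast_nonneg _
    have h4 : (0 : ℝ) ≤ ((N.map fun k => a (j / k)).sum : ℕ) := Nat.cast_nonneg _
    rw [hEE, abs_le]
    constructor <;> linarith
  have hmoeb := moeb hg1 hg (nu g P N) K 20000 24 hB hx01
  have hk := kpart (P := P) (N := N) hg ha hA hK hx1
  have htail := tail_le hx1 hTL
  have h7 : ((20000 : ℕ) : ℝ) + 1 = 20001 := by norm_num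
  rw [h7] at hmoeb
  have hth := thetaC_sub hg hx01
  rw [mul_assoc] at hth
  have hC3 : (C : ℝ) / 10 ^ 12 ≤ 0.021521 := by
    rw [div_le_iff₀ (by norm_num)]
    have : (C : ℝ) ≤ 21521000000 := by exact_mod_cast hC2
    refine this.trans (by norm_num)
  exact final hx0 hth hmoeb hk hj hC3 htail hTL hLx

theorem chi3_mul (m n : ℕ) : chi3 (m * n) = chi3 m * chi3 n := by
  unfold chi3
  have hm : m % 3 < 3 := Nat.mod_lt _ (by norm_num)
  have hn : n % 3 < 3 := Nat.mod_lt _ (by norm_num)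
  rw [Nat.mul_mod]
  interval_cases m % 3 <;> interval_cases n % 3 <;> norm_num

theorem chi4_mul (m n : ℕ) : chi4 (m * n) = chi4 m * chi4 n := by
  unfold chi4
  have hm : m % 4 < 4 := Nat.mod_lt _ (by norm_num)
  have hn : n % 4 < 4 := Nat.mod_lt _ (by norm_num)
  rw [Nat.mul_mod]
  interval_cases m % 4 <;> interval_cases n % 4 <;> norm_num

theorem chi3_abs (n : ℕ) : |chi3 n| ≤ 1 := by
  unfold chi3
  split_ifs <;> norm_num

theorem chi4_abs (n : ℕ) : |chi4 n| ≤ 1 := by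
  unfold chi4
  split_ifs <;> norm_num

theorem chi3_sum (n : ℕ) : ∑ i ∈ Icc 1 n, chi3 i = a3 n := by
  induction n with
  | zero => simp [a3]
  | succ n ih =>
    rw [Finset.sum_Icc_succ_top (by omega), ih]
    unfold chi3 a3
    have h : n % 3 = 0 ∨ n % 3 = 1 ∨ n % 3 = 2 := by omega
    rcases h with h | h | h
    · rw [h, show (n + 1) % 3 = 1 by omega]; norm_num
    · rw [h, show (n + 1) % 3 = 2 by omega]; norm_num
    · rw [h, show (n + 1) % 3 = 0 by omega]; norm_num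

theorem chi4_sum (n : ℕ) : ∑ i ∈ Icc 1 n, chi4 i = a4 n := by
  induction n with
  | zero => simp [a4]
  | succ n ih =>
    rw [Finset.sum_Icc_succ_top (by omega), ih]
    unfold chi4 a4
    have h : n % 4 = 0 ∨ n % 4 = 1 ∨ n % 4 = 2 ∨ n % 4 = 3 := by omega
    rcases h with h | h | h | h
    · rw [show (n + 1) % 4 = 1 by omega, show (n + 1 + 1) % 4 = 2 by omega]; norm_num
    · rw [show (n + 1) % 4 = 2 by omega, show (n + 1 + 1) % 4 = 3 by omega]; norm_num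
    · rw [show (n + 1) % 4 = 3 by omega, show (n + 1 + 1) % 4 = 0 by omega]; norm_num
    · rw [show (n + 1) % 4 = 0 by omega, show (n + 1 + 1) % 4 = 1 by omega]; norm_num

end ChiK

open ChiK

theorem theta_chi3 {x : ℝ} (hx : (2 : ℝ) ^ 2399 ≤ x) : |thetaC chi3 x| ≤ 0.047 * x := by
  refine chi_gen (a := a3) (P := P3) (N := N3) (K := 91) (C := 21520086717) chi3_mul chi3_abs a3_le
    chi3_sum (by decide) (by decide) ?_ ?_ (by norm_num) (by decide) (by decide) ?_ (by norm_num) hx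
  · have h : ∀ k ∈ P3, 1 ≤ k ∧ k ≤ 91 ∧ (k % 3 = 1 ∨ k % 3 = 2) := by decide
    intro k hk
    obtain ⟨h1, h2, h3⟩ := h k hk
    refine ⟨h1, h2, ?_⟩
    unfold chi3
    rcases h3 with h3 | h3 <;> rw [h3] <;> norm_num
  · have h : ∀ k ∈ N3, 1 ≤ k ∧ k ≤ 91 ∧ (k % 3 = 1 ∨ k % 3 = 2) := by decide
    intro k hk
    obtain ⟨h1, h2, h3⟩ := h k hk
    refine ⟨h1, h2, ?_⟩
    unfold chi3
    rcases h3 with h3 | h3 <;> rw [h3] <;> norm_num
  · have h := Nat.le_of_ble_eq_true cs3_le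
    have hP : ∀ k ∈ P3, 0 < k := by decide
    have hN : ∀ k ∈ N3, 0 < k := by decide
    rwa [cs_spec a3_le P3 N3 (10 ^ 12) 200 (fun k hk => G3_rep (hP k hk))
      (fun k hk => G3_rep (hN k hk)) (by decide) (by decide)] at h

theorem theta_chi4 {x : ℝ} (hx : (2 : ℝ) ^ 2399 ≤ x) : |thetaC chi4 x| ≤ 0.047 * x := by
  refine chi_gen (a := a4) (P := P4) (N := N4) (K := 111) (C := 20432789559) chi4_mul chi4_abs a4_le
    chi4_sum (by decide) (by decide) ?_ ?_ (by norm_num) (by decide) (by decide) ?_ (by norm_num) hx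
  · have h : ∀ k ∈ P4, 1 ≤ k ∧ k ≤ 111 ∧ (k % 4 = 1 ∨ k % 4 = 3) := by decide
    intro k hk
    obtain ⟨h1, h2, h3⟩ := h k hk
    refine ⟨h1, h2, ?_⟩
    unfold chi4
    rcases h3 with h3 | h3 <;> rw [h3] <;> norm_num
  · have h : ∀ k ∈ N4, 1 ≤ k ∧ k ≤ 111 ∧ (k % 4 = 1 ∨ k % 4 = 3) := by decide
    intro k hk
    obtain ⟨h1, h2, h3⟩ := h k hk
    refine ⟨h1, h2, ?_⟩
    unfold chi4
    rcases h3 with h3 | h3 <;> rw [h3] <;> norm_num
  · have h := Nat.le_of_ble_eq_true cs4_le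
    have hP : ∀ k ∈ P4, 0 < k := by decide
    have hN : ∀ k ∈ N4, 0 < k := by decide
    rwa [cs_spec a4_le P4 N4 (10 ^ 12) 200 (fun k hk => G4_rep (hP k hk))
      (fun k hk => G4_rep (hN k hk)) (by decide) (by decide)] at h

end Pool.Agent.Work.MP_713a1e_co.E
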