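import Pool.Agent.Work.MP_713a1e_co.E.Theta
import Pool.Agent.Work.MP_713a1e_co.E.Chi

/-!
# JOB A1: primes outside a given residue class in short intervals

`I = (1.000001 x, r x]`, `r = 1.175` for `ℓ = 2` (modulus 4) and `ℓ = 3`, `r = 1.14` for `ℓ ≥ 5`.
`ℓ = 2, 3`: the other class(es) have `θ`-mass at least `(θ(I) - |θ(I, χ)|)/2 - small`,
`θ(I) ≥ (0.174999 - 2.175001 * 0.0295) x`, `|θ(I,χ)| ≤ 2.175001 * 0.047 x`: difference `≥ 0.0085 x`.
`ℓ ≥ 5`: `θ(I) ≥ (0.139999 - 2.140001 * 0.0295) x ≥ 0.0768 x`; the class `c` has mass at most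
`0.5071 * 0.14 x` by `bt` with `u = ℓ`, `R = ⌊√(Y/ℓ)/log x⌋` if `ℓ ≤ x^(1/4)`, and trivially
(at most `Y/ℓ + 1` integers) if `ℓ > x^(1/4)`.
-/

namespace Pool.Agent.Work.MP_713a1e_co.E

open Chebyshev Finset

/-- modulus attached to the prime `ℓ` -/
def md (ℓ : ℕ) : ℕ := if ℓ = 2 then 4 else ℓ

/-- upper end of the interval (in thousandths) -/
def rr (ℓ : ℕ) : ℕ := if ℓ ≤ 3 then 1175 else 1140

theorem thetaC_sub_eq (χ : ℕ → ℝ) {a b : ℝ} (hab : a ≤ b) :
    thetaC χ b - thetaC χ a = ∑ p ∈ (Finset.Ioc ⌊a⌋₊ ⌊b⌋₊).filter Nat.Prime, χ p * Real.log p := by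
  unfold thetaC
  have hfl : ⌊a⌋₊ ≤ ⌊b⌋₊ := Nat.floor_le_floor hab
  have h : (Finset.Ioc 0 ⌊b⌋₊).filter Nat.Prime
      = (Finset.Ioc 0 ⌊a⌋₊).filter Nat.Prime ∪ (Finset.Ioc ⌊a⌋₊ ⌊b⌋₊).filter Nat.Prime := by
    ext p
    simp only [Finset.mem_filter, Finset.mem_union, Finset.mem_Ioc]
    constructor
    · rintro ⟨⟨h1, h2⟩, h3⟩
      by_cases h : p ≤ ⌊a⌋₊
      · exact Or.inl ⟨⟨h1, h⟩, h3⟩
      · exact Or.inr ⟨⟨by omega, h2⟩, h3⟩
    · rintro (⟨⟨h1, h2⟩, h3⟩ | ⟨⟨h1, h2⟩, h3⟩)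
      · exact ⟨⟨h1, h2.trans hfl⟩, h3⟩
      · exact ⟨⟨by omega, h2⟩, h3⟩
  rw [h, Finset.sum_union]
  · ring
  · rw [Finset.disjoint_left]
    intro p hp hp'
    simp only [Finset.mem_filter, Finset.mem_Ioc] at hp hp'
    omega

/-- `x ≥ 2^2399`, hidden from the arithmetic procedures -/
def Big (x : ℝ) : Prop := (2 : ℝ) ^ 2399 ≤ x

theorem Big.mono {x y : ℝ} (hx : Big x) (h : x ≤ y) : Big y := le_trans (b := x) hx h

theorem Big.facts {x : ℝ} (hx : Big x) : 0 < x ∧ 1662.8 ≤ Real.log x ∧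
    10 ^ 20 * Real.log x ≤ √x ∧ (10 : ℝ) ^ 40 ≤ √x ∧ √x * √x = x ∧ √x ≤ x / 10 ^ 40 := by
  obtain ⟨hL, hs1, hs2, hss⟩ := big_facts hx
  have hx0 : 0 < x := lt_of_lt_of_le (by positivity) hx
  have h1 : (10 : ℝ) ^ 40 ≤ √x :=
    (pow_le_pow_right₀ (by norm_num) (by norm_num)).trans hs2
  refine ⟨hx0, hL, hs1, h1, hss, ?_⟩
  rw [le_div_iff₀ (by positivity)]
  nth_rw 2 [← hss]
  gcongr

/-- from the `θ`-mass to the number of primes -/
theorem card_of_mass {x : ℝ} (hx : Big x) (S : Finset ℕ) (h1 : ∀ p ∈ S, 0 < p)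
    (h2 : ∀ p ∈ S, (p : ℝ) ≤ 2 * x) (h : 0.004 * x ≤ ∑ p ∈ S, Real.log p) :
    √x ≤ (S.card : ℝ) := by
  obtain ⟨hx0, hL, hs1, hs2, hss, hsx⟩ := hx.facts
  have h3 : ∑ p ∈ S, Real.log p ≤ S.card * (Real.log x + 1) := by
    rw [← nsmul_eq_mul]
    apply Finset.sum_le_card_nsmul
    intro p hp
    have h4 : Real.log p ≤ Real.log (2 * x) :=
      Real.log_le_log (by exact_mod_cast h1 p hp) (h2 p hp)
    rw [Real.log_mul (by norm_num) hx0.ne'] at h4
    have := Real.log_two_lt_d9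
    linarith
  by_contra hcon
  push Not at hcon
  have hT0 : 0 < √x := Real.sqrt_pos.2 hx0
  have h5 : (S.card : ℝ) * (Real.log x + 1) ≤ √x * (Real.log x + 1) := by
    gcongr
  have h6 : √x * (Real.log x + 1) ≤ √x * (√x / 10 ^ 19) := by
    gcongr
    rw [le_div_iff₀ (by positivity)]
    norm_num at hs1 ⊢
    linarith
  have h7 : √x * (√x / 10 ^ 19) = x / 10 ^ 19 := by
    rw [← mul_div_assoc, hss]
  have h8 : x / 10 ^ 19 < 0.004 * x := by
    rw [div_lt_iff₀ (by positivity)]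
    norm_num
    linarith
  linarith

theorem theta_I {x : ℝ} (hx : Big x) {r : ℝ} (hr : 1.1 ≤ r) :
    (0.9705 * r - 1.02950103) * x ≤ theta (r * x) - theta (1.000001 * x) := by
  obtain ⟨hx0, -⟩ := hx.facts
  have h1 := theta_near (x := r * x) (hx.mono (by nlinarith))
  have h2 := theta_near (x := 1.000001 * x) (hx.mono (by nlinarith))
  rw [abs_le] at h1 h2
  have h3 := h1.1
  have h4 := h2.2
  norm_num at h3 h4 ⊢
  nlinarith

/-- the two-class cases -/
theorem mass_char {x : ℝ} (hx : Big x) (χ : ℕ → ℝ)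
    (hχ : ∀ y : ℝ, (2 : ℝ) ^ 2399 ≤ y → |thetaC χ y| ≤ 0.047 * y) (s : ℝ) (hs : |s| ≤ 1)
    (good : ℕ → Prop) [DecidablePred good]
    (h : ∀ p : ℕ, p.Prime → 3 < p → (1 + s * χ p) / 2 ≤ if good p then 1 else 0) :
    0.004 * x ≤ ∑ p ∈ ((Finset.Ioc ⌊1.000001 * x⌋₊ ⌊1.175 * x⌋₊).filter Nat.Prime).filter good,
      Real.log p := by
  obtain ⟨hx0, hL, hs1, hs2, hss, hsx⟩ := hx.facts
  have hab : 1.000001 * x ≤ 1.175 * x := by norm_num; linarith
  set P := (Finset.Ioc ⌊1.000001 * x⌋₊ ⌊1.175 * x⌋₊).filter Nat.Prime with hP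
  have h1 := theta_I hx (r := 1.175) (by norm_num)
  rw [theta_sub_eq hab, ← hP] at h1
  have h2 := thetaC_sub_eq χ hab
  rw [← hP] at h2
  have h3 := hχ (1.000001 * x) (hx.mono (by norm_num; linarith))
  have h4 := hχ (1.175 * x) (hx.mono (by norm_num; linarith))
  have h5 : |∑ p ∈ P, χ p * Real.log p| ≤ 0.10222505 * x := by
    rw [← h2]
    refine (abs_sub _ _).trans ?_
    have h6 : 0.047 * (1.000001 * x) + 0.047 * (1.175 * x) ≤ 0.10222505 * x := by
      norm_num; linarith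
    linarith
  have h6 : (∑ p ∈ P, Real.log p + s * ∑ p ∈ P, χ p * Real.log p) / 2
      ≤ ∑ p ∈ P.filter good, Real.log p := by
    rw [Finset.mul_sum, ← Finset.sum_add_distrib, Finset.sum_div, Finset.sum_filter (s := P)]
    apply Finset.sum_le_sum
    intro p hp
    rw [hP, Finset.mem_filter, Finset.mem_Ioc] at hp
    have h7 : 3 < p := by
      have h8 : 3 ≤ ⌊1.000001 * x⌋₊ := by
        apply Nat.le_floor
        have : (10 : ℝ) ^ 40 ≤ x := hs2.trans (hsx.trans (div_le_self hx0.le (by norm_num)))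
        push_cast
        norm_num at this ⊢
        linarith
      omega
    have h9 := h p hp.2 h7
    have h10 : 0 ≤ Real.log p := Real.log_natCast_nonneg p
    have h11 : (Real.log p + s * (χ p * Real.log p)) / 2 = (1 + s * χ p) / 2 * Real.log p := by
      ring
    rw [h11]
    split_ifs at h9 ⊢ with hg
    · nlinarith
    · nlinarith
  have h7 : -(0.10222505 * x) ≤ s * ∑ p ∈ P, χ p * Real.log p := by
    have h8 : |s * ∑ p ∈ P, χ p * Real.log p| ≤ 0.10222505 * x := by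
      rw [abs_mul]
      calc _ ≤ 1 * |∑ p ∈ P, χ p * Real.log p| := by gcongr
        _ ≤ _ := by rw [one_mul]; exact h5
    exact (abs_le.1 h8).1
  norm_num at h1 h7 ⊢
  linarith

theorem Big.facts2 {x : ℝ} (hx : Big x) : 10 ^ 20 * Real.log x ≤ √(√x) := by
  have hx0 : 0 < x := hx.facts.1
  set v : ℝ := √(√(√x)) with hv
  have hv2 : v * v = √(√x) := Real.mul_self_sqrt (Real.sqrt_nonneg _)
  have hw : √(√x) * √(√x) = √x := Real.mul_self_sqrt (Real.sqrt_nonneg x)
  have hxx : √x * √x = x := Real.mul_self_sqrt hx0.le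
  have hv0 : 0 ≤ v := Real.sqrt_nonneg _
  have hv8 : v ^ 8 = x := by
    rw [← hxx, ← hw, ← hv2]; ring
  have hv3 : (2 : ℝ) ^ 299 ≤ v := by
    by_contra h
    push Not at h
    have h2 : v ^ 8 < ((2 : ℝ) ^ 299) ^ 8 := pow_lt_pow_left₀ h hv0 (by norm_num)
    rw [hv8, ← pow_mul] at h2
    have h4 : (2 : ℝ) ^ (299 * 8) ≤ 2 ^ 2399 := pow_le_pow_right₀ (by norm_num) (by norm_num)
    exact absurd (lt_of_lt_of_le h2 h4) (not_lt.2 hx)
  have hvpos : 0 < v := lt_of_lt_of_le (by positivity) hv3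
  have h5 : Real.log x = 8 * Real.log v := by
    rw [← hv8, Real.log_pow]; norm_num
  have h6 : Real.log v ≤ v := (Real.log_le_sub_one_of_pos hvpos).trans (by linarith)
  have h7 : (8 : ℝ) * 10 ^ 20 ≤ v := by
    refine le_trans ?_ hv3
    have h : (8 : ℝ) * 10 ^ 20 ≤ 2 ^ 100 := by norm_num
    exact h.trans (pow_le_pow_right₀ (by norm_num) (by norm_num))
  rw [h5, ← hv2]
  calc (10 : ℝ) ^ 20 * (8 * Real.log v) = (8 * 10 ^ 20) * Real.log v := by ring
    _ ≤ (8 * 10 ^ 20) * v := by gcongr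
    _ ≤ v * v := by gcongr

/-- the mass of one class modulo a prime `ℓ ≥ 5` -/
theorem class_mass {x : ℝ} (hx : Big x) {ℓ : ℕ} (hℓ : ℓ.Prime) (h5 : 5 ≤ ℓ) (c : ℕ) :
    ∑ p ∈ ((Finset.Ioc ⌊1.000001 * x⌋₊ ⌊1.14 * x⌋₊).filter Nat.Prime).filter
      (fun p => p ≡ c [MOD ℓ]), Real.log p ≤ 0.0712 * x := by
  obtain ⟨hx0, hL, hs1, hs2, hss, hsx⟩ := hx.facts
  have hf2 := hx.facts2
  set L := Real.log x with hLdef
  have hL0 : 0 < L := by linarith
  set w := √(√x) with hw
  have hww : w * w = √x := Real.mul_self_sqrt (Real.sqrt_nonneg x)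
  have hw0 : 0 < w := by
    have : 0 < 10 ^ 20 * L := by positivity
    linarith
  have hL4 : L ^ 4 ≤ x / 10 ^ 80 := by
    have h1 : L ≤ w / 10 ^ 20 := by
      rw [le_div_iff₀ (by positivity)]; linarith
    calc L ^ 4 ≤ (w / 10 ^ 20) ^ 4 := by gcongr
      _ = (w * w) * (w * w) / 10 ^ 80 := by ring
      _ = x / 10 ^ 80 := by rw [hww, hss]
  have hab : 1.000001 * x ≤ 1.14 * x := by norm_num; linarith
  set X := ⌊1.000001 * x⌋₊ with hX
  set X' := ⌊1.14 * x⌋₊ with hX'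
  have hXX' : X ≤ X' := Nat.floor_le_floor hab
  have hXeq : X + (X' - X) = X' := by omega
  have hY : ((X' - X : ℕ) : ℝ) ≤ 0.139999 * x + 1 := by
    rw [Nat.cast_sub hXX']
    have h1 : (X' : ℝ) ≤ 1.14 * x := Nat.floor_le (by positivity)
    have h2 : 1.000001 * x < X + 1 := Nat.lt_floor_add_one _
    norm_num at h1 h2 ⊢
    linarith
  have hℓ5 : (5 : ℝ) ≤ ℓ := by exact_mod_cast h5
  have hℓ0 : (0 : ℝ) < ℓ := by linarith
  -- mass from the count
  set n := (((Finset.Ioc X X').filter (fun q => q.Prime ∧ q ≡ c [MOD ℓ])).card : ℝ) with hn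
  have hmass : ∑ p ∈ ((Finset.Ioc X X').filter Nat.Prime).filter (fun p => p ≡ c [MOD ℓ]),
      Real.log p ≤ n * (L + 1) := by
    rw [Finset.filter_filter, hn, ← nsmul_eq_mul]
    apply Finset.sum_le_card_nsmul
    intro p hp
    rw [Finset.mem_filter, Finset.mem_Ioc] at hp
    have h1 : (p : ℝ) ≤ 2 * x := by
      have h2 : (p : ℝ) ≤ 1.14 * x := (Nat.le_floor_iff (by positivity)).1 hp.1.2
      norm_num at h2
      linarith
    have h2 : Real.log p ≤ Real.log (2 * x) := by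
      apply Real.log_le_log _ h1
      exact_mod_cast hp.2.1.pos
    rw [Real.log_mul (by norm_num) hx0.ne'] at h2
    have := Real.log_two_lt_d9
    linarith
  refine hmass.trans ?_
  by_cases hbig : (ℓ : ℝ) ≤ L ^ 2
  · -- the sieve
    set M : ℝ := 0.139999 * x / ℓ with hM
    have hM0 : 0 < M := by positivity
    have hML2 : 0.139999 * x / L ^ 2 ≤ M := by
      rw [hM]
      exact div_le_div_of_nonneg_left (by positivity) hℓ0 hbig
    set R := ⌊√M / L⌋₊ with hR
    have hLM : L ≤ √M := by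
      apply Real.le_sqrt_of_sq_le
      refine le_trans ?_ hML2
      rw [le_div_iff₀ (by positivity)]
      have h1 : x / 10 ^ 80 ≤ 0.139999 * x := by
        rw [div_le_iff₀ (by positivity)]
        norm_num
        linarith
      calc L ^ 2 * L ^ 2 = L ^ 4 := by ring
        _ ≤ _ := hL4.trans h1
    have hR1 : 1 ≤ R := Nat.le_floor (by
      rw [Nat.cast_one, le_div_iff₀ hL0, one_mul]
      exact hLM)
    have hRle : (R : ℝ) ≤ √M / L := Nat.floor_le (by positivity)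
    have hMx : M ≤ x := by
      rw [hM, div_le_iff₀ hℓ0]
      norm_num
      nlinarith
    have hRX : R ≤ X := by
      apply Nat.floor_le_floor
      have h1 : √M / L ≤ √M := div_le_self (Real.sqrt_nonneg _) (by linarith)
      have h2 : √M ≤ √x := Real.sqrt_le_sqrt hMx
      have h3 : x / 10 ^ 40 ≤ 1.000001 * x := by
        rw [div_le_iff₀ (by positivity)]
        norm_num
        linarith
      linarith
    have hbt := bt (X := X) (Y := X' - X) (u := ℓ) (v := c) hℓ.pos hR1 hRX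
    rw [hXeq, ← hn, Nat.totient_prime hℓ] at hbt
    have hlogR0 : 0 < Real.log (R + 1) := by
      apply Real.log_pos
      have : (1 : ℝ) ≤ R := by exact_mod_cast hR1
      linarith
    have hlogR : L - 2.0795 - Real.log ℓ ≤ 2 * Real.log (R + 1) + 2 * (L / 1664 + 6.4515) := by
      have h1 : √M / L ≤ R + 1 := (Nat.lt_floor_add_one _).le
      have h2 : Real.log (√M / L) ≤ Real.log (R + 1) := Real.log_le_log (by positivity) h1
      rw [Real.log_div (by positivity) hL0.ne', Real.log_sqrt hM0.le, hM,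
        Real.log_div (by positivity) hℓ0.ne', Real.log_mul (by norm_num) hx0.ne'] at h2
      have h3 : -2.0795 ≤ Real.log 0.139999 := by
        have h4 : Real.log ((2 : ℝ) ^ 3)⁻¹ ≤ Real.log 0.139999 :=
          Real.log_le_log (by norm_num) (by norm_num)
        rw [Real.log_inv, Real.log_pow] at h4
        have := Real.log_two_lt_d9
        push_cast at h4
        linarith
      have h6 := loglog_le hL0
      linarith
    have hφ : ((ℓ - 1 : ℕ) : ℝ) = ℓ - 1 := by
      rw [Nat.cast_sub (by omega)]; norm_num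
    have hκ : L ≤ 0.505875 * (((ℓ - 1 : ℕ) : ℝ) * Real.log (R + 1)) := by
      rw [hφ]
      rcases Nat.lt_or_ge ℓ 7 with h7 | h7
      · have hℓ' : ℓ = 5 := by
          interval_cases ℓ
          · rfl
          · exact absurd hℓ (by norm_num)
        have h8 : Real.log ℓ ≤ 1.6174 := by
          rw [hℓ']
          have h3 : Real.log (((5 : ℕ) : ℝ) ^ 3) ≤ Real.log ((2 : ℝ) ^ 7) :=
            Real.log_le_log (by norm_num) (by norm_num)
          rw [Real.log_pow, Real.log_pow] at h3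
          have := Real.log_two_lt_d9
          push_cast at h3 ⊢
          linarith
        rw [hℓ']
        push_cast
        norm_num at hL h8 hlogR ⊢
        linarith
      · have h8 : Real.log ℓ ≤ 2 * (L / 1664 + 6.4515) := by
          have h9 : Real.log ℓ ≤ Real.log (L ^ 2) := Real.log_le_log hℓ0 hbig
          rw [Real.log_pow] at h9
          have := loglog_le hL0
          push_cast at h9
          linarith
        have h9 : L / 2.71 ≤ Real.log (R + 1) := by
          norm_num at hL h8 hlogR ⊢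
          linarith
        have h10 : (6 : ℝ) ≤ (ℓ : ℝ) - 1 := by
          have : (7 : ℝ) ≤ ℓ := by exact_mod_cast h7
          linarith
        have h11 : 6 * (L / 2.71) ≤ ((ℓ : ℝ) - 1) * Real.log (R + 1) := by
          gcongr
        norm_num at h11 ⊢
        linarith
    have hφ0 : 0 < ((ℓ - 1 : ℕ) : ℝ) := by rw [hφ]; linarith
    have hn1 : n * L ≤ 0.505875 * (0.139999 * x + 1) + M / L := by
      have h1 : ((X' - X : ℕ) : ℝ) / (((ℓ - 1 : ℕ) : ℝ) * Real.log (R + 1)) * L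
          ≤ 0.505875 * (0.139999 * x + 1) := by
        rw [div_mul_eq_mul_div, div_le_iff₀ (by positivity)]
        calc ((X' - X : ℕ) : ℝ) * L
            ≤ (0.139999 * x + 1) * (0.505875 * (((ℓ - 1 : ℕ) : ℝ) * Real.log (R + 1))) := by
              gcongr
          _ = _ := by ring
      have h2 : (R : ℝ) ^ 2 * L ≤ M / L := by
        calc (R : ℝ) ^ 2 * L ≤ (√M / L) ^ 2 * L := by gcongr
          _ = M / L := by
            rw [div_pow, Real.sq_sqrt hM0.le]; field_simp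
      calc n * L ≤ (((X' - X : ℕ) : ℝ) / (((ℓ - 1 : ℕ) : ℝ) * Real.log (R + 1)) + R ^ 2) * L := by
            gcongr
        _ = ((X' - X : ℕ) : ℝ) / (((ℓ - 1 : ℕ) : ℝ) * Real.log (R + 1)) * L + R ^ 2 * L := by ring
        _ ≤ _ := by linarith
    have hM5 : M / L ≤ 0.00002 * x := by
      rw [div_le_iff₀ hL0, hM, div_le_iff₀ hℓ0]
      have h1 : (1662.8 : ℝ) * 5 ≤ L * ℓ := by gcongr
      have h2 : 0.00002 * x * (1662.8 * 5) ≤ 0.00002 * x * (L * ℓ) := by gcongr
      norm_num at h2 ⊢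
      linarith
    have hx40 : (10 : ℝ) ^ 40 ≤ x := hs2.trans (hsx.trans (div_le_self hx0.le (by norm_num)))
    have h2 : n * L ≤ 0.07085 * x := by
      norm_num at hn1 hM5 hx40 ⊢
      linarith
    have h3 : n * (L + 1) ≤ n * (L * 1.001) := by
      gcongr
      norm_num at hL ⊢
      linarith
    norm_num at h2 h3 ⊢
    linarith
  · -- the trivial bound
    push Not at hbig
    have h1 := abs_card_modEq_sub' X (X' - X) ℓ c hℓ.pos
    rw [hXeq] at h1
    have h2 : n ≤ (((Finset.Ioc X X').filter (fun n => n ≡ c [MOD ℓ])).card : ℝ) := by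
      rw [hn]
      exact_mod_cast Finset.card_le_card (by
        intro q hq
        rw [Finset.mem_filter] at hq ⊢
        exact ⟨hq.1, hq.2.2⟩)
    have h3 := (abs_le.1 h1).2
    have h4 : ((X' - X : ℕ) : ℝ) / ℓ ≤ (0.139999 * x + 1) / L ^ 2 := by
      gcongr
    have h5 : n ≤ (0.139999 * x + 1) / L ^ 2 + 1 := by linarith
    have h6 : ((0.139999 * x + 1) / L ^ 2 + 1) * (L + 1) ≤ 0.0712 * x := by
      have hx40 : (10 : ℝ) ^ 40 ≤ x := hs2.trans (hsx.trans (div_le_self hx0.le (by norm_num)))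
      have h7 : (0.139999 * x + 1) / L ^ 2 * (L + 1) ≤ (0.14 * x) * (2 / 1662.8) := by
        rw [div_mul_eq_mul_div, div_le_iff₀ (by positivity)]
        have h8 : L + 1 ≤ 2 / 1662.8 * L ^ 2 := by
          norm_num at hL ⊢
          nlinarith
        calc (0.139999 * x + 1) * (L + 1) ≤ (0.14 * x) * (2 / 1662.8 * L ^ 2) := by
              gcongr
              norm_num at hx40 ⊢
              linarith
          _ = _ := by ring
      have h9 : L + 1 ≤ x / 10 ^ 10 := by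
        have h10 : L ≤ √x / 10 ^ 20 := by
          rw [le_div_iff₀ (by positivity)]; linarith
        have h11 : √x ≤ x := hsx.trans (div_le_self hx0.le (by norm_num))
        have h12 : √x / 10 ^ 20 ≤ x / 10 ^ 20 := by gcongr
        have h13 : x / 10 ^ 20 + 1 ≤ x / 10 ^ 10 := by
          norm_num at hx40 ⊢
          linarith
        linarith
      norm_num at h7 h9 ⊢
      linarith
    calc n * (L + 1) ≤ ((0.139999 * x + 1) / L ^ 2 + 1) * (L + 1) := by gcongr
      _ ≤ _ := h6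

theorem mass_class {x : ℝ} (hx : Big x) {ℓ : ℕ} (hℓ : ℓ.Prime) (h5 : 5 ≤ ℓ) (c : ℕ) :
    0.004 * x ≤ ∑ p ∈ ((Finset.Ioc ⌊1.000001 * x⌋₊ ⌊1.14 * x⌋₊).filter Nat.Prime).filter
      (fun p => ¬ p ≡ c [MOD ℓ]), Real.log p := by
  obtain ⟨hx0, -⟩ := hx.facts
  have hab : 1.000001 * x ≤ 1.14 * x := by norm_num; linarith
  have h1 := theta_I hx (r := 1.14) (by norm_num)
  rw [theta_sub_eq hab] at h1
  have h2 := class_mass hx hℓ h5 c
  have h3 := Finset.sum_filter_add_sum_filter_not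
    ((Finset.Ioc ⌊1.000001 * x⌋₊ ⌊1.14 * x⌋₊).filter Nat.Prime) (fun p => p ≡ c [MOD ℓ])
    (fun p => Real.log p)
  rw [← h3] at h1
  norm_num at h1 h2 ⊢
  linarith

theorem card_target {x ℓ c : ℕ} (hx : Big (x : ℝ)) {b : ℝ} (hb : b = (rr ℓ : ℝ) / 1000)
    (hb2 : b ≤ 1.9)
    (h : 0.004 * (x : ℝ) ≤ ∑ p ∈ ((Finset.Ioc ⌊1.000001 * (x : ℝ)⌋₊ ⌊b * (x : ℝ)⌋₊).filter
      Nat.Prime).filter (fun p => ¬ p ≡ c [MOD md ℓ]), Real.log p) :
    Real.sqrt x ≤ (((Finset.range (2 * x)).filter (fun q => q.Prime ∧ ¬ q ≡ c [MOD md ℓ] ∧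
      1000001 * x < 1000000 * q ∧ 1000 * q ≤ rr ℓ * x)).card : ℝ) := by
  obtain ⟨hx0, -⟩ := hx.facts
  have hb0 : 0 ≤ b := by rw [hb]; positivity
  have hmem : ∀ p ∈ ((Finset.Ioc ⌊1.000001 * (x : ℝ)⌋₊ ⌊b * (x : ℝ)⌋₊).filter
      Nat.Prime).filter (fun p => ¬ p ≡ c [MOD md ℓ]), p.Prime ∧ ¬ p ≡ c [MOD md ℓ] ∧
      1.000001 * (x : ℝ) < p ∧ (p : ℝ) ≤ b * x := by
    intro p hp
    rw [Finset.mem_filter, Finset.mem_filter, Finset.mem_Ioc] at hp
    obtain ⟨⟨⟨h1, h2⟩, h3⟩, h4⟩ := hp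
    exact ⟨h3, h4, (Nat.floor_lt (by positivity)).1 h1,
      (Nat.le_floor_iff (by positivity)).1 h2⟩
  refine (card_of_mass hx _ ?_ ?_ h).trans ?_
  · intro p hp
    exact (hmem p hp).1.pos
  · intro p hp
    have h1 := (hmem p hp).2.2.2
    nlinarith
  · have hsub : ((Finset.Ioc ⌊1.000001 * (x : ℝ)⌋₊ ⌊b * (x : ℝ)⌋₊).filter
      Nat.Prime).filter (fun p => ¬ p ≡ c [MOD md ℓ]) ⊆
      (Finset.range (2 * x)).filter (fun q => q.Prime ∧ ¬ q ≡ c [MOD md ℓ] ∧
      1000001 * x < 1000000 * q ∧ 1000 * q ≤ rr ℓ * x) := by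
      intro p hp
      obtain ⟨h1, h2, h3, h4⟩ := hmem p hp
      rw [Finset.mem_filter, Finset.mem_range]
      refine ⟨?_, h1, h2, ?_, ?_⟩
      · have h5 : (p : ℝ) < 2 * x := by nlinarith
        exact_mod_cast h5
      · have h5 : (1000001 : ℝ) * x < 1000000 * p := by
          norm_num at h3
          linarith
        exact_mod_cast h5
      · have h5 : (1000 : ℝ) * p ≤ rr ℓ * x := by
          rw [hb] at h4
          have h6 : (rr ℓ : ℝ) / 1000 * x = (rr ℓ * x) / 1000 := by ring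
          rw [h6, le_div_iff₀ (by norm_num)] at h4
          linarith
        exact_mod_cast h5
    exact_mod_cast Finset.card_le_card hsub

theorem block_primes {x ℓ : ℕ} (hx : X0 ≤ x) (hℓ : ℓ.Prime) (c : ℕ) :
    Real.sqrt x ≤ (((Finset.range (2 * x)).filter (fun q => q.Prime ∧ ¬ q ≡ c [MOD md ℓ] ∧
      1000001 * x < 1000000 * q ∧ 1000 * q ≤ rr ℓ * x)).card : ℝ) := by
  have hB : Big (x : ℝ) := by
    have h1 : ((2 ^ 2399 : ℕ) : ℝ) ≤ (x : ℝ) := by
      apply Nat.cast_le.2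
      refine le_trans ?_ hx
      exact Nat.pow_le_pow_right (by norm_num) (by norm_num)
    rw [Nat.cast_pow, Nat.cast_two] at h1
    exact h1
  rcases Nat.lt_or_ge ℓ 5 with h5 | h5
  · have hℓ' : ℓ = 2 ∨ ℓ = 3 := by
      interval_cases ℓ
      · exact absurd hℓ (by norm_num)
      · exact absurd hℓ (by norm_num)
      · exact Or.inl rfl
      · exact Or.inr rfl
      · exact absurd hℓ (by norm_num)
    rcases hℓ' with rfl | rfl
    · refine card_target hB (b := 1.175) (by norm_num [rr]) (by norm_num) ?_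
      refine mass_char hB chi4 (fun y hy => theta_chi4 hy) (if c % 4 = 1 then -1 else 1)
        (by split_ifs <;> simp) _ ?_
      intro p hp hp3
      have hodd : p % 2 = 1 := by
        rcases hp.eq_two_or_odd with h | h
        · omega
        · exact h
      have hmod : p ≡ c [MOD md 2] ↔ p % 4 = c % 4 := by
        rw [show md 2 = 4 from rfl]; rfl
      simp only [hmod]
      unfold chi4
      rcases (show p % 4 = 1 ∨ p % 4 = 3 by omega) with h | h <;>
      rcases (show c % 4 = 0 ∨ c % 4 = 1 ∨ c % 4 = 2 ∨ c % 4 = 3 by omega) with h' | h' | h' | h' <;>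
      simp [h, h']
    · refine card_target hB (b := 1.175) (by norm_num [rr]) (by norm_num) ?_
      refine mass_char hB chi3 (fun y hy => theta_chi3 hy) (if c % 3 = 1 then -1 else 1)
        (by split_ifs <;> simp) _ ?_
      intro p hp hp3
      have hodd : p % 3 ≠ 0 := by
        intro h
        have h1 : 3 ∣ p := Nat.dvd_of_mod_eq_zero h
        rcases (Nat.dvd_prime hp).1 h1 with h2 | h2 <;> omega
      have hmod : p ≡ c [MOD md 3] ↔ p % 3 = c % 3 := by
        rw [show md 3 = 3 from rfl]; rfl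
      simp only [hmod]
      unfold chi3
      rcases (show p % 3 = 1 ∨ p % 3 = 2 by omega) with h | h <;>
      rcases (show c % 3 = 0 ∨ c % 3 = 1 ∨ c % 3 = 2 by omega) with h' | h' | h' <;>
      simp [h, h']
  · have hmd : md ℓ = ℓ := by
      unfold md; rw [if_neg (by omega)]
    have hrr : rr ℓ = 1140 := by
      unfold rr; rw [if_neg (by omega)]
    refine card_target hB (b := 1.14) (by rw [hrr]; norm_num) (by norm_num) ?_
    rw [hmd]
    exact mass_class hB hℓ h5 c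

end Pool.Agent.Work.MP_713a1e_co.E
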