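import Pool.Agent.Work.MP_713a1e_co.E.ChainB

/-!
# JOB C4: chains of windows and blocks

A *window* is a three-interval exchange with displacements `a, a-b, -b` and length `w ∈ [a + (b+1)/2, a + b]`;
a *block* (for `c ∈ A`) is the exchange with displacements `c, -b` and length `c + b`.
Put `g0 = gcd a b`, `g_c = gcd c b`.

Arrangement: `W B W B W … W B W W … W` (a window between any two blocks, the rest windows at the end).
Tiling: if `n''` is `ν` minus the total length of the blocks, put `L = ⌈n''/(a+b)⌉`; then
`L (a + (b+1)/2) ≤ n'' ≤ L (a+b)` by `hν`, and `L ≥ A.length + 1`; take windows of lengths `⌊n''/L⌋`, `⌊n''/L⌋+1`.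
`σ` = all the exchanges together.

Swaps (positions absolute, `e` = end of the left segment `K`, i.e. the last position of `K`, `0 ≤ r < T`):
* `K` a window (next segment `K'` window or block), `y = e - r`: `i = y - a` (in the `+a` part of `K`, `σ i = y`),
  `j = y + u + b` (in the `-b` part of `K'`, `σ j = y + u`).  After the swap: `i ↦ y + u` (displacement `a + u`),
  `j ↦ y` (displacement `-(b+u)`).
* `K` a block, next segment a window: `j = e - (u - 1 - r)` (in the `-b` part of `K`), `i = j + u = e + 1 + r` (in
  the `+a` part of the window).  After the swap: `i ↦ j - b` (displacement `-(b+u)`), `j ↦ i + a`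
  (displacement `a + u`).
All these positions are distinct: in a window of length `w` the `+a` part has length `w - a ≥ b/2 ≥ 2T`, its
first `T` positions are used by a block on the left, its last `T` by the right boundary, and the `-b` part is only
used by a window on the left; in a block of length `c + b` the offsets (1-based) `(u+b-T, u+b]` are used by the
left boundary and `[c+b-u+1, c+b-u+T]` by the right one, `c ≥ 2u`.

Connectivity.  Let `f` be constant on the classes of the equivalence relation generated by `σ` and the swaps.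
By `three_period`, on each segment `K_s` it agrees with a function `F_s` on `ℤ` with period `g_s` (`g0` or `g_c`).
At each boundary there are `T` consecutive `y` with `y ∈ K_s`, `y + u ∈ K_{s+1}`, `f y = f (y+u)`
(`y = e - r`, resp. `y = j`).  Lemma (Fine-Wilf, easy case): if `F` has period `g`, `G` has period `g'`, and
`F y = G y` for `g + g'` consecutive integers `y`, then `F = G` everywhere.
[`y ∈ ℤ`: choose `y0 ≡ y mod g` among the first `g` of them; `F (y+g') = F (y0+g') = G (y0+g') = G y0 = F y0 = F y`, so `F`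
has period `g'`; then `F y = F y1 = G y1 = G y` with `y1 ≡ y mod g'` in the interval.]
Hence `F_{s+1} (y + u) = F_s y` for all `y ∈ ℤ` and all `s`; so `F_1` has all the periods `g_s`, whose gcd is `1` by
`hℓ`, so all `F_s` are equal to one constant.  Then `merge` gives the cyclic permutation.
-/

namespace Pool.Agent.Work.MP_713a1e_co.E

/-- ordinal of the window number `k` (`m` blocks) -/
def od (m k : ℕ) : ℕ := if k < 2 * m then k / 2 else k - m

/-- block indices -/
def Bk (m k : ℕ) : Prop := k % 2 = 1 ∧ k < 2 * m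

instance (m k : ℕ) : Decidable (Bk m k) := inferInstanceAs (Decidable (_ ∧ _))

/-- the first displacement of the segment `k` -/
def al (A : List ℕ) (a k : ℕ) : ℕ := if Bk A.length k then A.getD (k / 2) 0 else a

/-- the width of the segment `k` -/
def wd (A : List ℕ) (b : ℕ) (V : ℕ → ℕ) (k : ℕ) : ℕ :=
  if Bk A.length k then A.getD (k / 2) 0 + b else V (od A.length k)

theorem sum_even (A : List ℕ) (b : ℕ) (V : ℕ → ℕ) : ∀ m ≤ A.length,
    ∑ k ∈ Finset.range (2 * m), wd A b V k =
      ∑ i ∈ Finset.range m, (A.getD i 0 + b) + ∑ i ∈ Finset.range m, V i := by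
  intro m
  induction m with
  | zero => simp
  | succ m ih =>
    intro hm
    rw [show 2 * (m + 1) = 2 * m + 1 + 1 by ring, Finset.sum_range_succ, Finset.sum_range_succ, ih (by omega),
      Finset.sum_range_succ, Finset.sum_range_succ]
    have h1 : wd A b V (2 * m) = V m := by
      unfold wd Bk od
      rw [if_neg (by omega), if_pos (by omega)]
      congr 1; omega
    have h2 : wd A b V (2 * m + 1) = A.getD m 0 + b := by
      unfold wd Bk
      rw [if_pos (by omega), show (2 * m + 1) / 2 = m by omega]
    rw [h1, h2]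
    ring

theorem sum_all (A : List ℕ) (b : ℕ) (V : ℕ → ℕ) (j : ℕ) :
    ∑ k ∈ Finset.range (2 * A.length + j), wd A b V k =
      ∑ i ∈ Finset.range A.length, (A.getD i 0 + b) + ∑ i ∈ Finset.range (A.length + j), V i := by
  induction j with
  | zero => simpa using sum_even A b V A.length le_rfl
  | succ j ih =>
    rw [← add_assoc, Finset.sum_range_succ, ih, ← add_assoc, Finset.sum_range_succ _ (A.length + j)]
    have h1 : wd A b V (2 * A.length + j) = V (A.length + j) := by
      unfold wd Bk od
      rw [if_neg (by omega), if_neg (by omega)]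
      congr 1; omega
    rw [h1]
    ring

theorem sum_getD (A : List ℕ) (b : ℕ) :
    ∑ i ∈ Finset.range A.length, (A.getD i 0 + b) = (A.map (fun c => c + b)).sum := by
  induction A with
  | nil => simp
  | cons c A ih =>
    rw [List.length_cons, Finset.sum_range_succ', List.map_cons, List.sum_cons, ← ih]
    simp [add_comm]

theorem sum_V (q ρ : ℕ) : ∀ L, ρ ≤ L → ∑ i ∈ Finset.range L, (if i < ρ then q + 1 else q) = L * q + ρ := by
  intro L
  induction L with
  | zero => intro h; simp; omega
  | succ L ih =>
    intro h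
    rcases Nat.lt_or_ge L ρ with h1 | h1
    · have e : ρ = L + 1 := by omega
      subst e
      have : ∀ i ∈ Finset.range (L + 1), (if i < L + 1 then q + 1 else q) = q + 1 := by
        intro i hi
        rw [if_pos (Finset.mem_range.mp hi)]
      rw [Finset.sum_congr rfl this]
      simp; ring
    · rw [Finset.sum_range_succ, ih h1, if_neg (by omega)]
      ring

theorem cyc_chain {p a b u T ν : ℕ} {A : List ℕ} (hT : 2 * Nat.gcd a b ≤ T) (hb : 0 < b)
    (hba : b + u ≤ a) (hTu : T ≤ u) (hTb : 4 * T ≤ b)
    (h1 : Al p a) (h2 : Al p (-(b : ℤ))) (h3 : Al p ((a : ℤ) - b))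
    (h4 : Al p ((a : ℤ) + u)) (h5 : Al p (-((b : ℤ) + u)))
    (hA : ∀ c ∈ A, Al p c ∧ 2 * u ≤ c ∧ Nat.gcd a b + Nat.gcd c b ≤ T)
    (hℓ : ∀ ℓ : ℕ, ℓ.Prime → ℓ ∣ a → ℓ ∣ b → ∃ c ∈ A, ¬ ℓ ∣ c)
    (hν : (A.map (fun c => c + b)).sum + (a + b) * (4 * (a / b) + A.length + 8) ≤ ν) : Cyc p ν := by
  set S := (A.map (fun c => c + b)).sum with hS
  set m := A.length with hm
  have hab : 0 < a + b := by omega
  obtain ⟨n, hn⟩ : ∃ n, ν = S + n := ⟨ν - S, by omega⟩
  have hn1 : (a + b) * (4 * (a / b) + m + 8) ≤ n := by omega
  set L := (n + (a + b) - 1) / (a + b) with hL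
  have hL1 : n ≤ L * (a + b) := by
    have h1 := Nat.div_add_mod (n + (a + b) - 1) (a + b)
    have h2 := Nat.mod_lt (n + (a + b) - 1) hab
    rw [← hL] at h1
    have h3 : L * (a + b) = (a + b) * L := mul_comm _ _
    omega
  have hL2 : L * (a + b) ≤ n + (a + b) - 1 := Nat.div_mul_le_self _ _
  have hL3 : 4 * (a / b) + m + 8 ≤ L := by
    have h1 : (4 * (a / b) + m + 8) * (a + b) ≤ L * (a + b) := by
      rw [mul_comm]; exact hn1.trans hL1
    exact Nat.le_of_mul_le_mul_right h1 hab
  have hL0 : 0 < L := by omega
  set q := n / L with hq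
  set ρ := n % L with hρ
  have hqρ : L * q + ρ = n := Nat.div_add_mod n L
  have hρL : ρ < L := Nat.mod_lt _ hL0
  have hq1 : q ≤ a + b := by
    have h1 : L * q ≤ L * (a + b) := by omega
    exact Nat.le_of_mul_le_mul_left h1 hL0
  have hq2 : 0 < ρ → q + 1 ≤ a + b := by
    intro h
    have h1 : L * q < L * (a + b) := by omega
    exact Nat.lt_of_mul_lt_mul_left h1
  have hq3 : a + 2 * T ≤ q := by
    have h1 : a < b * (a / b) + b := by
      have h1 := Nat.div_add_mod a b
      have h2 := Nat.mod_lt a hb
      omega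
    have h2 : 2 * (a + b) ≤ L * b := by
      have h3 : (4 * (a / b) + 8) * b ≤ L * b := Nat.mul_le_mul_right _ (by omega)
      nlinarith
    rw [hq, Nat.le_div_iff_mul_le hL0]
    have h4 : 2 * (a + 2 * T) * L ≤ (2 * a + b) * L := Nat.mul_le_mul_right _ (by omega)
    have h5 : L * (a + b) < n + (a + b) := by omega
    nlinarith
  have hV : ∀ i, a + 2 * T ≤ (if i < ρ then q + 1 else q) ∧ (if i < ρ then q + 1 else q) ≤ a + b := by
    intro i
    split_ifs with h
    · have := hq2 (by omega)
      omega
    · omega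
  have hAm : ∀ k, Bk m k → A.getD (k / 2) 0 ∈ A := by
    intro k hk
    have hk2 : k / 2 < A.length := by
      unfold Bk at hk; omega
    rw [List.getD_eq_getElem _ _ hk2]
    exact List.getElem_mem hk2
  have D : Dat p a b u T (2 * m + (L - m)) (al A a) (wd A b (fun i => if i < ρ then q + 1 else q))
      (fun k => ∑ i ∈ Finset.range k, wd A b (fun i => if i < ρ then q + 1 else q) i) (Bk m) := by
    refine ⟨hb, hT, hba, hTu, h1, h2, h3, h4, h5, by simp, ?_, ?_, ?_, ?_⟩
    · intro k
      simp only [Finset.sum_range_succ]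
    · intro k _ hk
      unfold al wd
      rw [if_neg hk, if_neg hk]
      exact ⟨rfl, hV _⟩
    · intro k _ hk
      have h := hA _ (hAm k hk)
      unfold al wd
      rw [if_pos hk, if_pos hk]
      exact ⟨rfl, h.2.1, h.1, h.2.2⟩
    · intro k _ hk hk'
      unfold Bk at hk hk'
      omega
  have hsum : ∑ i ∈ Finset.range (2 * m + (L - m)), wd A b (fun i => if i < ρ then q + 1 else q) i = ν := by
    rw [hm, sum_all, sum_getD, ← hm, show m + (L - m) = L by omega, sum_V q ρ L hρL.le, hqρ, hn]
  have hc := D.cyc (by omega) (by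
    intro d hd
    by_contra hne
    obtain ⟨ℓ, hℓp, hℓd⟩ := Nat.exists_prime_and_dvd hne
    have h0 := hd 0 (by omega)
    unfold al at h0
    rw [if_neg (by unfold Bk; omega)] at h0
    have hℓa : ℓ ∣ a := hℓd.trans (h0.trans (Nat.gcd_dvd_left _ _))
    have hℓb : ℓ ∣ b := hℓd.trans (h0.trans (Nat.gcd_dvd_right _ _))
    obtain ⟨c, hcA, hc⟩ := hℓ ℓ hℓp hℓa hℓb
    obtain ⟨i, hi, rfl⟩ := List.mem_iff_getElem.mp hcA
    have h6 := hd (2 * i + 1) (by omega)
    unfold al at h6
    rw [if_pos (by unfold Bk; omega), show (2 * i + 1) / 2 = i by omega,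
      List.getD_eq_getElem _ _ hi] at h6
    exact hc (hℓd.trans (h6.trans (Nat.gcd_dvd_left _ _))))
  rw [hsum] at hc
  exact hc

end Pool.Agent.Work.MP_713a1e_co.E
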