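import Pool.Agent.Work.MP_713a1e_co.E.FinS
import Pool.Agent.Work.MP_713a1e_co.E.FinD01
import Pool.Agent.Work.MP_713a1e_co.E.FinD02
import Pool.Agent.Work.MP_713a1e_co.E.FinD03
import Pool.Agent.Work.MP_713a1e_co.E.FinD04
import Pool.Agent.Work.MP_713a1e_co.E.FinD05
import Pool.Agent.Work.MP_713a1e_co.E.FinD06
import Pool.Agent.Work.MP_713a1e_co.E.FinD07
import Pool.Agent.Work.MP_713a1e_co.E.FinD08
import Pool.Agent.Work.MP_713a1e_co.E.FinD09
import Pool.Agent.Work.MP_713a1e_co.E.FinD10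
import Pool.Agent.Work.MP_713a1e_co.E.FinD11
import Pool.Agent.Work.MP_713a1e_co.E.FinD12
import Pool.Agent.Work.MP_713a1e_co.E.FinD13
import Pool.Agent.Work.MP_713a1e_co.E.FinD14
import Pool.Agent.Work.MP_713a1e_co.E.FinD15
import Pool.Agent.Work.MP_713a1e_co.E.FinD16
import Pool.Agent.Work.MP_713a1e_co.E.FinD17
import Pool.Agent.Work.MP_713a1e_co.E.FinD18
import Pool.Agent.Work.MP_713a1e_co.E.FinD19
import Pool.Agent.Work.MP_713a1e_co.E.FinD20

/-!
# JOB F: all `n ≤ 2^2400`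

One quadruple of primes `s1 < s2 ≤ s3 < s4`, `s1 + s4 = s2 + s3` gives, with `p = s2`, `a = (s4-s2)/2`, `b = (s2-s1)/2`
(or `p = s3`, `a = (s4-s3)/2`, `b = (s3-s1)/2`), if `gcd a b = 1`: for all `n < p` with
`max a b ≤ (2n+1-p)/2 ≤ a + b`: `HasRow (p-n) → HasRow n` (`cyc_three`, `hasRow_of_cyc`).
A chain of overlapping intervals of such `n` (each at most a factor 10/7) from small `n` up to `2^2400`.
-/

namespace Pool.Agent.Work.MP_713a1e_co.E

theorem cov_X0 : Cov (2 ^ 2400) :=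
  seg20 (seg19 (seg18 (seg17 (seg16 (seg15 (seg14 (seg13 (seg12 (seg11 (seg10 (seg09 (seg08
    (seg07 (seg06 (seg05 (seg04 (seg03 (seg02 (seg01 cov_small)))))))))))))))))))

theorem hasRow_le {n : ℕ} (h1 : 1 ≤ n) (hn : n ≤ X0) : HasRow n :=
  cov_X0 n h1 hn

end Pool.Agent.Work.MP_713a1e_co.E
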