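import Pool.Agent.Work.MP_713a1e_co.E.Defs

/-!
# JOB C1: from a cyclic permutation with allowed displacements to a row

Proof. Put `m + 1 = p - n`, so `W = {m+1, …, n}` has `2 ν` elements.  `v x = m + 1 + 2 x` and
`w x = n - 2 x` (`x < ν`) enumerate the two parity classes of `W`; `v x + w y = p + 2 (x - y)`,
in particular `v x + w x = p`.  With `x_0 = 0`, `x_{k+1} = σ⁻¹ x_k` the list
`v x_0, w x_1, v x_1, w x_2, v x_2, …, w x_{ν-1}, v x_{ν-1}, w x_0` is a Hamiltonian path of `W` from `m+1`
to `n` (sums `p + 2 (x_k - x_{k+1}) = p + 2 (σ x_{k+1} - x_{k+1})` and `p`).  Append it to a row of length `m+1`.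
-/

namespace Pool.Agent.Work.MP_713a1e_co.E

/-- the list `w x, v x` over the `x` of a list -/
def weave (v w : ℕ → ℕ) : List ℕ → List ℕ
  | [] => []
  | x :: xs => w x :: v x :: weave v w xs

theorem weave_chain (v w : ℕ → ℕ) (z : ℕ) : ∀ (xs : List ℕ) (y : ℕ),
    (y :: (xs ++ [z])).IsChain (fun a b => (v a + w b).Prime) →
    (∀ x ∈ xs, (w x + v x).Prime) →
    (v y :: (weave v w xs ++ [w z])).IsChain (fun a b => (a + b).Prime)
  | [], y, h, _ => by
    simp only [List.nil_append, List.isChain_cons_cons] at h
    simp only [weave, List.nil_append, List.isChain_cons_cons]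
    exact ⟨h.1, List.isChain_singleton _⟩
  | x :: xs, y, h, h' => by
    rw [List.cons_append, List.isChain_cons_cons] at h
    simp only [weave, List.cons_append]
    rw [List.isChain_cons_cons, List.isChain_cons_cons]
    exact ⟨h.1, h' x (by simp), weave_chain v w z xs x h.2 (fun t ht => h' t (by simp [ht]))⟩

theorem weave_perm (v w : ℕ → ℕ) : ∀ xs : List ℕ,
    (weave v w xs).Perm (xs.map w ++ xs.map v)
  | [] => by simp [weave]
  | x :: xs => by
    simp only [weave, List.map_cons, List.cons_append]
    refine List.Perm.cons _ ?_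
    refine ((weave_perm v w xs).cons (v x)).trans ?_
    exact List.perm_middle.symm

/-- The orbit of a cyclic permutation as a list. -/
theorem orbit_list {ν : ℕ} (hν : 1 ≤ ν) (σ : Equiv.Perm (Fin ν)) (hσ : ∀ x y, σ.SameCycle x y) :
    ∃ f : ℕ → Fin ν, (f 0 : ℕ) = 0 ∧ (f ν : ℕ) = 0 ∧ (∀ k, σ (f (k + 1)) = f k) ∧
      ((List.range ν).map (fun k => (f k : ℕ))).Perm (List.range ν) := by
  set z0 : Fin ν := ⟨0, hν⟩ with hz0
  set τ : Equiv.Perm (Fin ν) := σ⁻¹ with hτ
  have hcyc : ∀ y, ∃ i : ℕ, τ^[i] z0 = y := by
    intro y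
    have h1 : τ.SameCycle z0 y := Equiv.Perm.sameCycle_inv.2 (hσ z0 y)
    obtain ⟨i, hi⟩ := h1.exists_nat_pow_eq
    exact ⟨i, by rw [← hi, Equiv.Perm.iterate_eq_pow]⟩
  have hper : z0 ∈ Function.periodicPts τ := by
    rw [Function.mem_periodicPts]
    refine ⟨orderOf τ, orderOf_pos τ, ?_⟩
    unfold Function.IsPeriodicPt Function.IsFixedPt
    rw [Equiv.Perm.iterate_eq_pow, pow_orderOf_eq_one]
    rfl
  have hd0 := Function.minimalPeriod_pos_of_mem_periodicPts hper
  set d := Function.minimalPeriod τ z0 with hd
  have hinj := Function.iterate_injOn_Iio_minimalPeriod (f := τ) (x := z0)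
  rw [← hd] at hinj
  have hdν : d = ν := by
    apply le_antisymm
    · -- injectivity
      have h1 : ((Finset.range d).image (fun k => τ^[k] z0)).card = d := by
        rw [Finset.card_image_of_injOn, Finset.card_range]
        intro a ha b hb hab
        rw [Finset.mem_coe, Finset.mem_range] at ha hb
        exact hinj ha hb hab
      have h2 := Finset.card_le_univ ((Finset.range d).image (fun k => τ^[k] z0))
      rw [h1, Fintype.card_fin] at h2
      exact h2
    · have h1 : (Finset.univ : Finset (Fin ν)) ⊆ (Finset.range d).image (fun k => τ^[k] z0) := by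
        intro y _
        obtain ⟨i, hi⟩ := hcyc y
        rw [Finset.mem_image]
        refine ⟨i % d, ?_, ?_⟩
        · rw [Finset.mem_range]; exact Nat.mod_lt _ hd0
        · rw [← hi, hd]
          exact Function.iterate_mod_minimalPeriod_eq
      have h2 := Finset.card_le_card h1
      rw [Finset.card_univ, Fintype.card_fin] at h2
      refine h2.trans ?_
      refine Finset.card_image_le.trans ?_
      rw [Finset.card_range]
  refine ⟨fun k => τ^[k] z0, by simp [hz0], ?_, ?_, ?_⟩
  · have h1 : τ^[d] z0 = z0 := Function.iterate_minimalPeriod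
    rw [hdν] at h1
    change ((τ^[ν] z0 : Fin ν) : ℕ) = 0
    rw [h1]
  · intro k
    beta_reduce
    rw [Function.iterate_succ_apply']
    exact σ.apply_symm_apply _
  · rw [List.perm_ext_iff_of_nodup]
    · intro a
      rw [List.mem_map, List.mem_range]
      constructor
      · rintro ⟨k, _, rfl⟩
        exact (τ^[k] z0).isLt
      · intro ha
        obtain ⟨i, hi⟩ := hcyc ⟨a, ha⟩
        refine ⟨i % d, ?_, ?_⟩
        · rw [List.mem_range, ← hdν]; exact Nat.mod_lt _ hd0
        · have h2 : τ^[i % d] z0 = τ^[i] z0 := Function.iterate_mod_minimalPeriod_eq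
          beta_reduce
          rw [h2, hi]
    · apply List.Nodup.map_on _ List.nodup_range
      intro a ha b hb hab
      rw [List.mem_range] at ha hb
      apply hinj
      · rw [Set.mem_Iio, hdν]; exact ha
      · rw [Set.mem_Iio, hdν]; exact hb
      · exact Fin.ext hab
    · exact List.nodup_range

/-- The two parity classes. -/
theorem classes_perm {n p ν : ℕ} (h1 : n < p) (h2 : p + 2 * ν = 2 * n + 1) :
    ((List.range ν).map (fun x => n - 2 * x) ++ (List.range ν).map (fun x => p - n + 2 * x)).Perm
      (List.range' (p - n) (2 * ν)) := by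
  rw [List.perm_ext_iff_of_nodup]
  · intro a
    simp only [List.mem_append, List.mem_map, List.mem_range, List.mem_range'_1]
    constructor
    · rintro (⟨k, hk, rfl⟩ | ⟨k, hk, rfl⟩) <;> constructor <;> omega
    · rintro ⟨h3, h4⟩
      by_cases h5 : (a - (p - n)) % 2 = 0
      · right
        exact ⟨(a - (p - n)) / 2, by omega, by omega⟩
      · left
        exact ⟨(n - a) / 2, by omega, by omega⟩
  · rw [List.nodup_append]
    refine ⟨?_, ?_, ?_⟩
    · apply List.Nodup.map_on _ List.nodup_range
      intro a ha b hb hab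
      rw [List.mem_range] at ha hb
      omega
    · apply List.Nodup.map_on _ List.nodup_range
      intro a ha b hb hab
      rw [List.mem_range] at ha hb
      omega
    · intro a ha b hb
      simp only [List.mem_map, List.mem_range] at ha hb
      obtain ⟨k, hk, rfl⟩ := ha
      obtain ⟨j, hj, rfl⟩ := hb
      omega
  · exact List.nodup_range'

theorem hasRow_of_cyc {n p ν : ℕ} (hp : p.Prime) (h1 : n < p) (hν : 1 ≤ ν)
    (h2 : p + 2 * ν = 2 * n + 1) (hc : Cyc p ν) (hr : HasRow (p - n)) : HasRow n := by
  obtain ⟨σ, hσ, hal⟩ := hc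
  obtain ⟨l0, hl1, hl2, hl3, hl4⟩ := hr
  obtain ⟨f, hf0, hfν, hfs, hfp⟩ := orbit_list hν σ hσ
  set v : ℕ → ℕ := fun x => p - n + 2 * x with hv
  set w : ℕ → ℕ := fun x => n - 2 * x with hw
  have hvw : ∀ x : Fin ν, (w x + v x).Prime := by
    intro x
    have hx := x.isLt
    have : w x + v x = p := by simp only [hv, hw]; omega
    rw [this]; exact hp
  have hvw' : ∀ k, (v (f k) + w (f (k + 1))).Prime := by
    intro k
    obtain ⟨q, hq, hq'⟩ := hal (f (k + 1))
    rw [hfs k] at hq'
    have hx := (f k).isLt
    have hy := (f (k + 1)).isLt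
    have : v (f k) + w (f (k + 1)) = q := by
      simp only [hv, hw]; omega
    rw [this]; exact hq
  obtain ⟨μ, rfl⟩ : ∃ μ, ν = μ + 1 := ⟨ν - 1, by omega⟩
  set xs : List ℕ := (List.range μ).map (fun k => (f (k + 1) : ℕ)) with hxs
  -- the chain of the `x`
  have hch : ((0 : ℕ) :: (xs ++ [0])).IsChain (fun a b => (v a + w b).Prime) := by
    have e : (0 : ℕ) :: (xs ++ [0]) = (List.range (μ + 1 + 1)).map (fun k => (f k : ℕ)) := by
      rw [List.range_succ, List.map_append, List.range_succ_eq_map, List.map_cons, List.map_map,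
        List.map_singleton, hf0, hfν, List.cons_append]
      rfl
    rw [e, List.isChain_map]
    rw [show μ + 1 + 1 = (μ + 1).succ from rfl, List.isChain_range_succ]
    intro m _
    exact hvw' m
  have hxsp : ((0 : ℕ) :: xs).Perm (List.range (μ + 1)) := by
    have e : (0 : ℕ) :: xs = (List.range (μ + 1)).map (fun k => (f k : ℕ)) := by
      rw [List.range_succ_eq_map, List.map_cons, List.map_map, hf0]
      rfl
    rw [e]; exact hfp
  set T : List ℕ := weave v w xs ++ [w 0] with hT
  have hchT : (v 0 :: T).IsChain (fun a b => (a + b).Prime) := by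
    apply weave_chain v w 0 xs 0 hch
    intro x hx
    rw [hxs, List.mem_map] at hx
    obtain ⟨k, _, rfl⟩ := hx
    exact hvw _
  have hv0 : v 0 = p - n := by simp [hv]
  have hw0 : w 0 = n := by simp [hw]
  have hTp : (v 0 :: T).Perm (List.range' (p - n) (2 * (μ + 1))) := by
    have e1 : (v 0 :: T).Perm (((0 :: xs).map w) ++ ((0 :: xs).map v)) := by
      rw [hT]
      simp only [List.map_cons, List.cons_append]
      -- v 0 :: (weave ++ [w 0]) ~ w 0 :: (xs.map w ++ v 0 :: xs.map v)
      have e2 : (weave v w xs ++ [w 0]).Perm (w 0 :: (xs.map w ++ xs.map v)) := by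
        refine List.perm_append_comm.trans ?_
        rw [List.singleton_append]
        exact (weave_perm v w xs).cons _
      refine (e2.cons (v 0)).trans ?_
      refine (List.Perm.swap _ _ _).trans ?_
      exact List.Perm.cons _ List.perm_middle.symm
    refine e1.trans ?_
    refine ((hxsp.map w).append (hxsp.map v)).trans ?_
    exact classes_perm h1 h2
  refine ⟨l0 ++ T, ?_, ?_, ?_, ?_⟩
  · -- permutation
    have e1 : List.range' 1 n = List.range' 1 (p - n - 1) ++ List.range' (p - n) (2 * (μ + 1)) := by
      have e2 : n = (p - n - 1) + 2 * (μ + 1) := by omega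
      conv_lhs => rw [e2]
      rw [← List.range'_append_1]
      congr 2
      omega
    have e3 : List.range' 1 (p - n) = List.range' 1 (p - n - 1) ++ [v 0] := by
      have e4 : p - n = (p - n - 1) + 1 := by omega
      conv_lhs => rw [e4]
      rw [← List.range'_append_1, List.range'_one]
      congr 2
      rw [hv0]
      omega
    rw [e1]
    refine (hl1.append_right T).trans ?_
    rw [e3, List.append_assoc, List.singleton_append]
    exact List.Perm.append_left _ hTp
  · rw [List.head?_append, hl2]
    rfl
  · rw [hT, ← List.append_assoc, List.getLast?_append]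
    simp [hw0]
  · rw [List.isChain_append]
    rw [← List.singleton_append, List.isChain_append] at hchT
    refine ⟨hl4, hchT.2.1, ?_⟩
    intro x hx y hy
    rw [hl3] at hx
    have hx' : x = p - n := by simpa using hx.symm
    rw [hx', ← hv0]
    exact hchT.2.2 (v 0) (by simp) y hy

end Pool.Agent.Work.MP_713a1e_co.E
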