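import Pool.Agent.Work.MP_713a1e_co.E.Select
import Pool.Agent.Work.MP_713a1e_co.E.Block
import Pool.Agent.Work.MP_713a1e_co.E.Chain
import Pool.Agent.Work.MP_713a1e_co.E.Red
import Pool.Agent.Work.MP_713a1e_co.E.Finite

/-!
# Large `n` (job A3)

Take `p, a, b, u` from `select`, `T = min u (b/4)`, so `T ≥ n / (2*10^18) - 1` while `gcd a b ≤ n / 10^20`.
For each prime `ℓ ∣ gcd a b` (at most four: `2` and at most three odd ones) choose by `block_primes` (`x = p`, `c = p`)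
a prime `q` with `q ≢ p` modulo `md ℓ`, `1.000001 p < q ≤ r_ℓ p`, and `gcd ((q-p)/2) b ≤ T/2 =: G`: the number of `c' ≤ n`
with `gcd c' b > G` is at most `(n/G + 1)(b/G + 1) < √p`.  `c_ℓ = (q-p)/2` is not divisible by `ℓ`, and `≥ 2u`.
Total length of the blocks `≤ (0.175+0.175+0.14+0.14)/2 * p + 4b ≤ 0.315 * 1.2 n + 4 b = 0.378 n + 4b`,
`ν = (2n+1-p)/2 ≥ 0.4 n`, and `a/b ≤ 2.5 * 10^7`, `(a+b)(4(a/b)+12) ≤ (n/(2*10^10)) (10^8 + 12) ≤ 0.006 n`.
Then `cyc_chain` and `hasRow_of_cyc`, `p - n < n`.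
-/

namespace Pool.Agent.Work.MP_713a1e_co.E

theorem big77_of_X0 {n : ℕ} (hn : X0 ≤ n) : 10 ^ 77 ≤ n := by
  have h1 : (10 : ℕ) ^ 77 ≤ 2 ^ 256 := by norm_num
  have h2 : (2 : ℕ) ^ 256 ≤ X0 := by
    show (2 : ℕ) ^ 256 ≤ 2 ^ 2400
    exact Nat.pow_le_pow_right (by norm_num) (by norm_num)
  exact h1.trans (h2.trans hn)

theorem exists_small_gcd {b n G : ℕ} (hG : 0 < G) (hb : 0 < b) (S : Finset ℕ) (c : ℕ → ℕ)
    (hinj : ∀ q ∈ S, ∀ q' ∈ S, c q = c q' → q = q') (hc : ∀ q ∈ S, c q ≤ n)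
    (hcard : (b / G + 1) * (n / G + 1) < S.card) : ∃ q ∈ S, Nat.gcd (c q) b ≤ G := by
  by_contra hcon
  push Not at hcon
  have hle : S.card ≤ (Finset.range (b / G + 1) ×ˢ Finset.range (n / G + 1)).card := by
    refine Finset.card_le_card_of_injOn (fun q => (b / Nat.gcd (c q) b, c q / Nat.gcd (c q) b)) ?_ ?_
    · intro q hq
      have h1 := hcon q hq
      simp only [Finset.coe_product, Finset.coe_range, Set.mem_prod, Set.mem_Iio]
      refine ⟨Nat.lt_succ_of_le ?_, Nat.lt_succ_of_le ?_⟩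
      · exact Nat.div_le_div_left h1.le hG
      · exact (Nat.div_le_div_left h1.le hG).trans (Nat.div_le_div_right (hc q hq))
    · intro q hq q' hq' h
      simp only [Prod.mk.injEq] at h
      obtain ⟨h1, h2⟩ := h
      refine hinj q hq q' hq' ?_
      set d := Nat.gcd (c q) b with hd
      set d' := Nat.gcd (c q') b with hd'
      have k1 : d * (b / d) = b := Nat.mul_div_cancel' (Nat.gcd_dvd_right _ _)
      have k2 : d' * (b / d') = b := Nat.mul_div_cancel' (Nat.gcd_dvd_right _ _)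
      have k3 : d * (c q / d) = c q := Nat.mul_div_cancel' (Nat.gcd_dvd_left _ _)
      have k4 : d' * (c q' / d') = c q' := Nat.mul_div_cancel' (Nat.gcd_dvd_left _ _)
      have hpos : 0 < b / d := by
        rcases Nat.eq_zero_or_pos (b / d) with h0 | h0
        · rw [h0] at k1; omega
        · exact h0
      have hdd : d = d' := by
        have : d * (b / d) = d' * (b / d) := by rw [k1, h1, k2]
        exact Nat.eq_of_mul_eq_mul_right hpos this
      rw [← k3, ← k4, h2, hdd]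
  rw [Finset.card_product, Finset.card_range, Finset.card_range] at hle
  omega

/-- The displacement of a block killing the prime `ℓ`. -/
theorem block_exists {n p b G ℓ : ℕ} (hn : X0 ≤ n) (hp : p.Prime) (hnp : n < p) (hp' : 10 * p ≤ 12 * n)
    (hb : 0 < b) (hbn : b ≤ n) (hG : n ≤ 5 * 10 ^ 18 * G) (hℓ : ℓ.Prime) :
    ∃ c : ℕ, Al p c ∧ ¬ ℓ ∣ c ∧ n ≤ 2 * 10 ^ 6 * c ∧ 2000 * c + 1000 * p ≤ rr ℓ * p ∧ Nat.gcd c b ≤ G := by
  have hbig : 10 ^ 77 ≤ n := big77_of_X0 hn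
  have hG0 : 0 < G := by
    rcases Nat.eq_zero_or_pos G with h | h
    · subst h; simp at hG; omega
    · exact h
  have hcard := block_primes (x := p) (le_trans hn hnp.le) hℓ p
  set S := (Finset.range (2 * p)).filter (fun q => q.Prime ∧ ¬ q ≡ p [MOD md ℓ] ∧
      1000001 * p < 1000000 * q ∧ 1000 * q ≤ rr ℓ * p) with hS
  have hrr : rr ℓ ≤ 1175 := by unfold rr; split_ifs <;> omega
  have hpodd : p % 2 = 1 := hp.eq_two_or_odd.resolve_left (by omega)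
  have hSq : ∀ q ∈ S, q.Prime ∧ ¬ q ≡ p [MOD md ℓ] ∧ 1000001 * p < 1000000 * q ∧
      1000 * q ≤ rr ℓ * p := by
    intro q hq
    rw [hS, Finset.mem_filter] at hq
    exact hq.2
  have hqodd : ∀ q ∈ S, q % 2 = 1 ∧ p < q ∧ 1000 * q ≤ 1175 * p := by
    intro q hq
    obtain ⟨h1, h2, h3, h4⟩ := hSq q hq
    have h5 : rr ℓ * p ≤ 1175 * p := Nat.mul_le_mul_right _ hrr
    exact ⟨h1.eq_two_or_odd.resolve_left (by omega), by omega, by omega⟩
  obtain ⟨q, hq, hgcd⟩ := exists_small_gcd (b := b) (n := n) hG0 hb S (fun q => (q - p) / 2)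
    (by
      intro q hq q' hq' h
      obtain ⟨h1, h2, -⟩ := hqodd q hq
      obtain ⟨h3, h4, -⟩ := hqodd q' hq'
      omega)
    (by
      intro q hq
      obtain ⟨h1, h2, h3⟩ := hqodd q hq
      omega)
    (by
      have e1 : b / G ≤ 5 * 10 ^ 18 := by
        apply Nat.div_le_of_le_mul
        rw [Nat.mul_comm]; exact hbn.trans hG
      have e2 : n / G ≤ 5 * 10 ^ 18 := by
        apply Nat.div_le_of_le_mul
        rw [Nat.mul_comm]; exact hG
      have e3 : (b / G + 1) * (n / G + 1) ≤ (5 * 10 ^ 18 + 1) * (5 * 10 ^ 18 + 1) :=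
        Nat.mul_le_mul (Nat.succ_le_succ e1) (Nat.succ_le_succ e2)
      have e4 : (5 * 10 ^ 18 + 1) * (5 * 10 ^ 18 + 1) < (10 : ℕ) ^ 38 := by norm_num
      have e5 : ((10 ^ 38 : ℕ) : ℝ) ≤ Real.sqrt p := by
        apply Real.le_sqrt_of_sq_le
        have h0 : (10 ^ 38) ^ 2 ≤ p := le_trans (by norm_num) (hbig.trans hnp.le)
        exact_mod_cast h0
      have e6 : ((10 ^ 38 : ℕ) : ℝ) ≤ ((S.card : ℕ) : ℝ) := le_trans e5 hcard
      have e7 : 10 ^ 38 ≤ S.card := Nat.cast_le.mp e6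
      exact lt_of_le_of_lt e3 (lt_of_lt_of_le e4 e7))
  obtain ⟨h1, h2, h3, h4⟩ := hSq q hq
  obtain ⟨h5, h6, h7⟩ := hqodd q hq
  obtain ⟨c, hc⟩ : ∃ c, q = p + 2 * c := ⟨(q - p) / 2, by omega⟩
  have hc' : (q - p) / 2 = c := by omega
  rw [hc'] at hgcd
  refine ⟨c, ⟨q, h1, by omega⟩, ?_, ?_, ?_, hgcd⟩
  · intro hdvd
    apply h2
    obtain ⟨k, hk⟩ := hdvd
    have hmd : md ℓ ∣ 2 * c := by
      unfold md
      split_ifs with h8
      · rw [hk, h8]; exact ⟨k, by ring⟩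
      · rw [hk]; exact ⟨2 * k, by ring⟩
    rw [hc]
    exact ((Nat.modEq_iff_dvd' (Nat.le_add_right p (2 * c))).mpr (by simpa using hmd)).symm
  · clear hbig hcard hG hgcd
    norm_num only
    omega
  · rw [hc] at h4
    omega

theorem sum_rr {P : Finset ℕ} (h0 : ∀ ℓ ∈ P, 2 ≤ ℓ) (h3 : (P.filter (fun ℓ => 3 ≤ ℓ)).card ≤ 3) :
    ∑ ℓ ∈ P, (rr ℓ - 1000) ≤ 630 ∧ P.card ≤ 4 := by
  have hsplit : P = P.filter (fun ℓ => 3 ≤ ℓ) ∪ P.filter (fun ℓ => ¬ 3 ≤ ℓ) :=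
    (Finset.filter_union_filter_not_eq (fun ℓ => 3 ≤ ℓ) P).symm
  have hsub : P.filter (fun ℓ => ¬ 3 ≤ ℓ) ⊆ {2} := by
    intro ℓ hℓ
    rw [Finset.mem_filter] at hℓ
    have := h0 ℓ hℓ.1
    rw [Finset.mem_singleton]; omega
  have hc2 : (P.filter (fun ℓ => ¬ 3 ≤ ℓ)).card ≤ 1 := by
    simpa using Finset.card_le_card hsub
  have hs2 : ∑ ℓ ∈ P.filter (fun ℓ => ¬ 3 ≤ ℓ), (rr ℓ - 1000) ≤ 175 := by
    refine (Finset.sum_le_sum_of_subset hsub).trans ?_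
    have e2 : rr 2 = 1175 := rfl
    rw [Finset.sum_singleton, e2]
  have hs3 : ∑ ℓ ∈ P.filter (fun ℓ => 3 ≤ ℓ), (rr ℓ - 1000) ≤ 455 := by
    have e1 : ∑ ℓ ∈ P.filter (fun ℓ => 3 ≤ ℓ), (rr ℓ - 1000) ≤
        ∑ ℓ ∈ P.filter (fun ℓ => 3 ≤ ℓ), (140 + if ℓ = 3 then 35 else 0) := by
      refine Finset.sum_le_sum fun ℓ hℓ => ?_
      rw [Finset.mem_filter] at hℓ
      unfold rr
      split_ifs <;> omega
    refine e1.trans ?_
    rw [Finset.sum_add_distrib, Finset.sum_const, smul_eq_mul, Finset.sum_ite_eq']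
    have : (if 3 ∈ P.filter (fun ℓ => 3 ≤ ℓ) then 35 else 0) ≤ 35 := by split_ifs <;> omega
    omega
  constructor
  · rw [hsplit]
    rw [Finset.sum_union (Finset.disjoint_filter_filter_not _ _ _)]
    omega
  · rw [hsplit]
    exact (Finset.card_union_le _ _).trans (by omega)

theorem large_len {n p a b k len C s : ℕ} (hp' : 10 * p ≤ 12 * n)
    (hab : 2 * 10 ^ 10 * (a + b) ≤ n) (hbn : n ≤ 5 * 10 ^ 17 * b) (hb : 0 < b)
    (hs : 2000 * C ≤ 630 * p) (hlen : len ≤ 4) (hsum : s = C + len * b)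
    (hν : p + 2 * k = 2 * n + 1) :
    s + (a + b) * (4 * (a / b) + len + 8) ≤ k := by
  have h1 : a / b ≤ 25000000 := by
    apply Nat.div_le_of_le_mul
    norm_num only at hab hbn
    omega
  have h2 : (a + b) * (4 * (a / b) + len + 8) ≤ (a + b) * 100000012 :=
    Nat.mul_le_mul_left _ (by omega)
  have h3 : len * b ≤ 4 * b := Nat.mul_le_mul_right _ hlen
  norm_num only at hab hbn
  omega

theorem large_sizes {n a b u T G : ℕ} (hbig : 10 ^ 77 ≤ n) (hT : T = min u (b / 4)) (hG : G = T / 2)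
    (hbn : n ≤ 5 * 10 ^ 17 * b) (hun : n ≤ 5 * 10 ^ 17 * u) (hg : 10 ^ 20 * Nat.gcd a b ≤ n) :
    0 < b ∧ T ≤ u ∧ 4 * T ≤ b ∧ n ≤ 5 * 10 ^ 18 * G ∧ 2 * Nat.gcd a b ≤ T ∧ Nat.gcd a b + G ≤ T := by
  generalize Nat.gcd a b = g at *
  have h0 : 10000000000000000000000 ≤ n := le_trans (by norm_num) hbig
  have h1 : T ≤ u := by rw [hT]; exact min_le_left _ _
  have h2 : T ≤ b / 4 := by rw [hT]; exact min_le_right _ _
  have h3 : T = u ∨ T = b / 4 := by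
    rcases min_choice u (b / 4) with h | h
    · left; rw [hT, h]
    · right; rw [hT, h]
  clear hbig hT
  norm_num only at *
  have h4 : n ≤ 2500000000000000000 * T := by
    rcases h3 with h | h <;> omega
  refine ⟨by omega, h1, by omega, by omega, by omega, by omega⟩

theorem hasRow_large {n : ℕ} (hn : X0 ≤ n) (ih : ∀ m, 1 ≤ m → m < n → HasRow m) : HasRow n := by
  obtain ⟨p, a, b, u, hp, hnp, hp', A1, A2, A3, A4, A5, hbu, hab, hbn, hun, hg, hP⟩ := select hn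
  have hbig := big77_of_X0 hn
  obtain ⟨T, hT⟩ : ∃ T, T = min u (b / 4) := ⟨_, rfl⟩
  obtain ⟨G, hG⟩ : ∃ G, G = T / 2 := ⟨_, rfl⟩
  obtain ⟨hb0, hTu, hTb, hnG, hgT, hgG⟩ := large_sizes hbig hT hG hbn hun hg
  have hbn' : b ≤ n := by
    have : b ≤ 2 * 10 ^ 10 * (a + b) := by
      norm_num only
      omega
    exact this.trans hab
  obtain ⟨P, hPdef⟩ : ∃ P, P = (Nat.gcd a b).primeFactors := ⟨_, rfl⟩
  have hPprime : ∀ ℓ ∈ P, ℓ.Prime := by
    intro ℓ hℓ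
    rw [hPdef] at hℓ
    exact Nat.prime_of_mem_primeFactors hℓ
  have hblk : ∀ ℓ, ∃ c : ℕ, ℓ ∈ P → Al p c ∧ ¬ ℓ ∣ c ∧ n ≤ 2 * 10 ^ 6 * c ∧
      2000 * c + 1000 * p ≤ rr ℓ * p ∧ Nat.gcd c b ≤ G := by
    intro ℓ
    by_cases h : ℓ ∈ P
    · obtain ⟨c, hc⟩ := block_exists (G := G) hn hp hnp hp' hb0 hbn' hnG (hPprime ℓ h)
      exact ⟨c, fun _ => hc⟩
    · exact ⟨0, fun h' => absurd h' h⟩
  choose c hc using hblk
  obtain ⟨hs1, hs2⟩ := sum_rr (P := P) (fun ℓ hℓ => (hPprime ℓ hℓ).two_le) (by rw [hPdef]; exact hP)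
  have hsum : 2000 * ∑ ℓ ∈ P, c ℓ ≤ 630 * p := by
    rw [Finset.mul_sum]
    calc ∑ ℓ ∈ P, 2000 * c ℓ ≤ ∑ ℓ ∈ P, (rr ℓ - 1000) * p := by
          refine Finset.sum_le_sum fun ℓ hℓ => ?_
          have h1 := (hc ℓ hℓ).2.2.2.1
          rw [Nat.sub_mul]
          omega
      _ = (∑ ℓ ∈ P, (rr ℓ - 1000)) * p := by rw [Finset.sum_mul]
      _ ≤ 630 * p := Nat.mul_le_mul_right _ hs1
  have hpodd : p % 2 = 1 := hp.eq_two_or_odd.resolve_left (by omega)
  obtain ⟨k, hk⟩ : ∃ k, p + 2 * k = 2 * n + 1 := ⟨(2 * n + 1 - p) / 2, by omega⟩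
  have hcyc : Cyc p k := by
    refine cyc_chain (a := a) (b := b) (u := u) (T := T) (A := P.toList.map c) hgT hb0 hbu hTu hTb
      A1 A2 A3 A4 A5 ?_ ?_ ?_
    · intro d hd
      rw [List.mem_map] at hd
      obtain ⟨ℓ, hℓ, rfl⟩ := hd
      rw [Finset.mem_toList] at hℓ
      obtain ⟨g1, g2, g3, g4, g5⟩ := hc ℓ hℓ
      refine ⟨g1, ?_, by omega⟩
      have h5 : u ≤ a := by omega
      clear hgG hgT hnG g4 hsum hbig
      norm_num only at *
      omega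
    · intro ℓ hℓ h1 h2
      have hmem : ℓ ∈ P := by
        rw [hPdef, Nat.mem_primeFactors]
        refine ⟨hℓ, Nat.dvd_gcd h1 h2, ?_⟩
        exact (Nat.gcd_pos_of_pos_right _ hb0).ne'
      exact ⟨c ℓ, List.mem_map.mpr ⟨ℓ, Finset.mem_toList.mpr hmem, rfl⟩, (hc ℓ hmem).2.1⟩
    · rw [List.length_map, Finset.length_toList]
      refine large_len hp' hab hbn hb0 hsum hs2 ?_ hk
      rw [List.map_map, Finset.sum_map_toList]
      simp only [Function.comp_apply]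
      rw [Finset.sum_add_distrib, Finset.sum_const, smul_eq_mul]
  exact hasRow_of_cyc hp hnp (by omega) hk hcyc (ih _ (by omega) (by omega))

theorem hasRow_all {n : ℕ} (hn : 1 ≤ n) : HasRow n := by
  induction n using Nat.strong_induction_on with
  | _ n ih =>
    rcases Nat.lt_or_ge n X0 with h | h
    · exact hasRow_le hn h.le
    · exact hasRow_large h (fun m h1 h2 => ih m h2 h1)

end Pool.Agent.Work.MP_713a1e_co.E
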