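import Pool.Agent.Work.MP_713a1e_co.E.Defs
import Pool.Agent.Work.MP_92f640_nt.Gbound

/-!
# JOB S1: Selberg's sieve in dimension one (Brun-Titchmarsh with constant 2)

Uses the weights of `Work/MP_92f640_nt/{Sieve,Gbound}.lean`; new: the interval is `(X, X+Y]`, and
`|lam D R d| ≤ 1`, so that the error term is `R²`.
-/

namespace Pool.Agent.Work.MP_713a1e_co.E

open Finset Pool.Agent.Work.MP_92f640_nt

theorem abs_card_modEq_sub' (X Y r v : ℕ) (hr : 0 < r) :
    |(((Finset.Ioc X (X + Y)).filter (fun n => n ≡ v [MOD r])).card : ℝ) - (Y : ℝ) / r| ≤ 1 := by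
  have h := Nat.Ioc_filter_modEq_card X (X + Y) hr v
  have hrQ : (0 : ℚ) < r := by exact_mod_cast hr
  set x : ℚ := (((X + Y : ℕ) : ℚ) - v) / r with hx
  set y : ℚ := ((X : ℚ) - v) / r with hy
  have hxy : x - y = (Y : ℚ) / r := by
    rw [hx, hy]; push_cast; field_simp; ring
  have hle : y ≤ x := by
    have : (0 : ℚ) ≤ (Y : ℚ) / r := by positivity
    linarith
  have hfl : ⌊y⌋ ≤ ⌊x⌋ := Int.floor_le_floor hle
  rw [max_eq_left (by omega)] at h
  have hq : |((((Finset.Ioc X (X + Y)).filter (fun n => n ≡ v [MOD r])).card : ℤ) : ℚ)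
      - (Y : ℚ) / r| ≤ 1 := by
    rw [h, ← hxy]
    push_cast
    have h1 := Int.floor_le x
    have h2 := Int.lt_floor_add_one x
    have h3 := Int.floor_le y
    have h4 := Int.lt_floor_add_one y
    rw [abs_le]
    constructor <;> linarith
  have := (Rat.cast_le (K := ℝ)).2 hq
  push_cast at this
  exact this

theorem abs_card_modEq_dvd_sub' (X Y D m a : ℕ) (hD : 0 < D) (hm : 0 < m)
    (hDm : Nat.Coprime D m) :
    |(((Finset.Ioc X (X + Y)).filter (fun n => n ≡ a [MOD D] ∧ m ∣ n)).card : ℝ)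
      - (Y : ℝ) / (D * m)| ≤ 1 := by
  obtain ⟨c, hc1, hc2⟩ := Nat.chineseRemainder hDm a 0
  have hset : (Finset.Ioc X (X + Y)).filter (fun n => n ≡ a [MOD D] ∧ m ∣ n)
      = (Finset.Ioc X (X + Y)).filter (fun n => n ≡ c [MOD (D * m)]) := by
    apply Finset.filter_congr
    intro n _
    rw [← Nat.modEq_and_modEq_iff_modEq_mul hDm]
    constructor
    · rintro ⟨h1, h2⟩
      exact ⟨h1.trans hc1.symm, ((Nat.modEq_zero_iff_dvd).2 h2).trans hc2.symm⟩
    · rintro ⟨h1, h2⟩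
      exact ⟨h1.trans hc1, (Nat.modEq_zero_iff_dvd).1 (h2.trans hc2)⟩
  rw [hset]
  have := abs_card_modEq_sub' X Y (D * m) c (by positivity)
  push_cast at this
  exact this

/-- `d ∑_{d ∣ l} 1/φ(l) ≤ G` -/
theorem mul_sum_le_Gsum {D R d : ℕ} (hd : d ∈ sqf D R) :
    (d : ℝ) * ∑ l ∈ (sqf D R).filter (fun l => d ∣ l), ((Nat.totient l : ℝ))⁻¹ ≤ Gsum D R := by
  have hd0 : 0 < d := (mem_sqf.1 hd).1.1
  set M := (sqf D R).filter (fun l => d ∣ l) with hM
  have key : ∀ l ∈ M, ∀ k ∈ d.divisors, ∃ m j, l = d * m ∧ d = k * j ∧ 0 < k ∧ 0 < j ∧ 0 < m ∧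
      l / d * k = k * m ∧ Nat.Coprime (k * m) j ∧ k * m ∈ sqf D R := by
    intro l hl k hk
    obtain ⟨hl1, m, rfl⟩ := Finset.mem_filter.1 hl
    obtain ⟨j, rfl⟩ := Nat.dvd_of_mem_divisors hk
    have hk0 : 0 < k := Nat.pos_of_mul_pos_right hd0
    have hj0 : 0 < j := Nat.pos_of_mul_pos_left hd0
    have hm0 : 0 < m := Nat.pos_of_mul_pos_left (mem_sqf.1 hl1).1.1
    refine ⟨m, j, rfl, rfl, hk0, hj0, hm0, ?_, ?_, ?_⟩
    · rw [Nat.mul_div_cancel_left m hd0, mul_comm]
    · have h := (mem_sqf.1 hl1).2.1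
      rw [show k * j * m = (k * m) * j by ring] at h
      exact Nat.coprime_of_squarefree_mul h
    · exact mem_sqf_of_dvd hl1 ⟨j, by ring⟩
  have h1 : (d : ℝ) * ∑ l ∈ M, ((Nat.totient l : ℝ))⁻¹
      = ∑ x ∈ M ×ˢ d.divisors, ((Nat.totient (x.1 / d * x.2) : ℝ))⁻¹ := by
    rw [Finset.sum_product, Finset.mul_sum]
    apply Finset.sum_congr rfl
    intro l hl
    have h2 : ∀ k ∈ d.divisors, ((Nat.totient (l / d * k) : ℝ))⁻¹
        = (Nat.totient (d / k) : ℝ) * ((Nat.totient l : ℝ))⁻¹ := by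
      intro k hk
      obtain ⟨m, j, h3, h4, hk0, hj0, hm0, h5, h6, h7⟩ := key l hl k hk
      have h8 : d / k = j := by rw [h4, Nat.mul_div_cancel_left j hk0]
      have h9 : l = (k * m) * j := by rw [h3, h4]; ring
      rw [h5, h8, h9, Nat.totient_mul h6]
      have : (0 : ℝ) < Nat.totient j := by exact_mod_cast Nat.totient_pos.2 hj0
      push_cast
      field_simp
    rw [Finset.sum_congr rfl h2, ← Finset.sum_mul]
    congr 1
    have h3 := Nat.sum_totient d
    rw [← Nat.sum_div_divisors d Nat.totient] at h3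
    exact_mod_cast h3.symm
  rw [h1]
  unfold Gsum
  have hinj : Set.InjOn (fun x : ℕ × ℕ => x.1 / d * x.2) (M ×ˢ d.divisors : Finset (ℕ × ℕ)) := by
    rintro ⟨l, k⟩ hx ⟨l', k'⟩ hx' h
    rw [Finset.mem_coe, Finset.mem_product] at hx hx'
    obtain ⟨m, j, h3, h4, hk0, hj0, hm0, h5, h6, h7⟩ := key l hx.1 k hx.2
    obtain ⟨m', j', h3', h4', hk0', hj0', hm0', h5', h6', h7'⟩ := key l' hx'.1 k' hx'.2
    simp only at h
    rw [h5, h5'] at h
    have e1 : ∀ k m j : ℕ, d = k * j → Nat.Coprime (k * m) j → Nat.gcd (k * m) d = k := by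
      intro k m j h h'
      have : Nat.gcd m j = 1 := Nat.Coprime.coprime_dvd_left ⟨k, by ring⟩ h'
      rw [h, Nat.gcd_mul_left, this, mul_one]
    have e2 : k = k' := by rw [← e1 k m j h4 h6, h, e1 k' m' j' h4' h6']
    subst e2
    have e3 : m = m' := Nat.eq_of_mul_eq_mul_left hk0 h
    subst e3
    rw [h3, h3']
  calc ∑ x ∈ M ×ˢ d.divisors, ((Nat.totient (x.1 / d * x.2) : ℝ))⁻¹
      = ∑ y ∈ (M ×ˢ d.divisors).image (fun x : ℕ × ℕ => x.1 / d * x.2),
          ((Nat.totient y : ℝ))⁻¹ := by rw [Finset.sum_image hinj]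
    _ ≤ ∑ y ∈ sqf D R, ((Nat.totient y : ℝ))⁻¹ := by
        apply Finset.sum_le_sum_of_subset_of_nonneg
        · intro y hy
          rw [Finset.mem_image] at hy
          obtain ⟨⟨l, k⟩, hx, rfl⟩ := hy
          rw [Finset.mem_product] at hx
          obtain ⟨m, j, h3, h4, hk0, hj0, hm0, h5, h6, h7⟩ := key l hx.1 k hx.2
          simp only
          rw [h5]
          exact h7
        · intro i _ _
          positivity

theorem abs_lam_le_one {D R d : ℕ} (hR : 1 ≤ R) (hd : d ∈ sqf D R) : |lam D R d| ≤ 1 := by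
  have hG := Gsum_pos (D := D) hR
  have hμ : |(ArithmeticFunction.moebius d : ℝ)| ≤ 1 := by
    have := ArithmeticFunction.abs_moebius_le_one (n := d)
    exact_mod_cast this
  have hS0 : 0 ≤ ∑ l ∈ (sqf D R).filter (fun l => d ∣ l), ((Nat.totient l : ℝ))⁻¹ :=
    Finset.sum_nonneg (fun i _ => by positivity)
  unfold lam
  rw [abs_div, abs_mul, abs_mul, abs_of_pos hG, abs_of_nonneg hS0, Nat.abs_cast,
    div_le_one hG, mul_assoc]
  calc |(ArithmeticFunction.moebius d : ℝ)| * _ ≤ 1 * _ := by gcongr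
    _ = _ := one_mul _
    _ ≤ Gsum D R := mul_sum_le_Gsum hd

theorem sum_abs_lam_le' {D R : ℕ} (hR : 1 ≤ R) : ∑ d ∈ sqf D R, |lam D R d| ≤ (R : ℝ) := by
  have h2 := Finset.sum_le_card_nsmul (sqf D R) _ _ (fun d hd => abs_lam_le_one hR hd)
  have h3 : (sqf D R).card ≤ R := by
    calc (sqf D R).card ≤ (Finset.Icc 1 R).card := Finset.card_filter_le _ _
      _ = R := by simp
  have h4 : ((sqf D R).card : ℝ) ≤ R := by exact_mod_cast h3
  rw [nsmul_eq_mul, mul_one] at h2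
  linarith

/-- the sieve bound on intervals -/
theorem sieve_bound' {D R X Y a : ℕ} (hD : 0 < D) (hR : 1 ≤ R) (hRX : R ≤ X) :
    (((Finset.Ioc X (X + Y)).filter (fun p => p.Prime ∧ p ≡ a [MOD D])).card : ℝ)
      ≤ (Y : ℝ) / (D * Gsum D R) + (R : ℝ) ^ 2 := by
  have hG := Gsum_pos (D := D) hR
  -- the weighted sum
  have h1 : (((Finset.Ioc X (X + Y)).filter (fun p => p.Prime ∧ p ≡ a [MOD D])).card : ℝ)
      ≤ ∑ n ∈ (Finset.Ioc X (X + Y)).filter (fun n => n ≡ a [MOD D]),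
        (∑ d ∈ sqf D R, if d ∣ n then lam D R d else 0) ^ 2 := by
    have h2 : (((Finset.Ioc X (X + Y)).filter (fun p => p.Prime ∧ p ≡ a [MOD D])).card : ℝ)
        = ∑ n ∈ (Finset.Ioc X (X + Y)).filter (fun p => p.Prime ∧ p ≡ a [MOD D]),
        (∑ d ∈ sqf D R, if d ∣ n then lam D R d else 0) ^ 2 := by
      rw [Finset.card_eq_sum_ones]
      push_cast
      apply Finset.sum_congr rfl
      intro p hp
      rw [Finset.mem_filter, Finset.mem_Ioc] at hp
      obtain ⟨⟨hp1, hp2⟩, hp3, hp4⟩ := hp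
      have : ∑ d ∈ sqf D R, (if d ∣ p then lam D R d else 0) = 1 := by
        rw [Finset.sum_eq_single 1]
        · simp [lam_one hR]
        · intro d hd hd1
          rw [if_neg]
          intro hdp
          rcases (Nat.dvd_prime hp3).1 hdp with h | h
          · exact hd1 h
          · have := (mem_sqf.1 hd).1.2
            omega
        · intro h
          exact absurd (one_mem_sqf hR) h
      rw [this]; norm_num
    rw [h2]
    apply Finset.sum_le_sum_of_subset_of_nonneg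
    · intro p hp
      rw [Finset.mem_filter] at hp ⊢
      exact ⟨hp.1, hp.2.2⟩
    · intro i _ _; positivity
  refine h1.trans ?_
  have h3 : ∑ n ∈ (Finset.Ioc X (X + Y)).filter (fun n => n ≡ a [MOD D]),
        (∑ d ∈ sqf D R, if d ∣ n then lam D R d else 0) ^ 2
      = ∑ d ∈ sqf D R, ∑ e ∈ sqf D R, lam D R d * lam D R e *
        (((Finset.Ioc X (X + Y)).filter (fun n => n ≡ a [MOD D] ∧ Nat.lcm d e ∣ n)).card : ℝ) := by
    have h4 : ∀ n, (∑ d ∈ sqf D R, if d ∣ n then lam D R d else 0) ^ 2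
        = ∑ d ∈ sqf D R, ∑ e ∈ sqf D R,
          (if Nat.lcm d e ∣ n then lam D R d * lam D R e else 0) := by
      intro n
      rw [sq, Finset.sum_mul_sum]
      apply Finset.sum_congr rfl; intro d _
      apply Finset.sum_congr rfl; intro e _
      by_cases h5 : d ∣ n <;> by_cases h6 : e ∣ n <;> simp [h5, h6, Nat.lcm_dvd_iff]
    simp_rw [h4]
    rw [Finset.sum_comm]
    apply Finset.sum_congr rfl; intro d _
    rw [Finset.sum_comm]
    apply Finset.sum_congr rfl; intro e _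
    rw [← Finset.sum_filter, Finset.filter_filter, Finset.sum_const, nsmul_eq_mul]
    ring
  rw [h3]
  have h5 : ∀ d ∈ sqf D R, ∀ e ∈ sqf D R, lam D R d * lam D R e *
        (((Finset.Ioc X (X + Y)).filter (fun n => n ≡ a [MOD D] ∧ Nat.lcm d e ∣ n)).card : ℝ)
      ≤ (Y : ℝ) / D * (lam D R d * lam D R e / (Nat.lcm d e : ℝ)) + |lam D R d| * |lam D R e| := by
    intro d hd e he
    have hdD := (mem_sqf.1 hd).2.2
    have heD := (mem_sqf.1 he).2.2
    have hl0 : 0 < Nat.lcm d e := Nat.lcm_pos (mem_sqf.1 hd).1.1 (mem_sqf.1 he).1.1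
    have hcop : Nat.Coprime D (Nat.lcm d e) := by
      apply Nat.Coprime.coprime_dvd_right (Nat.lcm_dvd_mul d e)
      exact Nat.Coprime.mul_right hdD.symm heD.symm
    have h6 := abs_card_modEq_dvd_sub' X Y D (Nat.lcm d e) a hD hl0 hcop
    set c : ℝ := (((Finset.Ioc X (X + Y)).filter (fun n => n ≡ a [MOD D] ∧
      Nat.lcm d e ∣ n)).card : ℝ)
    have h7 : lam D R d * lam D R e * c
        = (Y : ℝ) / D * (lam D R d * lam D R e / (Nat.lcm d e : ℝ))
          + lam D R d * lam D R e * (c - (Y : ℝ) / (D * (Nat.lcm d e : ℝ))) := by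
      have : (D : ℝ) ≠ 0 := by positivity
      have : (Nat.lcm d e : ℝ) ≠ 0 := by positivity
      field_simp
      ring
    rw [h7]
    have h8 : lam D R d * lam D R e * (c - (Y : ℝ) / (D * (Nat.lcm d e : ℝ)))
        ≤ |lam D R d| * |lam D R e| := by
      calc lam D R d * lam D R e * (c - (Y : ℝ) / (D * (Nat.lcm d e : ℝ)))
          ≤ |lam D R d * lam D R e * (c - (Y : ℝ) / (D * (Nat.lcm d e : ℝ)))| := le_abs_self _
        _ = |lam D R d| * |lam D R e| * |c - (Y : ℝ) / (D * (Nat.lcm d e : ℝ))| := by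
            rw [abs_mul, abs_mul]
        _ ≤ |lam D R d| * |lam D R e| * 1 := by gcongr
        _ = |lam D R d| * |lam D R e| := by ring
    linarith
  calc _ ≤ ∑ d ∈ sqf D R, ∑ e ∈ sqf D R,
        ((Y : ℝ) / D * (lam D R d * lam D R e / (Nat.lcm d e : ℝ)) + |lam D R d| * |lam D R e|) :=
        Finset.sum_le_sum (fun d hd => Finset.sum_le_sum (fun e he => h5 d hd e he))
    _ = (Y : ℝ) / D * (∑ d ∈ sqf D R, ∑ e ∈ sqf D R, lam D R d * lam D R e / (Nat.lcm d e : ℝ))
        + (∑ d ∈ sqf D R, |lam D R d|) * (∑ d ∈ sqf D R, |lam D R d|) := by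
        simp_rw [Finset.sum_add_distrib]
        rw [Finset.sum_mul_sum]
        simp_rw [Finset.mul_sum]
    _ ≤ (Y : ℝ) / (D * Gsum D R) + (R : ℝ) ^ 2 := by
        rw [main_sum hR]
        have h8 := sum_abs_lam_le' (D := D) hR
        have h9 : 0 ≤ ∑ d ∈ sqf D R, |lam D R d| := Finset.sum_nonneg (fun _ _ => abs_nonneg _)
        have h10 : (∑ d ∈ sqf D R, |lam D R d|) * (∑ d ∈ sqf D R, |lam D R d|) ≤ (R : ℝ) ^ 2 := by
          calc _ ≤ (R : ℝ) * (R : ℝ) := by gcongr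
            _ = (R : ℝ) ^ 2 := by ring
        have h11 : (Y : ℝ) / D * (Gsum D R)⁻¹ = (Y : ℝ) / (D * Gsum D R) := by
          rw [← div_eq_mul_inv, div_div]
        rw [h11]
        linarith

/-- Brun-Titchmarsh.  No coprimality of `v` and `u` is needed (only primes not dividing `u` sieve). -/
theorem bt {X Y u v R : ℕ} (hu : 0 < u) (hR : 1 ≤ R) (hRX : R ≤ X) :
    (((Finset.Ioc X (X + Y)).filter (fun q => q.Prime ∧ q ≡ v [MOD u])).card : ℝ) ≤
      (Y : ℝ) / (Nat.totient u * Real.log (R + 1)) + (R : ℝ) ^ 2 := by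
  refine (sieve_bound' hu hR hRX).trans ?_
  have hφ : (0 : ℝ) < Nat.totient u := by exact_mod_cast Nat.totient_pos.2 hu
  have hu' : (0 : ℝ) < u := by exact_mod_cast hu
  have hR' : (1 : ℝ) ≤ R := by exact_mod_cast hR
  have hlog : 0 < Real.log (R + 1) := Real.log_pos (by linarith)
  have h1 := Gsum_ge (R := R) hu
  have h2 : Nat.totient u * Real.log (R + 1) ≤ u * Gsum u R := by
    have h3 : (Nat.totient u : ℝ) * Real.log (R + 1)
        = u * ((Nat.totient u : ℝ) / u * Real.log (R + 1)) := by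
      field_simp
    rw [h3]
    gcongr
  have : (Y : ℝ) / (u * Gsum u R) ≤ (Y : ℝ) / (Nat.totient u * Real.log (R + 1)) := by
    apply div_le_div_of_nonneg_left (by positivity) (by positivity) h2
  linarith

end Pool.Agent.Work.MP_713a1e_co.E
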