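import Pool.Agent.Work.MP_713a1e_co.E.Defs

/-!
# JOB A0: average of `S/φ(S)` over even `S`

`S/φ(S) = ∑_{d ∣ S} μ²(d)/φ(d)`.  Sum over even `S ∈ (A, A+B]`: `≤ ∑_{d ≤ A+B} μ²(d)/φ(d) (B/lcm(2,d) + 1)`,
`∑_d μ²(d)/(φ(d) lcm(2,d)) = ∏_{ϖ ≥ 3} (1 + 1/(ϖ(ϖ-1))) = 1.2957… ≤ 1.39`
(`(7/6)(21/20)(43/42) exp(∑_{k ≥ 11} 1/(k(k-1))) = 1.2542 exp(1/10) = 1.3861`), the second sum is at
most `(log_2 N + 1) (1 + log N)`.
Also the sums over primes needed in `Select.lean`: with `x_ℓ = (ℓ/(ℓ-1)²)²`,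
`∑_{7 ≤ ℓ ≤ N} x_ℓ ≤ 0.081` (primes up to 100 explicitly, then odd numbers; true value 0.0767).
-/

namespace Pool.Agent.Work.MP_713a1e_co.E

namespace AvgPhi

/-! ### Products over sets of primes -/

theorem prod_div_le (s : Finset ℕ) (hs : ∀ p ∈ s, 2 ≤ p) :
    ∏ p ∈ s, ((p : ℝ) / ((p : ℝ) - 1)) ≤ s.card + 1 := by
  have hcard : ∀ t : Finset ℕ, (∀ p ∈ t, 2 ≤ p) → ∀ a, (∀ p ∈ t, p < a) → t.card + 2 ≤ a ∨ t = ∅ := by
    intro t ht a ha
    rcases t.eq_empty_or_nonempty with h | h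
    · exact Or.inr h
    · left
      have hsub : t ⊆ Finset.Ico 2 a := fun p hp => Finset.mem_Ico.mpr ⟨ht p hp, ha p hp⟩
      have h1 := Finset.card_le_card hsub
      rw [Nat.card_Ico] at h1
      have h2 := Finset.card_pos.mpr h
      omega
  induction s using Finset.induction_on_max with
  | empty => simp
  | insert a t hlt ih =>
    have hna : a ∉ t := fun h => lt_irrefl _ (hlt a h)
    have ht : ∀ p ∈ t, 2 ≤ p := fun p hp => hs p (Finset.mem_insert_of_mem hp)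
    have h2a : 2 ≤ a := hs a (Finset.mem_insert_self _ _)
    have ih' := ih ht
    have ha : t.card + 2 ≤ a := by
      rcases hcard t ht a hlt with h | h
      · exact h
      · rw [h]; simpa using h2a
    rw [Finset.prod_insert hna, Finset.card_insert_of_notMem hna]
    have haR : (t.card : ℝ) + 2 ≤ a := by exact_mod_cast ha
    have hk : (0 : ℝ) ≤ t.card := Nat.cast_nonneg _
    have hpos : (0 : ℝ) < (a : ℝ) - 1 := by linarith
    have h1 : (a : ℝ) / ((a : ℝ) - 1) ≤ (t.card + 2) / (t.card + 1) := by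
      rw [div_le_div_iff₀ hpos (by linarith)]
      nlinarith
    calc (a : ℝ) / ((a : ℝ) - 1) * ∏ p ∈ t, ((p : ℝ) / ((p : ℝ) - 1))
        ≤ (t.card + 2) / (t.card + 1) * (t.card + 1) := by
          refine mul_le_mul h1 ih' ?_ (by positivity)
          refine Finset.prod_nonneg fun p hp => ?_
          have : (2 : ℝ) ≤ p := by exact_mod_cast ht p hp
          exact div_nonneg (by linarith) (by linarith)
      _ = ((t.card + 1 : ℕ) : ℝ) + 1 := by
          push_cast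
          field_simp
          ring

theorem prod_inv_le (s : Finset ℕ) (hs : ∀ p ∈ s, p.Prime) {N : ℕ} (hN : ∏ p ∈ s, p ≤ N) :
    ∏ p ∈ s, (1 / ((p : ℝ) - 1)) ≤ ((Nat.log 2 N + 1 : ℕ) : ℝ) * (1 / ((∏ p ∈ s, p : ℕ) : ℝ)) := by
  have h2 : ∀ p ∈ s, 2 ≤ p := fun p hp => (hs p hp).two_le
  have hcard : s.card ≤ Nat.log 2 N := by
    have h3 : 2 ^ s.card ≤ ∏ p ∈ s, p := Finset.pow_card_le_prod _ _ _ h2
    exact Nat.le_log_of_pow_le (by norm_num) (h3.trans hN)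
  have h1 := prod_div_le s h2
  have hpos : (0 : ℝ) < ((∏ p ∈ s, p : ℕ) : ℝ) := by
    exact_mod_cast Finset.prod_pos fun p hp => (hs p hp).pos
  have h4 : ∏ p ∈ s, (1 / ((p : ℝ) - 1)) =
      (∏ p ∈ s, ((p : ℝ) / ((p : ℝ) - 1))) * (1 / ((∏ p ∈ s, p : ℕ) : ℝ)) := by
    push_cast
    rw [Finset.prod_div_distrib, Finset.prod_div_distrib, Finset.prod_const_one]
    have hpos' : (∏ p ∈ s, (p : ℝ)) ≠ 0 := by
      have := hpos.ne'
      push_cast at this
      exact this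
    field_simp
  rw [h4]
  refine mul_le_mul_of_nonneg_right (h1.trans ?_) (by positivity)
  push_cast
  have : (s.card : ℝ) ≤ Nat.log 2 N := by exact_mod_cast hcard
  linarith

theorem sum_small (P : Finset ℕ) (hP : ∀ p ∈ P, p.Prime) (N : ℕ) :
    ∑ s ∈ P.powerset.filter (fun s => ∏ p ∈ s, p ≤ N), ∏ p ∈ s, (1 / ((p : ℝ) - 1)) ≤
      ((Nat.log 2 N + 1 : ℕ) : ℝ) * (1 + Real.log N) := by
  classical
  have hprime : ∀ s ∈ P.powerset, ∀ p ∈ s, p.Prime := fun s hs p hp =>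
    hP p (Finset.mem_powerset.mp hs hp)
  calc ∑ s ∈ P.powerset.filter (fun s => ∏ p ∈ s, p ≤ N), ∏ p ∈ s, (1 / ((p : ℝ) - 1))
      ≤ ∑ s ∈ P.powerset.filter (fun s => ∏ p ∈ s, p ≤ N),
          ((Nat.log 2 N + 1 : ℕ) : ℝ) * (1 / ((∏ p ∈ s, p : ℕ) : ℝ)) := by
        refine Finset.sum_le_sum fun s hs => ?_
        rw [Finset.mem_filter] at hs
        exact prod_inv_le s (hprime s hs.1) hs.2
    _ = ((Nat.log 2 N + 1 : ℕ) : ℝ) *
          ∑ s ∈ P.powerset.filter (fun s => ∏ p ∈ s, p ≤ N), (1 / ((∏ p ∈ s, p : ℕ) : ℝ)) := by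
        rw [Finset.mul_sum]
    _ ≤ ((Nat.log 2 N + 1 : ℕ) : ℝ) * ∑ d ∈ Finset.Icc 1 N, (1 / (d : ℝ)) := by
        refine mul_le_mul_of_nonneg_left ?_ (Nat.cast_nonneg _)
        have hinj : Set.InjOn (fun s : Finset ℕ => ∏ p ∈ s, p)
            (P.powerset.filter (fun s => ∏ p ∈ s, p ≤ N)) := by
          intro s hs t ht hst
          have hs' := (Finset.mem_filter.mp (Finset.mem_coe.mp hs)).1
          have ht' := (Finset.mem_filter.mp (Finset.mem_coe.mp ht)).1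
          have h1 := Nat.primeFactors_prod (hprime s hs')
          have h2 := Nat.primeFactors_prod (hprime t ht')
          simp only at hst
          rw [← h1, ← h2, hst]
        rw [← Finset.sum_image (f := fun d : ℕ => (1 / (d : ℝ))) hinj]
        refine Finset.sum_le_sum_of_subset_of_nonneg ?_ (fun _ _ _ => by positivity)
        intro d hd
        obtain ⟨s, hs, rfl⟩ := Finset.mem_image.mp hd
        rw [Finset.mem_filter] at hs
        exact Finset.mem_Icc.mpr ⟨Finset.prod_pos fun p hp => (hprime s hs.1 p hp).pos, hs.2⟩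
    _ ≤ ((Nat.log 2 N + 1 : ℕ) : ℝ) * (1 + Real.log N) := by
        refine mul_le_mul_of_nonneg_left ?_ (Nat.cast_nonneg _)
        have h := harmonic_le_one_add_log N
        rw [harmonic_eq_sum_Icc] at h
        push_cast at h
        simpa [one_div] using h


/-! ### `S / φ(S)` as a sum over sets of odd primes -/

/-- The odd primes up to `M`. -/
def oddPr (M : ℕ) : Finset ℕ := (Finset.Icc 3 M).filter Nat.Prime

theorem mem_oddPr {M p : ℕ} : p ∈ oddPr M ↔ (3 ≤ p ∧ p ≤ M) ∧ p.Prime := by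
  simp [oddPr]

theorem div_totient {S M : ℕ} (hS : 0 < S) (he : Even S) (hM : S ≤ M) :
    (S : ℝ) / Nat.totient S =
      2 * ∑ s ∈ ((oddPr M).filter (fun p => p ∣ S)).powerset, ∏ p ∈ s, (1 / ((p : ℝ) - 1)) := by
  have h1 : (Nat.totient S : ℝ) = S * ∏ p ∈ S.primeFactors, (1 - (p : ℝ)⁻¹) := by
    have h := Nat.totient_eq_mul_prod_factors S
    have h' : ((Nat.totient S : ℚ) : ℝ) = ((S * ∏ p ∈ S.primeFactors, (1 - (p : ℚ)⁻¹) : ℚ) : ℝ) := by
      rw [h]
    push_cast at h'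
    exact h'
  have hpf : S.primeFactors = insert 2 ((oddPr M).filter (fun p => p ∣ S)) := by
    ext p
    rw [Nat.mem_primeFactors, Finset.mem_insert, Finset.mem_filter, mem_oddPr]
    constructor
    · rintro ⟨hp, hd, -⟩
      have hle := Nat.le_of_dvd hS hd
      rcases hp.two_le.eq_or_lt with h | h
      · exact Or.inl h.symm
      · exact Or.inr ⟨⟨⟨h, hle.trans hM⟩, hp⟩, hd⟩
    · rintro (h | ⟨⟨-, hp⟩, hd⟩)
      · subst h
        exact ⟨Nat.prime_two, he.two_dvd, hS.ne'⟩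
      · exact ⟨hp, hd, hS.ne'⟩
  have h2 : (2 : ℕ) ∉ (oddPr M).filter (fun p => p ∣ S) := by
    rw [Finset.mem_filter, mem_oddPr]
    rintro ⟨⟨⟨h, -⟩, -⟩, -⟩
    omega
  have hS' : (S : ℝ) ≠ 0 := by exact_mod_cast hS.ne'
  rw [h1, hpf, Finset.prod_insert h2, ← Finset.prod_one_add]
  have h3 : ∏ p ∈ (oddPr M).filter (fun p => p ∣ S), (1 + 1 / ((p : ℝ) - 1)) =
      (∏ p ∈ (oddPr M).filter (fun p => p ∣ S), (1 - (p : ℝ)⁻¹))⁻¹ := by
    rw [← Finset.prod_inv_distrib]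
    refine Finset.prod_congr rfl fun p hp => ?_
    rw [Finset.mem_filter, mem_oddPr] at hp
    have h3 : (3 : ℝ) ≤ p := by exact_mod_cast hp.1.1.1
    have h4 : (p : ℝ) - 1 ≠ 0 := by linarith
    have h5 : (p : ℝ) ≠ 0 := by linarith
    have h6 : (1 : ℝ) - (p : ℝ)⁻¹ ≠ 0 := by
      rw [← one_div, sub_ne_zero]
      intro h
      rw [eq_div_iff h5] at h
      linarith
    field_simp
    ring
  rw [h3, div_mul_eq_div_div, div_self hS']
  norm_num
  rw [mul_comm]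

theorem card_mult (A B m : ℕ) (hm : 0 < m) :
    (((Finset.Ioc A (A + B)).filter (fun S => m ∣ S)).card : ℝ) ≤ B / m + 1 := by
  have h1 : ((Finset.Ioc A (A + B)).filter (fun S => m ∣ S)).card = (A + B) / m - A / m := by
    have h := Nat.Ioc_filter_dvd_card_eq_div (A + B) m
    have h' := Nat.Ioc_filter_dvd_card_eq_div A m
    have hu : (Finset.Ioc 0 (A + B)).filter (fun S => m ∣ S) =
        (Finset.Ioc 0 A).filter (fun S => m ∣ S) ∪ (Finset.Ioc A (A + B)).filter (fun S => m ∣ S) := by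
      rw [← Finset.filter_union, Finset.Ioc_union_Ioc_eq_Ioc (Nat.zero_le _) (Nat.le_add_right _ _)]
    have hd : Disjoint ((Finset.Ioc 0 A).filter (fun S => m ∣ S))
        ((Finset.Ioc A (A + B)).filter (fun S => m ∣ S)) := by
      rw [Finset.disjoint_left]
      intro x hx hy
      simp only [Finset.mem_filter, Finset.mem_Ioc] at hx hy
      omega
    rw [hu, Finset.card_union_of_disjoint hd, h'] at h
    omega
  have h2 : (A + B) / m ≤ A / m + (B / m + 1) := by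
    rw [Nat.div_le_iff_le_mul_add_pred hm]
    have h3 := Nat.div_add_mod A m
    have h4 := Nat.div_add_mod B m
    have h5 := Nat.mod_lt A hm
    have h6 := Nat.mod_lt B hm
    have h7 : m * (A / m + (B / m + 1)) = m * (A / m) + m * (B / m) + m := by ring
    omega
  have h3 : (A + B) / m - A / m ≤ B / m + 1 := Nat.sub_le_iff_le_add'.mpr h2
  rw [h1]
  calc (((A + B) / m - A / m : ℕ) : ℝ) ≤ ((B / m + 1 : ℕ) : ℝ) := by exact_mod_cast h3
    _ = ((B / m : ℕ) : ℝ) + 1 := by push_cast; ring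
    _ ≤ B / m + 1 := by
      have := @Nat.cast_div_le ℝ _ _ _ B m
      linarith

theorem two_prod_dvd {s : Finset ℕ} {M S : ℕ} (hs : s ⊆ oddPr M) (he : Even S)
    (h : ∀ p ∈ s, p ∣ S) : 2 * ∏ p ∈ s, p ∣ S := by
  have h1 : ∏ p ∈ s, p ∣ S := by
    refine Finset.prod_primes_dvd S ?_ h
    intro p hp
    exact (mem_oddPr.mp (hs hp)).2.prime
  refine Nat.Coprime.mul_dvd_of_dvd_of_dvd ?_ he.two_dvd h1
  refine Nat.Coprime.prod_right fun p hp => ?_
  have hp' := mem_oddPr.mp (hs hp)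
  rw [Nat.coprime_primes Nat.prime_two hp'.2]
  omega

theorem avg_phi_aux (A B : ℕ) :
    ∑ S ∈ (Finset.Ioc A (A + B)).filter (fun S => Even S), (S : ℝ) / Nat.totient S ≤
      B * ∏ p ∈ oddPr (A + B), (1 + 1 / ((p : ℝ) * ((p : ℝ) - 1))) +
      2 * (((Nat.log 2 ((A + B) / 2) + 1 : ℕ) : ℝ) * (1 + Real.log (((A + B) / 2 : ℕ) : ℝ))) := by
  classical
  set E := (Finset.Ioc A (A + B)).filter (fun S => Even S) with hE
  set P := oddPr (A + B) with hP
  have hPp : ∀ p ∈ P, p.Prime := fun p hp => (mem_oddPr.mp hp).2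
  have hg0 : ∀ s ∈ P.powerset, 0 ≤ ∏ p ∈ s, (1 / ((p : ℝ) - 1)) := by
    intro s hs
    refine Finset.prod_nonneg fun p hp => ?_
    have h3 := (mem_oddPr.mp (Finset.mem_powerset.mp hs hp)).1.1
    have : (3 : ℝ) ≤ p := by exact_mod_cast h3
    exact div_nonneg (by norm_num) (by linarith)
  have hd0 : ∀ s ∈ P.powerset, 0 < ∏ p ∈ s, p := by
    intro s hs
    exact Finset.prod_pos fun p hp => (hPp p (Finset.mem_powerset.mp hs hp)).pos
  have h1 : ∀ S ∈ E, (S : ℝ) / Nat.totient S =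
      2 * ∑ s ∈ P.powerset, if (∀ p ∈ s, p ∣ S) then ∏ p ∈ s, (1 / ((p : ℝ) - 1)) else 0 := by
    intro S hS
    rw [hE, Finset.mem_filter, Finset.mem_Ioc] at hS
    rw [div_totient (M := A + B) (by omega) hS.2 hS.1.2, ← Finset.sum_filter]
    congr 1
    refine Finset.sum_congr ?_ fun _ _ => rfl
    ext s
    simp only [Finset.mem_powerset, Finset.mem_filter, Finset.subset_iff]
    constructor
    · intro h
      exact ⟨fun p hp => (h hp).1, fun p hp => (h hp).2⟩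
    · rintro ⟨h, h'⟩ p hp
      exact ⟨h hp, h' p hp⟩
  rw [Finset.sum_congr rfl h1, ← Finset.mul_sum, Finset.sum_comm]
  have h2 : ∀ s ∈ P.powerset,
      (∑ S ∈ E, if (∀ p ∈ s, p ∣ S) then ∏ p ∈ s, (1 / ((p : ℝ) - 1)) else 0) ≤
      (B : ℝ) / 2 * ∏ p ∈ s, (1 / ((p : ℝ) * ((p : ℝ) - 1))) +
      (if ∏ p ∈ s, p ≤ (A + B) / 2 then ∏ p ∈ s, (1 / ((p : ℝ) - 1)) else 0) := by
    intro s hs
    have hsP := Finset.mem_powerset.mp hs
    rw [← Finset.sum_filter, Finset.sum_const, nsmul_eq_mul]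
    have hgs := hg0 s hs
    have hds := hd0 s hs
    have hsub : E.filter (fun S => ∀ p ∈ s, p ∣ S) ⊆
        (Finset.Ioc A (A + B)).filter (fun S => 2 * ∏ p ∈ s, p ∣ S) := by
      intro S hS
      rw [Finset.mem_filter, hE, Finset.mem_filter] at hS
      rw [Finset.mem_filter]
      exact ⟨hS.1.1, two_prod_dvd hsP hS.1.2 hS.2⟩
    have hprod : ∏ p ∈ s, (1 / ((p : ℝ) * ((p : ℝ) - 1))) =
        (1 / ((∏ p ∈ s, p : ℕ) : ℝ)) * ∏ p ∈ s, (1 / ((p : ℝ) - 1)) := by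
      push_cast
      rw [one_div, ← Finset.prod_inv_distrib, ← Finset.prod_mul_distrib]
      refine Finset.prod_congr rfl fun p _ => ?_
      rw [one_div, one_div, mul_inv]
    have hdR : (0 : ℝ) < ((∏ p ∈ s, p : ℕ) : ℝ) := by exact_mod_cast hds
    by_cases hle : ∏ p ∈ s, p ≤ (A + B) / 2
    · rw [if_pos hle, hprod]
      have h3 := card_mult A B (2 * ∏ p ∈ s, p) (by omega)
      have h4 : ((E.filter (fun S => ∀ p ∈ s, p ∣ S)).card : ℝ) ≤
          ((Finset.Ioc A (A + B)).filter (fun S => 2 * ∏ p ∈ s, p ∣ S)).card := by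
        exact_mod_cast Finset.card_le_card hsub
      have h5 := h4.trans h3
      calc ((E.filter (fun S => ∀ p ∈ s, p ∣ S)).card : ℝ) * ∏ p ∈ s, (1 / ((p : ℝ) - 1))
          ≤ ((B : ℝ) / ((2 * ∏ p ∈ s, p : ℕ) : ℝ) + 1) * ∏ p ∈ s, (1 / ((p : ℝ) - 1)) :=
            mul_le_mul_of_nonneg_right h5 hgs
        _ = _ := by
          push_cast
          have hdR' : (∏ p ∈ s, (p : ℝ)) ≠ 0 := by
            have := hdR.ne'
            push_cast at this
            exact this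
          field_simp
    · rw [if_neg hle]
      have h6 : E.filter (fun S => ∀ p ∈ s, p ∣ S) = ∅ := by
        rw [Finset.eq_empty_iff_forall_notMem]
        intro S hS
        have h7 := hsub hS
        rw [Finset.mem_filter, Finset.mem_Ioc] at h7
        have h8 := Nat.le_of_dvd (by omega) h7.2
        omega
      rw [h6, hprod]
      simp only [Finset.card_empty, Nat.cast_zero, zero_mul, add_zero]
      positivity
  calc 2 * ∑ s ∈ P.powerset, ∑ S ∈ E,
        (if (∀ p ∈ s, p ∣ S) then ∏ p ∈ s, (1 / ((p : ℝ) - 1)) else 0)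
      ≤ 2 * ∑ s ∈ P.powerset, ((B : ℝ) / 2 * ∏ p ∈ s, (1 / ((p : ℝ) * ((p : ℝ) - 1))) +
      (if ∏ p ∈ s, p ≤ (A + B) / 2 then ∏ p ∈ s, (1 / ((p : ℝ) - 1)) else 0)) := by
        refine mul_le_mul_of_nonneg_left (Finset.sum_le_sum h2) (by norm_num)
    _ = B * ∏ p ∈ P, (1 + 1 / ((p : ℝ) * ((p : ℝ) - 1))) +
        2 * ∑ s ∈ P.powerset.filter (fun s => ∏ p ∈ s, p ≤ (A + B) / 2),
          ∏ p ∈ s, (1 / ((p : ℝ) - 1)) := by
        rw [Finset.sum_add_distrib, ← Finset.mul_sum, ← Finset.prod_one_add, Finset.sum_filter]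
        ring
    _ ≤ _ := by
        have := sum_small P hPp ((A + B) / 2)
        linarith

/-! ### The main product -/

theorem exp_tenth : Real.exp (1 / 10) ≤ 1.10518 := by
  by_contra h
  push Not at h
  have h1 : Real.exp 1 = Real.exp (1 / 10) ^ 10 := by
    rw [← Real.exp_nat_mul]
    norm_num
  have h2 := Real.exp_one_lt_d9
  have h3 : (1.10518 : ℝ) ^ 10 ≤ Real.exp (1 / 10) ^ 10 :=
    pow_le_pow_left₀ (by norm_num) h.le 10
  rw [← h1] at h3
  norm_num at h2 h3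
  linarith

theorem tele (M : ℕ) (hM : 10 ≤ M) :
    ∑ k ∈ Finset.Ioc 10 M, (1 / ((k : ℝ) * ((k : ℝ) - 1))) = 1 / 10 - 1 / M := by
  induction M, hM using Nat.le_induction with
  | base => norm_num
  | succ n hn ih =>
    rw [← Finset.insert_Ioc_right_eq_Ioc_add_one (by omega), Finset.sum_insert (by simp), ih]
    have h : (10 : ℝ) ≤ n := by exact_mod_cast hn
    have h1 : (n : ℝ) ≠ 0 := by linarith
    have h2 : (n : ℝ) + 1 ≠ 0 := by linarith
    push_cast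
    have h3 : (n : ℝ) + 1 - 1 ≠ 0 := by
      rw [add_sub_cancel_right]
      exact h1
    field_simp
    ring

theorem prod_le (M : ℕ) (hM : 10 ≤ M) :
    ∏ p ∈ oddPr M, (1 + 1 / ((p : ℝ) * ((p : ℝ) - 1))) ≤ 1.3861 := by
  have hsplit : oddPr M = {3, 5, 7} ∪ (Finset.Ioc 10 M).filter Nat.Prime := by
    ext p
    rw [mem_oddPr, Finset.mem_union, Finset.mem_filter, Finset.mem_Ioc]
    constructor
    · rintro ⟨⟨h3, hp⟩, hpr⟩
      by_cases h : p ≤ 10
      · left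
        have h10 : ∀ q : ℕ, 3 ≤ q → q ≤ 10 → q.Prime → q ∈ ({3, 5, 7} : Finset ℕ) := by
          intro q hq3 hq10 hq
          interval_cases q
          · simp
          · exact absurd hq (by norm_num)
          · simp
          · exact absurd hq (by norm_num)
          · simp
          · exact absurd hq (by norm_num)
          · exact absurd hq (by norm_num)
          · exact absurd hq (by norm_num)
        exact h10 p h3 h hpr
      · right
        exact ⟨⟨by omega, hp⟩, hpr⟩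
    · rintro (h | ⟨⟨h, hp⟩, hpr⟩)
      · simp only [Finset.mem_insert, Finset.mem_singleton] at h
        rcases h with rfl | rfl | rfl
        · exact ⟨⟨by norm_num, by omega⟩, by norm_num⟩
        · exact ⟨⟨by norm_num, by omega⟩, by norm_num⟩
        · exact ⟨⟨by norm_num, by omega⟩, by norm_num⟩
      · exact ⟨⟨by omega, hp⟩, hpr⟩
  have hdisj : Disjoint ({3, 5, 7} : Finset ℕ) ((Finset.Ioc 10 M).filter Nat.Prime) := by
    rw [Finset.disjoint_left]
    intro p hp hq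
    rw [Finset.mem_filter, Finset.mem_Ioc] at hq
    simp only [Finset.mem_insert, Finset.mem_singleton] at hp
    omega
  rw [hsplit, Finset.prod_union hdisj]
  have h1 : ∏ p ∈ ({3, 5, 7} : Finset ℕ), (1 + 1 / ((p : ℝ) * ((p : ℝ) - 1))) =
      (7 / 6) * ((21 / 20) * (43 / 42)) := by
    rw [Finset.prod_insert (by decide), Finset.prod_insert (by decide), Finset.prod_singleton]
    norm_num
  have h2 : ∏ p ∈ (Finset.Ioc 10 M).filter Nat.Prime, (1 + 1 / ((p : ℝ) * ((p : ℝ) - 1))) ≤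
      1.10518 := by
    have h3 : ∏ p ∈ (Finset.Ioc 10 M).filter Nat.Prime, (1 + 1 / ((p : ℝ) * ((p : ℝ) - 1))) ≤
        Real.exp (∑ p ∈ (Finset.Ioc 10 M).filter Nat.Prime, (1 / ((p : ℝ) * ((p : ℝ) - 1)))) := by
      rw [Real.exp_sum]
      refine Finset.prod_le_prod ?_ ?_
      · intro p hp
        rw [Finset.mem_filter, Finset.mem_Ioc] at hp
        have : (10 : ℝ) < p := by exact_mod_cast hp.1.1
        have : 0 < (p : ℝ) - 1 := by linarith
        positivity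
      · intro p _
        have := Real.add_one_le_exp (1 / ((p : ℝ) * ((p : ℝ) - 1)))
        linarith
    have h4 : ∑ p ∈ (Finset.Ioc 10 M).filter Nat.Prime, (1 / ((p : ℝ) * ((p : ℝ) - 1))) ≤
        1 / 10 := by
      calc ∑ p ∈ (Finset.Ioc 10 M).filter Nat.Prime, (1 / ((p : ℝ) * ((p : ℝ) - 1)))
          ≤ ∑ k ∈ Finset.Ioc 10 M, (1 / ((k : ℝ) * ((k : ℝ) - 1))) := by
            refine Finset.sum_le_sum_of_subset_of_nonneg (Finset.filter_subset _ _) ?_
            intro k hk _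
            rw [Finset.mem_Ioc] at hk
            have : (10 : ℝ) < k := by exact_mod_cast hk.1
            have : 0 < (k : ℝ) - 1 := by linarith
            positivity
        _ = 1 / 10 - 1 / M := tele M hM
        _ ≤ 1 / 10 := by
            have : (0 : ℝ) ≤ 1 / M := by positivity
            linarith
    exact h3.trans ((Real.exp_le_exp.mpr h4).trans exp_tenth)
  rw [h1]
  calc (7 / 6 : ℝ) * ((21 / 20) * (43 / 42)) *
        ∏ p ∈ (Finset.Ioc 10 M).filter Nat.Prime, (1 + 1 / ((p : ℝ) * ((p : ℝ) - 1)))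
      ≤ (7 / 6 : ℝ) * ((21 / 20) * (43 / 42)) * 1.10518 :=
        mul_le_mul_of_nonneg_left h2 (by norm_num)
    _ ≤ 1.3861 := by norm_num

/-! ### The error term -/

theorem pow_big (k : ℕ) (hk : 40 ≤ k) : 1000 * ((2 * k + 2) * (2 * k + 3)) ≤ 2 ^ k := by
  induction k, hk using Nat.le_induction with
  | base => norm_num
  | succ n hn ih =>
    rw [pow_succ]
    nlinarith

end AvgPhi

open AvgPhi

theorem avg_phi {A B : ℕ} (hB : X0 ≤ B ^ 2) (hAB : A ≤ B ^ 2) :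
    ∑ S ∈ (Finset.Ioc A (A + B)).filter (fun S => Even S), (S : ℝ) / Nat.totient S ≤ 1.3901 * B := by
  have hB1 : 2 ^ 1200 ≤ B := by
    have h2 : X0 = (2 ^ 1200) ^ 2 := by rw [X0, ← pow_mul]
    rw [h2] at hB
    exact (Nat.pow_le_pow_iff_left (by norm_num)).mp hB
  have hB0 : B ≠ 0 := by
    rintro rfl
    exact absurd (Nat.le_zero.mp hB1) (by positivity)
  set k := Nat.log 2 B with hk
  have hk1 : 1200 ≤ k := (Nat.le_log_iff_pow_le (by norm_num) hB0).mpr hB1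
  have hk2 : 2 ^ k ≤ B := Nat.pow_log_le_self 2 hB0
  have hk3 : B < 2 ^ (k + 1) := Nat.lt_pow_succ_log_self (by norm_num) B
  have hB2 : B ≤ B ^ 2 := Nat.le_self_pow (by norm_num) B
  have hN1 : (A + B) / 2 ≤ B ^ 2 := by omega
  have hN2 : (A + B) / 2 < 2 ^ (2 * k + 2) := by
    have h1 : B ^ 2 < (2 ^ (k + 1)) ^ 2 := Nat.pow_lt_pow_left hk3 (by norm_num)
    rw [← pow_mul] at h1
    have h2 : (k + 1) * 2 = 2 * k + 2 := by ring
    rw [h2] at h1
    exact lt_of_le_of_lt hN1 h1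
  have hBbig : 40 ≤ B := by
    have : 2 ^ 40 ≤ 2 ^ k := Nat.pow_le_pow_right (by norm_num) (by omega)
    omega
  have hN0 : (A + B) / 2 ≠ 0 := by omega
  have hlog2 : Nat.log 2 ((A + B) / 2) + 1 ≤ 2 * k + 2 := by
    have := Nat.log_lt_of_lt_pow hN0 hN2
    omega
  have hlog : Real.log (((A + B) / 2 : ℕ) : ℝ) ≤ 2 * k + 2 := by
    have h1 : ((((A + B) / 2 : ℕ)) : ℝ) ≤ (2 : ℝ) ^ (2 * k + 2) := by exact_mod_cast hN2.le
    have h2 : (0 : ℝ) < (((A + B) / 2 : ℕ) : ℝ) := by exact_mod_cast Nat.pos_of_ne_zero hN0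
    have h3 := Real.log_le_log h2 h1
    rw [Real.log_pow] at h3
    have h4 : Real.log 2 ≤ 1 := by
      have := Real.log_two_lt_d9
      linarith
    have h5 : (((2 * k + 2 : ℕ)) : ℝ) * Real.log 2 ≤ ((2 * k + 2 : ℕ) : ℝ) * 1 :=
      mul_le_mul_of_nonneg_left h4 (Nat.cast_nonneg _)
    push_cast at h3 h5
    linarith
  have hmain := avg_phi_aux A B
  have hprod := prod_le (A + B) (by omega)
  have hBR : (0 : ℝ) ≤ B := Nat.cast_nonneg _
  have h6 : (B : ℝ) * ∏ p ∈ oddPr (A + B), (1 + 1 / ((p : ℝ) * ((p : ℝ) - 1))) ≤ B * 1.3861 :=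
    mul_le_mul_of_nonneg_left hprod hBR
  have h7 : (((Nat.log 2 ((A + B) / 2) + 1 : ℕ) : ℝ) * (1 + Real.log (((A + B) / 2 : ℕ) : ℝ))) ≤
      (2 * k + 2) * (2 * k + 3) := by
    have h8 : ((Nat.log 2 ((A + B) / 2) + 1 : ℕ) : ℝ) ≤ 2 * k + 2 := by exact_mod_cast hlog2
    have h9 : (0 : ℝ) ≤ 1 + Real.log (((A + B) / 2 : ℕ) : ℝ) := by
      have : (1 : ℝ) ≤ (((A + B) / 2 : ℕ) : ℝ) := by exact_mod_cast Nat.one_le_iff_ne_zero.mpr hN0
      have := Real.log_nonneg this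
      linarith
    exact mul_le_mul h8 (by linarith) h9 (by positivity)
  have h10 : (1000 : ℝ) * ((2 * k + 2) * (2 * k + 3)) ≤ B := by
    have := (pow_big k (by omega)).trans hk2
    exact_mod_cast this
  linarith

/-! ### The sum of `x_ℓ` -/

namespace AvgPhi

theorem tele2 (N : ℕ) (hN : 49 ≤ N) :
    ∑ j ∈ Finset.Ioc 49 N, ((1 : ℝ) / 4 * (1 / ((j : ℝ) - 1) - 1 / j)) =
      1 / 4 * (1 / 49 - 1 / N) := by
  induction N, hN using Nat.le_induction with
  | base => norm_num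
  | succ n hn ih =>
    rw [← Finset.insert_Ioc_right_eq_Ioc_add_one (by omega), Finset.sum_insert (by simp), ih]
    push_cast
    rw [add_sub_cancel_right]
    ring

theorem small_primes : (Finset.Ioc 6 100).filter Nat.Prime =
    {7, 11, 13, 17, 19, 23, 29, 31, 37, 41, 43, 47, 53, 59, 61, 67, 71, 73, 79, 83, 89, 97} := by
  decide +kernel

theorem xl_le {j : ℕ} (hj : 49 < j) :
    (((2 * j + 1 : ℕ) : ℝ) / (((2 * j + 1 : ℕ) : ℝ) - 1) ^ 2) ^ 2 ≤
      (1 : ℝ) / 4 * (1 / ((j : ℝ) - 1) - 1 / j) := by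
  have hj49 : (49 : ℝ) < j := by exact_mod_cast hj
  have hj1 : (0 : ℝ) < (j : ℝ) - 1 := by linarith
  have hj0 : (0 : ℝ) < j := by linarith
  have e1 : (((2 * j + 1 : ℕ) : ℝ) / (((2 * j + 1 : ℕ) : ℝ) - 1) ^ 2) ^ 2 =
      (2 * (j : ℝ) + 1) ^ 2 / (16 * (j : ℝ) ^ 4) := by
    have h : ((2 * j + 1 : ℕ) : ℝ) = 2 * (j : ℝ) + 1 := by push_cast; ring
    rw [h, add_sub_cancel_right, div_pow]
    congr 1
    ring
  have e2 : (1 : ℝ) / 4 * (1 / ((j : ℝ) - 1) - 1 / j) = 1 / (4 * (j * ((j : ℝ) - 1))) := by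
    field_simp
    ring
  rw [e1, e2, div_le_div_iff₀ (by positivity) (by positivity)]
  have h3 : (2 * (j : ℝ) + 1) ^ 2 * ((j : ℝ) - 1) ≤ 4 * (j : ℝ) ^ 3 := by
    have : (2 * (j : ℝ) + 1) ^ 2 * ((j : ℝ) - 1) = 4 * (j : ℝ) ^ 3 - 3 * j - 1 := by ring
    linarith
  have h4 := mul_le_mul_of_nonneg_left h3 (by positivity : (0 : ℝ) ≤ 4 * j)
  nlinarith

theorem sum_tail (M : ℕ) :
    ∑ ℓ ∈ (Finset.Ioc 49 (M + 49)).image (fun j : ℕ => 2 * j + 1 : ℕ → ℕ),
      ((ℓ : ℝ) / ((ℓ : ℝ) - 1) ^ 2) ^ 2 ≤ 1 / 196 := by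
  rw [Finset.sum_image (fun a _ b _ h => by simpa using h)]
  refine (Finset.sum_le_sum fun j hj => xl_le (Finset.mem_Ioc.mp hj).1).trans ?_
  rw [tele2 (M + 49) (by omega)]
  have : (0 : ℝ) ≤ 1 / ((M + 49 : ℕ) : ℝ) := by positivity
  linarith

theorem sum_first :
    ∑ ℓ ∈ (Finset.Ioc 6 100).filter Nat.Prime, ((ℓ : ℝ) / ((ℓ : ℝ) - 1) ^ 2) ^ 2 ≤ 0.0758 := by
  rw [small_primes]
  repeat rw [Finset.sum_insert (by decide)]
  rw [Finset.sum_singleton]
  norm_num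

end AvgPhi

theorem sum_xl (N : ℕ) :
    ∑ ℓ ∈ (Finset.Icc 7 N).filter Nat.Prime, ((ℓ : ℝ) / ((ℓ : ℝ) - 1) ^ 2) ^ 2 ≤ 0.081 := by
  have hnn : ∀ ℓ : ℕ, 0 ≤ ((ℓ : ℝ) / ((ℓ : ℝ) - 1) ^ 2) ^ 2 := fun ℓ => sq_nonneg _
  have hsub : (Finset.Icc 7 N).filter Nat.Prime ⊆
      (Finset.Ioc 6 100).filter Nat.Prime ∪ (Finset.Ioc 49 (N + 49)).image (fun j : ℕ => 2 * j + 1 : ℕ → ℕ) := by
    intro ℓ hℓ
    rw [Finset.mem_filter, Finset.mem_Icc] at hℓ
    rw [Finset.mem_union, Finset.mem_filter, Finset.mem_Ioc, Finset.mem_image]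
    by_cases h : ℓ ≤ 100
    · exact Or.inl ⟨⟨by omega, h⟩, hℓ.2⟩
    · right
      have hodd : ℓ % 2 = 1 := by
        rcases hℓ.2.eq_two_or_odd with h2 | h2
        · omega
        · exact h2
      exact ⟨ℓ / 2, Finset.mem_Ioc.mpr ⟨by omega, by omega⟩, by omega⟩
  refine (Finset.sum_le_sum_of_subset_of_nonneg hsub fun ℓ _ _ => hnn ℓ).trans ?_
  have hui := Finset.sum_union_inter (s₁ := (Finset.Ioc 6 100).filter Nat.Prime)
    (s₂ := (Finset.Ioc 49 (N + 49)).image (fun j : ℕ => 2 * j + 1 : ℕ → ℕ))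
    (f := fun ℓ : ℕ => ((ℓ : ℝ) / ((ℓ : ℝ) - 1) ^ 2) ^ 2)
  have hinter : 0 ≤ ∑ ℓ ∈ (Finset.Ioc 6 100).filter Nat.Prime ∩
      (Finset.Ioc 49 (N + 49)).image (fun j : ℕ => 2 * j + 1 : ℕ → ℕ), ((ℓ : ℝ) / ((ℓ : ℝ) - 1) ^ 2) ^ 2 :=
    Finset.sum_nonneg fun ℓ _ => hnn ℓ
  have h1 := sum_first
  have h2 := sum_tail N
  have h3 : (0.0758 : ℝ) + 1 / 196 ≤ 0.081 := by norm_num
  refine le_trans ?_ h3
  refine le_trans ?_ (add_le_add h1 h2)
  rw [← hui]
  exact le_add_of_nonneg_right hinter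

end Pool.Agent.Work.MP_713a1e_co.E
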