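import Pool.Agent.Work.MP_713a1e_co.E.Defs

/-!
# Three-interval exchanges (job C2)

For `max a b ≤ w ≤ a + b` the map `three a b w` of `{0, …, w-1}` is a bijection; it is the first return map to
`{0,…,w-1}` of the rotation `R y = y + a mod (a+b)` of `ℤ/(a+b)`:
  `y < w - a` : `y + a`;   `w - a ≤ y < b` : `y + a - b` (this is `R (R y)`, `R y = y + a ≥ w` is outside);
  `b ≤ y < w` : `y - b`.
The `R`-orbits are the classes modulo `g = gcd a b`, hence two elements of `{0,…,w-1}` congruent modulo `g` are in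
the same cycle: a function `f` on `{0,…,w-1}` invariant under the exchange extends to a function on `ℤ` which has both
periods `a` and `a + b`.
-/

namespace Pool.Agent.Work.MP_713a1e_co.E

/-- The three-interval exchange (as a function on `ℕ`, meaningful on `[0, w)`). -/
def three (a b w y : ℕ) : ℕ := if y + a < w then y + a else if y < b then y + a - b else y - b

theorem three_lt {a b w y : ℕ} (ha : a ≤ w) (hb : b ≤ w) (hw : w ≤ a + b) (hy : y < w) :
    three a b w y < w := by
  unfold three
  split_ifs <;> omega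

theorem three_inj {a b w y z : ℕ} (ha : a ≤ w) (hb : b ≤ w) (hw : w ≤ a + b) (ha0 : 0 < a) (hb0 : 0 < b)
    (hy : y < w) (hz : z < w) (h : three a b w y = three a b w z) : y = z := by
  unfold three at h
  split_ifs at h <;> omega

/-- If `f` is invariant under the exchange, it has period `gcd a b` on `[0, w)`. -/
theorem three_period {β : Type*} {a b w : ℕ} (ha : a ≤ w) (hb : b ≤ w) (hw : w ≤ a + b) (ha0 : 0 < a)
    (hb0 : 0 < b) (f : ℕ → β) (hf : ∀ y < w, f (three a b w y) = f y) :
    ∀ y z, y < w → z < w → y % (Nat.gcd a b) = z % (Nat.gcd a b) → f y = f z := by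
  intro y z hy hz hyz
  -- the extension to `ℤ`
  let F : ℕ → β := fun t => if t < w then f t else f (t - b)
  let G : ℤ → β := fun m => F (m % ((a : ℤ) + b)).toNat
  have hN : (0 : ℤ) < (a : ℤ) + b := by positivity
  have key : ∀ t : ℕ, t < a + b → F ((((t : ℤ) + a) % ((a : ℤ) + b)).toNat) = F t := by
    intro t ht
    rcases Nat.lt_or_ge t b with h1 | h1
    · have e : ((((t : ℤ) + a) % ((a : ℤ) + b)).toNat) = t + a := by
        rw [Int.emod_eq_of_lt (by positivity) (by omega)]; omega
      rw [e]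
      have htw : t < w := lt_of_lt_of_le h1 hb
      have h2 := hf t htw
      unfold three at h2
      simp only [F]
      rw [if_pos htw]
      by_cases h3 : t + a < w
      · rw [if_pos h3]; rw [if_pos h3] at h2; exact h2
      · rw [if_neg h3]; rw [if_neg h3, if_pos h1] at h2; exact h2
    · have e : ((((t : ℤ) + a) % ((a : ℤ) + b)).toNat) = t - b := by
        have e1 : ((t : ℤ) + a) % ((a : ℤ) + b) = (t : ℤ) - b := by
          rw [Int.emod_eq_iff hN.ne']
          refine ⟨by omega, ?_, ⟨-1, by ring⟩⟩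
          omega
        rw [e1]; omega
      rw [e]
      have h4 : t - b < w := by omega
      simp only [F]
      rw [if_pos h4]
      by_cases h3 : t < w
      · rw [if_pos h3]
        have h2 := hf t h3
        unfold three at h2
        rw [if_neg (by omega), if_neg (by omega)] at h2
        exact h2
      · rw [if_neg h3]
  have hGN : Function.Periodic G ((a : ℤ) + b) := by
    intro m
    simp only [G, Int.add_emod_right]
  have hGa : Function.Periodic G (a : ℤ) := by
    intro m
    simp only [G]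
    have h0 := Int.emod_nonneg m hN.ne'
    have h1 := Int.emod_lt_of_pos m hN
    have h2 := key (m % ((a : ℤ) + b)).toNat (by omega)
    rw [Int.toNat_of_nonneg h0, Int.emod_add_emod] at h2
    exact h2
  have hGb : Function.Periodic G (b : ℤ) := by
    have := hGN.sub_period hGa
    simpa using this
  -- the difference
  have hd : (Int.gcd (a : ℤ) (b : ℤ) : ℤ) ∣ (z : ℤ) - y := by
    rw [Int.gcd_natCast_natCast]
    have : (y : ℤ) ≡ z [ZMOD (Nat.gcd a b : ℕ)] := by
      have h5 : y ≡ z [MOD (Nat.gcd a b)] := hyz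
      exact (Int.natCast_modEq_iff).mpr h5
    exact this.dvd
  obtain ⟨k, hk⟩ := hd
  rw [Int.gcd_eq_gcd_ab] at hk
  obtain ⟨u, v, huv⟩ : ∃ u v : ℤ, (z : ℤ) - y = u * a + v * b :=
    ⟨Int.gcdA a b * k, Int.gcdB a b * k, by rw [hk]; ring⟩
  have h6 : G (z : ℤ) = G (y : ℤ) := by
    have e : (z : ℤ) = ((y : ℤ) + u * a) + v * b := by linarith
    have q1 := (hGb.int_mul v) ((y : ℤ) + u * a)
    have q2 := (hGa.int_mul u) (y : ℤ)
    rw [Int.cast_id] at q1 q2
    rw [e, q1, q2]
  have hGy : ∀ t : ℕ, t < w → G (t : ℤ) = f t := by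
    intro t ht
    simp only [G, F]
    rw [Int.emod_eq_of_lt (by positivity) (by omega)]
    simp [ht]
  rw [hGy y hy, hGy z hz] at h6
  exact h6.symm

/-- The single window case: a cyclic permutation. -/
theorem cyc_three {p a b ν : ℕ} (ha0 : 0 < a) (hb0 : 0 < b) (hab : Nat.Coprime a b) (ha : a ≤ ν) (hb : b ≤ ν)
    (hν : ν ≤ a + b) (h1 : Al p a) (h2 : Al p (-(b : ℤ))) (h3 : Al p ((a : ℤ) - b)) : Cyc p ν := by
  let g : Fin ν → Fin ν := fun x => ⟨three a b ν x, three_lt ha hb hν x.2⟩
  have hg : Function.Injective g := by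
    intro x y hxy
    have := congrArg Fin.val hxy
    exact Fin.ext (three_inj ha hb hν ha0 hb0 x.2 y.2 this)
  let σ : Equiv.Perm (Fin ν) := Equiv.ofBijective g (Finite.injective_iff_bijective.mp hg)
  have hσ : ∀ x, ((σ x : Fin ν) : ℕ) = three a b ν x := fun x => rfl
  refine ⟨σ, ?_, ?_⟩
  · intro x y
    let f : ℕ → Set (Fin ν) := fun t => {z | ∃ h : t < ν, σ.SameCycle ⟨t, h⟩ z}
    have hf : ∀ t < ν, f (three a b ν t) = f t := by
      intro t ht
      ext z
      simp only [f, Set.mem_ofPred_eq]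
      have e : ∀ h : three a b ν t < ν, (⟨three a b ν t, h⟩ : Fin ν) = σ ⟨t, ht⟩ := fun h => rfl
      constructor
      · rintro ⟨h, hz⟩
        rw [e] at hz
        exact ⟨ht, Equiv.Perm.sameCycle_apply_left.mp hz⟩
      · rintro ⟨_, hz⟩
        exact ⟨three_lt ha hb hν ht, by rw [e]; exact Equiv.Perm.sameCycle_apply_left.mpr hz⟩
    have h := three_period ha hb hν ha0 hb0 f hf x y x.2 y.2 (by
      rw [Nat.Coprime] at hab
      rw [hab]; simp [Nat.mod_one])
    have hy : y ∈ f y := ⟨y.2, Equiv.Perm.SameCycle.refl _ _⟩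
    rw [← h] at hy
    obtain ⟨_, hz⟩ := hy
    exact hz
  · intro x
    rw [hσ]
    have hx := x.2
    unfold three
    split_ifs with c1 c2
    · have e : (((x : ℕ) + a : ℕ) : ℤ) - ((x : ℕ) : ℤ) = a := by push_cast; ring
      rw [e]; exact h1
    · have e : (((x : ℕ) + a - b : ℕ) : ℤ) - ((x : ℕ) : ℤ) = (a : ℤ) - b := by
        rw [Nat.cast_sub (by omega)]; push_cast; ring
      rw [e]; exact h3
    · have e : (((x : ℕ) - b : ℕ) : ℤ) - ((x : ℕ) : ℤ) = -(b : ℤ) := by
        rw [Nat.cast_sub (by omega)]; ring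
      rw [e]; exact h2

end Pool.Agent.Work.MP_713a1e_co.E
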