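import Pool.Agent.Work.MP_713a1e_co.E.Merge
import Pool.Agent.Work.MP_713a1e_co.E.Three

/-!
# JOB C4, part A: chains of exchanges (helper84)

The abstract chain: segments `[s k, s (k+1))`, `k < N`, each with the exchange `three (α k) b (w k)`; `B k` says that
the segment is a block.
-/

namespace Pool.Agent.Work.MP_713a1e_co.E

/-- Fine-Wilf, easy case. -/
theorem fw {β : Type*} {F G : ℤ → β} {g g' : ℤ} (hg : 0 < g) (hg' : 0 < g')
    (hF : ∀ y, F (y + g) = F y) (hG : ∀ y, G (y + g') = G y) (m : ℤ)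
    (h : ∀ y, m ≤ y → y < m + g + g' → F y = G y) (y : ℤ) : F y = G y := by
  have pF : ∀ (y k : ℤ), F (y + k * g) = F y := fun y k =>
    (Function.Periodic.int_mul (f := F) (c := g) hF k) y
  have pG : ∀ (y k : ℤ), G (y + k * g') = G y := fun y k =>
    (Function.Periodic.int_mul (f := G) (c := g') hG k) y
  have hFg' : ∀ y, F (y + g') = F y := by
    intro y
    have e0 := Int.emod_add_mul_ediv (y - m) g
    have e1 := Int.emod_nonneg (y - m) hg.ne'
    have e2 := Int.emod_lt_of_pos (y - m) hg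
    set y0 := m + (y - m) % g with hy0
    have ey : y = y0 + ((y - m) / g) * g := by rw [hy0]; linarith [mul_comm g ((y - m) / g)]
    have a1 : F (y + g') = F (y0 + g') := by
      rw [show y + g' = (y0 + g') + ((y - m) / g) * g by linarith]; exact pF _ _
    have a2 : F y = F y0 := by
      conv_lhs => rw [ey]
      exact pF _ _
    rw [a1, a2, h (y0 + g') (by omega) (by omega), h y0 (by omega) (by omega)]
    exact hG y0
  have pF' : ∀ (y k : ℤ), F (y + k * g') = F y := fun y k =>
    (Function.Periodic.int_mul (f := F) (c := g') hFg' k) y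
  have e0 := Int.emod_add_mul_ediv (y - m) g'
  have e1 := Int.emod_nonneg (y - m) hg'.ne'
  have e2 := Int.emod_lt_of_pos (y - m) hg'
  set y0 := m + (y - m) % g' with hy0
  have ey : y = y0 + ((y - m) / g') * g' := by rw [hy0]; linarith [mul_comm g' ((y - m) / g')]
  have a1 : F y = F y0 := by
    conv_lhs => rw [ey]
    exact pF' _ _
  have a2 : G y = G y0 := by
    conv_lhs => rw [ey]
    exact pG _ _
  rw [a1, a2]
  exact h y0 (by omega) (by omega)

/-- A function on `ℤ` whose periods `g k` have no common divisor is constant. -/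
theorem const_of_periods {β : Type*} {F : ℤ → β} {N : ℕ} {g : ℕ → ℕ}
    (hF : ∀ k < N, ∀ y, F (y + g k) = F y) (hd : ∀ d : ℕ, (∀ k < N, d ∣ g k) → d = 1) (y : ℤ) :
    F y = F 0 := by
  let H : AddSubgroup ℤ :=
    { carrier := {d | ∀ y, F (y + d) = F y}
      zero_mem' := by intro y; simp
      add_mem' := by
        intro d e hd he y
        have h1 := he (y + d)
        have h2 := hd y
        rw [← add_assoc, h1, h2]
      neg_mem' := by
        intro d hd y
        have h1 := hd (y + -d)
        simpa using h1.symm }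
  obtain ⟨d, hdH⟩ := Int.subgroup_cyclic H
  have hdm : d ∈ H := by rw [hdH]; exact AddSubgroup.mem_closure_singleton_self d
  have h1 : d.natAbs = 1 := by
    apply hd
    intro k hk
    have : ((g k : ℕ) : ℤ) ∈ H := hF k hk
    rw [hdH, AddSubgroup.mem_closure_singleton] at this
    obtain ⟨n, hn⟩ := this
    rw [← Int.natCast_dvd_natCast, Int.natAbs_dvd]
    exact ⟨n, by rw [← hn]; simp [mul_comm]⟩
  have h2 : (1 : ℤ) ∈ H := by
    rcases Int.natAbs_eq_natAbs_iff.mp (show d.natAbs = (1 : ℤ).natAbs by simpa using h1) with h | h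
    · rw [h] at hdm; exact hdm
    · have := H.neg_mem hdm
      rw [h] at this; simpa using this
  have h3 : y ∈ H := by
    have := H.zsmul_mem h2 y
    simpa using this
  have := h3 0
  simpa using this

/-- The abstract chain data. -/
structure Dat (p a b u T N : ℕ) (α w s : ℕ → ℕ) (B : ℕ → Prop) : Prop where
  hb : 0 < b
  hT : 2 * Nat.gcd a b ≤ T
  hba : b + u ≤ a
  hTu : T ≤ u
  h1 : Al p a
  h2 : Al p (-(b : ℤ))
  h3 : Al p ((a : ℤ) - b)
  h4 : Al p ((a : ℤ) + u)
  h5 : Al p (-((b : ℤ) + u))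
  s0 : s 0 = 0
  s1 : ∀ k, s (k + 1) = s k + w k
  win : ∀ k, k < N → ¬ B k → α k = a ∧ a + 2 * T ≤ w k ∧ w k ≤ a + b
  blk : ∀ k, k < N → B k → w k = α k + b ∧ 2 * u ≤ α k ∧ Al p (α k) ∧ Nat.gcd a b + Nat.gcd (α k) b ≤ T
  adj : ∀ k, k + 1 < N → B k → ¬ B (k + 1)

namespace Dat

variable {p a b u T N : ℕ} {α w s : ℕ → ℕ} {B : ℕ → Prop}

theorem mono (D : Dat p a b u T N α w s B) : Monotone s :=
  monotone_nat_of_le_succ (fun k => by rw [D.s1]; omega)

theorem Tpos (D : Dat p a b u T N α w s B) : 0 < T := by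
  have := Nat.gcd_pos_of_pos_right a D.hb
  have := D.hT
  omega

theorem uniq (D : Dat p a b u T N α w s B) {k k' x : ℕ} (h1 : s k ≤ x) (h2 : x < s (k + 1))
    (h3 : s k' ≤ x) (h4 : x < s (k' + 1)) : k = k' := by
  rcases lt_trichotomy k k' with h | h | h
  · have := D.mono (show k + 1 ≤ k' by omega)
    omega
  · exact h
  · have := D.mono (show k' + 1 ≤ k by omega)
    omega

theorem exi (D : Dat p a b u T N α w s B) : ∀ M x, x < s M → ∃ k < M, s k ≤ x ∧ x < s (k + 1) := by
  intro M
  induction M with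
  | zero => intro x hx; rw [D.s0] at hx; omega
  | succ M ih =>
    intro x hx
    rcases lt_or_ge x (s M) with h | h
    · obtain ⟨k, hk, hk'⟩ := ih x h
      exact ⟨k, by omega, hk'⟩
    · exact ⟨M, by omega, h, hx⟩

/-- every position is `s k + y`, `y < w k` -/
theorem exi' (D : Dat p a b u T N α w s B) {x : ℕ} (hx : x < s N) : ∃ k y, k < N ∧ y < w k ∧ x = s k + y := by
  obtain ⟨k, hk, h1, h2⟩ := D.exi N x hx
  rw [D.s1] at h2
  exact ⟨k, x - s k, hk, by omega, by omega⟩

theorem lt_of (D : Dat p a b u T N α w s B) {k y : ℕ} (hk : k < N) (hy : y < w k) : s k + y < s N := by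
  have := D.mono (show k + 1 ≤ N by omega)
  rw [D.s1] at this
  omega

theorem aw (D : Dat p a b u T N α w s B) {k : ℕ} (hk : k < N) :
    α k ≤ w k ∧ b ≤ w k ∧ w k ≤ α k + b ∧ 0 < α k := by
  have hb := D.hb
  have hba := D.hba
  by_cases h : B k
  · have := D.blk k hk h
    have := D.hTu
    have := D.Tpos
    omega
  · have := D.win k hk h
    omega

end Dat

/-- the index of the segment of `x` -/
noncomputable def ix (s : ℕ → ℕ) (x : ℕ) : ℕ := sInf {k | x < s (k + 1)}

/-- all the exchanges together -/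
noncomputable def mp (b : ℕ) (α w s : ℕ → ℕ) (x : ℕ) : ℕ :=
  s (ix s x) + three (α (ix s x)) b (w (ix s x)) (x - s (ix s x))

namespace Dat

variable {p a b u T N : ℕ} {α w s : ℕ → ℕ} {B : ℕ → Prop}

theorem ix_eq (D : Dat p a b u T N α w s B) {k y : ℕ} (hy : y < w k) : ix s (s k + y) = k := by
  have hmem : k ∈ {k' | s k + y < s (k' + 1)} := by
    change s k + y < s (k + 1)
    rw [D.s1]; omega
  have h1 : ix s (s k + y) ≤ k := Nat.sInf_le hmem
  have h2 : s k + y < s (ix s (s k + y) + 1) := Nat.sInf_mem (s := {k' | s k + y < s (k' + 1)}) ⟨k, hmem⟩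
  rcases Nat.lt_or_ge (ix s (s k + y)) k with h | h
  · have := D.mono (show ix s (s k + y) + 1 ≤ k by omega)
    omega
  · omega

theorem mp_eq (D : Dat p a b u T N α w s B) {k y : ℕ} (hy : y < w k) :
    mp b α w s (s k + y) = s k + three (α k) b (w k) y := by
  unfold mp
  rw [D.ix_eq hy]
  congr 2
  omega

theorem mp_lt (D : Dat p a b u T N α w s B) {x : ℕ} (hx : x < s N) : mp b α w s x < s N := by
  obtain ⟨k, y, hk, hy, rfl⟩ := D.exi' hx
  rw [D.mp_eq hy]
  have h := D.aw hk
  exact D.lt_of hk (three_lt h.1 h.2.1 h.2.2.1 hy)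

theorem mp_inj (D : Dat p a b u T N α w s B) {x x' : ℕ} (hx : x < s N) (hx' : x' < s N)
    (h : mp b α w s x = mp b α w s x') : x = x' := by
  obtain ⟨k, y, hk, hy, rfl⟩ := D.exi' hx
  obtain ⟨k', y', hk', hy', rfl⟩ := D.exi' hx'
  rw [D.mp_eq hy, D.mp_eq hy'] at h
  have a1 := D.aw hk
  have a2 := D.aw hk'
  have t1 := three_lt a1.1 a1.2.1 a1.2.2.1 hy
  have t2 := three_lt a2.1 a2.2.1 a2.2.2.1 hy'
  have e : k = k' := by
    apply D.uniq (x := s k + three (α k) b (w k) y) (by omega) (by rw [D.s1]; omega)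
    · rw [h]; omega
    · rw [h, D.s1]; omega
  subst e
  have : y = y' := three_inj a1.1 a1.2.1 a1.2.2.1 a1.2.2.2 D.hb hy hy' (by omega)
  rw [this]

/-- the displacements of the chain are allowed -/
theorem mp_al (D : Dat p a b u T N α w s B) {x : ℕ} (hx : x < s N) :
    Al p ((mp b α w s x : ℤ) - x) := by
  obtain ⟨k, y, hk, hy, rfl⟩ := D.exi' hx
  rw [D.mp_eq hy]
  unfold three
  by_cases h : B k
  · obtain ⟨h1, h2, h3, h4⟩ := D.blk k hk h
    split_ifs with c1 c2
    · rw [show (((s k + (y + α k) : ℕ) : ℤ) - ((s k + y : ℕ) : ℤ)) = (α k : ℤ) by push_cast; ring]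
      exact h3
    · omega
    · rw [show (((s k + (y - b) : ℕ) : ℤ) - ((s k + y : ℕ) : ℤ)) = -(b : ℤ) by
        rw [Nat.cast_add, Nat.cast_add, Nat.cast_sub (by omega)]; ring]
      exact D.h2
  · obtain ⟨h1, h2, h3⟩ := D.win k hk h
    rw [h1]
    split_ifs with c1 c2
    · rw [show (((s k + (y + a) : ℕ) : ℤ) - ((s k + y : ℕ) : ℤ)) = (a : ℤ) by push_cast; ring]
      exact D.h1
    · rw [show (((s k + (y + a - b) : ℕ) : ℤ) - ((s k + y : ℕ) : ℤ)) = (a : ℤ) - b by
        have := D.hba
        rw [Nat.cast_add, Nat.cast_add, Nat.cast_sub (by omega)]; push_cast; ring]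
      exact D.h3
    · rw [show (((s k + (y - b) : ℕ) : ℤ) - ((s k + y : ℕ) : ℤ)) = -(b : ℤ) by
        rw [Nat.cast_add, Nat.cast_add, Nat.cast_sub (by omega)]; ring]
      exact D.h2

end Dat

open Classical in
/-- offset, in segment `k`, of the left position of the swap number `r` at the boundary `k` -/
noncomputable def lo (a b u : ℕ) (α w : ℕ → ℕ) (B : ℕ → Prop) (k r : ℕ) : ℕ :=
  if B k then α k + b - u + r else w k - 1 - r - a

open Classical in
/-- offset, in segment `k + 1`, of the right position -/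
noncomputable def ro (b u : ℕ) (B : ℕ → Prop) (k r : ℕ) : ℕ :=
  if B k then r else b + u - 1 - r

namespace Dat

variable {p a b u T N : ℕ} {α w s : ℕ → ℕ} {B : ℕ → Prop}

theorem lo_lt (D : Dat p a b u T N α w s B) {k r : ℕ} (hk : k < N) (hr : r < T) :
    lo a b u α w B k r < w k := by
  have := D.hTu
  have := D.hb
  unfold lo
  split_ifs with h
  · have := D.blk k hk h
    omega
  · have := D.win k hk h
    omega

theorem ro_lt (D : Dat p a b u T N α w s B) {k r : ℕ} (hk : k + 1 < N) (hr : r < T) :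
    ro b u B k r < w (k + 1) := by
  have := D.hTu
  have := D.hb
  have := D.hba
  unfold ro
  by_cases h' : B (k + 1)
  · have h2 := D.blk _ hk h'
    split_ifs with h
    · exact absurd h' (D.adj k hk h)
    · omega
  · have h2 := D.win _ hk h'
    split_ifs with h
    · omega
    · omega

/-- the left and the right positions are distinct -/
theorem lo_ne_ro (D : Dat p a b u T N α w s B) {k r r' : ℕ} (hk : k + 1 < N) (hr : r < T)
    (hr' : r' < T) : lo a b u α w B (k + 1) r ≠ ro b u B k r' := by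
  have := D.hTu
  have := D.hb
  have := D.hba
  unfold lo ro
  by_cases h' : B (k + 1)
  · have h2 := D.blk _ hk h'
    have h3 : ¬ B k := fun h => D.adj k hk h h'
    rw [if_pos h', if_neg h3]
    omega
  · have h2 := D.win _ hk h'
    rw [if_neg h']
    split_ifs with h
    · omega
    · omega

theorem lo_inj (D : Dat p a b u T N α w s B) {k r r' : ℕ} (hk : k < N) (hr : r < T)
    (hr' : r' < T) (h : lo a b u α w B k r = lo a b u α w B k r') : r = r' := by
  unfold lo at h
  split_ifs at h with h1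
  · omega
  · have h2 := D.win _ hk h1
    omega

theorem ro_inj (D : Dat p a b u T N α w s B) {k r r' : ℕ} (hr : r < T)
    (hr' : r' < T) (h : ro b u B k r = ro b u B k r') : r = r' := by
  have := D.hTu
  have := D.hb
  unfold ro at h
  split_ifs at h with h1
  · omega
  · omega

/-- the image of the left position -/
theorem three_lo (D : Dat p a b u T N α w s B) {k r : ℕ} (hk : k < N) (hr : r < T) :
    (¬ B k → three (α k) b (w k) (lo a b u α w B k r) = w k - 1 - r ∧ lo a b u α w B k r + a = w k - 1 - r) ∧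
    (B k → three (α k) b (w k) (lo a b u α w B k r) + b = α k + b - u + r ∧
      lo a b u α w B k r = α k + b - u + r) := by
  have := D.hTu
  have := D.hb
  have := D.hba
  constructor
  · intro h
    have h2 := D.win _ hk h
    unfold three lo
    rw [if_neg h, h2.1, if_pos (by omega)]
    omega
  · intro h
    have h2 := D.blk _ hk h
    unfold three lo
    rw [if_pos h, if_neg (by omega), if_neg (by omega)]
    omega

/-- the image of the right position -/
theorem three_ro (D : Dat p a b u T N α w s B) {k r : ℕ} (hk : k + 1 < N) (hr : r < T) :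
    (¬ B k → three (α (k + 1)) b (w (k + 1)) (ro b u B k r) = u - 1 - r ∧ ro b u B k r = b + u - 1 - r) ∧
    (B k → three (α (k + 1)) b (w (k + 1)) (ro b u B k r) = r + a ∧ ro b u B k r = r) := by
  have := D.hTu
  have := D.hb
  have := D.hba
  constructor
  · intro h
    unfold three ro
    rw [if_neg h]
    by_cases h' : B (k + 1)
    · have h2 := D.blk _ hk h'
      rw [if_neg (by omega), if_neg (by omega)]
      omega
    · have h2 := D.win _ hk h'
      rw [if_neg (by omega), if_neg (by omega)]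
      omega
  · intro h
    have h2 := D.win _ hk (D.adj k hk h)
    unfold three ro
    rw [if_pos h, if_pos (by omega)]
    omega

/-- the displacement after the swap, from the left position -/
theorem al_left (D : Dat p a b u T N α w s B) {k r : ℕ} (hk : k + 1 < N) (hr : r < T) :
    Al p ((mp b α w s (s (k + 1) + ro b u B k r) : ℤ) - ((s k + lo a b u α w B k r : ℕ) : ℤ)) := by
  have := D.hTu
  have := D.hb
  have := D.hba
  rw [D.mp_eq (D.ro_lt hk hr)]
  by_cases h : B k
  · obtain ⟨e1, e2⟩ := (D.three_lo (by omega : k < N) hr).2 h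
    obtain ⟨e3, e4⟩ := (D.three_ro hk hr).2 h
    have h2 := D.blk _ (by omega : k < N) h
    rw [e3, e2, D.s1, show (((s k + w k + (r + a) : ℕ) : ℤ) - ((s k + (α k + b - u + r) : ℕ) : ℤ)) = (a : ℤ) + u by
      omega]
    exact D.h4
  · obtain ⟨e1, e2⟩ := (D.three_lo (by omega : k < N) hr).1 h
    obtain ⟨e3, e4⟩ := (D.three_ro hk hr).1 h
    have h2 := D.win _ (by omega : k < N) h
    rw [e3, D.s1, show (((s k + w k + (u - 1 - r) : ℕ) : ℤ) - ((s k + lo a b u α w B k r : ℕ) : ℤ)) = (a : ℤ) + u by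
      omega]
    exact D.h4

/-- the displacement after the swap, from the right position -/
theorem al_right (D : Dat p a b u T N α w s B) {k r : ℕ} (hk : k + 1 < N) (hr : r < T) :
    Al p ((mp b α w s (s k + lo a b u α w B k r) : ℤ) - ((s (k + 1) + ro b u B k r : ℕ) : ℤ)) := by
  have := D.hTu
  have := D.hb
  have := D.hba
  rw [D.mp_eq (D.lo_lt (by omega : k < N) hr)]
  by_cases h : B k
  · obtain ⟨e1, e2⟩ := (D.three_lo (by omega : k < N) hr).2 h
    obtain ⟨e3, e4⟩ := (D.three_ro hk hr).2 h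
    have h2 := D.blk _ (by omega : k < N) h
    rw [e4, D.s1, show (((s k + three (α k) b (w k) (lo a b u α w B k r) : ℕ) : ℤ) -
      ((s k + w k + r : ℕ) : ℤ)) = -((b : ℤ) + u) by omega]
    exact D.h5
  · obtain ⟨e1, e2⟩ := (D.three_lo (by omega : k < N) hr).1 h
    obtain ⟨e3, e4⟩ := (D.three_ro hk hr).1 h
    have h2 := D.win _ (by omega : k < N) h
    rw [e1, e4, D.s1, show (((s k + (w k - 1 - r) : ℕ) : ℤ) -
      ((s k + w k + (b + u - 1 - r) : ℕ) : ℤ)) = -((b : ℤ) + u) by omega]
    exact D.h5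

end Dat

end Pool.Agent.Work.MP_713a1e_co.E
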