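import Pool.Agent.Work.MP_713a1e_co.E.ChainA

/-!
# JOB C4, part B: connectivity of a chain (helper84)
-/

namespace Pool.Agent.Work.MP_713a1e_co.E

/-- reduction of a position to `Fin ν` -/
def fn {ν : ℕ} (hν : 0 < ν) (x : ℕ) : Fin ν := ⟨x % ν, Nat.mod_lt _ hν⟩

theorem fn_val {ν : ℕ} (hν : 0 < ν) (x : Fin ν) : fn hν (x : ℕ) = x := by
  apply Fin.ext
  exact Nat.mod_eq_of_lt x.2

theorem fn_coe {ν : ℕ} (hν : 0 < ν) {x : ℕ} (hx : x < ν) : ((fn hν x : Fin ν) : ℕ) = x :=
  Nat.mod_eq_of_lt hx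

namespace Dat

variable {p a b u T N : ℕ} {α w s : ℕ → ℕ} {B : ℕ → Prop}

/-- the periodic continuation of `f` from the segment `k` -/
def cont {β : Type*} (b : ℕ) (α s : ℕ → ℕ) (f : ℕ → β) (k : ℕ) (y : ℤ) : β :=
  f (s k + ((y - s k) % (Nat.gcd (α k) b : ℕ)).toNat)

theorem cont_per {β : Type*} (f : ℕ → β) (k : ℕ) (y : ℤ) :
    cont b α s f k (y + (Nat.gcd (α k) b : ℕ)) = cont b α s f k y := by
  unfold cont
  rw [show y + ((Nat.gcd (α k) b : ℕ) : ℤ) - s k = (y - s k) + ((Nat.gcd (α k) b : ℕ) : ℤ) by ring,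
    Int.add_emod_right]

theorem cont_eq (D : Dat p a b u T N α w s B) {β : Type*} (f : ℕ → β)
    (hf : ∀ x < s N, f (mp b α w s x) = f x) {k o : ℕ} (hk : k < N) (ho : o < w k) :
    cont b α s f k ((s k + o : ℕ) : ℤ) = f (s k + o) := by
  unfold cont
  have e : (((s k + o : ℕ) : ℤ) - s k) % ((Nat.gcd (α k) b : ℕ) : ℤ) = ((o % Nat.gcd (α k) b : ℕ) : ℤ) := by
    push_cast
    rw [add_sub_cancel_left]
  rw [e, Int.toNat_natCast]
  obtain ⟨a1, a2, a3, a4⟩ := D.aw hk
  have hg : 0 < Nat.gcd (α k) b := Nat.gcd_pos_of_pos_left _ a4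
  have hgb : Nat.gcd (α k) b ≤ b := Nat.gcd_le_right _ D.hb
  have hm := Nat.mod_lt o hg
  refine three_period a1 a2 a3 a4 D.hb (fun y => f (s k + y)) ?_ _ _ (by omega) ho (Nat.mod_mod _ _)
  intro y hy
  have := hf (s k + y) (D.lt_of hk hy)
  rw [D.mp_eq hy] at this
  exact this

/-- neighbouring segments are connected -/
theorem cont_next (D : Dat p a b u T N α w s B) {β : Type*} (f : ℕ → β)
    (hf : ∀ x < s N, f (mp b α w s x) = f x)
    (hs : ∀ k r, k + 1 < N → r < T → f (s k + lo a b u α w B k r) = f (s (k + 1) + ro b u B k r))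
    {k : ℕ} (hk : k + 1 < N) (y : ℤ) :
    cont b α s f (k + 1) (y + u) = cont b α s f k y := by
  classical
  have hTu := D.hTu
  have hb := D.hb
  have hba := D.hba
  obtain ⟨a1, a2, a3, a4⟩ := D.aw (by omega : k < N)
  obtain ⟨b1, b2, b3, b4⟩ := D.aw hk
  have hg : 0 < Nat.gcd (α k) b := Nat.gcd_pos_of_pos_left _ a4
  have hg' : 0 < Nat.gcd (α (k + 1)) b := Nat.gcd_pos_of_pos_left _ b4
  have hgT : Nat.gcd (α k) b + Nat.gcd (α (k + 1)) b ≤ T := by
    by_cases h : B k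
    · have h1 := D.win _ hk (D.adj k hk h)
      have h2 := D.blk k (by omega) h
      rw [h1.1]; omega
    · have h1 := D.win k (by omega) h
      by_cases h' : B (k + 1)
      · have h2 := D.blk _ hk h'
        rw [h1.1]; omega
      · have h2 := D.win _ hk h'
        have := D.hT
        rw [h1.1, h2.1]; omega
  symm
  refine fw (F := cont b α s f k) (G := fun y => cont b α s f (k + 1) (y + u))
    (g := (Nat.gcd (α k) b : ℕ)) (g' := (Nat.gcd (α (k + 1)) b : ℕ)) (by exact_mod_cast hg)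
    (by exact_mod_cast hg') (fun y => cont_per f k y) ?_
    (if B k then ((s (k + 1) : ℤ) - u) else ((s (k + 1) : ℤ) - T)) ?_ y
  · intro y
    rw [show y + ((Nat.gcd (α (k + 1)) b : ℕ) : ℤ) + u = (y + u) + ((Nat.gcd (α (k + 1)) b : ℕ) : ℤ) by ring]
    exact cont_per f (k + 1) (y + u)
  · intro y hy1 hy2
    by_cases h : B k
    · rw [if_pos h] at hy1 hy2
      have h2 := D.blk k (by omega) h
      obtain ⟨r, hr⟩ : ∃ r : ℕ, y = (s (k + 1) : ℤ) - u + r := ⟨(y - ((s (k + 1) : ℤ) - u)).toNat, by omega⟩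
      have hrT : r < T := by
        have : (Nat.gcd (α k) b : ℤ) + (Nat.gcd (α (k + 1)) b : ℤ) ≤ T := by exact_mod_cast hgT
        omega
      have e1 := hs k r hk hrT
      obtain ⟨e2, e3⟩ := (D.three_lo (by omega : k < N) hrT).2 h
      obtain ⟨e4, e5⟩ := (D.three_ro hk hrT).2 h
      have hs1 := D.s1 k
      have e6 : y = ((s k + lo a b u α w B k r : ℕ) : ℤ) := by omega
      have e7 : y + u = ((s (k + 1) + ro b u B k r : ℕ) : ℤ) := by omega
      rw [e7, e6, D.cont_eq f hf (by omega) (D.lo_lt (by omega) hrT), D.cont_eq f hf hk (D.ro_lt hk hrT)]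
      exact e1
    · rw [if_neg h] at hy1 hy2
      have h2 := D.win k (by omega) h
      have hgT' : (Nat.gcd (α k) b : ℤ) + (Nat.gcd (α (k + 1)) b : ℤ) ≤ T := by exact_mod_cast hgT
      obtain ⟨r, hr⟩ : ∃ r : ℕ, y = (s (k + 1) : ℤ) - 1 - r := ⟨((s (k + 1) : ℤ) - 1 - y).toNat, by omega⟩
      have hrT : r < T := by omega
      have e1 := hs k r hk hrT
      obtain ⟨e2, e3⟩ := (D.three_lo (by omega : k < N) hrT).1 h
      obtain ⟨e4, e5⟩ := (D.three_ro hk hrT).1 h
      have hs1 := D.s1 k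
      have f1 := hf (s k + lo a b u α w B k r) (D.lt_of (by omega) (D.lo_lt (by omega) hrT))
      have f2 := hf (s (k + 1) + ro b u B k r) (D.lt_of hk (D.ro_lt hk hrT))
      rw [D.mp_eq (D.lo_lt (by omega) hrT), e2] at f1
      rw [D.mp_eq (D.ro_lt hk hrT), e4] at f2
      have hw := (D.lo_lt (by omega : k < N) hrT)
      have hw' := (D.ro_lt hk hrT)
      have e6 : y = ((s k + (w k - 1 - r) : ℕ) : ℤ) := by omega
      have e7 : y + u = ((s (k + 1) + (u - 1 - r) : ℕ) : ℤ) := by omega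
      rw [e7, e6, D.cont_eq f hf (by omega) (by omega), D.cont_eq f hf hk (by omega), f1, f2]
      exact e1

/-- a function invariant under the exchanges and the swaps is constant -/
theorem const (D : Dat p a b u T N α w s B) (hd : ∀ d : ℕ, (∀ k < N, d ∣ Nat.gcd (α k) b) → d = 1)
    {β : Type*} (f : ℕ → β) (hf : ∀ x < s N, f (mp b α w s x) = f x)
    (hs : ∀ k r, k + 1 < N → r < T → f (s k + lo a b u α w B k r) = f (s (k + 1) + ro b u B k r))
    {x : ℕ} (hx : x < s N) : f x = cont b α s f 0 0 := by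
  have h1 : ∀ k, k < N → ∀ y : ℤ, cont b α s f k (y + k * u) = cont b α s f 0 y := by
    intro k
    induction k with
    | zero => intro _ y; simp
    | succ k ih =>
      intro hk y
      rw [← ih (by omega) y, ← D.cont_next f hf hs hk (y + k * u)]
      congr 1
      push_cast; ring
  have h2 : ∀ k < N, ∀ y, cont b α s f 0 (y + (Nat.gcd (α k) b : ℕ)) = cont b α s f 0 y := by
    intro k hk y
    rw [← h1 k hk, ← h1 k hk y, show y + ((Nat.gcd (α k) b : ℕ) : ℤ) + k * u =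
      (y + k * u) + ((Nat.gcd (α k) b : ℕ) : ℤ) by ring]
    exact cont_per f k _
  have h3 := const_of_periods (F := cont b α s f 0) (N := N) (g := fun k => Nat.gcd (α k) b) h2 hd
  obtain ⟨k, y, hk, hy, rfl⟩ := D.exi' hx
  rw [← D.cont_eq f hf hk hy, show (((s k + y : ℕ) : ℤ)) = ((s k + y : ℕ) : ℤ) - k * u + k * u by ring,
    h1 k hk, h3]

/-- **The abstract chain theorem.** -/
theorem cyc (D : Dat p a b u T N α w s B) (hN : 0 < N)
    (hd : ∀ d : ℕ, (∀ k < N, d ∣ Nat.gcd (α k) b) → d = 1) : Cyc p (s N) := by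
  classical
  have hν : 0 < s N := by
    have h1 := D.mono (show 1 ≤ N by omega)
    have h2 := D.s1 0
    obtain ⟨a1, a2, a3, a4⟩ := D.aw hN
    simp only [zero_add] at h2
    omega
  have hinj : Function.Injective (fun x : Fin (s N) => (⟨mp b α w s x, D.mp_lt x.2⟩ : Fin (s N))) := by
    intro x y hxy
    apply Fin.ext
    exact D.mp_inj x.2 y.2 (by simpa using congrArg Fin.val hxy)
  let σ : Equiv.Perm (Fin (s N)) := Equiv.ofBijective _ (Finite.injective_iff_bijective.mp hinj)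
  have hσ : ∀ x : Fin (s N), ((σ x : Fin (s N)) : ℕ) = mp b α w s x := fun x => rfl
  let I : Finset (ℕ × ℕ) := Finset.range (N - 1) ×ˢ Finset.range T
  let φ : ℕ × ℕ → Fin (s N) × Fin (s N) := fun q =>
    (fn hν (s q.1 + lo a b u α w B q.1 q.2), fn hν (s (q.1 + 1) + ro b u B q.1 q.2))
  let P : List (Fin (s N) × Fin (s N)) := I.toList.map φ
  have hIm : ∀ q : ℕ × ℕ, q ∈ I.toList ↔ (q.1 + 1 < N ∧ q.2 < T) := by
    intro q
    simp only [I, Finset.mem_toList, Finset.mem_product, Finset.mem_range]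
    constructor
    · rintro ⟨h1, h2⟩; exact ⟨by omega, h2⟩
    · rintro ⟨h1, h2⟩; exact ⟨by omega, h2⟩
  have hφ1 : ∀ q : ℕ × ℕ, q.1 + 1 < N → q.2 < T →
      (((φ q).1 : Fin (s N)) : ℕ) = s q.1 + lo a b u α w B q.1 q.2 := fun q h1 h2 =>
    fn_coe hν (D.lt_of (by omega) (D.lo_lt (by omega) h2))
  have hφ2 : ∀ q : ℕ × ℕ, q.1 + 1 < N → q.2 < T →
      (((φ q).2 : Fin (s N)) : ℕ) = s (q.1 + 1) + ro b u B q.1 q.2 := fun q h1 h2 =>
    fn_coe hν (D.lt_of h1 (D.ro_lt h1 h2))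
  have hl : ∀ q : ℕ × ℕ, q.1 + 1 < N → q.2 < T → s q.1 + lo a b u α w B q.1 q.2 < s (q.1 + 1) := by
    intro q h1 h2
    have := D.lo_lt (by omega : q.1 < N) h2
    rw [D.s1]; omega
  have hr : ∀ q : ℕ × ℕ, q.1 + 1 < N → q.2 < T → s (q.1 + 1) + ro b u B q.1 q.2 < s (q.1 + 1 + 1) := by
    intro q h1 h2
    have := D.ro_lt h1 h2
    rw [D.s1 (q.1 + 1)]; omega
  have hne : ∀ q q' : ℕ × ℕ, q.1 + 1 < N → q.2 < T → q'.1 + 1 < N → q'.2 < T →
      s q.1 + lo a b u α w B q.1 q.2 ≠ s (q'.1 + 1) + ro b u B q'.1 q'.2 := by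
    intro q q' h1 h2 h3 h4 h
    have e := D.uniq (x := s q.1 + lo a b u α w B q.1 q.2) (by omega) (hl q h1 h2)
      (show s (q'.1 + 1) ≤ _ by omega) (by rw [h]; exact hr q' h3 h4)
    rw [e] at h
    have h5 := D.lo_ne_ro h3 (show q.2 < T from h2) h4
    omega
  have hP : (P.flatMap (fun x => [x.1, x.2])).Nodup := by
    rw [List.nodup_flatMap]
    constructor
    · intro x hx
      obtain ⟨q, hq, rfl⟩ := List.mem_map.mp hx
      obtain ⟨h1, h2⟩ := (hIm q).mp hq
      have h3 := hne q q h1 h2 h1 h2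
      rw [← hφ1 q h1 h2, ← hφ2 q h1 h2] at h3
      simpa [Fin.ext_iff] using h3
    · rw [List.pairwise_map]
      refine List.Nodup.pairwise_of_forall_ne (Finset.nodup_toList I) ?_
      intro q hq q' hq' hqq
      obtain ⟨h1, h2⟩ := (hIm q).mp hq
      obtain ⟨h3, h4⟩ := (hIm q').mp hq'
      have e1 := hne q q' h1 h2 h3 h4
      have e2 := hne q' q h3 h4 h1 h2
      have e3 : s q.1 + lo a b u α w B q.1 q.2 ≠ s q'.1 + lo a b u α w B q'.1 q'.2 := by
        intro h
        have e := D.uniq (x := s q.1 + lo a b u α w B q.1 q.2) (by omega) (hl q h1 h2)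
          (show s q'.1 ≤ _ by omega) (by rw [h]; exact hl q' h3 h4)
        apply hqq
        rw [e] at h
        have e' := D.lo_inj (show q'.1 < N by omega) h2 h4 (by omega)
        exact Prod.ext e e'
      have e4 : s (q.1 + 1) + ro b u B q.1 q.2 ≠ s (q'.1 + 1) + ro b u B q'.1 q'.2 := by
        intro h
        have e := D.uniq (x := s (q.1 + 1) + ro b u B q.1 q.2) (by omega) (hr q h1 h2)
          (show s (q'.1 + 1) ≤ _ by omega) (by rw [h]; exact hr q' h3 h4)
        have e5 : q.1 = q'.1 := by omega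
        apply hqq
        rw [e5] at h
        have e' := D.ro_inj (k := q'.1) h2 h4 (by omega)
        exact Prod.ext e5 e'
      have g1 := hφ1 q h1 h2
      have g2 := hφ2 q h1 h2
      have g3 := hφ1 q' h3 h4
      have g4 := hφ2 q' h3 h4
      intro x hx hx'
      simp only [List.mem_cons, List.not_mem_nil, or_false] at hx hx'
      rcases hx with hx | hx <;> rcases hx' with hx' | hx'
      · apply e3; rw [← g1, ← g3, ← hx, ← hx']
      · apply e1; rw [← g1, ← g4, ← hx, ← hx']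
      · apply e2; rw [← g2, ← g3, ← hx, ← hx']
      · apply e4; rw [← g2, ← g4, ← hx, ← hx']
  have hconn : ∀ x y, Relation.EqvGen (fun x y => σ x = y ∨ (x, y) ∈ P) x y := by
    intro x y
    let rel : Fin (s N) → Fin (s N) → Prop := fun x y => σ x = y ∨ (x, y) ∈ P
    let f : ℕ → Quot rel := fun x => Quot.mk rel (fn hν x)
    have hf : ∀ x < s N, f (mp b α w s x) = f x := by
      intro x hx
      symm
      apply Quot.sound
      left
      apply Fin.ext
      rw [hσ, fn_coe hν hx, fn_coe hν (D.mp_lt hx)]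
    have hs : ∀ k r, k + 1 < N → r < T → f (s k + lo a b u α w B k r) = f (s (k + 1) + ro b u B k r) := by
      intro k r hk hr
      apply Quot.sound
      right
      exact List.mem_map.mpr ⟨(k, r), (hIm (k, r)).mpr ⟨hk, hr⟩, rfl⟩
    have h1 := D.const hd f hf hs x.2
    have h2 := D.const hd f hf hs y.2
    have h3 : f x = f y := by rw [h1, h2]
    have h4 : Quot.mk rel x = Quot.mk rel y := by
      have : Quot.mk rel (fn hν (x : ℕ)) = Quot.mk rel (fn hν (y : ℕ)) := h3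
      rwa [fn_val, fn_val] at this
    exact Quot.eqvGen_exact h4
  obtain ⟨τ, hτ1, hτ2⟩ := merge σ P hP hconn
  refine ⟨τ, hτ1, ?_⟩
  intro x
  rcases hτ2 x with h | ⟨q, hq, h⟩
  · rw [h, hσ]
    exact D.mp_al x.2
  · obtain ⟨⟨k, r⟩, hkr, rfl⟩ := List.mem_map.mp hq
    obtain ⟨h1, h2⟩ := (hIm (k, r)).mp hkr
    have g1 := hφ1 (k, r) h1 h2
    have g2 := hφ2 (k, r) h1 h2
    rcases h with ⟨hx, hy⟩ | ⟨hx, hy⟩
    · rw [hy, hσ, hx, g2, g1]
      exact D.al_left h1 h2
    · rw [hy, hσ, hx, g1, g2]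
      exact D.al_right h1 h2

end Dat

end Pool.Agent.Work.MP_713a1e_co.E
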