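import Mathlib

/-!
# Kernel computation for `Chi.lean`

`cs a P N W m` is the sum over `1 ≤ j ≤ 100 m` of `|p_j - q_j - 1| * (⌊W/(j (j+1))⌋ + 1)`, where
`p_j = ∑_{k ∈ P} a (j/k)`, `q_j = ∑_{k ∈ N} a (j/k)`; the digits `p_j`, `q_j` are read off from two long numbers
in base `256`.
-/

namespace Pool.Agent.Work.MP_713a1e_co.E.ChiK

open Finset

/-- evaluates its first argument -/
@[inline] def force {β : Type} (n : Nat) (f : Nat → β) : β :=
  Nat.rec (motive := fun _ => β) (f 0) (fun k _ => f (Nat.succ k)) n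

theorem force_eq {β : Type} (n : Nat) (f : Nat → β) : force n f = f n := by
  cases n <;> rfl

/-- `s = ∑_{j < n} f j * X ^ j + X ^ n * r` -/
def Rep (X s : Nat) (f : Nat → Nat) (n : Nat) : Prop :=
  ∃ r, s = ∑ j ∈ range n, f j * X ^ j + X ^ n * r

theorem Rep.add {X s t : Nat} {f g : Nat → Nat} {n : Nat} (h : Rep X s f n) (h' : Rep X t g n) :
    Rep X (s + t) (fun j => f j + g j) n := by
  obtain ⟨r, hr⟩ := h
  obtain ⟨r', hr'⟩ := h'
  refine ⟨r + r', ?_⟩
  simp only [add_mul, Finset.sum_add_distrib]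
  rw [hr, hr']
  ring

theorem Rep.zero (X n : Nat) : Rep X 0 (fun _ => 0) n := ⟨0, by simp⟩

theorem Rep.mono {X s : Nat} {f : Nat → Nat} {n m : Nat} (h : Rep X s f n) (hm : m ≤ n) : Rep X s f m := by
  obtain ⟨r, hr⟩ := h
  obtain ⟨d, rfl⟩ := Nat.exists_eq_add_of_le hm
  refine ⟨∑ j ∈ range d, f (m + j) * X ^ j + X ^ d * r, ?_⟩
  rw [hr, Finset.sum_range_add, mul_add, Finset.mul_sum, pow_add, add_assoc]
  congr 1
  congr 1
  · apply Finset.sum_congr rfl
    intro j _
    rw [pow_add]; ring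
  · ring

theorem Rep.congr {X s : Nat} {f g : Nat → Nat} {n : Nat} (h : Rep X s f n) (hfg : ∀ j < n, f j = g j) :
    Rep X s g n := by
  obtain ⟨r, hr⟩ := h
  refine ⟨r, ?_⟩
  rw [hr]
  congr 1
  apply Finset.sum_congr rfl
  intro j hj
  rw [hfg j (Finset.mem_range.1 hj)]

/-- one digit -/
theorem Rep.step {X s : Nat} {f : Nat → Nat} {n : Nat} (h : Rep X s f (n + 1)) (h0 : f 0 < X) :
    s % X = f 0 ∧ Rep X (s / X) (fun j => f (j + 1)) n := by
  obtain ⟨r, hr⟩ := h
  have hX : 0 < X := by omega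
  have hs : s = f 0 + X * (∑ j ∈ range n, f (j + 1) * X ^ j + X ^ n * r) := by
    rw [hr, Finset.sum_range_succ', mul_add, Finset.mul_sum]
    have : ∑ k ∈ range n, f (k + 1) * X ^ (k + 1) = ∑ i ∈ range n, X * (f (i + 1) * X ^ i) := by
      apply Finset.sum_congr rfl
      intro j _
      rw [pow_succ]; ring
    rw [this, pow_succ]
    ring
  constructor
  · rw [hs, Nat.add_mul_mod_self_left, Nat.mod_eq_of_lt h0]
  · refine ⟨r, ?_⟩
    rw [hs, Nat.add_mul_div_left _ _ hX, Nat.div_eq_of_lt h0, zero_add]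

/-- a chunk of digits -/
theorem Rep.chunk {X s : Nat} {f : Nat → Nat} {n m : Nat} (h : Rep X s f (m + n)) (hX : 0 < X)
    (hf : ∀ j, f j < X) :
    Rep X (s % X ^ m) f m ∧ Rep X (s / X ^ m) (fun j => f (m + j)) n := by
  obtain ⟨r, hr⟩ := h
  set A := ∑ j ∈ range m, f j * X ^ j with hA
  set B := ∑ j ∈ range n, f (m + j) * X ^ j + X ^ n * r with hB
  have hs : s = A + X ^ m * B := by
    rw [hr, Finset.sum_range_add, hB, mul_add, Finset.mul_sum, pow_add, add_assoc]
    congr 1
    congr 1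
    · apply Finset.sum_congr rfl
      intro j _
      rw [pow_add]; ring
    · ring
  have hAlt : A < X ^ m := by
    have key : ∀ m, ∑ j ∈ range m, f j * X ^ j < X ^ m := by
      intro m
      induction m with
      | zero => simp
      | succ m ih2 =>
        rw [Finset.sum_range_succ, pow_succ]
        have := hf m
        nlinarith [Nat.mul_le_mul_right (X ^ m) this]
    exact key m
  have hXm : 0 < X ^ m := pow_pos hX m
  constructor
  · refine ⟨0, ?_⟩
    rw [hs, Nat.add_mul_mod_self_left, Nat.mod_eq_of_lt hAlt]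
    simp [hA]
  · refine ⟨r, ?_⟩
    rw [hs, Nat.add_mul_div_left _ _ hXm, Nat.div_eq_of_lt hAlt, zero_add]

/-- blocks of equal digits -/
theorem Rep.blocks {X k s : Nat} {a : Nat → Nat} {n : Nat} (hk : 0 < k) (h : Rep (X ^ k) s a n) :
    Rep X ((∑ i ∈ range k, X ^ i) * s) (fun j => a (j / k)) (k * n) := by
  obtain ⟨r, hr⟩ := h
  have key : ∀ n, ∑ j ∈ range (k * n), a (j / k) * X ^ j
      = (∑ i ∈ range k, X ^ i) * ∑ j ∈ range n, a j * (X ^ k) ^ j := by
    intro n
    induction n with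
    | zero => simp
    | succ n ih =>
      rw [Nat.mul_succ, Finset.sum_range_add, ih, Finset.sum_range_succ, mul_add]
      congr 1
      rw [Finset.sum_mul]
      apply Finset.sum_congr rfl
      intro i hi
      have hi := Finset.mem_range.1 hi
      have : (k * n + i) / k = n := by
        rw [Nat.mul_add_div hk, Nat.div_eq_of_lt hi, add_zero]
      rw [this, pow_add, pow_mul]
      ring
  refine ⟨(∑ i ∈ range k, X ^ i) * r, ?_⟩
  rw [hr, key, mul_add, pow_mul]
  ring

/-- the weight -/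
def wt (W j : Nat) : Nat := Nat.succ (Nat.div W (Nat.mul j (Nat.succ j)))

def dist1 (p q : Nat) : Nat := Nat.add (Nat.sub p (Nat.succ q)) (Nat.sub (Nat.succ q) p)

/-- `n` digits -/
def inner (W n : Nat) : Nat → Nat → Nat → Nat → Nat :=
  Nat.rec (motive := fun _ => Nat → Nat → Nat → Nat → Nat) (fun _ _ _ acc => acc)
    (fun _ ih sP sN j acc =>
      force (Nat.mod sP 256) fun p => force (Nat.succ (Nat.mod sN 256)) fun q =>
      force (Nat.div sP 256) fun sP' => force (Nat.div sN 256) fun sN' =>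
      force (Nat.add acc (Nat.mul (Nat.add (Nat.sub p q) (Nat.sub q p))
        (Nat.succ (Nat.div W (Nat.mul j (Nat.succ j)))))) fun acc' => ih sP' sN' (Nat.succ j) acc') n

/-- `m` chunks of `100` digits -/
def outer (W m : Nat) : Nat → Nat → Nat → Nat → Nat :=
  Nat.rec (motive := fun _ => Nat → Nat → Nat → Nat → Nat) (fun _ _ _ acc => acc)
    (fun _ ih sP sN j acc =>
      force (Nat.mod sP (Nat.pow 256 100)) fun cP => force (Nat.mod sN (Nat.pow 256 100)) fun cN =>
      force (Nat.div sP (Nat.pow 256 100)) fun sP' => force (Nat.div sN (Nat.pow 256 100)) fun sN' =>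
      force (inner W 100 cP cN j acc) fun acc' => ih sP' sN' (Nat.add j 100) acc') m

theorem inner_zero (W sP sN j acc : Nat) : inner W 0 sP sN j acc = acc := rfl

theorem inner_succ (W n sP sN j acc : Nat) : inner W (n + 1) sP sN j acc
    = inner W n (sP / 256) (sN / 256) (j + 1)
      (acc + dist1 (sP % 256) (sN % 256) * wt W j) := by
  unfold inner
  simp only [force_eq]
  rfl

theorem outer_zero (W sP sN j acc : Nat) : outer W 0 sP sN j acc = acc := rfl

theorem outer_succ (W m sP sN j acc : Nat) : outer W (m + 1) sP sN j acc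
    = outer W m (sP / 256 ^ 100) (sN / 256 ^ 100) (j + 100)
      (inner W 100 (sP % 256 ^ 100) (sN % 256 ^ 100) j acc) := by
  unfold outer
  simp only [force_eq]
  rfl

theorem inner_spec (W : Nat) : ∀ (n sP sN j acc : Nat) (f g : Nat → Nat), Rep 256 sP f n → Rep 256 sN g n →
    (∀ i, f i < 256) → (∀ i, g i < 256) →
    inner W n sP sN j acc = acc + ∑ i ∈ range n, dist1 (f i) (g i) * wt W (j + i)
  | 0, sP, sN, j, acc, f, g, _, _, _, _ => by simp [inner_zero]
  | n + 1, sP, sN, j, acc, f, g, hP, hN, hf, hg => by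
    obtain ⟨h1, h2⟩ := hP.step (hf 0)
    obtain ⟨h3, h4⟩ := hN.step (hg 0)
    rw [inner_succ, inner_spec W n _ _ _ _ _ _ h2 h4 (fun i => hf _) (fun i => hg _), h1, h3,
      Finset.sum_range_succ']
    simp only [add_zero]
    have : ∑ i ∈ range n, dist1 (f (i + 1)) (g (i + 1)) * wt W (j + 1 + i)
        = ∑ k ∈ range n, dist1 (f (k + 1)) (g (k + 1)) * wt W (j + (k + 1)) := by
      apply Finset.sum_congr rfl
      intro i _
      rw [show j + 1 + i = j + (i + 1) by ring]
    rw [this]
    ring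

theorem outer_spec (W : Nat) : ∀ (m sP sN j acc : Nat) (f g : Nat → Nat), Rep 256 sP f (100 * m) →
    Rep 256 sN g (100 * m) → (∀ i, f i < 256) → (∀ i, g i < 256) →
    outer W m sP sN j acc = acc + ∑ i ∈ range (100 * m), dist1 (f i) (g i) * wt W (j + i)
  | 0, sP, sN, j, acc, f, g, _, _, _, _ => by simp [outer_zero]
  | m + 1, sP, sN, j, acc, f, g, hP, hN, hf, hg => by
    rw [Nat.mul_succ, add_comm] at hP hN
    obtain ⟨h1, h2⟩ := hP.chunk (by norm_num) hf
    obtain ⟨h3, h4⟩ := hN.chunk (by norm_num) hg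
    rw [outer_succ, outer_spec W m _ _ _ _ _ _ h2 h4 (fun i => hf _) (fun i => hg _),
      inner_spec W 100 _ _ _ _ _ _ h1 h3 hf hg, Nat.mul_succ, add_comm (100 * m) 100,
      Finset.sum_range_add, add_assoc]
    congr 2
    apply Finset.sum_congr rfl
    intro i _
    rw [add_assoc]

/-- the long number -/
def big (G : Nat → Nat) (l : List Nat) : Nat :=
  List.rec (motive := fun _ => Nat) 0 (fun k _ s => Nat.add (G k) s) l

theorem big_rep {G : Nat → Nat} {a : Nat → Nat} {n : Nat} :
    ∀ l : List Nat, (∀ k ∈ l, Rep 256 (G k) (fun j => a (j / k)) n) →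
      Rep 256 (big G l) (fun j => (l.map fun k => a (j / k)).sum) n
  | [], _ => by
    have := Rep.zero 256 n
    simpa [big] using this
  | k :: l, h => by
    have h1 := h k (by simp)
    have h2 := big_rep l (fun k hk => h k (by simp [hk]))
    have h3 := h1.add h2
    simpa [big] using h3

/-- the computation -/
def cs (G : Nat → Nat) (P N : List Nat) (W m : Nat) : Nat :=
  force (Nat.div (big G P) 256) fun sP => force (Nat.div (big G N) 256) fun sN => outer W m sP sN 1 0

theorem sum_map_lt {a : Nat → Nat} (ha : ∀ n, a n ≤ 1) (l : List Nat) (hl : l.length < 256) (j : Nat) :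
    (l.map fun k => a (j / k)).sum < 256 := by
  refine lt_of_le_of_lt ?_ hl
  have := List.sum_le_card_nsmul (l.map fun k => a (j / k)) 1 (by
    intro x hx
    obtain ⟨k, _, rfl⟩ := List.mem_map.1 hx
    exact ha _)
  simpa using this

theorem cs_spec {G a : Nat → Nat} (ha : ∀ n, a n ≤ 1) (P N : List Nat) (W m : Nat)
    (hP : ∀ k ∈ P, Rep 256 (G k) (fun j => a (j / k)) (100 * m + 1))
    (hN : ∀ k ∈ N, Rep 256 (G k) (fun j => a (j / k)) (100 * m + 1))
    (hPl : P.length < 256) (hNl : N.length < 256) :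
    cs G P N W m = ∑ j ∈ Finset.Icc 1 (100 * m),
      dist1 (P.map fun k => a (j / k)).sum (N.map fun k => a (j / k)).sum * wt W j := by
  have h1 := (big_rep P hP).step (sum_map_lt ha P hPl 0)
  have h2 := (big_rep N hN).step (sum_map_lt ha N hNl 0)
  have h3 : cs G P N W m = outer W m (big G P / 256) (big G N / 256) 1 0 := by
    simp only [cs, force_eq]
    rfl
  rw [h3, outer_spec W m _ _ _ _ _ _ h1.2 h2.2 (fun i => sum_map_lt ha P hPl _)
    (fun i => sum_map_lt ha N hNl _), zero_add]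
  have h4 := Finset.sum_Ico_add' (fun j => dist1 (P.map fun k => a (j / k)).sum
    (N.map fun k => a (j / k)).sum * wt W j) 0 (100 * m) 1
  rw [← Finset.range_eq_Ico, zero_add] at h4
  have h5 : Finset.Icc 1 (100 * m) = Finset.Ico 1 (100 * m + 1) := by
    ext x; simp only [Finset.mem_Icc, Finset.mem_Ico]; omega
  rw [h5, ← h4]
  apply Finset.sum_congr rfl
  intro i _
  simp only [add_comm 1 i]

end Pool.Agent.Work.MP_713a1e_co.E.ChiK
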