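import Pool.Agent.Work.MP_713a1e_co.E.ChiA

/-!
# The long numbers for the two characters
-/

namespace Pool.Agent.Work.MP_713a1e_co.E.ChiK

open Finset

/-- `a3 n = ∑_{i ≤ n} χ_3 (i)` -/
def a3 (n : Nat) : Nat := n % 3 % 2

/-- `a4 n = ∑_{i ≤ n} χ_4 (i)` -/
def a4 (n : Nat) : Nat := (n + 1) % 4 / 2

theorem a3_le (n : Nat) : a3 n ≤ 1 := by unfold a3; omega
theorem a4_le (n : Nat) : a4 n ≤ 1 := by unfold a4; omega

/-- the long number of `χ_3`, `k` -/
def G3 (k : Nat) : Nat :=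
  force (Nat.pow 256 k) fun Y =>
    Nat.mul (Nat.div (Nat.sub Y 1) 255)
      (Nat.mul Y (Nat.div (Nat.sub (Nat.pow Y (Nat.mul 3 (Nat.succ (Nat.div 20000 (Nat.mul 3 k))))) 1)
        (Nat.sub (Nat.pow Y 3) 1)))

/-- the long number of `χ_4`, `k` -/
def G4 (k : Nat) : Nat :=
  force (Nat.pow 256 k) fun Y =>
    Nat.mul (Nat.div (Nat.sub Y 1) 255)
      (Nat.mul (Nat.add Y (Nat.mul Y Y))
        (Nat.div (Nat.sub (Nat.pow Y (Nat.mul 4 (Nat.succ (Nat.div 20000 (Nat.mul 4 k))))) 1)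
        (Nat.sub (Nat.pow Y 4) 1)))

theorem rep_a3 (Y : Nat) : ∀ m, Rep Y (Y * ∑ u ∈ range m, (Y ^ 3) ^ u) a3 (3 * m)
  | 0 => ⟨0, by simp⟩
  | m + 1 => by
    obtain ⟨r, hr⟩ := rep_a3 Y m
    have key : ∀ m, Y * ∑ u ∈ range m, (Y ^ 3) ^ u = ∑ j ∈ range (3 * m), a3 j * Y ^ j := by
      intro m
      induction m with
      | zero => simp
      | succ m ih =>
        rw [Finset.sum_range_succ, mul_add, ih, show 3 * (m + 1) = 3 * m + 1 + 1 + 1 by ring,
          Finset.sum_range_succ, Finset.sum_range_succ, Finset.sum_range_succ]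
        have h0 : a3 (3 * m) = 0 := by unfold a3; omega
        have h1 : a3 (3 * m + 1) = 1 := by unfold a3; omega
        have h2 : a3 (3 * m + 1 + 1) = 0 := by unfold a3; omega
        rw [h0, h1, h2]
        rw [← pow_mul, pow_succ]
        ring
    exact ⟨0, by rw [key]; simp⟩

theorem rep_a4 (Y : Nat) (m : Nat) : Rep Y ((Y + Y * Y) * ∑ u ∈ range m, (Y ^ 4) ^ u) a4 (4 * m) := by
  have key : ∀ m, (Y + Y * Y) * ∑ u ∈ range m, (Y ^ 4) ^ u = ∑ j ∈ range (4 * m), a4 j * Y ^ j := by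
    intro m
    induction m with
    | zero => simp
    | succ m ih =>
      rw [Finset.sum_range_succ, mul_add, ih, show 4 * (m + 1) = 4 * m + 1 + 1 + 1 + 1 by ring,
        Finset.sum_range_succ, Finset.sum_range_succ, Finset.sum_range_succ, Finset.sum_range_succ]
      have h0 : a4 (4 * m) = 0 := by unfold a4; omega
      have h1 : a4 (4 * m + 1) = 1 := by unfold a4; omega
      have h2 : a4 (4 * m + 1 + 1) = 1 := by unfold a4; omega
      have h3 : a4 (4 * m + 1 + 1 + 1) = 0 := by unfold a4; omega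
      rw [h0, h1, h2, h3]
      rw [← pow_mul, pow_succ, pow_succ]
      ring
  exact ⟨0, by rw [key]; simp⟩

theorem G3_eq {k : Nat} (hk : 0 < k) :
    G3 k = (∑ i ∈ range k, 256 ^ i) *
      (256 ^ k * ∑ u ∈ range (20000 / (3 * k) + 1), ((256 ^ k) ^ 3) ^ u) := by
  have hY : 2 ≤ 256 ^ k := le_trans (by norm_num) (Nat.le_self_pow hk.ne' 256)
  have hY3 : 2 ≤ (256 ^ k) ^ 3 := le_trans hY (Nat.le_self_pow (by norm_num) _)
  have h1 := Nat.geomSum_eq (m := 256) (by norm_num) k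
  have h2 := Nat.geomSum_eq hY3 (20000 / (3 * k) + 1)
  rw [h1, h2, ← pow_mul]
  simp only [G3, force_eq]
  rfl

theorem G4_eq {k : Nat} (hk : 0 < k) :
    G4 k = (∑ i ∈ range k, 256 ^ i) *
      ((256 ^ k + 256 ^ k * 256 ^ k) * ∑ u ∈ range (20000 / (4 * k) + 1), ((256 ^ k) ^ 4) ^ u) := by
  have hY : 2 ≤ 256 ^ k := le_trans (by norm_num) (Nat.le_self_pow hk.ne' 256)
  have hY3 : 2 ≤ (256 ^ k) ^ 4 := le_trans hY (Nat.le_self_pow (by norm_num) _)
  have h1 := Nat.geomSum_eq (m := 256) (by norm_num) k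
  have h2 := Nat.geomSum_eq hY3 (20000 / (4 * k) + 1)
  rw [h1, h2, ← pow_mul]
  simp only [G4, force_eq]
  rfl

theorem G3_rep {k : Nat} (hk : 0 < k) : Rep 256 (G3 k) (fun j => a3 (j / k)) 20001 := by
  rw [G3_eq hk]
  refine (Rep.blocks hk (rep_a3 (256 ^ k) (20000 / (3 * k) + 1))).mono ?_
  have := Nat.lt_mul_div_succ 20000 (show 0 < 3 * k by omega)
  nlinarith

theorem G4_rep {k : Nat} (hk : 0 < k) : Rep 256 (G4 k) (fun j => a4 (j / k)) 20001 := by
  rw [G4_eq hk]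
  refine (Rep.blocks hk (rep_a4 (256 ^ k) (20000 / (4 * k) + 1))).mono ?_
  have := Nat.lt_mul_div_succ 20000 (show 0 < 4 * k by omega)
  nlinarith

def P3 : List Nat := [1, 2, 5, 10, 11, 17, 22, 23, 29, 34, 41, 46, 47, 53, 55, 58, 59, 71, 82, 83, 85, 89, 91]
def N3 : List Nat := [7, 13, 14, 19, 26, 31, 35, 37, 38, 43, 61, 62, 65, 67, 70, 73, 74, 77, 79, 86]
def P4 : List Nat :=
  [1, 3, 7, 11, 19, 21, 23, 31, 33, 43, 47, 57, 59, 65, 67, 69, 71, 77, 79, 83, 85, 93, 103, 107]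
def N4 : List Nat :=
  [5, 13, 15, 17, 29, 35, 37, 39, 41, 51, 53, 55, 61, 73, 87, 89, 91, 95, 97, 101, 105, 109, 111]

end Pool.Agent.Work.MP_713a1e_co.E.ChiK
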