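import Mathlib

/-!
# Prime pyramid rows for every n: basic definitions
-/

namespace Pool.Agent.Work.MP_713a1e_co.E

/-- `l` is a prime pyramid row of length `n` (same definition as in `Results`). -/
def IsRow (n : ℕ) (l : List ℕ) : Prop :=
  l.Perm (List.range' 1 n) ∧ l.head? = some 1 ∧ l.getLast? = some n ∧
    l.IsChain (fun x y => (x + y).Prime)

/-- There is a prime pyramid row of length `n` (also used for `n = 1`). -/
def HasRow (n : ℕ) : Prop := ∃ l, IsRow n l

/-- The displacement `d` is allowed: `p + 2 d` is a prime. -/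
def Al (p : ℕ) (d : ℤ) : Prop := ∃ q : ℕ, q.Prime ∧ (q : ℤ) = p + 2 * d

/-- There is a cyclic permutation of `{0, …, ν - 1}` all of whose displacements are allowed. -/
def Cyc (p ν : ℕ) : Prop :=
  ∃ σ : Equiv.Perm (Fin ν), (∀ x y, σ.SameCycle x y) ∧
    ∀ x : Fin ν, Al p (((σ x : ℕ) : ℤ) - ((x : ℕ) : ℤ))

/-- The threshold: rows of length below `X0` are constructed by computation. -/
def X0 : ℕ := 2 ^ 2400

/-- Chebyshev's function twisted by the character modulo 3. -/
noncomputable def chi3 (n : ℕ) : ℝ := if n % 3 = 1 then 1 else if n % 3 = 2 then -1 else 0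

/-- The character modulo 4. -/
noncomputable def chi4 (n : ℕ) : ℝ := if n % 4 = 1 then 1 else if n % 4 = 3 then -1 else 0

/-- `∑ χ(p) log p` over the primes `p ≤ x`. -/
noncomputable def thetaC (χ : ℕ → ℝ) (x : ℝ) : ℝ :=
  ∑ p ∈ (Finset.Ioc 0 ⌊x⌋₊).filter Nat.Prime, χ p * Real.log p

end Pool.Agent.Work.MP_713a1e_co.E
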