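import Pool.Agent.Work.MP_713a1e_co.E.Defs

/-!
# JOB P: kernel-checkable primality of `k 2^m + 1` and `k 2^m - 1`

`x ↦ x^4 mod N` is iterated `t` times; if a start value `x` (which may be anything) gives `-1`, then a prime
factor `q` of `N` has `2^(2t+1) ∣ q - 1`.  In the same way `x ↦ (x²-2)²-2 mod N` is iterated `t` times; if a
start value gives `0`, then a prime factor `q` of `N` has `2^(2t+2) ∣ q - 1` or `q + 1`.
-/

namespace Pool.Agent.Work.MP_713a1e_co.E

/-- Evaluate `n` before it is substituted (in the kernel). -/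
@[inline] def force {β : Type} (n : ℕ) (f : ℕ → β) : β :=
  Nat.rec (motive := fun _ => β) (f 0) (fun k _ => f (Nat.succ k)) n

theorem force_eq {β : Type} (n : ℕ) (f : ℕ → β) : force n f = f n := by
  cases n <;> rfl

/-- `x ↦ x^4 mod N`, iterated `t` times. -/
def sqIter (N x t : ℕ) : ℕ :=
  Nat.rec (motive := fun _ => ℕ) x (fun _ ih => Nat.mod (Nat.pow ih 4) N) t

/-- `x ↦ (x^2 + e)^2 + e mod N`, iterated `t` times (`e = N - 2`). -/
def lucIter (N e x t : ℕ) : ℕ :=
  Nat.rec (motive := fun _ => ℕ) x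
    (fun _ ih => Nat.mod (Nat.add (Nat.pow (Nat.add (Nat.pow ih 2) e) 2) e) N) t

/-- `c ^ k mod N` (only the start value of a test; nothing is proved about it). -/
def powStart (N c fuel : ℕ) : ℕ → ℕ :=
  Nat.rec (motive := fun _ => ℕ → ℕ) (fun _ => 1)
    (fun _ ih k => cond (Nat.beq k 0) 1 (force (Nat.div k 2) fun k' =>
      Nat.mod (Nat.mul (Nat.pow (ih k') 2) (Nat.pow c (Nat.mod k 2))) N)) fuel

/-- `V_k + T V_{k+1}` with `V_0 = 2`, `V_1 = v`, `V_{j+1} = v V_j - V_{j-1}` modulo `N`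
(only the start value of a test; nothing is proved about it). -/
def lucStart (N e v T fuel : ℕ) : ℕ → ℕ :=
  Nat.rec (motive := fun _ => ℕ → ℕ) (fun _ => 0)
    (fun _ ih k => cond (Nat.beq k 0) (Nat.add 2 (Nat.mul v T))
      (force (force (Nat.div k 2) ih) fun s =>
        cond (Nat.beq (Nat.mod k 2) 0)
          (Nat.add (Nat.mod (Nat.add (Nat.pow (Nat.mod s T) 2) e) N)
            (Nat.mul T (Nat.mod (Nat.add (Nat.mul (Nat.mod s T) (Nat.div s T)) (Nat.sub N v)) N)))
          (Nat.add (Nat.mod (Nat.add (Nat.mul (Nat.mod s T) (Nat.div s T)) (Nat.sub N v)) N)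
            (Nat.mul T (Nat.mod (Nat.add (Nat.pow (Nat.div s T) 2) e) N))))) fuel

/-- The test for `N = K 2^(2t+1) + 1`. -/
def prothOK (N K c t : ℕ) : Bool :=
  Nat.beq (sqIter N (powStart N c 40 K) t) (Nat.sub N 1)

/-- The test for `N = k 2^(2t+2) - 1`; `T` is a power of two above `N`. -/
def llrOK (N k v T t : ℕ) : Bool :=
  force (Nat.sub N 2) fun e =>
    Nat.beq (lucIter N e (force (lucStart N e v T 40 k) fun s => Nat.mod s T) t) 0

/-! ### Soundness -/

theorem sqIter_cast {N q : ℕ} (hq : q ∣ N) (x t : ℕ) :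
    ((sqIter N x t : ℕ) : ZMod q) = (x : ZMod q) ^ (2 ^ (2 * t)) := by
  induction t with
  | zero => simp [sqIter]
  | succ t ih =>
    have e : sqIter N x (t + 1) = (sqIter N x t) ^ 4 % N := rfl
    rw [e]
    have h1 : (((sqIter N x t) ^ 4 % N : ℕ) : ZMod q) = ((sqIter N x t) ^ 4 : ℕ) := by
      rw [ZMod.natCast_eq_natCast_iff]
      exact (Nat.mod_modEq _ N).of_dvd hq
    rw [h1, Nat.cast_pow, ih, ← pow_mul]
    congr 1
    rw [show 2 * (t + 1) = 2 * t + 2 by ring, pow_add]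
    norm_num

theorem order_bound_proth {q M : ℕ} [Fact q.Prime] (h2 : q ≠ 2) {β : ZMod q}
    (h : β ^ (2 ^ M) = -1) : 2 ^ (M + 1) ∣ q - 1 := by
  have hne : (-1 : ZMod q) ≠ 1 := by
    intro h3
    have h4 : (2 : ZMod q) = 0 := by linear_combination -h3
    have h5 : ((2 : ℕ) : ZMod q) = 0 := by exact_mod_cast h4
    rw [ZMod.natCast_eq_zero_iff] at h5
    exact h2 ((Nat.prime_dvd_prime_iff_eq Fact.out Nat.prime_two).1 h5)
  have h1 : orderOf β = 2 ^ (M + 1) := by
    apply orderOf_eq_prime_pow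
    · rw [h]; exact hne
    · rw [pow_succ, pow_mul, h]; ring
  rw [← h1]
  apply orderOf_dvd_of_pow_eq_one
  apply ZMod.pow_card_sub_one_eq_one
  intro h0
  rw [h0, zero_pow (by positivity)] at h
  have : (1 : ZMod q) = 0 := by linear_combination h
  exact one_ne_zero this

theorem prime_of_factors {N B : ℕ} (hN : 2 ≤ N) (hB : N < B ^ 2)
    (h : ∀ q : ℕ, q.Prime → q ∣ N → B ≤ q) : N.Prime := by
  by_contra hp
  have h1 : N.minFac ^ 2 ≤ N := Nat.minFac_sq_le_self (by omega) hp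
  have h2 : B ≤ N.minFac := h _ (Nat.minFac_prime (by omega)) (Nat.minFac_dvd N)
  have h3 : B ^ 2 ≤ N.minFac ^ 2 := Nat.pow_le_pow_left h2 2
  omega

theorem proth_prime {N K c t : ℕ} (hN : N = K * 2 ^ (2 * t + 1) + 1) (hK0 : 0 < K)
    (hK : K ≤ 2 ^ (2 * t + 1)) (h : prothOK N K c t = true) : N.Prime := by
  have hpow : 2 ≤ 2 ^ (2 * t + 1) := by
    rw [pow_succ]
    have := Nat.one_le_two_pow (n := 2 * t)
    omega
  have hN2 : 2 ≤ N := by
    have : 1 * 2 ≤ K * 2 ^ (2 * t + 1) := Nat.mul_le_mul hK0 hpow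
    omega
  have hodd : N % 2 = 1 := by
    rw [hN, pow_succ, ← mul_assoc]
    omega
  apply prime_of_factors (B := 2 ^ (2 * t + 1) + 1) hN2
  · rw [hN]
    have : K * 2 ^ (2 * t + 1) ≤ 2 ^ (2 * t + 1) * 2 ^ (2 * t + 1) := Nat.mul_le_mul_right _ hK
    nlinarith
  · intro q hq hqN
    have : Fact q.Prime := ⟨hq⟩
    have h2 : q ≠ 2 := by
      rintro rfl
      omega
    set x := powStart N c 40 K
    have h1 : sqIter N x t = N - 1 := Nat.eq_of_beq_eq_true h
    have h3 := sqIter_cast hqN x t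
    rw [h1] at h3
    have h4 : ((N - 1 : ℕ) : ZMod q) = -1 := by
      rw [Nat.cast_sub (by omega), (ZMod.natCast_eq_zero_iff N q).2 hqN]
      simp
    rw [h4] at h3
    have h5 := order_bound_proth h2 h3.symm
    have h6 := Nat.le_of_dvd (by have := hq.two_le; omega) h5
    have h7 := hq.two_le
    omega

theorem lucIter_cast {N q : ℕ} (hN : 2 ≤ N) (hq : q ∣ N) {K : Type*} [Field K] [CharP K q] (β : K)
    (hβ : β ≠ 0) (x t : ℕ) (hx : (x : K) = β + β⁻¹) :
    ((lucIter N (N - 2) x t : ℕ) : K) = β ^ (2 ^ (2 * t)) + (β ^ (2 ^ (2 * t)))⁻¹ := by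
  have hNK : (N : K) = 0 := by
    rw [CharP.cast_eq_zero_iff K q]; exact hq
  have he : ((N - 2 : ℕ) : K) = -2 := by
    rw [Nat.cast_sub hN, hNK]; simp
  induction t with
  | zero => simpa [lucIter] using hx
  | succ t ih =>
    have e : lucIter N (N - 2) x (t + 1) =
        ((lucIter N (N - 2) x t ^ 2 + (N - 2)) ^ 2 + (N - 2)) % N := rfl
    have h1 : ((((lucIter N (N - 2) x t ^ 2 + (N - 2)) ^ 2 + (N - 2)) % N : ℕ) : K) =
        (((lucIter N (N - 2) x t ^ 2 + (N - 2)) ^ 2 + (N - 2) : ℕ) : K) := by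
      conv_rhs => rw [← Nat.mod_add_div ((lucIter N (N - 2) x t ^ 2 + (N - 2)) ^ 2 + (N - 2)) N]
      rw [Nat.cast_add, Nat.cast_mul, hNK, zero_mul, add_zero]
    rw [e, h1, Nat.cast_add, Nat.cast_pow, Nat.cast_add, Nat.cast_pow, he, ih]
    have hs : β ^ (2 ^ (2 * (t + 1))) = (β ^ (2 ^ (2 * t))) ^ 4 := by
      rw [← pow_mul]; congr 1
      rw [show 2 * (t + 1) = 2 * t + 2 by ring, pow_add]
      norm_num
    rw [hs]
    have hz : β ^ (2 ^ (2 * t)) ≠ 0 := pow_ne_zero _ hβ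
    generalize β ^ (2 ^ (2 * t)) = z at hz
    field_simp
    ring

theorem order_bound_luc {q M : ℕ} [Fact q.Prime] (h2 : q ≠ 2) {K : Type*} [Field K] [CharP K q]
    {β : K} {v : ℕ} (hv : β * β + 1 = v * β) (hβ : β ≠ 0) (h : β ^ (2 ^ M) = -1) :
    2 ^ (M + 1) ∣ q - 1 ∨ 2 ^ (M + 1) ∣ q + 1 := by
  have hne : (-1 : K) ≠ 1 := by
    intro h3
    have h4 : (2 : K) = 0 := by linear_combination -h3
    have h5 : ((2 : ℕ) : K) = 0 := by exact_mod_cast h4
    rw [CharP.cast_eq_zero_iff K q] at h5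
    exact h2 ((Nat.prime_dvd_prime_iff_eq Fact.out Nat.prime_two).1 h5)
  have h1 : orderOf β = 2 ^ (M + 1) := by
    apply orderOf_eq_prime_pow
    · rw [h]; exact hne
    · rw [pow_succ, pow_mul, h]; ring
  have hfrob : β ^ q * β ^ q + 1 = v * β ^ q := by
    have h3 := congrArg (frobenius K q) hv
    simp only [map_add, map_mul, map_one, map_natCast, frobenius_def] at h3
    exact h3
  have h4 : (β ^ q - β) * (β ^ q - β⁻¹) = 0 := by
    have : β * β⁻¹ = 1 := mul_inv_cancel₀ hβ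
    have hv' : (v : K) = β + β⁻¹ := by
      apply mul_right_cancel₀ hβ
      rw [← hv, add_mul, inv_mul_cancel₀ hβ]
    rw [hv'] at hfrob
    linear_combination hfrob + this
  rw [← h1]
  have hq1 := (Fact.out : q.Prime).one_lt
  rcases mul_eq_zero.1 h4 with h5 | h5
  · left
    apply orderOf_dvd_of_pow_eq_one
    apply mul_right_cancel₀ hβ
    rw [← pow_succ, Nat.sub_add_cancel hq1.le, one_mul]
    exact sub_eq_zero.1 h5
  · right
    apply orderOf_dvd_of_pow_eq_one
    rw [pow_succ, sub_eq_zero.1 h5, inv_mul_cancel₀ hβ]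

theorem llr_prime {N k v T t : ℕ} (hN : N + 1 = k * 2 ^ (2 * t + 2)) (hk0 : 0 < k)
    (hk : k + 2 ≤ 2 ^ (2 * t + 2)) (h : llrOK N k v T t = true) : N.Prime := by
  have hpow : 4 ≤ 2 ^ (2 * t + 2) := by
    rw [pow_add]
    have := Nat.one_le_two_pow (n := 2 * t)
    omega
  have hN2 : 2 ≤ N := by
    have : 1 * 4 ≤ k * 2 ^ (2 * t + 2) := Nat.mul_le_mul hk0 hpow
    omega
  have hodd : N % 2 = 1 := by
    have : (N + 1) % 2 = 0 := by rw [hN, pow_succ, ← mul_assoc]; omega
    omega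
  apply prime_of_factors (B := 2 ^ (2 * t + 2) - 1) hN2
  · obtain ⟨P, hP⟩ : ∃ P, 2 ^ (2 * t + 2) = P + 1 := ⟨2 ^ (2 * t + 2) - 1, by omega⟩
    rw [hP] at hN hk ⊢
    have h1 : k * (P + 1) ≤ (P - 1) * (P + 1) := Nat.mul_le_mul_right _ (by omega)
    have h3 : (P - 1) * (P + 1) + 1 = P ^ 2 := by
      obtain ⟨R, hR⟩ : ∃ R, P = R + 1 := ⟨P - 1, by omega⟩
      subst hR
      simp only [Nat.add_sub_cancel]
      ring
    simp only [Nat.add_sub_cancel]
    omega
  · intro q hq hqN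
    have : Fact q.Prime := ⟨hq⟩
    have h2 : q ≠ 2 := by
      rintro rfl
      omega
    have hll : ∃ x : ℕ, lucIter N (N - 2) x t = 0 := by
      unfold llrOK at h
      rw [force_eq, force_eq] at h
      exact ⟨_, Nat.eq_of_beq_eq_true h⟩
    obtain ⟨x, hx⟩ := hll
    let K := AlgebraicClosure (ZMod q)
    have : CharP K q := inferInstance
    obtain ⟨β, hβ⟩ : ∃ β : K, β * β + 1 = x * β := by
      have h3 : (Polynomial.X ^ 2 - Polynomial.C (x : K) * Polynomial.X + Polynomial.C 1 :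
          Polynomial K).degree ≠ 0 := by
        have : (Polynomial.X ^ 2 - Polynomial.C (x : K) * Polynomial.X + Polynomial.C 1 :
          Polynomial K) = Polynomial.C 1 * Polynomial.X ^ 2 + Polynomial.C (-(x : K)) * Polynomial.X
            + Polynomial.C 1 := by
          simp only [map_neg, map_one]
          ring
        rw [this, Polynomial.degree_quadratic one_ne_zero]
        norm_num
      obtain ⟨β, hβ⟩ := IsAlgClosed.exists_root _ h3
      refine ⟨β, ?_⟩
      rw [Polynomial.IsRoot.def] at hβ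
      simp only [Polynomial.eval_add, Polynomial.eval_sub, Polynomial.eval_pow, Polynomial.eval_X,
        Polynomial.eval_mul, Polynomial.eval_C] at hβ
      linear_combination hβ
    have hβ0 : β ≠ 0 := by
      rintro rfl
      simp at hβ
    have hx' : (x : K) = β + β⁻¹ := by
      apply mul_right_cancel₀ hβ0
      rw [← hβ, add_mul, inv_mul_cancel₀ hβ0]
    have h4 := lucIter_cast hN2 hqN β hβ0 x t hx'
    rw [hx, Nat.cast_zero] at h4
    have h5 : β ^ (2 ^ (2 * t + 1)) = -1 := by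
      have hz : β ^ (2 ^ (2 * t)) ≠ 0 := pow_ne_zero _ hβ0
      rw [pow_succ, pow_mul]
      have h6 : β ^ (2 ^ (2 * t)) * (β ^ (2 ^ (2 * t)))⁻¹ = 1 := mul_inv_cancel₀ hz
      linear_combination (-(β ^ (2 ^ (2 * t)))) * h4 - h6
    have h7 := order_bound_luc h2 hβ hβ0 h5
    have h8 := hq.two_le
    rw [show 2 * t + 1 + 1 = 2 * t + 2 by ring] at h7
    rcases h7 with h7 | h7
    · have := Nat.le_of_dvd (by omega) h7
      omega
    · have := Nat.le_of_dvd (by omega) h7
      omega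

end Pool.Agent.Work.MP_713a1e_co.E
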