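import Pool.Agent.Work.MP_713a1e_co.E.Red
import Pool.Agent.Work.MP_713a1e_co.E.Three
import Pool.Agent.Work.MP_713a1e_co.E.Primality

/-!
# The finite part: checking a chain of quadruples
-/

namespace Pool.Agent.Work.MP_713a1e_co.E

/-- All rows up to `H` exist. -/
def Cov (H : ℕ) : Prop := ∀ n, 1 ≤ n → n ≤ H → HasRow n

/-- `k T + 1` or `k T - 1`. -/
def sval (e k T : ℕ) : ℕ := cond (Nat.beq e 1) (Nat.add (Nat.mul k T) 1) (Nat.sub (Nat.mul k T) 1)

/-- The primality test for `sval e k (2^m)`; `T = 2^m`, `T'` a larger power of two. -/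
def sprime (e k m T T' N w : ℕ) : Bool :=
  and (Nat.ble (Nat.mul 8 k) T) (and (Nat.blt 0 k) (
  cond (Nat.beq e 1)
    (cond (Nat.beq (Nat.mod m 2) 0)
      (prothOK N (Nat.mul 2 k) w (Nat.div (Nat.sub m 2) 2))
      (prothOK N k w (Nat.div (Nat.sub m 1) 2)))
    (cond (Nat.beq (Nat.mod m 2) 0)
      (llrOK N k w T' (Nat.div (Nat.sub m 2) 2))
      (llrOK N (Nat.mul 2 k) w T' (Nat.div (Nat.sub m 3) 2)))))

theorem beq_false {a b : ℕ} (h : ¬ Nat.beq a b = true) : Nat.beq a b = false := by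
  cases h' : Nat.beq a b
  · rfl
  · exact absurd h' h

theorem sprime_prime {e k m T' w : ℕ} (h : sprime e k m (2 ^ m) T' (sval e k (2 ^ m)) w = true) :
    (sval e k (2 ^ m)).Prime := by
  unfold sprime at h
  rw [Bool.and_eq_true, Bool.and_eq_true] at h
  obtain ⟨h1, h2, h3⟩ := h
  have h1 : 8 * k ≤ 2 ^ m := Nat.le_of_ble_eq_true h1
  have h2 : 0 < k := Nat.le_of_ble_eq_true h2
  have hm : 3 ≤ m := by
    by_contra hm
    have : 2 ^ m ≤ 2 ^ 2 := Nat.pow_le_pow_right (by norm_num) (by omega)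
    omega
  by_cases he : Nat.beq e 1 = true
  · have hs : sval e k (2 ^ m) = k * 2 ^ m + 1 := by unfold sval; rw [he]; rfl
    rw [he, cond_true] at h3
    by_cases hp : Nat.beq (Nat.mod m 2) 0 = true
    · rw [hp, cond_true] at h3
      have hp' : m % 2 = 0 := Nat.eq_of_beq_eq_true hp
      have ht : 2 * (Nat.div (Nat.sub m 2) 2) + 1 = m - 1 := by
        change 2 * ((m - 2) / 2) + 1 = m - 1
        omega
      have hpow : 2 ^ m = 2 * 2 ^ (m - 1) := by
        rw [← pow_succ']; congr 1; omega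
      refine proth_prime (K := 2 * k) (c := w) (t := Nat.div (Nat.sub m 2) 2) ?_ (by omega) ?_ h3
      · rw [hs, ht, hpow]; ring
      · rw [ht]; omega
    · rw [beq_false hp, cond_false] at h3
      have hp' : m % 2 ≠ 0 := fun h0 => hp (by change Nat.beq (m % 2) 0 = true; rw [h0]; rfl)
      have ht : 2 * (Nat.div (Nat.sub m 1) 2) + 1 = m := by
        change 2 * ((m - 1) / 2) + 1 = m
        omega
      refine proth_prime (K := k) (c := w) (t := Nat.div (Nat.sub m 1) 2) ?_ h2 ?_ h3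
      · rw [hs, ht]
      · rw [ht]; omega
  · have hs : sval e k (2 ^ m) = k * 2 ^ m - 1 := by unfold sval; rw [beq_false he]; rfl
    have hpos : 1 ≤ k * 2 ^ m := Nat.mul_pos h2 (by positivity)
    rw [beq_false he, cond_false] at h3
    by_cases hp : Nat.beq (Nat.mod m 2) 0 = true
    · rw [hp, cond_true] at h3
      have hp' : m % 2 = 0 := Nat.eq_of_beq_eq_true hp
      have ht : 2 * (Nat.div (Nat.sub m 2) 2) + 2 = m := by
        change 2 * ((m - 2) / 2) + 2 = m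
        omega
      refine llr_prime (k := k) (v := w) (T := T') (t := Nat.div (Nat.sub m 2) 2) ?_ h2 ?_ h3
      · rw [hs, ht, Nat.sub_add_cancel hpos]
      · rw [ht]; omega
    · rw [beq_false hp, cond_false] at h3
      have hp' : m % 2 ≠ 0 := fun h0 => hp (by change Nat.beq (m % 2) 0 = true; rw [h0]; rfl)
      have ht : 2 * (Nat.div (Nat.sub m 3) 2) + 2 = m - 1 := by
        change 2 * ((m - 3) / 2) + 2 = m - 1
        omega
      have hpow : 2 ^ m = 2 * 2 ^ (m - 1) := by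
        rw [← pow_succ']; congr 1; omega
      refine llr_prime (k := 2 * k) (v := w) (T := T') (t := Nat.div (Nat.sub m 3) 2) ?_ (by omega) ?_ h3
      · rw [hs, ht, Nat.sub_add_cancel hpos, hpow]; ring
      · rw [ht]; omega

/-- The combinatorial conditions on a quadruple. -/
def quadOK (H s1 s2 s3 s4 : ℕ) : Bool :=
  and (Nat.beq (Nat.add s1 s4) (Nat.add s2 s3)) (and (Nat.blt 2 s1) (and (Nat.blt s1 s2)
  (and (Nat.ble s2 s3)
  (and (Nat.beq (Nat.gcd (Nat.div (Nat.sub s4 s2) 2) (Nat.div (Nat.sub s2 s1) 2)) 1)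
  (and (Nat.ble s4 (Nat.add (Nat.mul 2 H) 3))
  (and (Nat.ble (Nat.mul 2 s2) (Nat.add (Nat.add (Nat.mul 2 H) 3) s1))
  (and (Nat.ble s4 (Nat.add (Nat.mul 2 s2) 1))
  (and (Nat.ble (Nat.mul 2 s3) (Nat.add (Nat.mul 2 s2) (Nat.add s1 1)))
    (Nat.ble (Nat.mul 2 s3) (Nat.add (Nat.add s2 s4) 2))))))))))

/-- The new bound. -/
def newH (s1 s3 s4 : ℕ) : ℕ :=
  cond (Nat.ble (Nat.add s3 s1) (Nat.add s4 1)) (Nat.sub s3 1)
    (Nat.div (Nat.sub (Nat.sub (Nat.add s3 s4) s1) 1) 2)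

theorem odd_of_prime {s : ℕ} (h : s.Prime) (h2 : 2 < s) : s % 2 = 1 :=
  Nat.odd_iff.1 (h.odd_of_ne_two (by omega))

/-- One window. -/
theorem row_window {p a b n s1 s3 s4 : ℕ} (hp : p.Prime) (h1 : s1.Prime) (h3 : s3.Prime)
    (h4 : s4.Prime) (e4 : s4 = p + 2 * a) (e1 : p = s1 + 2 * b) (e3 : s3 + 2 * b = p + 2 * a)
    (ha : 0 < a) (hb : 0 < b) (hab : Nat.Coprime a b) (l1 : s4 ≤ 2 * n + 1)
    (l2 : 2 * p ≤ 2 * n + 1 + s1) (u1 : 2 * n + 1 ≤ p + 2 * (a + b)) (u2 : n < p)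
    (hodd : p % 2 = 1) (hr : HasRow (p - n)) : HasRow n := by
  obtain ⟨ν, hν⟩ : ∃ ν, p + 2 * ν = 2 * n + 1 := ⟨(2 * n + 1 - p) / 2, by omega⟩
  have hc : Cyc p ν := by
    refine cyc_three ha hb hab (by omega) (by omega) (by omega) ⟨s4, h4, ?_⟩ ⟨s1, h1, ?_⟩
      ⟨s3, h3, ?_⟩
    · push_cast [e4]; ring
    · rw [e1]; push_cast; ring
    · have : (s3 : ℤ) + 2 * b = p + 2 * a := by exact_mod_cast e3
      linear_combination this
  exact hasRow_of_cyc hp u2 (by omega) hν hc hr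

theorem cov_quad {H s1 s2 s3 s4 : ℕ} (hH : Cov H) (p1 : s1.Prime) (p2 : s2.Prime) (p3 : s3.Prime)
    (p4 : s4.Prime) (h : quadOK H s1 s2 s3 s4 = true) : Cov (newH s1 s3 s4) := by
  unfold quadOK at h
  simp only [Bool.and_eq_true] at h
  obtain ⟨c0, c1, c2, c3, c5, c6, c7, c8, c9, c10⟩ := h
  have c0 : s1 + s4 = s2 + s3 := Nat.eq_of_beq_eq_true c0
  have c1 : 2 < s1 := Nat.le_of_ble_eq_true c1
  have c2 : s1 < s2 := Nat.le_of_ble_eq_true c2
  have c3 : s2 ≤ s3 := Nat.le_of_ble_eq_true c3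
  have c5 : Nat.gcd ((s4 - s2) / 2) ((s2 - s1) / 2) = 1 := Nat.eq_of_beq_eq_true c5
  have c6 : s4 ≤ 2 * H + 3 := Nat.le_of_ble_eq_true c6
  have c7 : 2 * s2 ≤ 2 * H + 3 + s1 := Nat.le_of_ble_eq_true c7
  have c8 : s4 ≤ 2 * s2 + 1 := Nat.le_of_ble_eq_true c8
  have c9 : 2 * s3 ≤ 2 * s2 + (s1 + 1) := Nat.le_of_ble_eq_true c9
  have c10 : 2 * s3 ≤ s2 + s4 + 2 := Nat.le_of_ble_eq_true c10
  have o1 := odd_of_prime p1 c1
  have o2 := odd_of_prime p2 (by omega)
  have o3 := odd_of_prime p3 (by omega)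
  have o4 := odd_of_prime p4 (by omega)
  obtain ⟨a, ha⟩ : ∃ a, s4 = s2 + 2 * a := ⟨(s4 - s2) / 2, by omega⟩
  obtain ⟨b, hb⟩ : ∃ b, s2 = s1 + 2 * b := ⟨(s2 - s1) / 2, by omega⟩
  have ea : (s4 - s2) / 2 = a := by omega
  have eb : (s2 - s1) / 2 = b := by omega
  rw [ea, eb] at c5
  have hHH : newH s1 s3 s4 ≤ s3 - 1 ∧ 2 * newH s1 s3 s4 + 1 + s1 ≤ s3 + s4 := by
    unfold newH
    cases hc : Nat.ble (Nat.add s3 s1) (Nat.add s4 1)
    · rw [cond_false]
      have hc' : ¬ (s3 + s1 ≤ s4 + 1) := fun h => by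
        have := Nat.ble_eq_true_of_le h
        exact absurd this (by change ¬ Nat.ble (Nat.add s3 s1) (Nat.add s4 1) = true; rw [hc]; simp)
      change (s3 + s4 - s1 - 1) / 2 ≤ s3 - 1 ∧ 2 * ((s3 + s4 - s1 - 1) / 2) + 1 + s1 ≤ s3 + s4
      omega
    · rw [cond_true]
      have hc' : s3 + s1 ≤ s4 + 1 := Nat.le_of_ble_eq_true hc
      change s3 - 1 ≤ s3 - 1 ∧ 2 * (s3 - 1) + 1 + s1 ≤ s3 + s4
      omega
  obtain ⟨u1, u2⟩ := hHH
  intro n
  induction n using Nat.strong_induction_on with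
  | _ n ih =>
    intro hn1 hn2
    by_cases hn : n ≤ H
    · exact hH n hn1 hn
    have hab : 0 < a := by
      rcases Nat.eq_zero_or_pos a with h0 | h0
      · subst h0; omega
      · exact h0
    have hb0 : 0 < b := by omega
    by_cases hcase : n < s2 ∧ 2 * n + 1 + s1 ≤ s2 + s4
    · refine row_window (p := s2) (a := a) (b := b) p2 p1 p3 p4 ha hb (by omega) hab hb0 c5
        (by omega) (by omega) (by omega) (by omega) o2 (ih _ (by omega) (by omega) (by omega))
    · refine row_window (p := s3) (a := b) (b := a) p3 p1 p2 p4 (by omega) (by omega) (by omega)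
        hb0 hab (Nat.coprime_comm.1 c5) (by omega) (by omega) (by omega) (by omega) o3
        (ih _ (by omega) (by omega) (by omega))

/-- A quadruple `s_i = k_i 2^m ± 1` (`e_i = 1` for the plus sign) with witnesses. -/
structure Quad where
  m : ℕ
  e1 : ℕ
  k1 : ℕ
  e2 : ℕ
  k2 : ℕ
  e3 : ℕ
  k3 : ℕ
  e4 : ℕ
  k4 : ℕ
  w1 : ℕ
  w2 : ℕ
  w3 : ℕ
  w4 : ℕ

/-- The new bound if the quadruple passes all tests, otherwise `0`. -/
def step (H : ℕ) (q : Quad) : ℕ :=
  force q.m fun m => force (Nat.pow 2 m) fun T => force (Nat.mul T 1099511627776) fun T' =>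
  force (sval q.e1 q.k1 T) fun s1 => force (sval q.e2 q.k2 T) fun s2 =>
  force (sval q.e3 q.k3 T) fun s3 => force (sval q.e4 q.k4 T) fun s4 =>
  cond (and (quadOK H s1 s2 s3 s4)
    (and (sprime q.e1 q.k1 m T T' s1 q.w1) (and (sprime q.e2 q.k2 m T T' s2 q.w2)
    (and (sprime q.e3 q.k3 m T T' s3 q.w3) (sprime q.e4 q.k4 m T T' s4 q.w4)))))
    (newH s1 s3 s4) 0

theorem cov_step {H : ℕ} (hH : Cov H) (q : Quad) : Cov (step H q) := by
  unfold step
  simp only [force_eq]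
  generalize hc : (and (quadOK H _ _ _ _) _) = c
  cases c
  · rw [cond_false]
    intro n h1 h2
    omega
  · rw [cond_true]
    simp only [Bool.and_eq_true] at hc
    obtain ⟨h0, h1, h2, h3, h4⟩ := hc
    exact cov_quad hH (sprime_prime h1) (sprime_prime h2) (sprime_prime h3) (sprime_prime h4) h0

/-- Apply all quadruples of a list. -/
def run (l : List Quad) : ℕ → ℕ :=
  List.rec (motive := fun _ => ℕ → ℕ) (fun H => H) (fun q _ ih H => force (step H q) ih) l

theorem cov_run (l : List Quad) : ∀ {H : ℕ}, Cov H → Cov (run l H) := by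
  induction l with
  | nil => intro H h; exact h
  | cons q l ih =>
    intro H h
    have e : run (q :: l) H = force (step H q) (run l) := rfl
    rw [e, force_eq]
    exact ih (cov_step h q)

theorem cov_seg (l : List Quad) {A B : ℕ} (h : Nat.ble B (run l A) = true) (hA : Cov A) : Cov B :=
  fun n h1 h2 => cov_run l hA n h1 (h2.trans (Nat.le_of_ble_eq_true h))

/-- Apply several lists. -/
def runs (L : List (List Quad)) : ℕ → ℕ :=
  List.rec (motive := fun _ => ℕ → ℕ) (fun H => H) (fun l _ ih H => force (run l H) ih) L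

theorem cov_runs (L : List (List Quad)) : ∀ {H : ℕ}, Cov H → Cov (runs L H) := by
  induction L with
  | nil => intro H h; exact h
  | cons q l ih =>
    intro H h
    have e : runs (q :: l) H = force (run q H) (runs l) := rfl
    rw [e, force_eq]
    exact ih (cov_run q h)

theorem cov_seg_list (L : List (List Quad)) {A B : ℕ} (h : Nat.ble B (runs L A) = true)
    (hA : Cov A) : Cov B :=
  fun n h1 h2 => cov_runs L hA n h1 (h2.trans (Nat.le_of_ble_eq_true h))

end Pool.Agent.Work.MP_713a1e_co.E
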