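import Pool.Agent.Work.MP_713a1e_co.E.FinA

/-! The finite part below `2 ^ 20`: explicit rows and quadruples of small primes. -/

set_option maxRecDepth 100000

namespace Pool.Agent.Work.MP_713a1e_co.E

/-- `s` is not divisible by any of `2, ..., B + 1`. -/
def tdp (s B : ℕ) : Bool :=
  Nat.rec (motive := fun _ => Bool) true
    (fun d ih => and (Nat.blt 0 (Nat.mod s (Nat.add d 2))) ih) B

theorem tdp_spec {s B : ℕ} (h : tdp s B = true) : ∀ d, 2 ≤ d → d ≤ B + 1 → ¬ d ∣ s := by
  induction B with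
  | zero => intro d h1 h2; omega
  | succ B ih =>
    have e : tdp s (B + 1) = and (Nat.blt 0 (Nat.mod s (Nat.add B 2))) (tdp s B) := rfl
    rw [e, Bool.and_eq_true] at h
    intro d h1 h2 hd
    rcases Nat.lt_or_ge d (B + 2) with h3 | h3
    · exact ih h.2 d h1 (by omega) hd
    · have : d = B + 2 := by omega
      subst this
      have h4 : 0 < s % (B + 2) := Nat.le_of_ble_eq_true h.1
      have h5 := Nat.mod_eq_zero_of_dvd hd
      omega

theorem tdp_prime {s B : ℕ} (h : tdp s B = true) (h2 : 2 ≤ s) (hB : s < (B + 2) ^ 2) : s.Prime := by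
  by_contra hp
  have h1 : s.minFac ^ 2 ≤ s := Nat.minFac_sq_le_self (by omega) hp
  have h3 : s.minFac < B + 2 := by
    by_contra h4
    have : (B + 2) ^ 2 ≤ s.minFac ^ 2 := Nat.pow_le_pow_left (by omega) 2
    omega
  exact tdp_spec h s.minFac (Nat.minFac_prime (by omega)).two_le (by omega) (Nat.minFac_dvd s)

/-- The new bound if the small quadruple passes all tests, otherwise `0`. -/
def stepS (H s1 s2 s3 s4 B : ℕ) : ℕ :=
  cond (and (quadOK H s1 s2 s3 s4) (and (Nat.blt s4 (Nat.pow (Nat.add B 2) 2))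
    (and (tdp s1 B) (and (tdp s2 B) (and (tdp s3 B) (tdp s4 B)))))) (newH s1 s3 s4) 0

theorem cov_stepS {H s1 s2 s3 s4 B : ℕ} (hH : Cov H) : Cov (stepS H s1 s2 s3 s4 B) := by
  unfold stepS
  generalize hc : (and (quadOK H _ _ _ _) _) = c
  cases c
  · rw [cond_false]
    intro n h1 h2
    omega
  · rw [cond_true]
    simp only [Bool.and_eq_true] at hc
    obtain ⟨h0, hb, h1, h2, h3, h4⟩ := hc
    have h0' := h0
    unfold quadOK at h0'
    simp only [Bool.and_eq_true] at h0'
    obtain ⟨c0, c1, c2, c3, c5, c6, c7, c8, c9, c10⟩ := h0'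
    have c0 : s1 + s4 = s2 + s3 := Nat.eq_of_beq_eq_true c0
    have c1 : 2 < s1 := Nat.le_of_ble_eq_true c1
    have c2 : s1 < s2 := Nat.le_of_ble_eq_true c2
    have c3 : s2 ≤ s3 := Nat.le_of_ble_eq_true c3
    have hb : s4 < (B + 2) ^ 2 := Nat.le_of_ble_eq_true hb
    exact cov_quad hH (tdp_prime h1 (by omega) (by omega)) (tdp_prime h2 (by omega) (by omega))
      (tdp_prime h3 (by omega) (by omega)) (tdp_prime h4 (by omega) (by omega)) h0

/-- Apply all small quadruples of a list. -/
def runS (l : List (ℕ × ℕ × ℕ × ℕ × ℕ)) : ℕ → ℕ :=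
  List.rec (motive := fun _ => ℕ → ℕ) (fun H => H)
    (fun q _ ih H => force (stepS H q.1 q.2.1 q.2.2.1 q.2.2.2.1 q.2.2.2.2) ih) l

theorem cov_runS (l : List (ℕ × ℕ × ℕ × ℕ × ℕ)) : ∀ {H : ℕ}, Cov H → Cov (runS l H) := by
  induction l with
  | nil => intro H h; exact h
  | cons q l ih =>
    intro H h
    have e : runS (q :: l) H =
      force (stepS H q.1 q.2.1 q.2.2.1 q.2.2.2.1 q.2.2.2.2) (runS l) := rfl
    rw [e, force_eq]
    exact ih (cov_stepS h)

private theorem row1 : HasRow 1 := by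
  refine ⟨[1], by decide, rfl, rfl, ?_⟩
  norm_num [List.isChain_cons_cons, List.isChain_singleton]

private theorem row2 : HasRow 2 := by
  refine ⟨[1, 2], by decide, rfl, rfl, ?_⟩
  norm_num [List.isChain_cons_cons, List.isChain_singleton]

private theorem row3 : HasRow 3 := by
  refine ⟨[1, 2, 3], by decide, rfl, rfl, ?_⟩
  norm_num [List.isChain_cons_cons, List.isChain_singleton]

private theorem row4 : HasRow 4 := by
  refine ⟨[1, 2, 3, 4], by decide, rfl, rfl, ?_⟩
  norm_num [List.isChain_cons_cons, List.isChain_singleton]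

private theorem row5 : HasRow 5 := by
  refine ⟨[1, 4, 3, 2, 5], by decide, rfl, rfl, ?_⟩
  norm_num [List.isChain_cons_cons, List.isChain_singleton]

private theorem row6 : HasRow 6 := by
  refine ⟨[1, 4, 3, 2, 5, 6], by decide, rfl, rfl, ?_⟩
  norm_num [List.isChain_cons_cons, List.isChain_singleton]

private theorem row7 : HasRow 7 := by
  refine ⟨[1, 4, 3, 2, 5, 6, 7], by decide, rfl, rfl, ?_⟩
  norm_num [List.isChain_cons_cons, List.isChain_singleton]

private theorem row8 : HasRow 8 := by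
  refine ⟨[1, 2, 3, 4, 7, 6, 5, 8], by decide, rfl, rfl, ?_⟩
  norm_num [List.isChain_cons_cons, List.isChain_singleton]

private theorem row9 : HasRow 9 := by
  refine ⟨[1, 2, 3, 4, 7, 6, 5, 8, 9], by decide, rfl, rfl, ?_⟩
  norm_num [List.isChain_cons_cons, List.isChain_singleton]

private theorem row10 : HasRow 10 := by
  refine ⟨[1, 2, 3, 4, 7, 6, 5, 8, 9, 10], by decide, rfl, rfl, ?_⟩
  norm_num [List.isChain_cons_cons, List.isChain_singleton]

private theorem row11 : HasRow 11 := by
  refine ⟨[1, 2, 3, 4, 7, 10, 9, 8, 5, 6, 11], by decide, rfl, rfl, ?_⟩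
  norm_num [List.isChain_cons_cons, List.isChain_singleton]

private theorem row12 : HasRow 12 := by
  refine ⟨[1, 2, 3, 4, 7, 10, 9, 8, 5, 6, 11, 12], by decide, rfl, rfl, ?_⟩
  norm_num [List.isChain_cons_cons, List.isChain_singleton]

private theorem row13 : HasRow 13 := by
  refine ⟨[1, 2, 3, 4, 7, 6, 5, 12, 11, 8, 9, 10, 13], by decide, rfl, rfl, ?_⟩
  norm_num [List.isChain_cons_cons, List.isChain_singleton]

private theorem row14 : HasRow 14 := by
  refine ⟨[1, 2, 3, 4, 7, 6, 13, 10, 9, 8, 11, 12, 5, 14], by decide, rfl, rfl, ?_⟩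
  norm_num [List.isChain_cons_cons, List.isChain_singleton]

private theorem row15 : HasRow 15 := by
  refine ⟨[1, 2, 3, 4, 7, 6, 13, 10, 9, 8, 11, 12, 5, 14, 15], by decide, rfl, rfl, ?_⟩
  norm_num [List.isChain_cons_cons, List.isChain_singleton]

private theorem row16 : HasRow 16 := by
  refine ⟨[1, 2, 3, 4, 7, 6, 5, 12, 11, 8, 15, 14, 9, 10, 13, 16], by decide, rfl, rfl, ?_⟩
  norm_num [List.isChain_cons_cons, List.isChain_singleton]

private theorem row17 : HasRow 17 := by
  refine ⟨[1, 2, 3, 4, 7, 6, 5, 12, 11, 8, 9, 10, 13, 16, 15, 14, 17], by decide, rfl, rfl, ?_⟩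
  norm_num [List.isChain_cons_cons, List.isChain_singleton]

private theorem row18 : HasRow 18 := by
  refine ⟨[1, 2, 3, 4, 7, 6, 5, 8, 9, 10, 13, 16, 15, 14, 17, 12, 11, 18], by decide, rfl, rfl, ?_⟩
  norm_num [List.isChain_cons_cons, List.isChain_singleton]

private theorem row19 : HasRow 19 := by
  refine ⟨[1, 2, 3, 4, 7, 6, 5, 8, 9, 10, 13, 16, 15, 14, 17, 12, 11, 18, 19], by decide, rfl, rfl, ?_⟩
  norm_num [List.isChain_cons_cons, List.isChain_singleton]

private theorem row20 : HasRow 20 := by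
  refine ⟨[1, 2, 3, 4, 7, 6, 5, 8, 9, 10, 13, 16, 15, 14, 17, 12, 19, 18, 11, 20], by decide, rfl, rfl, ?_⟩
  norm_num [List.isChain_cons_cons, List.isChain_singleton]

theorem cov20 : Cov 20 := by
  intro n h1 h2
  interval_cases n
  · exact row1
  · exact row2
  · exact row3
  · exact row4
  · exact row5
  · exact row6
  · exact row7
  · exact row8
  · exact row9
  · exact row10
  · exact row11
  · exact row12
  · exact row13
  · exact row14
  · exact row15
  · exact row16
  · exact row17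
  · exact row18
  · exact row19
  · exact row20

def datS : List (ℕ × ℕ × ℕ × ℕ × ℕ) := [
  (17, 29, 31, 43, 5),
  (19, 37, 41, 59, 6),
  (31, 53, 61, 83, 8),
  (37, 67, 83, 113, 9),
  (47, 89, 109, 151, 11),
  (53, 113, 139, 199, 13),
  (83, 163, 197, 277, 15),
  (127, 233, 283, 389, 18),
  (149, 313, 383, 547, 22),
  (223, 443, 541, 761, 26),
  (311, 619, 761, 1069, 31),
  (457, 877, 1091, 1511, 37),
  (617, 1229, 1531, 2143, 45),
  (911, 1753, 2207, 3049, 54),
  (1301, 2503, 3137, 4339, 64),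
  (1789, 3539, 4423, 6173, 77),
  (2549, 5051, 6301, 8803, 92),
  (3593, 7177, 8963, 12547, 111),
  (5167, 10247, 12829, 17909, 132),
  (7331, 14639, 18253, 25561, 158),
  (10477, 20873, 26083, 36479, 189),
  (14879, 29761, 37199, 52081, 227),
  (21347, 42533, 53197, 74383, 271),
  (30449, 60727, 75941, 106219, 324),
  (43397, 86711, 108379, 151693, 388),
  (61967, 123829, 154799, 216661, 464),
  (88427, 176849, 221059, 309481, 555),
  (126337, 252667, 315779, 442109, 663),
  (180473, 360907, 451103, 631537, 793),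
  (257783, 515519, 644401, 902137, 948),
  (368227, 736441, 920519, 1288733, 1134),
  (526037, 1052041, 1315007, 1841011, 1355)]

theorem cov_small : Cov (2 ^ 20) :=
  fun n h1 h2 => cov_runS datS cov20 n h1
    (h2.trans (Nat.le_of_ble_eq_true (by decide +kernel : Nat.ble (2 ^ 20) (runS datS 20) = true)))

end Pool.Agent.Work.MP_713a1e_co.E
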