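import Pool.Agent.Work.MP_713a1e_co.E.SieveOne

/-!
# JOB N0: masses of short intervals

From `bt` with `u = 1`, `R = ⌊√M / log x⌋`, `M = x/(j(j+1))`: for `x ≥ 2^2399`, `1 ≤ j ≤ 30000`;
`θ`-mass `≤ log x * count`, and the prime powers contribute at most `2 √x log x`
(`Chebyshev.psi_sub_theta_le`).
-/

namespace Pool.Agent.Work.MP_713a1e_co.E

open Chebyshev Finset

/-- the `θ`-mass of an interval -/
theorem theta_sub_eq {a b : ℝ} (hab : a ≤ b) :
    theta b - theta a = ∑ p ∈ (Finset.Ioc ⌊a⌋₊ ⌊b⌋₊).filter Nat.Prime, Real.log p := by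
  unfold theta
  have hfl : ⌊a⌋₊ ≤ ⌊b⌋₊ := Nat.floor_le_floor hab
  have h : (Finset.Ioc 0 ⌊b⌋₊).filter Nat.Prime
      = (Finset.Ioc 0 ⌊a⌋₊).filter Nat.Prime ∪ (Finset.Ioc ⌊a⌋₊ ⌊b⌋₊).filter Nat.Prime := by
    ext p
    simp only [Finset.mem_filter, Finset.mem_union, Finset.mem_Ioc]
    constructor
    · rintro ⟨⟨h1, h2⟩, h3⟩
      by_cases h : p ≤ ⌊a⌋₊
      · exact Or.inl ⟨⟨h1, h⟩, h3⟩
      · exact Or.inr ⟨⟨by omega, h2⟩, h3⟩
    · rintro (⟨⟨h1, h2⟩, h3⟩ | ⟨⟨h1, h2⟩, h3⟩)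
      · exact ⟨⟨h1, h2.trans hfl⟩, h3⟩
      · exact ⟨⟨by omega, h2⟩, h3⟩
  rw [h, Finset.sum_union]
  · ring
  · rw [Finset.disjoint_left]
    intro p hp hp'
    simp only [Finset.mem_filter, Finset.mem_Ioc] at hp hp'
    omega

/-- `x` is much larger than its logarithm -/
theorem big_facts {x : ℝ} (hx : (2 : ℝ) ^ 2399 ≤ x) :
    1662.8 ≤ Real.log x ∧ 10 ^ 20 * Real.log x ≤ √x ∧ (10 : ℝ) ^ 100 ≤ √x ∧ √x * √x = x := by
  have hx0 : 0 < x := lt_of_lt_of_le (by positivity) hx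
  have h1 : 1662.8 ≤ Real.log x := by
    have h := Real.log_le_log (by positivity) hx
    rw [Real.log_pow] at h
    have := Real.log_two_gt_d9
    norm_num at h ⊢
    linarith
  set s : ℝ := √(√x) with hs
  have hs2 : s * s = √x := Real.mul_self_sqrt (Real.sqrt_nonneg x)
  have hxx : √x * √x = x := Real.mul_self_sqrt hx0.le
  have hs0 : 0 ≤ s := Real.sqrt_nonneg _
  have hs3 : (2 : ℝ) ^ 599 ≤ s := by
    by_contra h
    push Not at h
    have h2 : s ^ 4 < ((2 : ℝ) ^ 599) ^ 4 := pow_lt_pow_left₀ h hs0 (by norm_num)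
    have h3 : s ^ 4 = x := by
      rw [← hxx, ← hs2]; ring
    rw [h3, ← pow_mul] at h2
    have h4 : (2 : ℝ) ^ (599 * 4) ≤ 2 ^ 2399 := pow_le_pow_right₀ (by norm_num) (by norm_num)
    linarith
  have hspos : 0 < s := lt_of_lt_of_le (by positivity) hs3
  have h5 : Real.log x = 4 * Real.log s := by
    rw [← hxx, ← hs2, Real.log_mul (by positivity) (by positivity),
      Real.log_mul (by positivity) (by positivity)]
    ring
  have h6 : Real.log s ≤ s := (Real.log_le_sub_one_of_pos hspos).trans (by linarith)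
  have h7 : (10 : ℝ) ^ 100 ≤ s := by
    refine le_trans ?_ hs3
    have h : (10 : ℝ) ^ 100 ≤ (2 ^ 4) ^ 100 := pow_le_pow_left₀ (by norm_num) (by norm_num) _
    rw [← pow_mul] at h
    exact h.trans (pow_le_pow_right₀ (by norm_num) (by norm_num))
  have h8 : (4 : ℝ) * 10 ^ 20 ≤ s := by
    refine le_trans ?_ h7
    norm_num
  refine ⟨h1, ?_, ?_, hxx⟩
  · rw [h5, ← hs2]
    calc (10 : ℝ) ^ 20 * (4 * Real.log s) = (4 * 10 ^ 20) * Real.log s := by ring
      _ ≤ (4 * 10 ^ 20) * s := by gcongr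
      _ ≤ s * s := by gcongr
  · rw [← hs2]
    have h9 : (1 : ℝ) ≤ s := le_trans (by norm_num) h7
    calc (10 : ℝ) ^ 100 ≤ s := h7
      _ = s * 1 := (mul_one s).symm
      _ ≤ s * s := by gcongr

/-- `log (log x)` against `log x` -/
theorem loglog_le {L : ℝ} (hL : 0 < L) : Real.log L ≤ L / 1664 + 6.4515 := by
  have h1 : Real.log (L / 1664) ≤ L / 1664 - 1 := Real.log_le_sub_one_of_pos (by positivity)
  rw [Real.log_div hL.ne' (by norm_num)] at h1
  have h2 : Real.log 1664 ≤ 7.4515 := by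
    have h3 : Real.log ((1664 : ℝ) ^ 4) ≤ Real.log ((2 : ℝ) ^ 43) :=
      Real.log_le_log (by norm_num) (by norm_num)
    rw [Real.log_pow, Real.log_pow] at h3
    have := Real.log_two_lt_d9
    push_cast at h3
    linarith
  linarith

theorem fin_ineq {M K T L z : ℝ} (hM0 : 0 < M) (h1 : M / K ≤ M / 1662.8) (h2 : 2 * T * L ≤ 2 * z)
    (h3 : 1 ≤ z) (h4 : z ≤ M / 10 ^ 10) :
    (M + 1) * 2.0475 + M / K + 2 * T * L ≤ 2.05 * M := by
  have h5 : M / 1662.8 ≤ 0.0007 * M := by
    rw [div_le_iff₀ (by norm_num)]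
    nlinarith
  have h6 : M / 10 ^ 10 ≤ 0.0001 * M := by
    rw [div_le_iff₀ (by norm_num)]
    nlinarith
  nlinarith

theorem psi_mass {x : ℝ} (hx : (2 : ℝ) ^ 2399 ≤ x) {j : ℕ} (hj : 1 ≤ j) (hj' : j ≤ 30000) :
    psi (x / j) - psi (x / (j + 1)) ≤ 2.05 * x / (j * (j + 1)) := by
  obtain ⟨hL, hs1, hs2, hss⟩ := big_facts hx
  set L := Real.log x with hLdef
  have hx0 : 0 < x := lt_of_lt_of_le (by positivity) hx
  have hx1 : 1 ≤ x := le_trans (one_le_pow₀ (by norm_num)) hx
  have hj1 : (1 : ℝ) ≤ j := by exact_mod_cast hj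
  have hj2 : (j : ℝ) ≤ 30000 := by exact_mod_cast hj'
  set M : ℝ := x / (j * (j + 1)) with hM
  have hden : (j : ℝ) * (j + 1) ≤ 900030000 := by nlinarith
  have hden0 : (0 : ℝ) < j * (j + 1) := by positivity
  have hMlow : x / 900030000 ≤ M := by
    rw [hM]
    exact div_le_div_of_nonneg_left hx0.le hden0 hden
  have hM0 : 0 < M := by positivity
  have hMx : M ≤ x := by
    rw [hM]
    apply div_le_self hx0.le
    nlinarith
  set T := √x with hT
  have hT0 : 0 < T := lt_of_lt_of_le (by positivity) hs2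
  have hTx : T ≤ x := by
    rw [← hss]
    have : (1 : ℝ) ≤ T := le_trans (one_le_pow₀ (by norm_num)) hs2
    calc T = T * 1 := (mul_one T).symm
      _ ≤ T * T := by gcongr
  have hx40 : (10 : ℝ) ^ 40 ≤ x :=
    (pow_le_pow_right₀ (by norm_num) (by norm_num)).trans (hs2.trans hTx)
  -- the two end points
  have ha : 0 ≤ x / (j + 1 : ℝ) := by positivity
  have hab : x / (j + 1 : ℝ) ≤ x / j := by
    apply div_le_div_of_nonneg_left hx0.le (by linarith) (by linarith)
  have hMab : x / (j : ℝ) - x / (j + 1 : ℝ) = M := by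
    rw [hM]; field_simp; ring
  have hbx : x / (j : ℝ) ≤ x := div_le_self hx0.le hj1
  -- prime powers
  have hpp : psi (x / j) - theta (x / j) ≤ 2 * T * L := by
    have hb1 : 1 ≤ x / (j : ℝ) := by
      rw [le_div_iff₀ (by linarith), one_mul]
      have : (30000 : ℝ) ≤ 10 ^ 40 := by norm_num
      exact hj2.trans (this.trans hx40)
    have h := psi_sub_theta_le hb1
    have h2 : √(x / (j : ℝ)) ≤ T := Real.sqrt_le_sqrt hbx
    have h3 : Real.log (x / (j : ℝ)) ≤ L := Real.log_le_log (lt_of_lt_of_le one_pos hb1) hbx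
    have h4 : 0 ≤ Real.log (x / (j : ℝ)) := Real.log_nonneg hb1
    calc _ ≤ 2 * √(x / (j : ℝ)) * Real.log (x / (j : ℝ)) := h
      _ ≤ 2 * T * L := by gcongr
  have hpp2 := theta_le_psi (x / (j + 1 : ℝ))
  -- the sieve
  set X := ⌊x / (j + 1 : ℝ)⌋₊ with hX
  set X' := ⌊x / (j : ℝ)⌋₊ with hX'
  have hXX' : X ≤ X' := Nat.floor_le_floor hab
  set R := ⌊√M / L⌋₊ with hR
  have hL0 : 0 < L := by linarith
  have hRM : √M / L ≤ √M := div_le_self (Real.sqrt_nonneg _) (by linarith)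
  have hMT : √M ≤ T := Real.sqrt_le_sqrt hMx
  have hMT' : T / 30001 ≤ √M := by
    apply Real.le_sqrt_of_sq_le
    rw [div_pow, sq T, hss]
    refine le_trans ?_ hMlow
    apply div_le_div_of_nonneg_left hx0.le (by norm_num) (by norm_num)
  have hML : 1 ≤ √M / L := by
    rw [le_div_iff₀ hL0, one_mul]
    refine le_trans ?_ hMT'
    rw [le_div_iff₀ (by norm_num)]
    nlinarith
  have hR1 : 1 ≤ R := Nat.le_floor (by exact_mod_cast hML)
  have hRle : (R : ℝ) ≤ √M / L := Nat.floor_le (by positivity)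
  have hRX : R ≤ X := by
    apply Nat.floor_le_floor
    refine hRM.trans (hMT.trans ?_)
    rw [le_div_iff₀ (by positivity), ← hss]
    have : (j : ℝ) + 1 ≤ T := by
      refine le_trans ?_ hs2
      have : (30001 : ℝ) ≤ 10 ^ 100 := by norm_num
      linarith
    gcongr
  have hbt := bt (X := X) (Y := X' - X) (u := 1) (v := 0) one_pos hR1 hRX
  have hXeq : X + (X' - X) = X' := by omega
  rw [hXeq] at hbt
  have hset : (Finset.Ioc X X').filter (fun q => q.Prime ∧ q ≡ 0 [MOD 1])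
      = (Finset.Ioc X X').filter Nat.Prime := by
    apply Finset.filter_congr
    intro q _
    simp [Nat.modEq_one]
  rw [hset] at hbt
  simp only [Nat.totient_one, Nat.cast_one, one_mul] at hbt
  -- lower bound for log (R+1)
  have hlogR : L / 2.0475 ≤ Real.log (R + 1) := by
    have h1 : √M / L ≤ R + 1 := (Nat.lt_floor_add_one _).le
    have h2 : Real.log (√M / L) ≤ Real.log (R + 1) := Real.log_le_log (by positivity) h1
    rw [Real.log_div (by positivity) hL0.ne', Real.log_sqrt hM0.le] at h2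
    have h3 : L - 20.6212 ≤ Real.log M := by
      have h4 : Real.log (x / 900030000) ≤ Real.log M := Real.log_le_log (by positivity) hMlow
      rw [Real.log_div hx0.ne' (by norm_num)] at h4
      have h5 : Real.log 900030000 ≤ 20.6212 := by
        have h3 : Real.log ((900030000 : ℝ) ^ 4) ≤ Real.log ((2 : ℝ) ^ 119) :=
          Real.log_le_log (by norm_num) (by norm_num)
        rw [Real.log_pow, Real.log_pow] at h3
        have := Real.log_two_lt_d9
        push_cast at h3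
        linarith
      linarith
    have h6 := loglog_le hL0
    have h7 : L / 2.0475 ≤ (L - 20.6212) / 2 - (L / 1664 + 6.4515) := by
      norm_num at hL ⊢
      linarith
    linarith
  have hlogR0 : 0 < Real.log (R + 1) := lt_of_lt_of_le (by positivity) hlogR
  have hY : ((X' - X : ℕ) : ℝ) ≤ M + 1 := by
    rw [Nat.cast_sub hXX']
    have h1 : (X' : ℝ) ≤ x / j := Nat.floor_le (by positivity)
    have h2 : x / (j + 1 : ℝ) < X + 1 := Nat.lt_floor_add_one _
    linarith
  have hcount : (((Finset.Ioc X X').filter Nat.Prime).card : ℝ) * L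
      ≤ (M + 1) * 2.0475 + M / L := by
    have h1 : ((X' - X : ℕ) : ℝ) / Real.log (R + 1) ≤ (M + 1) * 2.0475 / L := by
      rw [div_le_div_iff₀ hlogR0 hL0]
      rw [div_le_iff₀ (by norm_num)] at hlogR
      calc ((X' - X : ℕ) : ℝ) * L ≤ (M + 1) * L := by gcongr
        _ ≤ (M + 1) * (Real.log (R + 1) * 2.0475) := by gcongr
        _ = _ := by ring
    have h2 : (R : ℝ) ^ 2 ≤ M / L ^ 2 := by
      calc (R : ℝ) ^ 2 ≤ (√M / L) ^ 2 := by gcongr
        _ = M / L ^ 2 := by rw [div_pow, Real.sq_sqrt hM0.le]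
    calc (((Finset.Ioc X X').filter Nat.Prime).card : ℝ) * L
        ≤ ((M + 1) * 2.0475 / L + M / L ^ 2) * L := by gcongr; linarith
      _ = (M + 1) * 2.0475 + M / L := by field_simp
  -- the mass
  have hmass : theta (x / j) - theta (x / (j + 1 : ℝ))
      ≤ (((Finset.Ioc X X').filter Nat.Prime).card : ℝ) * L := by
    rw [theta_sub_eq hab, ← nsmul_eq_mul]
    apply Finset.sum_le_card_nsmul
    intro p hp
    rw [Finset.mem_filter, Finset.mem_Ioc] at hp
    apply Real.log_le_log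
    · exact_mod_cast hp.2.pos
    · refine le_trans ?_ hbx
      exact (Nat.le_floor_iff (by positivity)).1 hp.1.2
  have hfin : (M + 1) * 2.0475 + M / L + 2 * T * L ≤ 2.05 * M := by
    have h1 : M / L ≤ M / 1662.8 := by gcongr
    have h2 : 2 * T * L ≤ 2 * (T * T) / 10 ^ 20 := by
      rw [le_div_iff₀ (by positivity)]
      nlinarith
    rw [hss] at h2
    have h3 : (1 : ℝ) ≤ x / 10 ^ 20 := by
      rw [le_div_iff₀ (by positivity), one_mul]
      exact (pow_le_pow_right₀ (by norm_num) (by norm_num)).trans hx40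
    have h4 : x / 10 ^ 20 ≤ M / 10 ^ 10 := by
      rw [div_le_iff₀ (by norm_num)] at hMlow
      rw [div_le_div_iff₀ (by positivity) (by positivity)]
      calc x * 10 ^ 10 ≤ M * 900030000 * 10 ^ 10 := by gcongr
        _ = M * (900030000 * 10 ^ 10) := by ring
        _ ≤ M * 10 ^ 20 := by gcongr; norm_num
    have h6 : 2 * x / 10 ^ 20 = 2 * (x / 10 ^ 20) := by ring
    rw [h6] at h2
    exact fin_ineq hM0 h1 h2 h3 h4
  have hM' : 2.05 * x / (j * (j + 1)) = 2.05 * M := by rw [hM]; ring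
  rw [hM']
  linarith

end Pool.Agent.Work.MP_713a1e_co.E
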