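import Pool.Agent.Work.MP_713a1e_co.E.Defs

/-!
# JOB C3: merging cycles by disjoint swaps

Proof by induction on `P.length`.  If `σ` is not transitive there is `(i, j) ∈ P` with `i`, `j` in different
cycles (otherwise all the generating relations are inside `SameCycle`).  Replace `σ` by
`σ' = σ * swap i j` (so `σ' i = σ j`, `σ' j = σ i`) and remove `(i, j)` from `P`: `σ'` joins the two cycles and
keeps the others (`SameCycle σ x y → SameCycle σ' x y`, `SameCycle σ' i j`), and `σ' x = σ x` for all `x ∉ {i, j}`.
-/

namespace Pool.Agent.Work.MP_713a1e_co.E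

open Equiv Equiv.Perm

lemma merge_join {α : Type*} [Fintype α] [DecidableEq α] (σ : Equiv.Perm α) {i j : α}
    (hij : ¬ σ.SameCycle i j) : (σ * swap i j).SameCycle j i := by
  classical
  have hex : ∃ k : ℕ, 0 < k ∧ (σ ^ k) i = i := by
    refine ⟨orderOf σ, orderOf_pos σ, ?_⟩
    rw [pow_orderOf_eq_one]; rfl
  set m := Nat.find hex with hm
  obtain ⟨hm0, hmi⟩ := Nat.find_spec hex
  have hmin : ∀ k, 0 < k → k < m → (σ ^ k) i ≠ i := fun k hk hkm h =>
    Nat.find_min hex hkm ⟨hk, h⟩
  have key : ∀ k, k < m → ((σ * swap i j) ^ (k + 1)) j = (σ ^ (k + 1)) i := by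
    intro k
    induction k with
    | zero => intro _; simp [Perm.mul_apply]
    | succ k ih =>
      intro hk
      have h1 := ih (by omega)
      have h2 : (σ ^ (k + 1)) i ≠ i := hmin (k + 1) (by omega) hk
      have h3 : (σ ^ (k + 1)) i ≠ j := by
        intro h
        exact hij ⟨(k + 1 : ℕ), by rw [zpow_natCast]; exact h⟩
      rw [pow_succ' (σ * swap i j), Perm.mul_apply, h1, Perm.mul_apply, swap_apply_of_ne_of_ne h2 h3,
        pow_succ' σ (k + 1), Perm.mul_apply]
  refine ⟨(m : ℕ), ?_⟩
  rw [zpow_natCast]
  obtain ⟨k, hk⟩ : ∃ k, m = k + 1 := ⟨m - 1, by omega⟩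
  rw [hk, key k (by omega), ← hk]
  exact hmi

lemma merge_keep {α : Type*} [Fintype α] [DecidableEq α] (σ : Equiv.Perm α) {i j : α}
    (hij : ¬ σ.SameCycle i j) {x y : α} (h : σ.SameCycle x y) : (σ * swap i j).SameCycle x y := by
  have hj := merge_join σ hij
  have hstep : ∀ z, (σ * swap i j).SameCycle z (σ z) := by
    intro z
    by_cases hi : z = i
    · subst hi
      have : σ z = (σ * swap z j) j := by simp [Perm.mul_apply]
      rw [this, sameCycle_apply_right]
      exact hj.symm
    · by_cases hjz : z = j
      · subst hjz
        have : σ z = (σ * swap i z) i := by simp [Perm.mul_apply]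
        rw [this, sameCycle_apply_right]
        exact hj
      · have : σ z = (σ * swap i j) z := by
          rw [Perm.mul_apply, swap_apply_of_ne_of_ne hi hjz]
        rw [this, sameCycle_apply_right]
  obtain ⟨n, hn⟩ := h.exists_nat_pow_eq
  rw [← hn]
  clear hn
  induction n with
  | zero => simpa using SameCycle.refl _ x
  | succ n ih =>
    rw [pow_succ', Perm.mul_apply]
    exact ih.trans (hstep _)

lemma eqvGen_of_sameCycle {α : Type*} [Fintype α] (σ : Equiv.Perm α) (R : α → α → Prop)
    (hR : ∀ x, R x (σ x)) {x y : α} (h : σ.SameCycle x y) : Relation.EqvGen R x y := by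
  obtain ⟨n, hn⟩ := h.exists_nat_pow_eq
  rw [← hn]
  clear hn
  induction n with
  | zero => simpa using Relation.EqvGen.refl x
  | succ n ih =>
    rw [pow_succ', Perm.mul_apply]
    exact ih.trans _ _ _ (Relation.EqvGen.rel _ _ (hR _))

theorem merge {α : Type*} [Fintype α] [DecidableEq α] (σ : Equiv.Perm α) (P : List (α × α))
    (hP : (P.flatMap (fun x => [x.1, x.2])).Nodup)
    (hconn : ∀ x y, Relation.EqvGen (fun x y => σ x = y ∨ (x, y) ∈ P) x y) :
    ∃ τ : Equiv.Perm α, (∀ x y, τ.SameCycle x y) ∧
      ∀ x, τ x = σ x ∨ ∃ q ∈ P, (x = q.1 ∧ τ x = σ q.2) ∨ (x = q.2 ∧ τ x = σ q.1) := by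
  classical
  induction hn : P.length generalizing σ P with
  | zero =>
    have hP0 : P = [] := List.length_eq_zero_iff.mp hn
    subst hP0
    refine ⟨σ, ?_, fun x => Or.inl rfl⟩
    intro x y
    have := hconn x y
    induction this with
    | rel x y h =>
      rcases h with h | h
      · exact ⟨1, by simpa using h⟩
      · simp at h
    | refl x => exact SameCycle.refl _ _
    | symm x y _ ih => exact ih.symm
    | trans x y z _ _ ih1 ih2 => exact ih1.trans ih2
  | succ n ih =>
    by_cases hall : ∀ q ∈ P, σ.SameCycle q.1 q.2
    · refine ⟨σ, ?_, fun x => Or.inl rfl⟩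
      intro x y
      have := hconn x y
      induction this with
      | rel x y h =>
        rcases h with h | h
        · exact ⟨1, by simpa using h⟩
        · exact hall _ h
      | refl x => exact SameCycle.refl _ _
      | symm x y _ ih => exact ih.symm
      | trans x y z _ _ ih1 ih2 => exact ih1.trans ih2
    · push Not at hall
      obtain ⟨⟨i, j⟩, hqP, hij⟩ := hall
      simp only at hij
      obtain ⟨P1, P2, rfl⟩ := List.append_of_mem hqP
      have hnd : ((P1 ++ P2).flatMap (fun x => [x.1, x.2])).Nodup := by
        refine hP.sublist ?_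
        simp only [List.flatMap_append, List.flatMap_cons]
        exact List.Sublist.append (List.Sublist.refl _) (List.sublist_append_right _ _)
      have hnot : ∀ q ∈ P1 ++ P2, q.1 ≠ i ∧ q.1 ≠ j ∧ q.2 ≠ i ∧ q.2 ≠ j := by
        intro q hq
        rw [List.flatMap_append, List.flatMap_cons] at hP
        have hmem : ∀ z ∈ [q.1, q.2], z ≠ i ∧ z ≠ j := by
          intro z hz
          rcases List.mem_append.mp hq with hq | hq
          · have hz1 : z ∈ P1.flatMap (fun x => [x.1, x.2]) := List.mem_flatMap.mpr ⟨q, hq, hz⟩
            have hdis := (List.nodup_append.mp hP).2.2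
            constructor
            · rintro rfl
              exact hdis z hz1 z (by simp) rfl
            · rintro rfl
              exact hdis z hz1 z (by simp) rfl
          · have hz1 : z ∈ P2.flatMap (fun x => [x.1, x.2]) := List.mem_flatMap.mpr ⟨q, hq, hz⟩
            have hdis := (List.nodup_append.mp (List.nodup_append.mp hP).2.1).2.2
            constructor
            · rintro rfl
              exact hdis z (by simp) z hz1 rfl
            · rintro rfl
              exact hdis z (by simp) z hz1 rfl
        exact ⟨(hmem _ (by simp)).1, (hmem _ (by simp)).2, (hmem _ (by simp)).1, (hmem _ (by simp)).2⟩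
      have hconn' : ∀ x y, Relation.EqvGen
          (fun x y => (σ * swap i j) x = y ∨ (x, y) ∈ P1 ++ P2) x y := by
        intro x y
        have := hconn x y
        induction this with
        | rel x y h =>
          rcases h with h | h
          · exact eqvGen_of_sameCycle (σ * swap i j) _ (fun x => Or.inl rfl)
              (merge_keep σ hij ⟨1, by simpa using h⟩)
          · rcases List.mem_append.mp h with h | h
            · exact Relation.EqvGen.rel _ _ (Or.inr (List.mem_append_left _ h))
            · rcases List.mem_cons.mp h with h | h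
              · obtain ⟨rfl, rfl⟩ := Prod.mk.injEq .. ▸ h
                exact eqvGen_of_sameCycle (σ * swap x y) _ (fun x => Or.inl rfl)
                  (merge_join σ hij).symm
              · exact Relation.EqvGen.rel _ _ (Or.inr (List.mem_append_right _ h))
        | refl x => exact Relation.EqvGen.refl _
        | symm x y _ ih => exact ih.symm
        | trans x y z _ _ ih1 ih2 => exact ih1.trans _ _ _ ih2
      obtain ⟨τ, hτ1, hτ2⟩ := ih (σ * swap i j) (P1 ++ P2) hnd hconn'
        (by simp only [List.length_append, List.length_cons] at hn ⊢; omega)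
      refine ⟨τ, hτ1, ?_⟩
      intro x
      rcases hτ2 x with h | ⟨q, hq, h⟩
      · by_cases hxi : x = i
        · subst hxi
          right
          refine ⟨(x, j), by simp, Or.inl ⟨rfl, ?_⟩⟩
          rw [h, Perm.mul_apply, swap_apply_left]
        · by_cases hxj : x = j
          · subst hxj
            right
            refine ⟨(i, x), by simp, Or.inr ⟨rfl, ?_⟩⟩
            rw [h, Perm.mul_apply, swap_apply_right]
          · left
            rw [h, Perm.mul_apply, swap_apply_of_ne_of_ne hxi hxj]
      · right
        obtain ⟨h1, h2, h3, h4⟩ := hnot q hq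
        refine ⟨q, ?_, ?_⟩
        · rcases List.mem_append.mp hq with hq | hq
          · exact List.mem_append_left _ hq
          · exact List.mem_append_right _ (List.mem_cons_of_mem _ hq)
        · rcases h with ⟨hx, h⟩ | ⟨hx, h⟩
          · left
            refine ⟨hx, ?_⟩
            rw [h, Perm.mul_apply, swap_apply_of_ne_of_ne h3 h4]
          · right
            refine ⟨hx, ?_⟩
            rw [h, Perm.mul_apply, swap_apply_of_ne_of_ne h1 h2]

end Pool.Agent.Work.MP_713a1e_co.E
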