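import Pool.Agent.Work.MP_713a1e_co.E.Moeb

/-!
# JOB N1: rational bounds for integral combinations of logarithms
-/

namespace Pool.Agent.Work.MP_713a1e_co.E

theorem log_natlog2 {k : ℕ} (hk : 1 ≤ k) (b : ℕ) :
    (Nat.log2 (k ^ b) : ℝ) * Real.log 2 ≤ b * Real.log k ∧
      (b : ℝ) * Real.log k ≤ ((Nat.log2 (k ^ b) : ℝ) + 1) * Real.log 2 := by
  have h0 : k ^ b ≠ 0 := by positivity
  have h1 : 2 ^ Nat.log2 (k ^ b) ≤ k ^ b := Nat.log2_self_le h0
  have h2 : k ^ b < 2 ^ (Nat.log2 (k ^ b) + 1) := Nat.lt_log2_self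
  generalize Nat.log2 (k ^ b) = a at h1 h2
  have h1' : ((2 : ℝ) ^ a) ≤ (k : ℝ) ^ b := by exact_mod_cast h1
  have h2' : (k : ℝ) ^ b ≤ (2 : ℝ) ^ (a + 1) := by exact_mod_cast h2.le
  have hk0 : (0 : ℝ) < k := by exact_mod_cast hk
  constructor
  · have := Real.log_le_log (by positivity) h1'
    rw [Real.log_pow, Real.log_pow] at this
    exact this
  · have := Real.log_le_log (by positivity) h2'
    rw [Real.log_pow, Real.log_pow] at this
    push_cast at this
    exact this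

/-- integral combinations of logarithms, evaluated with `log2 (k^b)` -/
theorem sum_log_near2 (M : ℕ → ℤ) (K b : ℕ) (S P : ℤ)
    (hS : ∑ k ∈ Finset.Icc 1 K, M k * (Nat.log2 (k ^ b) : ℤ) = S)
    (hP : ∑ k ∈ Finset.Icc 1 K, max (M k) 0 ≤ P)
    (hN : ∑ k ∈ Finset.Icc 1 K, max (-M k) 0 ≤ P) :
    ((S : ℝ) - P) * Real.log 2 ≤ b * ∑ k ∈ Finset.Icc 1 K, (M k : ℝ) * Real.log k ∧
      (b : ℝ) * ∑ k ∈ Finset.Icc 1 K, (M k : ℝ) * Real.log k ≤ ((S : ℝ) + P) * Real.log 2 := by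
  have hl2 : 0 < Real.log 2 := Real.log_pos (by norm_num)
  have hS' : ∑ k ∈ Finset.Icc 1 K, (M k : ℝ) * (Nat.log2 (k ^ b) : ℝ) = S := by
    exact_mod_cast hS
  have hP' : ∑ k ∈ Finset.Icc 1 K, max (M k : ℝ) 0 ≤ P := by exact_mod_cast hP
  have hN' : ∑ k ∈ Finset.Icc 1 K, max (-(M k : ℝ)) 0 ≤ P := by exact_mod_cast hN
  have key : ∀ k ∈ Finset.Icc 1 K,
      ((M k : ℝ) * (Nat.log2 (k ^ b) : ℝ) - max (-(M k : ℝ)) 0) * Real.log 2
        ≤ b * ((M k : ℝ) * Real.log k) ∧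
      b * ((M k : ℝ) * Real.log k) ≤
        ((M k : ℝ) * (Nat.log2 (k ^ b) : ℝ) + max (M k : ℝ) 0) * Real.log 2 := by
    intro k hk
    obtain ⟨h1, h2⟩ := log_natlog2 (Finset.mem_Icc.1 hk).1 b
    generalize (Nat.log2 (k ^ b) : ℝ) = a at h1 h2 ⊢
    generalize (M k : ℝ) = m
    have e : (b : ℝ) * (m * Real.log k) = m * (b * Real.log k) := by ring
    rw [e]
    rcases le_total 0 m with hm | hm
    · rw [max_eq_right (by linarith), max_eq_left hm]
      constructor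
      · calc (m * a - 0) * Real.log 2 = m * (a * Real.log 2) := by ring
          _ ≤ _ := mul_le_mul_of_nonneg_left h1 hm
      · calc _ ≤ m * ((a + 1) * Real.log 2) := mul_le_mul_of_nonneg_left h2 hm
          _ = _ := by ring
    · rw [max_eq_left (by linarith), max_eq_right hm]
      constructor
      · calc (m * a - -m) * Real.log 2 = m * ((a + 1) * Real.log 2) := by ring
          _ ≤ _ := mul_le_mul_of_nonpos_left h2 hm
      · calc _ ≤ m * (a * Real.log 2) := mul_le_mul_of_nonpos_left h1 hm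
          _ = _ := by ring
  rw [Finset.mul_sum]
  constructor
  · calc ((S : ℝ) - P) * Real.log 2
        ≤ (∑ k ∈ Finset.Icc 1 K, (M k : ℝ) * (Nat.log2 (k ^ b) : ℝ)
            - ∑ k ∈ Finset.Icc 1 K, max (-(M k : ℝ)) 0) * Real.log 2 := by
          apply mul_le_mul_of_nonneg_right _ hl2.le
          linarith
      _ = ∑ k ∈ Finset.Icc 1 K,
            ((M k : ℝ) * (Nat.log2 (k ^ b) : ℝ) - max (-(M k : ℝ)) 0) * Real.log 2 := by
          rw [← Finset.sum_sub_distrib, Finset.sum_mul]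
      _ ≤ _ := Finset.sum_le_sum fun k hk => (key k hk).1
  · calc _ ≤ ∑ k ∈ Finset.Icc 1 K,
            ((M k : ℝ) * (Nat.log2 (k ^ b) : ℝ) + max (M k : ℝ) 0) * Real.log 2 :=
          Finset.sum_le_sum fun k hk => (key k hk).2
      _ = (∑ k ∈ Finset.Icc 1 K, (M k : ℝ) * (Nat.log2 (k ^ b) : ℝ)
            + ∑ k ∈ Finset.Icc 1 K, max (M k : ℝ) 0) * Real.log 2 := by
          rw [← Finset.sum_add_distrib, Finset.sum_mul]
      _ ≤ _ := by
          apply mul_le_mul_of_nonneg_right _ hl2.le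
          linarith

end Pool.Agent.Work.MP_713a1e_co.E
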