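import Pool.Agent.Work.MP_713a1e_co.E.ThetaNum
import Pool.Agent.Work.MP_713a1e_co.E.ThetaLogA

/-!
# JOB N1: the value of `- ∑ ν(k) log k / k`
-/

namespace Pool.Agent.Work.MP_713a1e_co.E

namespace TN

/-- the product of the primes up to 151 -/
def DD : ℕ := 225319534991831177328890236228992001350685163362356544091910

/-- `(k, a)` with `2^a ≤ k^16384 ≤ 2^(a+1)`, `μ(k) = 1` -/
def tabP : List (ℕ × ℕ) := [
  (1, 0), (6, 42352), (10, 54426), (14, 62379), (15, 64010), (21, 71963),
  (22, 73063), (26, 77012), (33, 82647), (34, 83352), (35, 84038), (38, 85982),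
  (39, 86596), (46, 90498), (51, 92937), (55, 94721), (57, 95566), (58, 95977),
  (62, 97553), (65, 98670), (69, 100082), (74, 101735), (77, 102675), (82, 104162),
  (85, 105011), (86, 105287), (87, 105561), (91, 106623), (93, 107137), (94, 107390),
  (95, 107640), (106, 110230), (111, 111319), (115, 112156), (118, 112765), (119, 112964),
  (122, 113553), (123, 113746), (129, 114871), (133, 115593), (134, 115770), (141, 116974),
  (142, 117141), (143, 117307), (145, 117635), (146, 117798)]

/-- `(k, a)` with `2^a ≤ k^16384 ≤ 2^(a+1)`, `μ(k) = -1` -/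
def tabN : List (ℕ × ℕ) := [
  (2, 16384), (3, 25968), (5, 38042), (7, 45995), (11, 56679), (13, 60628),
  (17, 66968), (19, 69598), (23, 74114), (29, 79593), (30, 80394), (31, 81169),
  (37, 85351), (41, 87778), (42, 88347), (43, 88903), (47, 91006), (53, 93846),
  (59, 96381), (61, 97169), (66, 99031), (67, 99386), (70, 100422), (71, 100757),
  (73, 101414), (78, 102980), (79, 103281), (83, 104448), (89, 106098), (97, 108132),
  (101, 109088), (102, 109321), (103, 109551), (105, 110006), (107, 110452), (109, 110889),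
  (110, 111105), (113, 111741), (114, 111950), (127, 114502), (130, 115054), (131, 115235),
  (137, 116294), (138, 116466), (139, 116636), (149, 118278), (151, 118594), (154, 119059)]

def chk (p : ℕ × ℕ) : Bool :=
  Nat.ble 1 p.1 && (Nat.ble (Nat.pow 2 p.2) (Nat.pow p.1 16384) &&
    (Nat.ble (Nat.pow p.1 16384) (Nat.pow 2 (Nat.add p.2 1)) &&
      Nat.beq (Nat.mul p.1 (Nat.div DD p.1)) DD))

theorem tabP_chk : tabP.all chk = true := by decide +kernel

theorem tabN_chk : tabN.all chk = true := by decide +kernel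

theorem tabP_fst : tabP.map Prod.fst = posL := by decide +kernel

theorem tabN_fst : tabN.map Prod.fst = negL := by decide +kernel

theorem sP1 : (tabP.map (fun p => Nat.mul (Nat.div DD p.1) p.2)).sum = 18454825018075878504744012353148456786390181335909168759071249751 := by decide +kernel

theorem sP2 : (tabP.map (fun p => Nat.mul (Nat.div DD p.1) (Nat.add p.2 1))).sum = 18455287215912974307430158452288511018310962918234111625989750809 := by
  decide +kernel

theorem sN1 : (tabN.map (fun p => Nat.mul (Nat.div DD p.1) p.2)).sum = 23777279858676722844946620883641353764640975541194938029072103123 := by decide +kernel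

theorem sN2 : (tabN.map (fun p => Nat.mul (Nat.div DD p.1) (Nat.add p.2 1))).sum = 23777742023966938364037349763216007593360462540775488619796843065 := by
  decide +kernel

theorem list_bounds (L : List (ℕ × ℕ)) (h : L.all chk = true) :
    (((L.map (fun p => Nat.mul (Nat.div DD p.1) p.2)).sum : ℕ) : ℝ) * Real.log 2
        ≤ 16384 * ((DD : ℝ) * ((L.map Prod.fst).map (fun k : ℕ => Real.log k / k)).sum) ∧
      16384 * ((DD : ℝ) * ((L.map Prod.fst).map (fun k : ℕ => Real.log k / k)).sum) ≤
        (((L.map (fun p => Nat.mul (Nat.div DD p.1) (Nat.add p.2 1))).sum : ℕ) : ℝ)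
          * Real.log 2 := by
  induction L with
  | nil => simp
  | cons p L ih =>
    rw [List.all_cons, Bool.and_eq_true] at h
    obtain ⟨hp, hL⟩ := h
    obtain ⟨i1, i2⟩ := ih hL
    unfold chk at hp
    rw [Bool.and_eq_true, Bool.and_eq_true, Bool.and_eq_true] at hp
    obtain ⟨c1, c2, c3, c4⟩ := hp
    have c1' : 1 ≤ p.1 := Nat.le_of_ble_eq_true c1
    have c2' : 2 ^ p.2 ≤ p.1 ^ 16384 := Nat.le_of_ble_eq_true c2
    have c3' : p.1 ^ 16384 ≤ 2 ^ (p.2 + 1) := Nat.le_of_ble_eq_true c3
    have c4' : p.1 * (DD / p.1) = DD := Nat.eq_of_beq_eq_true c4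
    have hp0 : (0 : ℝ) < p.1 := by exact_mod_cast c1'
    have d2 : ((2 : ℝ) ^ p.2) ≤ (p.1 : ℝ) ^ 16384 := by exact_mod_cast c2'
    have d3 : (p.1 : ℝ) ^ 16384 ≤ (2 : ℝ) ^ (p.2 + 1) := by exact_mod_cast c3'
    have d4 : (p.1 : ℝ) * ((DD / p.1 : ℕ) : ℝ) = DD := by exact_mod_cast c4'
    have e2 : (p.2 : ℝ) * Real.log 2 ≤ 16384 * Real.log p.1 := by
      have := Real.log_le_log (by positivity) d2
      rw [Real.log_pow, Real.log_pow] at this
      exact_mod_cast this
    have e3 : 16384 * Real.log p.1 ≤ ((p.2 : ℝ) + 1) * Real.log 2 := by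
      have := Real.log_le_log (by positivity) d3
      rw [Real.log_pow, Real.log_pow] at this
      exact_mod_cast this
    have hq0 : (0 : ℝ) ≤ ((DD / p.1 : ℕ) : ℝ) := Nat.cast_nonneg _
    have e4 : (DD : ℝ) * (Real.log p.1 / p.1) = ((DD / p.1 : ℕ) : ℝ) * Real.log p.1 := by
      rw [← d4]
      field_simp
    have f2 := mul_le_mul_of_nonneg_left e2 hq0
    have f3 := mul_le_mul_of_nonneg_left e3 hq0
    simp only [List.map_cons, List.sum_cons]
    rw [Nat.cast_add, Nat.cast_add, mul_add (DD : ℝ), e4]
    have g1 : ((Nat.mul (Nat.div DD p.1) p.2 : ℕ) : ℝ) = ((DD / p.1 : ℕ) : ℝ) * p.2 := by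
      exact Nat.cast_mul _ _
    have g2 : ((Nat.mul (Nat.div DD p.1) (Nat.add p.2 1) : ℕ) : ℝ)
        = ((DD / p.1 : ℕ) : ℝ) * (p.2 + 1) := by
      have : ((Nat.mul (Nat.div DD p.1) (Nat.add p.2 1) : ℕ) : ℝ)
        = ((DD / p.1 : ℕ) : ℝ) * ((p.2 + 1 : ℕ) : ℝ) := Nat.cast_mul _ _
      rw [this]
      push_cast
      ring
    rw [g1, g2]
    constructor
    · linarith
    · linarith

/-- bounds for `∑ μ(k) log k / k` -/
theorem W_bounds :
    -0.99945 ≤ (posL.map (fun k : ℕ => Real.log k / k)).sum
      - (negL.map (fun k : ℕ => Real.log k / k)).sum ∧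
    (posL.map (fun k : ℕ => Real.log k / k)).sum
      - (negL.map (fun k : ℕ => Real.log k / k)).sum ≤ -0.99926 := by
  obtain ⟨p1, p2⟩ := list_bounds tabP tabP_chk
  obtain ⟨n1, n2⟩ := list_bounds tabN tabN_chk
  rw [tabP_fst] at p1 p2
  rw [tabN_fst] at n1 n2
  rw [sP1] at p1
  rw [sP2] at p2
  rw [sN1] at n1
  rw [sN2] at n2
  generalize (posL.map (fun k : ℕ => Real.log k / k)).sum = P at *
  generalize (negL.map (fun k : ℕ => Real.log k / k)).sum = N at *
  have hl1 := Real.log_two_gt_d9
  have hl2 := Real.log_two_lt_d9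
  have hD : (DD : ℝ) = 225319534991831177328890236228992001350685163362356544091910 := by
    norm_num [DD]
  rw [hD] at p1 p2 n1 n2
  generalize Real.log 2 = l at *
  push_cast at p1 p2 n1 n2
  constructor
  · have h : (-5322917005891059859293337410067550806970281204866319860725593314 : ℝ) * l ≤
        16384 * (225319534991831177328890236228992001350685163362356544091910 * (P - N)) := by
      linarith
    have h2 : (-5322917005891059859293337410067550806970281204866319860725593314 : ℝ) * (0.6931471808 : ℝ) ≤ (-5322917005891059859293337410067550806970281204866319860725593314 : ℝ) * l := by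
      linarith
    linarith
  · have h : 16384 * (225319534991831177328890236228992001350685163362356544091910 * (P - N)) ≤
        (-5321992642763748537516462431352842746330012622960826403082352314 : ℝ) * l := by
      linarith
    have h2 : (-5321992642763748537516462431352842746330012622960826403082352314 : ℝ) * l ≤ (-5321992642763748537516462431352842746330012622960826403082352314 : ℝ) * (0.6931471803 : ℝ) := by
      linarith
    linarith

end TN

open TN

theorem nuT_log : |(- ∑ k ∈ Finset.Icc 1 154, nuT k * Real.log k / k) - 1| ≤ 0.0003 := by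
  have h0 : ∑ k ∈ Finset.Icc 1 154, nuT k * Real.log k / k =
      ∑ k ∈ Finset.Icc 1 154, nuT k * (Real.log k / k) :=
    Finset.sum_congr rfl fun k _ => by ring
  rw [h0, sum_nuT (fun k => Real.log k / k)]
  obtain ⟨w1, w2⟩ := W_bounds
  generalize (posL.map (fun k : ℕ => Real.log k / k)).sum
      - (negL.map (fun k : ℕ => Real.log k / k)).sum = W at *
  have hl1 := Real.log_two_gt_d9
  have hl2 := Real.log_two_lt_d9
  -- the last term
  have s1 := sT_lo
  have s2 := sT_hi
  have l1 : Real.log (154 : ℕ) ≤ 5.6 := by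
    have h : Real.log (154 : ℕ) ≤ Real.log ((2 : ℝ) ^ 8) :=
      Real.log_le_log (by norm_num) (by norm_num)
    rw [Real.log_pow] at h
    push_cast at h ⊢
    linarith
  have l2 : 4.8 ≤ Real.log (154 : ℕ) := by
    have h : Real.log ((2 : ℝ) ^ 7) ≤ Real.log (154 : ℕ) :=
      Real.log_le_log (by norm_num) (by norm_num)
    rw [Real.log_pow] at h
    push_cast at h ⊢
    linarith
  generalize 154 * sT = u at *
  generalize Real.log (154 : ℕ) = l at *
  have hu0 : 0 ≤ u := le_trans (by norm_num) s1
  have m0 : u * (l / (154 : ℕ)) = u * l / 154 := by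
    push_cast
    ring
  rw [m0]
  have m1 : u * l ≤ (22244941 / 1000000000) * 5.6 := by
    apply mul_le_mul s2 l1 _ (by norm_num)
    linarith
  have m2 : (22244940 / 1000000000) * 4.8 ≤ u * l := by
    apply mul_le_mul s1 l2 (by norm_num) hu0
  rw [abs_le]
  constructor
  · linarith
  · linarith

end Pool.Agent.Work.MP_713a1e_co.E
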