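import Pool.Agent.Work.MP_713a1e_co.E.ThetaA
import Pool.Agent.Work.MP_713a1e_co.E.ThetaLog

/-!
# JOB N1: `|θ(x) - x| ≤ 0.0295 x` for `x ≥ 2^2399`

`K = 154`, `s = ∑_{k ≤ 154} μ(k)/k`, `ν k = μ k` for `k < 154`, `ν 154 = μ 154 - 154 s` (so `∑ ν k / k = 0`),
`E(y) = ∑_{k ≤ 154} ν k ⌊y/k⌋`.  Then `∑_{m ≤ x} Λ(m) E(x/m) = ∑_k ν k log ⌊x/k⌋!  = c x + O(log x)` with
`c = - ∑ ν k (log k)/k = 1.000086…` and
`|ψ(x) - ∑_m Λ(m) E(x/m)| ≤ ∑_{j ≤ J} |1 - E(j)| (ψ(x/j) - ψ(x/(j+1))) + (1 + 48) ψ(x/(J+1))`.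
The identity is in `Moeb.lean`, the numerical facts in `ThetaNum.lean` and `ThetaLog.lean`, the assembly in
`ThetaA.lean`.
-/

namespace Pool.Agent.Work.MP_713a1e_co.E

open Chebyshev

theorem theta_near {x : ℝ} (hx : (2 : ℝ) ^ 2399 ≤ x) : |theta x - x| ≤ 0.0295 * x :=
  theta_near_of nuT nuT_sum nuT_log nuT_abs EE_sum EE_bound hx

end Pool.Agent.Work.MP_713a1e_co.E
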