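import Pool.Agent.Work.MP_713a1e_co.E.SelDefs
import Pool.Agent.Work.MP_713a1e_co.E.Theta
import Pool.Agent.Work.MP_713a1e_co.E.AvgPhi

/-! # JOB A2a: Steps 1 and 2 of Plan.txt, section 4 (uses `theta_near`, `avg_phi`) -/

namespace Pool.Agent.Work.MP_713a1e_co.E

open Finset Chebyshev

namespace SelA

theorem X0_big : 10 ^ 700 ≤ X0 := by
  unfold X0
  calc 10 ^ 700 ≤ 10 ^ 720 := Nat.pow_le_pow_right (by norm_num) (by norm_num)
    _ = (10 ^ 3) ^ 240 := by rw [← pow_mul]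
    _ ≤ (2 ^ 10) ^ 240 := Nat.pow_le_pow_left (by norm_num) 240
    _ = 2 ^ 2400 := by rw [← pow_mul]

/-- primes of `J` -/
def PJ (x K : ℕ) : Finset ℕ := (Ioc x (x + K)).filter Nat.Prime

theorem lt_pairs (S : Finset ℕ) :
    S.card * S.card = S.card + 2 * ((S ×ˢ S).filter (fun q => q.1 < q.2)).card := by
  have h1 : ((S ×ˢ S).filter (fun q => q.2 < q.1)).card = ((S ×ˢ S).filter (fun q => q.1 < q.2)).card := by
    refine Finset.card_bij (fun q _ => (q.2, q.1)) ?_ ?_ ?_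
    · intro q hq
      simp only [mem_filter, mem_product] at hq ⊢
      exact ⟨⟨hq.1.2, hq.1.1⟩, hq.2⟩
    · intro q _ q' _ h
      simp only [Prod.mk.injEq] at h
      exact Prod.ext h.2 h.1
    · intro q hq
      simp only [mem_filter, mem_product] at hq
      exact ⟨(q.2, q.1), by simp only [mem_filter, mem_product]; exact ⟨⟨hq.1.2, hq.1.1⟩, hq.2⟩, rfl⟩
  have h2 : ((S ×ˢ S).filter (fun q => q.1 = q.2)).card = S.card := by
    refine Finset.card_bij (fun q _ => q.1) ?_ ?_ ?_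
    · intro q hq
      simp only [mem_filter, mem_product] at hq
      exact hq.1.1
    · intro q hq q' hq' h
      simp only [mem_filter, mem_product] at hq hq'
      exact Prod.ext h (by rw [← hq.2, ← hq'.2]; exact h)
    · intro a ha
      exact ⟨(a, a), mem_filter.mpr ⟨mem_product.mpr ⟨ha, ha⟩, rfl⟩, rfl⟩
  have h3 : (S ×ˢ S) = (S ×ˢ S).filter (fun q => q.1 < q.2) ∪ ((S ×ˢ S).filter (fun q => q.2 < q.1) ∪
      (S ×ˢ S).filter (fun q => q.1 = q.2)) := by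
    ext q
    simp only [mem_union, mem_filter]
    constructor
    · intro h
      rcases lt_trichotomy q.1 q.2 with h' | h' | h'
      · exact Or.inl ⟨h, h'⟩
      · exact Or.inr (Or.inr ⟨h, h'⟩)
      · exact Or.inr (Or.inl ⟨h, h'⟩)
    · rintro (h | h | h) <;> exact h.1
  have h4 := congrArg Finset.card h3
  rw [card_product, card_union_of_disjoint, card_union_of_disjoint, h1, h2] at h4
  · omega
  · rw [disjoint_left]
    intro q h h'
    simp only [mem_filter] at h h'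
    omega
  · rw [disjoint_left]
    intro q h h'
    simp only [mem_filter, mem_union] at h h'
    omega

theorem pairs_le {n x : ℕ} (hx : 2 ≤ x) (hK : LL n ≤ n) :
    (PJ x (LL n)).card * (PJ x (LL n)).card ≤
      (PJ x (LL n)).card + 2 * ∑ s ∈ Ioo x (x + LL n), (TT n x s).card := by
  rw [lt_pairs, ← Finset.card_sigma]
  gcongr
  refine Finset.card_le_card_of_injOn (fun q => (⟨(q.1 + q.2) / 2, (q.2 - q.1) / 2⟩ : (_ : ℕ) × ℕ)) ?_ ?_
  · intro q hq
    simp only [PJ, coe_filter, mem_product, mem_filter, mem_Ioc, Set.mem_ofPred_eq] at hq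
    obtain ⟨⟨⟨⟨a1, a2⟩, a3⟩, ⟨b1, b2⟩, b3⟩, c⟩ := hq
    have o1 : q.1 % 2 = 1 := a3.eq_two_or_odd.resolve_left (by omega)
    have o2 : q.2 % 2 = 1 := b3.eq_two_or_odd.resolve_left (by omega)
    have e1 : (q.1 + q.2) / 2 - (q.2 - q.1) / 2 = q.1 := by omega
    have e2 : (q.1 + q.2) / 2 + (q.2 - q.1) / 2 = q.2 := by omega
    simp only [TT, coe_sigma, Set.mem_sigma_iff, coe_Ioo, Set.mem_Ioo, coe_filter, mem_Icc,
      Set.mem_ofPred_eq]
    rw [e1, e2]
    refine ⟨⟨by omega, by omega⟩, ⟨by omega, by omega⟩, a1, b2, a3, b3⟩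
  · intro q hq q' hq' h
    simp only [PJ, coe_filter, mem_product, mem_filter, mem_Ioc, Set.mem_ofPred_eq] at hq hq'
    obtain ⟨⟨⟨⟨a1, a2⟩, a3⟩, ⟨b1, b2⟩, b3⟩, c⟩ := hq
    obtain ⟨⟨⟨⟨a1', a2'⟩, a3'⟩, ⟨b1', b2'⟩, b3'⟩, c'⟩ := hq'
    have o1 : q.1 % 2 = 1 := a3.eq_two_or_odd.resolve_left (by omega)
    have o2 : q.2 % 2 = 1 := b3.eq_two_or_odd.resolve_left (by omega)
    have o1' : q'.1 % 2 = 1 := a3'.eq_two_or_odd.resolve_left (by omega)
    have o2' : q'.2 % 2 = 1 := b3'.eq_two_or_odd.resolve_left (by omega)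
    simp only [Sigma.mk.injEq, heq_eq_eq] at h
    exact Prod.ext (by omega) (by omega)

theorem LL_facts {n : ℕ} (hn : X0 ≤ n) : 10 ^ 10 * LL n ≤ n ∧ n ≤ 10 ^ 10 * LL n + 10 ^ 14 ∧ 10 ^ 700 ≤ n := by
  have h := X0_big.trans hn
  refine ⟨?_, ?_, h⟩
  · unfold LL hh
    have := Nat.div_mul_le_self n (10 ^ 14)
    omega
  · unfold LL hh
    have h1 := Nat.div_add_mod n (10 ^ 14)
    have h2 := Nat.mod_lt n (show 0 < 10 ^ 14 by norm_num)
    omega

/-- Step 1: an interval with many primes -/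
theorem exists_J {n : ℕ} (hn : X0 ≤ n) : ∃ x : ℕ, n ≤ x ∧ 10 * (x + LL n) ≤ 12 * n ∧
    0.6753 * (LL n : ℝ) ≤ theta ((x + LL n : ℕ) : ℝ) - theta (x : ℝ) := by
  obtain ⟨hL1, hL2, hbig⟩ := LL_facts hn
  set K := LL n with hK
  have hbig2 : 10 ^ 100 ≤ n := le_trans (Nat.pow_le_pow_right (by norm_num) (by norm_num)) hbig
  have hK0 : 0 < K := by
    by_contra h
    have h0 : K = 0 := by omega
    rw [h0] at hL2
    have : (10 : ℕ) ^ 14 < 10 ^ 100 := Nat.pow_lt_pow_right (by norm_num) (by norm_num)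
    omega
  set I := 1999 * n / (10000 * K) with hI
  have hI1 : 10000 * (I * K) ≤ 1999 * n := by
    have := Nat.div_mul_le_self (1999 * n) (10000 * K)
    rw [← hI] at this
    calc 10000 * (I * K) = I * (10000 * K) := by ring
      _ ≤ _ := this
  have hI2 : 1999 * n ≤ 10000 * (I * K) + 10000 * K := by
    have h1 := Nat.div_add_mod (1999 * n) (10000 * K)
    have h2 := Nat.mod_lt (1999 * n) (show 0 < 10000 * K by omega)
    rw [← hI] at h1
    have h3 : 10000 * K * I = 10000 * (I * K) := by ring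
    omega
  by_contra hcon
  push Not at hcon
  have h1 : ∀ k ∈ range I, theta ((n + (k + 1) * K : ℕ) : ℝ) - theta ((n + k * K : ℕ) : ℝ) ≤ 0.6753 * (K : ℝ) := by
    intro k hk
    rw [mem_range] at hk
    have h2 : (k + 1) * K ≤ I * K := Nat.mul_le_mul_right _ hk
    have h3 : (k + 1) * K = k * K + K := by ring
    have := hcon (n + k * K) (by omega) (by omega)
    rw [show n + (k + 1) * K = n + k * K + K by omega]
    exact this.le
  have h2 := sum_le_sum h1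
  have h3 : ∑ k ∈ range I, (theta ((n + (k + 1) * K : ℕ) : ℝ) - theta ((n + k * K : ℕ) : ℝ)) =
      theta ((n + I * K : ℕ) : ℝ) - theta ((n + 0 * K : ℕ) : ℝ) :=
    Finset.sum_range_sub (fun k => theta ((n + k * K : ℕ) : ℝ)) I
  rw [h3, sum_const, card_range, nsmul_eq_mul] at h2
  have hnR : (2 : ℝ) ^ 2399 ≤ (n : ℝ) := by
    have h4 : ((2 ^ 2400 : ℕ) : ℝ) ≤ (n : ℝ) := Nat.cast_le.2 hn
    rw [Nat.cast_pow, Nat.cast_ofNat] at h4
    exact le_trans (pow_le_pow_right₀ (by norm_num) (by norm_num)) h4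
  have t1 := abs_le.mp (theta_near hnR)
  have t2 := abs_le.mp (theta_near (x := ((n + I * K : ℕ) : ℝ)) (by
    push_cast
    have : (0 : ℝ) ≤ (I : ℝ) * K := by positivity
    linarith))
  rw [show n + 0 * K = n by ring] at h2
  push_cast at h2 t2
  have e1 : (10000 : ℝ) * ((I : ℝ) * K) ≤ 1999 * n := by exact_mod_cast hI1
  have e2 : (1999 : ℝ) * n ≤ 10000 * ((I : ℝ) * K) + 10000 * K := by exact_mod_cast hI2
  have e3 : (10 : ℝ) ^ 10 * K ≤ n := by exact_mod_cast hL1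
  have hn0 : (0 : ℝ) < n := lt_of_lt_of_le (by positivity) hnR
  norm_num at e3
  obtain ⟨t11, t12⟩ := t1
  obtain ⟨t21, t22⟩ := t2
  clear hnR hbig hbig2
  generalize theta ((n : ℝ) + (I : ℝ) * (K : ℝ)) = T1 at h2 t21 t22
  generalize theta (n : ℝ) = T2 at h2 t11 t12
  have h5 : (I : ℝ) * (0.6753 * (K : ℝ)) = 0.6753 * ((I : ℝ) * K) := by ring
  rw [h5] at h2
  generalize (I : ℝ) * (K : ℝ) = Y at h2 t21 t22 e1 e2
  linarith

/-- Step 1: number of primes -/
theorem card_PJ {n x : ℕ} (hn : X0 ≤ n) (hx : n ≤ x) (hx' : 10 * (x + LL n) ≤ 12 * n)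
    (h : 0.6753 * (LL n : ℝ) ≤ theta ((x + LL n : ℕ) : ℝ) - theta (x : ℝ)) :
    0.675 * (LL n : ℝ) ≤ (PJ x (LL n)).card * Real.log n := by
  have hnR : (2 : ℝ) ^ 2399 ≤ (n : ℝ) := by
    have h4 : ((2 ^ 2400 : ℕ) : ℝ) ≤ (n : ℝ) := Nat.cast_le.2 hn
    rw [Nat.cast_pow, Nat.cast_ofNat] at h4
    exact le_trans (pow_le_pow_right₀ (by norm_num) (by norm_num)) h4
  have hn0 : (0 : ℝ) < n := lt_of_lt_of_le (by positivity) hnR
  obtain ⟨hlog, -, -, -⟩ := big_facts hnR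
  rw [theta_sub_eq (by push_cast; linarith [show (0 : ℝ) ≤ (LL n : ℝ) by positivity]), Nat.floor_natCast,
    Nat.floor_natCast] at h
  have h1 : ∑ p ∈ (Finset.Ioc x (x + LL n)).filter Nat.Prime, Real.log p ≤
      ∑ p ∈ PJ x (LL n), (Real.log n + 0.2) := by
    refine sum_le_sum fun p hp => ?_
    simp only [mem_filter, mem_Ioc] at hp
    have hp0 : (0 : ℝ) < p := by exact_mod_cast hp.2.pos
    have hp1 : (p : ℝ) ≤ 1.2 * n := by
      have : ((10 * p : ℕ) : ℝ) ≤ ((12 * n : ℕ) : ℝ) := Nat.cast_le.2 (by omega)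
      push_cast at this
      linarith
    calc Real.log p ≤ Real.log (1.2 * n) := Real.log_le_log hp0 hp1
      _ = Real.log 1.2 + Real.log n := Real.log_mul (by norm_num) hn0.ne'
      _ ≤ _ := by
          have := Real.log_le_sub_one_of_pos (show (0 : ℝ) < 1.2 by norm_num)
          linarith
  rw [sum_const, nsmul_eq_mul] at h1
  have h2 := h.trans h1
  have hc : (0 : ℝ) ≤ ((PJ x (LL n)).card : ℝ) := by positivity
  clear hnR h h1
  generalize ((PJ x (LL n)).card : ℝ) = N at *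
  generalize Real.log n = L at *
  generalize (LL n : ℝ) = K at *
  nlinarith

/-- Step 2: the average of `W` -/
theorem sum_WW {n x : ℕ} (hn : X0 ≤ n) (hx : n ≤ x) (hx' : 10 * (x + LL n) ≤ 12 * n) :
    ∑ s ∈ Ioo x (x + LL n), WW s ≤ 2.7802 * (LL n : ℝ) := by
  obtain ⟨hL1, hL2, hbig⟩ := LL_facts hn
  have hbig2 : 10 ^ 100 ≤ n := le_trans (Nat.pow_le_pow_right (by norm_num) (by norm_num)) hbig
  have hsq : 4 * n ≤ (2 * LL n) ^ 2 := by
    have h1 : n ≤ 2 * 10 ^ 10 * LL n := by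
      have : (2 : ℕ) * 10 ^ 14 ≤ 10 ^ 100 := by norm_num
      omega
    have h2 : 10 ^ 30 ≤ LL n := by
      have : (2 : ℕ) * 10 ^ 10 * 10 ^ 30 ≤ 10 ^ 100 := by norm_num
      by_contra hc
      push Not at hc
      have : 2 * 10 ^ 10 * LL n < 2 * 10 ^ 10 * 10 ^ 30 := Nat.mul_lt_mul_of_pos_left hc (by norm_num)
      omega
    calc 4 * n ≤ 4 * (2 * 10 ^ 10 * LL n) := Nat.mul_le_mul_left _ h1
      _ = 4 * ((2 * 10 ^ 10) * LL n) := by ring
      _ ≤ 4 * (LL n * LL n) := by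
          gcongr
          exact le_trans (by norm_num) h2
      _ = _ := by ring
  have h := avg_phi (A := 2 * x) (B := 2 * LL n) (by
      refine hn.trans (le_trans ?_ hsq); omega) (by
      refine le_trans ?_ hsq; omega)
  have h1 : ∑ s ∈ Ioo x (x + LL n), WW s = ∑ S ∈ (Ioo x (x + LL n)).image (fun s : ℕ => 2 * s),
      ((S : ℕ) : ℝ) / (Nat.totient S : ℝ) := by
    rw [sum_image (by intro a _ b _ hab; simp only at hab; omega)]
    rfl
  rw [h1]
  refine le_trans (sum_le_sum_of_subset_of_nonneg ?_ ?_) (h.trans (le_of_eq ?_))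
  · intro S hS
    rw [mem_image] at hS
    obtain ⟨s, hs, rfl⟩ := hS
    rw [mem_Ioo] at hs
    rw [mem_filter, mem_Ioc]
    exact ⟨⟨by omega, by omega⟩, even_two_mul s⟩
  · intro S _ _
    positivity
  · push_cast; ring

theorem fin_contra {N z : ℝ} (hz1 : 1000 ≤ z) (h6 : N * N ≤ N + 2 * (0.0818 * 2.7802 * z ^ 2))
    (h7 : (0.675 * z) * (0.675 * z - 1) ≤ N * (N - 1)) : False := by
  have h8 : 0 ≤ z * (z - 1000) := mul_nonneg (by linarith) (by linarith)
  nlinarith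

end SelA

open SelA in
theorem selA {n : ℕ} (hn : X0 ≤ n) : ∃ x s : ℕ, n ≤ x ∧ 10 * (x + LL n) ≤ 12 * n ∧ x < s ∧ s < x + LL n ∧
    0.0818 * WW s * (LL n : ℝ) / (Real.log n) ^ 2 ≤ ((TT n x s).card : ℝ) := by
  obtain ⟨hL1, hL2, hbig⟩ := LL_facts hn
  have hbig2 : 10 ^ 100 ≤ n := le_trans (Nat.pow_le_pow_right (by norm_num) (by norm_num)) hbig
  obtain ⟨x, hx, hx', hθ⟩ := exists_J hn
  have hN := card_PJ hn hx hx' hθ
  have hW := sum_WW hn hx hx'
  have hnR : (2 : ℝ) ^ 2399 ≤ (n : ℝ) := by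
    have h4 : ((2 ^ 2400 : ℕ) : ℝ) ≤ (n : ℝ) := Nat.cast_le.2 hn
    rw [Nat.cast_pow, Nat.cast_ofNat] at h4
    exact le_trans (pow_le_pow_right₀ (by norm_num) (by norm_num)) h4
  obtain ⟨hlog, hs1, hs2, hs3⟩ := big_facts hnR
  have hx2 : 2 ≤ x := by
    have : (2 : ℕ) ≤ 10 ^ 100 := by norm_num
    omega
  have hKn : LL n ≤ n := by omega
  have hpairs := pairs_le hx2 hKn
  have e1 : (n : ℝ) ≤ 10 ^ 10 * (LL n : ℝ) + 10 ^ 14 := by exact_mod_cast hL2
  clear hnR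
  set L := Real.log n with hL
  have hL0 : 0 < L := by linarith
  set K : ℝ := (LL n : ℝ) with hK
  have hKbig : 1000 * L ≤ K := by
    have e2 : (10 : ℝ) ^ 100 * (10 ^ 20 * L) ≤ n := by
      calc (10 : ℝ) ^ 100 * (10 ^ 20 * L) ≤ √(n : ℝ) * √(n : ℝ) := by gcongr
        _ = n := hs3
    have e3 : (10 : ℝ) ^ 14 * L ≤ 10 ^ 100 * (10 ^ 20 * L) := by
      have : (10 : ℝ) ^ 100 * (10 ^ 20 * L) = 10 ^ 120 * L := by ring
      rw [this]
      gcongr
      · norm_num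
      · norm_num
    have e4 : (10 : ℝ) ^ 14 * L ≤ 10 ^ 10 * K + 10 ^ 14 := by linarith
    norm_num at e4
    linarith
  by_contra hcon
  push Not at hcon
  have h1 : ∀ s ∈ Ioo x (x + LL n), ((TT n x s).card : ℝ) ≤ (0.0818 * K / L ^ 2) * WW s := by
    intro s hs
    rw [mem_Ioo] at hs
    have := hcon x s hx hx' hs.1 hs.2
    calc ((TT n x s).card : ℝ) ≤ 0.0818 * WW s * K / L ^ 2 := this.le
      _ = _ := by ring
  have h2 := sum_le_sum h1
  rw [← mul_sum] at h2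
  have h3 : (0.0818 * K / L ^ 2) * ∑ s ∈ Ioo x (x + LL n), WW s ≤ (0.0818 * K / L ^ 2) * (2.7802 * K) := by
    gcongr
  have h4 : ((PJ x (LL n)).card : ℝ) * (PJ x (LL n)).card ≤
      (PJ x (LL n)).card + 2 * ∑ s ∈ Ioo x (x + LL n), ((TT n x s).card : ℝ) := by exact_mod_cast hpairs
  set N : ℝ := ((PJ x (LL n)).card : ℝ) with hNd
  set z : ℝ := K / L with hz
  have hz1 : 1000 ≤ z := by rw [hz, le_div_iff₀ hL0]; exact hKbig
  have hNz : 0.675 * z ≤ N := by
    rw [hz, ← mul_div_assoc, div_le_iff₀ hL0]; exact hN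
  have h5 : (0.0818 * K / L ^ 2) * (2.7802 * K) = 0.0818 * 2.7802 * z ^ 2 := by
    rw [hz]; field_simp
  have h6 : N * N ≤ N + 2 * (0.0818 * 2.7802 * z ^ 2) := by
    have := h2.trans h3
    rw [h5] at this
    linarith
  have h7 : (0.675 * z) * (0.675 * z - 1) ≤ N * (N - 1) := by
    apply mul_le_mul hNz (by linarith) (by linarith) (by linarith)
  exact fin_contra hz1 h6 h7

end Pool.Agent.Work.MP_713a1e_co.E
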