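import Pool.Agent.Work.MP_713a1e_co.E.SievePairA
import Pool.Agent.Work.MP_92f640_nt.Gbound

/-!
# Lower bound for the two dimensional Selberg sum
-/

namespace Pool.Agent.Work.MP_713a1e_co.E

open Finset Pool.Agent.Work.MP_92f640_nt

/-- number of residue classes removed modulo `p` -/
noncomputable def pairR (S p : ℕ) : ℝ := if p ∣ S then 1 else 2

theorem pairR_adm {S : ℕ} (hS : Even S) : Adm (pairR S) := by
  intro p hp
  unfold pairR
  split_ifs with h
  · refine ⟨le_refl _, ?_⟩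
    exact_mod_cast hp.one_lt
  · refine ⟨by norm_num, ?_⟩
    have h2 : p ≠ 2 := by
      rintro rfl
      exact h hS.two_dvd
    have h3 := hp.two_le
    have : 2 < p := by omega
    exact_mod_cast this

/-- `1/φ(d)` for squarefree `d` as a product -/
theorem inv_totient_eq {d : ℕ} (hd : Squarefree d) :
    ((Nat.totient d : ℝ))⁻¹ = ∏ p ∈ d.primeFactors, ((p : ℝ) - 1)⁻¹ := by
  rw [Nat.totient_eq_prod_factorization hd.ne_zero]
  rw [Finsupp.prod, Nat.support_factorization, Nat.cast_prod, ← Finset.prod_inv_distrib]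
  apply Finset.prod_congr rfl
  intro p hp
  have hpp := Nat.prime_of_mem_primeFactors hp
  have h1 : d.factorization p = 1 := by
    have h2 := hd.natFactorization_le_one p
    have h3 : d.factorization p ≠ 0 := by
      rw [← Finsupp.mem_support_iff, Nat.support_factorization]; exact hp
    omega
  rw [h1]
  simp only [Nat.sub_self, pow_zero, one_mul]
  rw [Nat.cast_sub hpp.one_le, Nat.cast_one]

/-- the pair sum -/
noncomputable def pairK (S m : ℕ) : ℝ :=
  ∑ x ∈ (m.divisors ×ˢ m.divisors).filter (fun x => Nat.lcm x.1 x.2 = m),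
    (∏ p ∈ x.1.primeFactors, ((p : ℝ) - 1)⁻¹) *
      (∏ p ∈ x.2.primeFactors, (if p ∣ S then 0 else ((p : ℝ) - 1)⁻¹))

theorem sum_pairK {S m : ℕ} (hm : Squarefree m) :
    ∑ k ∈ m.divisors, pairK S k
      = ∏ p ∈ m.primeFactors, ((1 + ((p : ℝ) - 1)⁻¹) *
          (1 + (if p ∣ S then 0 else ((p : ℝ) - 1)⁻¹))) := by
  rw [Finset.prod_mul_distrib, ← sum_divisors_prod hm, ← sum_divisors_prod hm,
    Finset.sum_mul_sum, ← Finset.sum_product']
  rw [← Finset.sum_fiberwise_of_maps_to (s := m.divisors ×ˢ m.divisors) (t := m.divisors)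
    (g := fun x => Nat.lcm x.1 x.2)]
  · apply Finset.sum_congr rfl
    intro k hk
    unfold pairK
    apply Finset.sum_congr _ (fun _ _ => rfl)
    ext ⟨a, b⟩
    simp only [Finset.mem_filter, Finset.mem_product, Nat.mem_divisors]
    have hkm := Nat.mem_divisors.1 hk
    have hk0 : k ≠ 0 := (Nat.pos_of_mem_divisors hk).ne'
    constructor
    · rintro ⟨⟨⟨h1, h2⟩, h3, h4⟩, h5⟩
      exact ⟨⟨⟨h1.trans hkm.1, hkm.2⟩, h3.trans hkm.1, hkm.2⟩, h5⟩
    · rintro ⟨⟨⟨h1, h2⟩, h3, h4⟩, h5⟩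
      exact ⟨⟨⟨h5 ▸ Nat.dvd_lcm_left a b, hk0⟩, h5 ▸ Nat.dvd_lcm_right a b, hk0⟩, h5⟩
  · rintro ⟨a, b⟩ hab
    simp only [Finset.mem_product, Nat.mem_divisors] at hab ⊢
    exact ⟨Nat.lcm_dvd hab.1.1 hab.2.1, hm.ne_zero⟩

theorem pairK_eq (S m : ℕ) (hm : Squarefree m) :
    pairK S m = ∏ p ∈ m.primeFactors, ((1 + ((p : ℝ) - 1)⁻¹) *
          (1 + (if p ∣ S then 0 else ((p : ℝ) - 1)⁻¹)) - 1) := by
  induction m using Nat.strong_induction_on with
  | _ m ih =>
    have h1 := sum_pairK (S := S) hm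
    have h2 := sum_divisors_prod hm (fun p => ((1 + ((p : ℝ) - 1)⁻¹) *
          (1 + (if p ∣ S then 0 else ((p : ℝ) - 1)⁻¹)) - 1))
    have hins : ∀ f : ℕ → ℝ, ∑ k ∈ m.divisors, f k = f m + ∑ k ∈ m.properDivisors, f k := by
      intro f
      rw [← Nat.insert_self_properDivisors hm.ne_zero, Finset.sum_insert]
      simp [Nat.mem_properDivisors]
    rw [hins] at h1 h2
    have h3 : ∑ k ∈ m.properDivisors, pairK S k = ∑ d ∈ m.properDivisors,
        ∏ p ∈ d.primeFactors, ((1 + ((p : ℝ) - 1)⁻¹) *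
          (1 + (if p ∣ S then 0 else ((p : ℝ) - 1)⁻¹)) - 1) := by
      apply Finset.sum_congr rfl
      intro k hk
      rw [Nat.mem_properDivisors] at hk
      exact ih k hk.2 (hm.squarefree_of_dvd hk.1)
    have h4 : ∏ p ∈ m.primeFactors, (1 + ((1 + ((p : ℝ) - 1)⁻¹) *
          (1 + (if p ∣ S then 0 else ((p : ℝ) - 1)⁻¹)) - 1))
        = ∏ p ∈ m.primeFactors, ((1 + ((p : ℝ) - 1)⁻¹) *
          (1 + (if p ∣ S then 0 else ((p : ℝ) - 1)⁻¹))) := by
      apply Finset.prod_congr rfl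
      intro p _
      ring
    rw [h4] at h2
    linarith

theorem pairK_le {S m : ℕ} (hS : Even S) (hm : Squarefree m) :
    pairK S m ≤ selH (pairR S) m := by
  rw [pairK_eq S m hm]
  unfold selH
  apply Finset.prod_le_prod
  · intro p hp
    have hpp := Nat.prime_of_mem_primeFactors hp
    have h1 : (1 : ℝ) < p := by exact_mod_cast hpp.one_lt
    have h2 : 0 < ((p : ℝ) - 1)⁻¹ := inv_pos.2 (by linarith)
    set y := ((p : ℝ) - 1)⁻¹ with hy
    split_ifs
    · nlinarith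
    · nlinarith
  · intro p hp
    have hpp := Nat.prime_of_mem_primeFactors hp
    obtain ⟨h1, h2⟩ := pairR_adm hS p hpp
    unfold pairR at h1 h2 ⊢
    split_ifs at h1 h2 ⊢ with h
    · have : (p : ℝ) - 1 ≠ 0 := by linarith
      field_simp
      apply le_of_eq
      ring
    · have h3 : 0 < (p : ℝ) - 1 := by linarith
      have h4 : 0 < (p : ℝ) - 2 := by linarith
      rw [le_div_iff₀ h4]
      have h5 : ((p : ℝ) - 1)⁻¹ * ((p : ℝ) - 1) = 1 := inv_mul_cancel₀ h3.ne'
      set y := ((p : ℝ) - 1)⁻¹ with hy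
      have hy0 : 0 < y := inv_pos.2 h3
      have h6 : (p : ℝ) * y = 1 + y := by linarith
      have : ((1 + y) * (1 + y) - 1) * ((p : ℝ) - 2) = 2 - y - y * y := by
        linear_combination (2 + y) * h6
      rw [this]
      nlinarith

/-- Lower bound for the Selberg sum by the pair sum. -/
theorem selG_ge_pair {S u R : ℕ} (hS : Even S) :
    ∑ x ∈ (sqf u R ×ˢ sqf (u * S) R).filter (fun x => x.1 * x.2 ≤ R),
      ((Nat.totient x.1 : ℝ))⁻¹ * ((Nat.totient x.2 : ℝ))⁻¹ ≤ selG (pairR S) u R := by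
  have hmaps : ∀ x ∈ (sqf u R ×ˢ sqf (u * S) R).filter (fun x => x.1 * x.2 ≤ R),
      Nat.lcm x.1 x.2 ∈ sqf u R := by
    rintro ⟨a, b⟩ hx
    simp only [Finset.mem_filter, Finset.mem_product, mem_sqf] at hx ⊢
    obtain ⟨⟨⟨⟨a1, a2⟩, a3, a4⟩, ⟨b1, b2⟩, b3, b4⟩, h⟩ := hx
    refine ⟨⟨Nat.lcm_pos a1 b1, ?_⟩, squarefree_lcm' a3 b3, ?_⟩
    · exact (Nat.le_of_dvd (Nat.mul_pos a1 b1) (Nat.lcm_dvd_mul a b)).trans h
    · apply Nat.Coprime.coprime_dvd_left (Nat.lcm_dvd_mul a b)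
      exact Nat.Coprime.mul_left a4 (Nat.Coprime.coprime_mul_right_right b4)
  rw [← Finset.sum_fiberwise_of_maps_to hmaps]
  unfold selG
  apply Finset.sum_le_sum
  intro m hm
  have hm' := mem_sqf.1 hm
  refine le_trans ?_ (pairK_le hS hm'.2.1)
  have hm0 : m ≠ 0 := hm'.2.1.ne_zero
  have hnn : ∀ x : ℕ × ℕ, 0 ≤ (∏ p ∈ x.1.primeFactors, ((p : ℝ) - 1)⁻¹) *
      (∏ p ∈ x.2.primeFactors, (if p ∣ S then 0 else ((p : ℝ) - 1)⁻¹)) := by
    intro x
    apply mul_nonneg
    · apply Finset.prod_nonneg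
      intro p hp
      have hpp := Nat.prime_of_mem_primeFactors hp
      have h1 : (1 : ℝ) < p := by exact_mod_cast hpp.one_lt
      exact inv_nonneg.2 (by linarith)
    · apply Finset.prod_nonneg
      intro p hp
      have hpp := Nat.prime_of_mem_primeFactors hp
      have h1 : (1 : ℝ) < p := by exact_mod_cast hpp.one_lt
      split_ifs
      · exact le_refl _
      · exact inv_nonneg.2 (by linarith)
  have hcongr : ∀ x ∈ ((sqf u R ×ˢ sqf (u * S) R).filter (fun x => x.1 * x.2 ≤ R)).filter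
      (fun x => Nat.lcm x.1 x.2 = m), ((Nat.totient x.1 : ℝ))⁻¹ * ((Nat.totient x.2 : ℝ))⁻¹
      = (∏ p ∈ x.1.primeFactors, ((p : ℝ) - 1)⁻¹) *
      (∏ p ∈ x.2.primeFactors, (if p ∣ S then 0 else ((p : ℝ) - 1)⁻¹)) := by
    rintro ⟨a, b⟩ hx
    simp only [Finset.mem_filter, Finset.mem_product, mem_sqf] at hx ⊢
    obtain ⟨⟨⟨⟨⟨a1, a2⟩, a3, a4⟩, ⟨b1, b2⟩, b3, b4⟩, h⟩, _⟩ := hx
    rw [inv_totient_eq a3, inv_totient_eq b3]
    congr 1
    apply Finset.prod_congr rfl
    intro p hp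
    rw [if_neg]
    intro hpS
    have hpp := Nat.prime_of_mem_primeFactors hp
    have h1 : Nat.Coprime b S := Nat.Coprime.coprime_mul_left_right b4
    exact Nat.not_coprime_of_dvd_of_dvd hpp.one_lt (Nat.dvd_of_mem_primeFactors hp) hpS h1
  rw [Finset.sum_congr rfl hcongr]
  unfold pairK
  apply Finset.sum_le_sum_of_subset_of_nonneg
  · rintro ⟨a, b⟩ hx
    simp only [Finset.mem_filter, Finset.mem_product, Nat.mem_divisors] at hx ⊢
    exact ⟨⟨⟨hx.2 ▸ Nat.dvd_lcm_left a b, hm0⟩, hx.2 ▸ Nat.dvd_lcm_right a b, hm0⟩, hx.2⟩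
  · intro x _ _
    exact hnn x

/-- partial summation -/
theorem sum_log_div_ge {D : ℕ} (hD : 0 < D) (R : ℕ) (hR : 1 ≤ R) :
    (Nat.totient D : ℝ) / D * (Real.log R) ^ 2 / 2
      ≤ ∑ d ∈ sqf D R, ((Nat.totient d : ℝ))⁻¹ * (Real.log R - Real.log d) := by
  induction R, hR using Nat.le_induction with
  | base =>
    simp only [Nat.cast_one, Real.log_one]
    apply le_trans (le_of_eq (by ring : _ = (0 : ℝ)))
    apply Finset.sum_nonneg
    intro d hd
    have h1 := (mem_sqf.1 hd).1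
    have h2 : d = 1 := le_antisymm h1.2 h1.1
    rw [h2]; simp
  | succ R hR ih =>
    have hc : 0 ≤ (Nat.totient D : ℝ) / D := by positivity
    have hR0 : (0 : ℝ) < R := by exact_mod_cast hR
    have hlog : Real.log R ≤ Real.log ((R + 1 : ℕ) : ℝ) := by
      apply Real.log_le_log hR0
      push_cast; linarith
    have h1 : ∑ d ∈ sqf D R, ((Nat.totient d : ℝ))⁻¹ * (Real.log ((R + 1 : ℕ) : ℝ) - Real.log d)
        ≤ ∑ d ∈ sqf D (R + 1), ((Nat.totient d : ℝ))⁻¹ *
          (Real.log ((R + 1 : ℕ) : ℝ) - Real.log d) := by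
      apply Finset.sum_le_sum_of_subset_of_nonneg
      · intro d hd
        rw [mem_sqf] at hd ⊢
        exact ⟨⟨hd.1.1, by omega⟩, hd.2⟩
      · intro d hd _
        have h2 := (mem_sqf.1 hd).1
        apply mul_nonneg (by positivity)
        rw [sub_nonneg]
        apply Real.log_le_log
        · exact_mod_cast h2.1
        · exact_mod_cast h2.2
    have h2 : ∑ d ∈ sqf D R, ((Nat.totient d : ℝ))⁻¹ *
        (Real.log ((R + 1 : ℕ) : ℝ) - Real.log d)
        = ∑ d ∈ sqf D R, ((Nat.totient d : ℝ))⁻¹ * (Real.log R - Real.log d)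
          + Gsum D R * (Real.log ((R + 1 : ℕ) : ℝ) - Real.log R) := by
      unfold Gsum
      rw [Finset.sum_mul, ← Finset.sum_add_distrib]
      apply Finset.sum_congr rfl
      intro d _
      ring
    have h3 := Gsum_ge (D := D) (R := R) hD
    have h4 : Real.log ((R : ℝ) + 1) = Real.log ((R + 1 : ℕ) : ℝ) := by push_cast; rfl
    rw [h4] at h3
    set a := Real.log ((R + 1 : ℕ) : ℝ)
    set b := Real.log (R : ℝ)
    have h5 : (Nat.totient D : ℝ) / D * a * (a - b) ≤ Gsum D R * (a - b) := by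
      apply mul_le_mul_of_nonneg_right h3 (by linarith)
    have h6 : (Nat.totient D : ℝ) / D * a ^ 2 / 2 ≤ (Nat.totient D : ℝ) / D * b ^ 2 / 2
        + (Nat.totient D : ℝ) / D * a * (a - b) := by
      have : 0 ≤ (Nat.totient D : ℝ) / D * (a - b) ^ 2 := by positivity
      nlinarith
    linarith

/-- Lower bound for the two dimensional Selberg sum. -/
theorem selG_ge {S u R : ℕ} (hu : 0 < u) (hS : Even S) (hS0 : 0 < S) (hR : 1 ≤ R) :
    ((Nat.totient u : ℝ) / u) ^ 2 * ((Nat.totient S : ℝ) / S) * (Real.log R) ^ 2 / 2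
      ≤ selG (pairR S) u R := by
  refine le_trans ?_ (selG_ge_pair (u := u) (R := R) hS)
  have hφ : (Nat.totient u : ℝ) / u * ((Nat.totient S : ℝ) / S)
      ≤ (Nat.totient (u * S) : ℝ) / ((u * S : ℕ) : ℝ) := by
    rw [div_mul_div_comm]
    push_cast
    have := Nat.totient_super_multiplicative u S
    have h1 : (Nat.totient u : ℝ) * Nat.totient S ≤ Nat.totient (u * S) := by exact_mod_cast this
    gcongr
  have h1 := sum_log_div_ge (D := u * S) (Nat.mul_pos hu hS0) R hR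
  have hcu : 0 ≤ (Nat.totient u : ℝ) / u := by positivity
  have h2 : ∑ x ∈ (sqf u R ×ˢ sqf (u * S) R).filter (fun x => x.1 * x.2 ≤ R),
      ((Nat.totient x.1 : ℝ))⁻¹ * ((Nat.totient x.2 : ℝ))⁻¹
      = ∑ d ∈ sqf (u * S) R, ((Nat.totient d : ℝ))⁻¹ * Gsum u (R / d) := by
    rw [Finset.sum_filter, Finset.sum_product_right]
    apply Finset.sum_congr rfl
    intro d hd
    have hd' := mem_sqf.1 hd
    have hd0 : 0 < d := hd'.1.1
    rw [← Finset.sum_filter]
    unfold Gsum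
    rw [Finset.mul_sum]
    apply Finset.sum_congr
    · ext a
      rw [Finset.mem_filter, mem_sqf, mem_sqf, Nat.le_div_iff_mul_le hd0]
      constructor
      · rintro ⟨⟨⟨h1, h2⟩, h3⟩, h4⟩
        exact ⟨⟨h1, h4⟩, h3⟩
      · rintro ⟨⟨h1, h4⟩, h3⟩
        refine ⟨⟨⟨h1, ?_⟩, h3⟩, h4⟩
        calc a = a * 1 := (mul_one a).symm
          _ ≤ a * d := Nat.mul_le_mul_left a hd0
          _ ≤ R := h4
    · intro a _
      ring
  rw [h2]
  calc ((Nat.totient u : ℝ) / u) ^ 2 * ((Nat.totient S : ℝ) / S) * (Real.log R) ^ 2 / 2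
      = (Nat.totient u : ℝ) / u * (((Nat.totient u : ℝ) / u * ((Nat.totient S : ℝ) / S))
          * (Real.log R) ^ 2 / 2) := by ring
    _ ≤ (Nat.totient u : ℝ) / u * ((Nat.totient (u * S) : ℝ) / ((u * S : ℕ) : ℝ)
          * (Real.log R) ^ 2 / 2) := by gcongr
    _ ≤ (Nat.totient u : ℝ) / u * ∑ d ∈ sqf (u * S) R,
          ((Nat.totient d : ℝ))⁻¹ * (Real.log R - Real.log d) := by gcongr
    _ = ∑ d ∈ sqf (u * S) R, ((Nat.totient d : ℝ))⁻¹ *
          ((Nat.totient u : ℝ) / u * (Real.log R - Real.log d)) := by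
        rw [Finset.mul_sum]
        apply Finset.sum_congr rfl
        intro d _
        ring
    _ ≤ ∑ d ∈ sqf (u * S) R, ((Nat.totient d : ℝ))⁻¹ * Gsum u (R / d) := by
        apply Finset.sum_le_sum
        intro d hd
        have hd' := mem_sqf.1 hd
        have hd0 : 0 < d := hd'.1.1
        have hdR : (0 : ℝ) < d := by exact_mod_cast hd0
        have hRR : (0 : ℝ) < R := by exact_mod_cast hR
        have h3 := Gsum_ge (D := u) (R := R / d) hu
        have h4 : Real.log R - Real.log d ≤ Real.log (((R / d : ℕ) : ℝ) + 1) := by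
          rw [← Real.log_div hRR.ne' hdR.ne']
          apply Real.log_le_log (by positivity)
          rw [div_le_iff₀ hdR]
          have h5 : R < d * (R / d + 1) := Nat.lt_mul_div_succ R hd0
          have h6 : (R : ℝ) < d * (((R / d : ℕ) : ℝ) + 1) := by exact_mod_cast h5
          linarith
        gcongr
        refine le_trans ?_ h3
        gcongr

/-- `∑_{d ≤ R} 2^{ω(d)} ≤ R (1 + log R)` -/
theorem sum_selRho_le {S u R : ℕ} :
    ∑ d ∈ sqf u R, selRho (pairR S) d ≤ (R : ℝ) * (1 + Real.log R) := by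
  have h1 : ∀ d ∈ sqf u R, selRho (pairR S) d ≤ ∑ k ∈ Finset.Ioc 0 R, if k ∣ d then (1 : ℝ) else 0 := by
    intro d hd
    have hd' := mem_sqf.1 hd
    have h2 : selRho (pairR S) d ≤ ∏ p ∈ d.primeFactors, (1 + (1 : ℝ)) := by
      unfold selRho
      apply Finset.prod_le_prod
      · intro p _
        unfold pairR; split_ifs <;> norm_num
      · intro p _
        unfold pairR; split_ifs <;> norm_num
    rw [← sum_divisors_prod hd'.2.1] at h2
    refine h2.trans (le_of_eq ?_)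
    simp only [Finset.prod_const_one]
    rw [← Finset.sum_filter]
    apply Finset.sum_congr _ (fun _ _ => rfl)
    ext k
    rw [Nat.mem_divisors, Finset.mem_filter, Finset.mem_Ioc]
    constructor
    · rintro ⟨h3, h4⟩
      exact ⟨⟨Nat.pos_of_dvd_of_pos h3 hd'.1.1, (Nat.le_of_dvd hd'.1.1 h3).trans hd'.1.2⟩, h3⟩
    · rintro ⟨_, h3⟩
      exact ⟨h3, hd'.2.1.ne_zero⟩
  calc ∑ d ∈ sqf u R, selRho (pairR S) d
      ≤ ∑ d ∈ sqf u R, ∑ k ∈ Finset.Ioc 0 R, (if k ∣ d then (1 : ℝ) else 0) :=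
        Finset.sum_le_sum h1
    _ ≤ ∑ d ∈ Finset.Ioc 0 R, ∑ k ∈ Finset.Ioc 0 R, (if k ∣ d then (1 : ℝ) else 0) := by
        apply Finset.sum_le_sum_of_subset_of_nonneg
        · intro d hd
          have := (mem_sqf.1 hd).1
          rw [Finset.mem_Ioc]; omega
        · intro d _ _
          apply Finset.sum_nonneg
          intro k _
          split_ifs <;> norm_num
    _ = ∑ k ∈ Finset.Ioc 0 R, ((R / k : ℕ) : ℝ) := by
        rw [Finset.sum_comm]
        apply Finset.sum_congr rfl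
        intro k _
        rw [← Finset.sum_filter, Finset.sum_const, nsmul_eq_mul, mul_one,
          Nat.Ioc_filter_dvd_card_eq_div]
    _ ≤ ∑ k ∈ Finset.Ioc 0 R, (R : ℝ) * ((k : ℝ))⁻¹ := by
        apply Finset.sum_le_sum
        intro k _
        rw [← div_eq_mul_inv]
        exact Nat.cast_div_le
    _ = (R : ℝ) * ∑ k ∈ Finset.Icc 1 R, ((k : ℝ))⁻¹ := by
        rw [Finset.mul_sum]
        rfl
    _ ≤ (R : ℝ) * (1 + Real.log R) := by
        have h := harmonic_le_one_add_log R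
        rw [harmonic_eq_sum_Icc] at h
        push_cast at h
        gcongr

end Pool.Agent.Work.MP_713a1e_co.E
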