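import Pool.Agent.Work.MP_713a1e_co.E.Defs
import Pool.Agent.Work.MP_713a1e_co.E.SievePairB

/-!
# JOB S2: Selberg's sieve in dimension two: `q` and `S - q` both prime, `q ≡ v (mod u)`

General Selberg weights are in `SievePairA.lean`, the lower bound of the Selberg sum is in
`SievePairB.lean`; here are the counting of residue classes and the final bound.
-/

namespace Pool.Agent.Work.MP_713a1e_co.E

open Finset Pool.Agent.Work.MP_92f640_nt

theorem abs_card_Ioc_modEq (X Y r v : ℕ) (hr : 0 < r) :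
    |(((Finset.Ioc X (X + Y)).filter (fun n => n ≡ v [MOD r])).card : ℝ) - (Y : ℝ) / r| ≤ 1 := by
  have h := Nat.Ioc_filter_modEq_card X (X + Y) hr v
  have hrQ : (0 : ℚ) < r := by exact_mod_cast hr
  set x : ℚ := (((X + Y : ℕ) : ℚ) - v) / r with hx
  set y : ℚ := ((X : ℚ) - v) / r with hy
  have hxy : x - y = (Y : ℚ) / r := by
    rw [hx, hy]; push_cast; field_simp; ring
  have hle : y ≤ x := by
    have : (0 : ℚ) ≤ (Y : ℚ) / r := by positivity
    linarith
  have hfl : ⌊y⌋ ≤ ⌊x⌋ := Int.floor_le_floor hle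
  rw [max_eq_left (by omega)] at h
  have hq : |((((Finset.Ioc X (X + Y)).filter (fun n => n ≡ v [MOD r])).card : ℤ) : ℚ)
      - (Y : ℚ) / r| ≤ 1 := by
    rw [h, ← hxy]
    push_cast
    have h1 := Int.floor_le x
    have h2 := Int.lt_floor_add_one x
    have h3 := Int.floor_le y
    have h4 := Int.lt_floor_add_one y
    rw [abs_le]
    constructor <;> linarith
  have := (Rat.cast_le (K := ℝ)).2 hq
  push_cast at this
  exact this

theorem abs_card_class (X Y u v A B S : ℕ) (hu : 0 < u) (hA : 0 < A) (hB : 0 < B)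
    (hAB : Nat.Coprime A B) (hAu : Nat.Coprime A u) (hBu : Nat.Coprime B u) (hS : X + Y < S) :
    |(((Finset.Ioc X (X + Y)).filter (fun n => n ≡ v [MOD u] ∧ A ∣ n ∧ B ∣ S - n)).card : ℝ)
      - (Y : ℝ) / (u * (A * B : ℕ))| ≤ 1 := by
  obtain ⟨c, hc1, hc2⟩ := Nat.chineseRemainder hAu.symm v 0
  have hcop : Nat.Coprime (u * A) B := Nat.Coprime.mul_left hBu.symm hAB
  obtain ⟨e, he1, he2⟩ := Nat.chineseRemainder hcop c S
  have hset : (Finset.Ioc X (X + Y)).filter (fun n => n ≡ v [MOD u] ∧ A ∣ n ∧ B ∣ S - n)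
      = (Finset.Ioc X (X + Y)).filter (fun n => n ≡ e [MOD (u * A * B)]) := by
    apply Finset.filter_congr
    intro n hn
    rw [Finset.mem_Ioc] at hn
    have hnS : n ≤ S := by omega
    rw [← Nat.modEq_and_modEq_iff_modEq_mul hcop, ← Nat.modEq_iff_dvd' hnS]
    have he1' : e ≡ v [MOD u] ∧ e ≡ 0 [MOD A] := by
      rw [← Nat.modEq_and_modEq_iff_modEq_mul hAu.symm] at he1
      exact ⟨he1.1.trans hc1, he1.2.trans hc2⟩
    constructor
    · rintro ⟨h1, h2, h3⟩
      refine ⟨?_, h3.trans he2.symm⟩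
      rw [← Nat.modEq_and_modEq_iff_modEq_mul hAu.symm]
      exact ⟨h1.trans he1'.1.symm, ((Nat.modEq_zero_iff_dvd).2 h2).trans he1'.2.symm⟩
    · rintro ⟨h1, h2⟩
      rw [← Nat.modEq_and_modEq_iff_modEq_mul hAu.symm] at h1
      exact ⟨h1.1.trans he1'.1, (Nat.modEq_zero_iff_dvd).1 (h1.2.trans he1'.2), h2.trans he2⟩
  rw [hset]
  have := abs_card_Ioc_modEq X Y (u * A * B) e (by positivity)
  push_cast at this ⊢
  rw [← mul_assoc (u : ℝ)]
  exact this

/-- the admissible parts of `m` -/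
theorem card_parts {S m : ℕ} (hm : Squarefree m) :
    ((m.divisors.filter (fun A => Nat.gcd m S ∣ A)).card : ℝ) = selRho (pairR S) m := by
  obtain ⟨h, hh⟩ := Nat.gcd_dvd_left m S
  set g := Nat.gcd m S with hg
  have hm0 : m ≠ 0 := hm.ne_zero
  have hg0 : 0 < g := Nat.gcd_pos_of_pos_left S (Nat.pos_of_ne_zero hm0)
  have hh0 : h ≠ 0 := by
    rintro rfl
    rw [mul_zero] at hh
    exact hm0 hh
  have hcop : Nat.Coprime g h := by
    rw [hh] at hm
    exact Nat.coprime_of_squarefree_mul hm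
  have hsqh : Squarefree h := hm.squarefree_of_dvd ⟨g, by rw [mul_comm]; exact hh⟩
  have himg : m.divisors.filter (fun A => g ∣ A) = h.divisors.image (fun k => g * k) := by
    ext A
    rw [Finset.mem_filter, Finset.mem_image, Nat.mem_divisors]
    constructor
    · rintro ⟨⟨h1, _⟩, k, rfl⟩
      refine ⟨k, ?_, rfl⟩
      rw [Nat.mem_divisors]
      rw [hh] at h1
      exact ⟨Nat.dvd_of_mul_dvd_mul_left hg0 h1, hh0⟩
    · rintro ⟨k, hk, rfl⟩
      refine ⟨⟨?_, hm0⟩, Dvd.intro _ rfl⟩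
      rw [hh]
      exact Nat.mul_dvd_mul_left g (Nat.dvd_of_mem_divisors hk)
  rw [himg, Finset.card_image_of_injective _ (by
    intro a b hab
    exact Nat.eq_of_mul_eq_mul_left hg0 hab)]
  have h1 := sum_divisors_prod hsqh (fun _ => (1 : ℝ))
  simp only [Finset.prod_const_one, Finset.sum_const, nsmul_eq_mul, mul_one] at h1
  rw [h1]
  unfold selRho
  rw [hh, hcop.primeFactors_mul, Finset.prod_union hcop.disjoint_primeFactors]
  have h2 : ∏ p ∈ g.primeFactors, pairR S p = 1 := by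
    apply Finset.prod_eq_one
    intro p hp
    unfold pairR
    rw [if_pos ((Nat.dvd_of_mem_primeFactors hp).trans (Nat.gcd_dvd_right m S))]
  rw [h2, one_mul]
  apply Finset.prod_congr rfl
  intro p hp
  unfold pairR
  rw [if_neg]
  · norm_num
  · intro hpS
    have hpp := Nat.prime_of_mem_primeFactors hp
    have hph := Nat.dvd_of_mem_primeFactors hp
    have hpm : p ∣ m := by rw [hh]; exact hph.mul_left g
    exact Nat.not_coprime_of_dvd_of_dvd hpp.one_lt (Nat.dvd_gcd hpm hpS) hph hcop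

theorem selI_eq (r : ℕ → ℝ) {m : ℕ} (hm : Squarefree m) :
    selI r m = (m : ℝ) / selRho r m := by
  unfold selI selRho
  rw [Finset.prod_div_distrib]
  congr 1
  rw [← Nat.cast_prod, Nat.prod_primeFactors_of_squarefree hm]

theorem card_pair {X Y u v S m : ℕ} (hu : 0 < u) (hS : Even S) (hXS : X + Y < S)
    (hm : Squarefree m) (hmu : Nat.Coprime m u) :
    |((((Finset.Ioc X (X + Y)).filter (fun n => n ≡ v [MOD u])).filter
      (fun n => m ∣ n * (S - n))).card : ℝ) - ((Y : ℝ) / u) / selI (pairR S) m|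
      ≤ selRho (pairR S) m := by
  set T := m.divisors.filter (fun A => Nat.gcd m S ∣ A) with hT
  have hm0 : m ≠ 0 := hm.ne_zero
  have hmaps : ∀ n ∈ ((Finset.Ioc X (X + Y)).filter (fun n => n ≡ v [MOD u])).filter
      (fun n => m ∣ n * (S - n)), Nat.gcd m n ∈ T := by
    intro n hn
    rw [Finset.mem_filter, Finset.mem_filter, Finset.mem_Ioc] at hn
    obtain ⟨⟨hn1, hn2⟩, hn3⟩ := hn
    rw [hT, Finset.mem_filter, Nat.mem_divisors]
    refine ⟨⟨Nat.gcd_dvd_left m n, hm0⟩, ?_⟩
    apply Nat.dvd_gcd (Nat.gcd_dvd_left m S)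
    -- every prime factor of `gcd m S` divides `n`
    have hsq : Squarefree (Nat.gcd m S) := hm.squarefree_of_dvd (Nat.gcd_dvd_left m S)
    rw [← Nat.prod_primeFactors_of_squarefree hsq]
    apply Finset.prod_primes_dvd
    · intro p hp
      exact (Nat.prime_of_mem_primeFactors hp).prime
    · intro p hp
      have hpp := Nat.prime_of_mem_primeFactors hp
      have hpg := Nat.dvd_of_mem_primeFactors hp
      have hpm := hpg.trans (Nat.gcd_dvd_left m S)
      have hpS := hpg.trans (Nat.gcd_dvd_right m S)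
      rcases (Nat.Prime.dvd_mul hpp).1 (hpm.trans hn3) with h | h
      · exact h
      · have h2 : S - (S - n) = n := by omega
        rw [← h2]
        exact Nat.dvd_sub hpS h
  rw [Finset.card_eq_sum_card_fiberwise hmaps]
  have hfib : ∀ A ∈ T, ((((Finset.Ioc X (X + Y)).filter (fun n => n ≡ v [MOD u])).filter
      (fun n => m ∣ n * (S - n))).filter (fun n => Nat.gcd m n = A))
      = (Finset.Ioc X (X + Y)).filter (fun n => n ≡ v [MOD u] ∧ A ∣ n ∧ (m / A) ∣ S - n) := by
    intro A hA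
    rw [hT, Finset.mem_filter, Nat.mem_divisors] at hA
    obtain ⟨⟨hA1, _⟩, hA2⟩ := hA
    obtain ⟨B, rfl⟩ := hA1
    have hA0 : 0 < A := by
      rcases Nat.eq_zero_or_pos A with h | h
      · rw [h, zero_mul] at hm0; exact absurd rfl hm0
      · exact h
    rw [Nat.mul_div_cancel_left B hA0]
    have hcop : Nat.Coprime A B := Nat.coprime_of_squarefree_mul hm
    ext n
    simp only [Finset.mem_filter, Finset.mem_Ioc]
    constructor
    · rintro ⟨⟨⟨h1, h2⟩, h3⟩, h4⟩
      refine ⟨h1, h2, h4 ▸ Nat.gcd_dvd_right _ _, ?_⟩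
      have h5 : Nat.Coprime B n := by
        have h6 : Nat.gcd B n ∣ A := by
          rw [← h4]
          exact Nat.dvd_gcd ((Nat.gcd_dvd_left B n).trans (Dvd.intro_left A rfl))
            (Nat.gcd_dvd_right B n)
        have h7 : Nat.gcd B n ∣ Nat.gcd A B := Nat.dvd_gcd h6 (Nat.gcd_dvd_left B n)
        rw [hcop] at h7
        exact Nat.dvd_one.1 h7
      have h8 : B ∣ n * (S - n) := (Dvd.intro_left A rfl : B ∣ A * B).trans h3
      exact Nat.Coprime.dvd_of_dvd_mul_left h5 h8
    · rintro ⟨h1, h2, h3, h4⟩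
      refine ⟨⟨⟨h1, h2⟩, Nat.mul_dvd_mul h3 h4⟩, ?_⟩
      have h5 : Nat.Coprime B n := by
        have h6 : Nat.gcd B n ∣ S := by
          have h9 : S = n + (S - n) := by omega
          rw [h9]
          exact Nat.dvd_add (Nat.gcd_dvd_right B n) ((Nat.gcd_dvd_left B n).trans h4)
        have h7 : Nat.gcd B n ∣ A :=
          (Nat.dvd_gcd ((Nat.gcd_dvd_left B n).trans (Dvd.intro_left A rfl)) h6).trans hA2
        have h8 : Nat.gcd B n ∣ Nat.gcd A B := Nat.dvd_gcd h7 (Nat.gcd_dvd_left B n)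
        rw [hcop] at h8
        exact Nat.dvd_one.1 h8
      rw [Nat.Coprime.gcd_mul_right_cancel A h5]
      exact Nat.gcd_eq_left h3
  have hfib' : ∀ A ∈ T, |(((((Finset.Ioc X (X + Y)).filter (fun n => n ≡ v [MOD u])).filter
      (fun n => m ∣ n * (S - n))).filter (fun n => Nat.gcd m n = A)).card : ℝ)
        - (Y : ℝ) / (u * m)| ≤ 1 := by
    intro A hA
    rw [hfib A hA]
    rw [hT, Finset.mem_filter, Nat.mem_divisors] at hA
    obtain ⟨⟨hA1, _⟩, hA2⟩ := hA
    obtain ⟨B, hB⟩ := hA1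
    have hA0 : 0 < A := by
      rcases Nat.eq_zero_or_pos A with h | h
      · rw [h, zero_mul] at hB; exact absurd hB hm0
      · exact h
    have hB0 : 0 < B := by
      rcases Nat.eq_zero_or_pos B with h | h
      · rw [h, mul_zero] at hB; exact absurd hB hm0
      · exact h
    have hAB : Nat.Coprime A B := by
      rw [hB] at hm
      exact Nat.coprime_of_squarefree_mul hm
    have hdiv : m / A = B := by rw [hB, Nat.mul_div_cancel_left B hA0]
    rw [hdiv, hB]
    rw [hB] at hmu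
    exact abs_card_class X Y u v A B S hu hA0 hB0 hAB (Nat.Coprime.coprime_mul_right hmu)
      (Nat.Coprime.coprime_mul_left hmu) hXS
  have hrho := card_parts (S := S) hm
  rw [← hT] at hrho
  have hmain : ((Y : ℝ) / u) / selI (pairR S) m = ∑ A ∈ T, (Y : ℝ) / (u * m) := by
    rw [selI_eq (pairR S) hm, Finset.sum_const, nsmul_eq_mul, hrho]
    have h1 : (0 : ℝ) < u := by exact_mod_cast hu
    have h2 : (0 : ℝ) < m := by exact_mod_cast Nat.pos_of_ne_zero hm0
    have h3 := one_le_selRho (pairR_adm hS) m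
    field_simp
  rw [hmain]
  push_cast
  rw [← Finset.sum_sub_distrib]
  calc _ ≤ ∑ A ∈ T, |(((((Finset.Ioc X (X + Y)).filter (fun n => n ≡ v [MOD u])).filter
      (fun n => m ∣ n * (S - n))).filter (fun n => Nat.gcd m n = A)).card : ℝ)
        - (Y : ℝ) / (u * m)| := Finset.abs_sum_le_sum_abs _ _
    _ ≤ ∑ A ∈ T, (1 : ℝ) := Finset.sum_le_sum hfib'
    _ = selRho (pairR S) m := by rw [Finset.sum_const, nsmul_eq_mul, mul_one, hrho]

theorem pairSieve {X Y u v S R : ℕ} (hu : 0 < u) (hS : Even S) (hR : 2 ≤ R) (hRX : R ≤ X)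
    (hRS : X + Y + R < S) :
    (((Finset.Ioc X (X + Y)).filter (fun q => q.Prime ∧ (S - q).Prime ∧ q ≡ v [MOD u])).card : ℝ) ≤
      2 * ((Y : ℝ) / u) * ((u : ℝ) / Nat.totient u) ^ 2 * ((S : ℝ) / Nat.totient S) / (Real.log R) ^ 2
        + ((R : ℝ) * (1 + Real.log R)) ^ 2 := by
  have hr := pairR_adm hS
  have hR1 : 1 ≤ R := by omega
  have hS0 : 0 < S := by omega
  set Ω := (Finset.Ioc X (X + Y)).filter (fun n => n ≡ v [MOD u]) with hΩ
  have hb := selberg_bound (r := pairR S) hr (D := u) hR1 Ω (fun n => n * (S - n)) ((Y : ℝ) / u)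
    (fun m hm hmu => card_pair hu hS (by omega) hm hmu)
  have h1 : (((Finset.Ioc X (X + Y)).filter
      (fun q => q.Prime ∧ (S - q).Prime ∧ q ≡ v [MOD u])).card : ℝ)
      ≤ ∑ n ∈ Ω, (∑ d ∈ sqf u R, if d ∣ n * (S - n) then selLam (pairR S) u R d else 0) ^ 2 := by
    have h2 : (((Finset.Ioc X (X + Y)).filter
        (fun q => q.Prime ∧ (S - q).Prime ∧ q ≡ v [MOD u])).card : ℝ)
        = ∑ n ∈ (Finset.Ioc X (X + Y)).filter
          (fun q => q.Prime ∧ (S - q).Prime ∧ q ≡ v [MOD u]),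
        (∑ d ∈ sqf u R, if d ∣ n * (S - n) then selLam (pairR S) u R d else 0) ^ 2 := by
      rw [Finset.card_eq_sum_ones]
      push_cast
      apply Finset.sum_congr rfl
      intro q hq
      rw [Finset.mem_filter, Finset.mem_Ioc] at hq
      obtain ⟨⟨hq1, hq2⟩, hq3, hq4, hq5⟩ := hq
      have : ∑ d ∈ sqf u R, (if d ∣ q * (S - q) then selLam (pairR S) u R d else 0) = 1 := by
        rw [Finset.sum_eq_single 1]
        · simp [selLam_one hr hR1]
        · intro d hd hd1
          rw [if_neg]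
          intro hdq
          obtain ⟨p, hp, hpd⟩ := Nat.exists_prime_and_dvd hd1
          have hd' := (mem_sqf.1 hd).1
          have hpR : p ≤ R := (Nat.le_of_dvd hd'.1 hpd).trans hd'.2
          rcases (Nat.Prime.dvd_mul hp).1 (hpd.trans hdq) with h | h
          · have := (Nat.prime_dvd_prime_iff_eq hp hq3).1 h
            omega
          · have := (Nat.prime_dvd_prime_iff_eq hp hq4).1 h
            omega
        · intro h
          exact absurd (one_mem_sqf hR1) h
      rw [this]; norm_num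
    rw [h2]
    apply Finset.sum_le_sum_of_subset_of_nonneg
    · intro q hq
      rw [Finset.mem_filter] at hq
      rw [hΩ, Finset.mem_filter]
      exact ⟨hq.1, hq.2.2.2⟩
    · intro i _ _; positivity
  refine h1.trans (hb.trans ?_)
  have hlog : 0 < Real.log R := Real.log_pos (by exact_mod_cast hR)
  have hu' : (0 : ℝ) < u := by exact_mod_cast hu
  have hS' : (0 : ℝ) < S := by exact_mod_cast hS0
  have hφu : (0 : ℝ) < Nat.totient u := by exact_mod_cast Nat.totient_pos.2 hu
  have hφS : (0 : ℝ) < Nat.totient S := by exact_mod_cast Nat.totient_pos.2 hS0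
  have hG := selG_ge (u := u) (R := R) hu hS hS0 hR1
  have hG0 : 0 < ((Nat.totient u : ℝ) / u) ^ 2 * ((Nat.totient S : ℝ) / S)
      * (Real.log R) ^ 2 / 2 := by positivity
  apply add_le_add
  · calc (Y : ℝ) / u / selG (pairR S) u R
        ≤ (Y : ℝ) / u / (((Nat.totient u : ℝ) / u) ^ 2 * ((Nat.totient S : ℝ) / S)
          * (Real.log R) ^ 2 / 2) := by gcongr
      _ = 2 * ((Y : ℝ) / u) * ((u : ℝ) / Nat.totient u) ^ 2 * ((S : ℝ) / Nat.totient S)
          / (Real.log R) ^ 2 := by field_simp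
  · have h3 := sum_selRho_le (S := S) (u := u) (R := R)
    have h4 : 0 ≤ ∑ d ∈ sqf u R, selRho (pairR S) d :=
      Finset.sum_nonneg (fun d _ => by have := one_le_selRho hr d; linarith)
    gcongr

end Pool.Agent.Work.MP_713a1e_co.E
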