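import Pool.Agent.Work.MP_713a1e_co.E.SelDefs
import Pool.Agent.Work.MP_713a1e_co.E.SievePair

/-! # JOB A2b: Step 3 of Plan.txt, section 4 (uses `pairSieve`) -/

namespace Pool.Agent.Work.MP_713a1e_co.E

theorem log_X0_le {n : ℕ} (hn : X0 ≤ n) : 1663.5 ≤ Real.log n := by
  have h1 : ((X0 : ℕ) : ℝ) ≤ n := by exact_mod_cast hn
  have h2 : ((X0 : ℕ) : ℝ) = (2 : ℝ) ^ 2400 := by unfold X0; push_cast; rfl
  have h3 : Real.log ((2 : ℝ) ^ 2400) = 2400 * Real.log 2 := by
    rw [Real.log_pow]; norm_num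
  have h4 : Real.log ((X0 : ℕ) : ℝ) ≤ Real.log n := by
    apply Real.log_le_log _ h1
    rw [h2]; positivity
  rw [h2, h3] at h4
  have h5 := Real.log_two_gt_d9
  linarith

theorem log_log_le {L : ℝ} (hL : 0 < L) : Real.log L ≤ 11 * Real.log 2 + L / 2048 - 1 := by
  have h1 : Real.log (L / 2048) ≤ L / 2048 - 1 := Real.log_le_sub_one_of_pos (by positivity)
  have h2 : Real.log (L / 2048) = Real.log L - 11 * Real.log 2 := by
    rw [Real.log_div hL.ne' (by norm_num)]
    rw [show (2048 : ℝ) = 2 ^ 11 by norm_num, Real.log_pow]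
    norm_num
  linarith

/-- the size of the spacing -/
theorem le_y0 {n : ℕ} (hn : X0 ≤ n) : n ≤ 2 ^ 58 * y0 n := by
  unfold y0 hh
  rw [Nat.div_div_eq_div_mul]
  have h0 : (10 ^ 14 * 2000 : ℕ) = 200000000000000000 := by norm_num
  rw [h0]
  have h1 : (2 : ℕ) ^ 100 ≤ n := by
    refine le_trans ?_ hn
    unfold X0
    exact Nat.pow_le_pow_right (by norm_num) (by norm_num)
  have h2 : (2 : ℕ) ^ 58 = 288230376151711744 := by norm_num
  rw [h2]
  have h3 : (2 : ℕ) ^ 100 = 1267650600228229401496703205376 := by norm_num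
  rw [h3] at h1
  omega

theorem aux_half {R n : ℕ} (h : R ^ 2 ≤ n) (hn : 4 ≤ n) : R ≤ n / 2 := by
  rw [Nat.le_div_iff_mul_le (by norm_num)]
  by_contra h1
  push Not at h1
  have h2 : n + 1 ≤ R * 2 := h1
  have h3 : (n + 1) * (n + 1) ≤ (R * 2) * (R * 2) := Nat.mul_le_mul h2 h2
  have h4 : (R * 2) * (R * 2) = 4 * R ^ 2 := by ring
  nlinarith

theorem aux_frac {a b : ℝ} (ha : 0 < a) (hb : 0 < b) (hab : a ≤ b) : 1 / b ≤ b / a ^ 2 := by
  rw [div_le_div_iff₀ hb (by positivity)]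
  nlinarith

theorem aux_main {M L : ℝ} (hM : 0 < M) (hL : 0 < L) :
    2 * M / (0.4615 * L) ^ 2 ≤ 9.391 * (M / L ^ 2) := by
  rw [mul_pow, div_le_iff₀ (by positivity)]
  have : 9.391 * (M / L ^ 2) * (0.4615 ^ 2 * L ^ 2) = 9.391 * 0.4615 ^ 2 * M := by
    field_simp
  rw [this]
  nlinarith

theorem aux_small {L : ℝ} (hL : 1663.5 ≤ L) : 1 / L ^ 2 ≤ 0.009 := by
  have hL0 : 0 < L := by linarith
  rw [div_le_iff₀ (by positivity)]
  nlinarith

theorem selB {n s t0 y d : ℕ} (hn : X0 ≤ n) (hs : n ≤ s) (hs' : s ≤ 2 * n) (hy : y0 n ≤ y)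
    (ht : 4 * (t0 + y) ≤ n) (hd : Odd d) (hdL : (d : ℝ) ≤ (Real.log n) ^ 5) :
    (((Finset.Ioc t0 (t0 + y)).filter (fun t => d ∣ t ∧ (s - t).Prime ∧ (s + t).Prime)).card : ℝ) ≤
      9.4 * y * ((d : ℝ) / (Nat.totient d : ℝ) ^ 2) * WW s / (Real.log n) ^ 2 := by
  have hL := log_X0_le hn
  set L := Real.log n with hLdef
  have hL0 : 0 < L := by linarith
  have hd0 : 0 < d := hd.pos
  have hdR : (0 : ℝ) < d := by exact_mod_cast hd0
  have hnbig : (2 : ℕ) ^ 100 ≤ n := by
    refine le_trans ?_ hn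
    unfold X0
    exact Nat.pow_le_pow_right (by norm_num) (by norm_num)
  have h3 : (2 : ℕ) ^ 100 = 1267650600228229401496703205376 := by norm_num
  rw [h3] at hnbig
  have hny : n ≤ 2 ^ 58 * y := (le_y0 hn).trans (Nat.mul_le_mul_left _ hy)
  have hy1 : 0 < y := by
    rcases Nat.eq_zero_or_pos y with h | h
    · rw [h] at hny; omega
    · exact h
  have hyR : (0 : ℝ) < y := by exact_mod_cast hy1
  have hn0 : (0 : ℝ) < n := by
    have : 0 < n := by omega
    exact_mod_cast this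
  -- the logarithms
  have hl2 := Real.log_two_lt_d9
  have hl2' := Real.log_two_gt_d9
  have hlogy : L - 40.2026 ≤ Real.log y := by
    have h1 : (n : ℝ) ≤ 2 ^ 58 * (y : ℝ) := by exact_mod_cast hny
    have h2 : L ≤ Real.log (2 ^ 58 * (y : ℝ)) := Real.log_le_log hn0 h1
    rw [Real.log_mul (by positivity) hyR.ne', Real.log_pow] at h2
    push_cast at h2
    linarith
  have hlogd : Real.log d ≤ 5 * Real.log L := by
    have h1 := Real.log_le_log hdR hdL
    rw [Real.log_pow] at h1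
    push_cast at h1
    exact h1
  have hloglog := log_log_le hL0
  -- the level
  set Q : ℝ := Real.sqrt ((y : ℝ) / d) / L ^ 3 with hQ
  have hyd : (0 : ℝ) < (y : ℝ) / d := by positivity
  have hQ0 : 0 < Q := by rw [hQ]; positivity
  have hlogQ : Real.log Q = (Real.log y - Real.log d) / 2 - 3 * Real.log L := by
    rw [hQ, Real.log_div (by positivity) (by positivity), Real.log_sqrt hyd.le,
      Real.log_div hyR.ne' hdR.ne', Real.log_pow]
    norm_num
  have hlogQ2 : 0.4615 * L + Real.log 2 ≤ Real.log Q := by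
    rw [hlogQ]; linarith
  have hQ2 : 2 ≤ Q := by
    by_contra h
    push Not at h
    have := Real.log_le_log hQ0 h.le
    linarith
  set R : ℕ := ⌊Q⌋₊ with hR
  have hRQ : (R : ℝ) ≤ Q := Nat.floor_le hQ0.le
  have hRQ' : Q < R + 1 := Nat.lt_floor_add_one Q
  have hR2 : 2 ≤ R := by
    rw [hR]
    exact Nat.le_floor (by exact_mod_cast hQ2)
  have hR2' : (2 : ℝ) ≤ R := by exact_mod_cast hR2
  have hR0 : (0 : ℝ) < R := by linarith
  have hlogR : 0.4615 * L ≤ Real.log R := by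
    have h1 : Q / 2 ≤ R := by linarith
    have h2 := Real.log_le_log (by positivity) h1
    rw [Real.log_div hQ0.ne' (by norm_num)] at h2
    linarith
  -- upper bounds for `R`
  have hL3 : 1 ≤ L ^ 3 := one_le_pow₀ (by linarith)
  have hyd1 : (y : ℝ) / d ≤ y := by
    apply div_le_self hyR.le
    exact_mod_cast hd0
  have hQsq : Q ^ 2 = (y : ℝ) / d / L ^ 6 := by
    rw [hQ, div_pow, Real.sq_sqrt hyd.le]
    ring
  have hRy : (R : ℝ) ^ 2 ≤ y := by
    have h1 : (R : ℝ) ^ 2 ≤ Q ^ 2 := by gcongr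
    have h2 : Q ^ 2 ≤ (y : ℝ) / d := by
      rw [hQsq]
      apply div_le_self hyd.le
      exact one_le_pow₀ (by linarith)
    linarith
  have hRn : R ^ 2 ≤ n := by
    have h1 : R ^ 2 ≤ y := by exact_mod_cast hRy
    omega
  have hRn' : R ≤ n / 2 := aux_half hRn (by omega)
  have hlogR' : Real.log R ≤ L / 2 := by
    have h1 : (R : ℝ) ^ 2 ≤ n := by exact_mod_cast hRn
    have h2 := Real.log_le_log (by positivity) h1
    rw [Real.log_pow] at h2
    push_cast at h2
    linarith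
  -- the sieve
  have hsieve := pairSieve (X := s - t0 - y - 1) (Y := y) (u := d) (v := s) (S := 2 * s) (R := R)
    hd0 (even_two_mul s) hR2 (by omega) (by omega)
  have hcard : ((Finset.Ioc t0 (t0 + y)).filter
      (fun t => d ∣ t ∧ (s - t).Prime ∧ (s + t).Prime)).card
      ≤ ((Finset.Ioc (s - t0 - y - 1) (s - t0 - y - 1 + y)).filter
        (fun q => q.Prime ∧ (2 * s - q).Prime ∧ q ≡ s [MOD d])).card := by
    apply Finset.card_le_card_of_injOn (fun t => s - t)
    · intro t htt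
      rw [Finset.mem_coe, Finset.mem_filter, Finset.mem_Ioc] at htt
      obtain ⟨⟨h1, h2⟩, h4, h5, h6⟩ := htt
      rw [Finset.mem_coe, Finset.mem_filter, Finset.mem_Ioc]
      beta_reduce
      refine ⟨⟨by omega, by omega⟩, h5, ?_, ?_⟩
      · have : 2 * s - (s - t) = s + t := by omega
        rw [this]; exact h6
      · rw [Nat.modEq_iff_dvd' (by omega)]
        have : s - (s - t) = t := by omega
        rw [this]; exact h4
    · intro a ha b hb hab
      rw [Finset.mem_coe, Finset.mem_filter, Finset.mem_Ioc] at ha hb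
      have hab' : s - a = s - b := hab
      omega
  have hcard' : (((Finset.Ioc t0 (t0 + y)).filter
      (fun t => d ∣ t ∧ (s - t).Prime ∧ (s + t).Prime)).card : ℝ)
      ≤ (((Finset.Ioc (s - t0 - y - 1) (s - t0 - y - 1 + y)).filter
        (fun q => q.Prime ∧ (2 * s - q).Prime ∧ q ≡ s [MOD d])).card : ℝ) := by
    exact_mod_cast hcard
  refine (hcard'.trans hsieve).trans ?_
  -- the arithmetic
  have hφd : (0 : ℝ) < Nat.totient d := by exact_mod_cast Nat.totient_pos.2 hd0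
  have hs0 : 0 < 2 * s := by omega
  have hφs : (0 : ℝ) < Nat.totient (2 * s) := by exact_mod_cast Nat.totient_pos.2 hs0
  have hW : 1 ≤ WW s := by
    unfold WW
    rw [one_le_div hφs]
    exact_mod_cast Nat.totient_le (2 * s)
  set M : ℝ := (y : ℝ) * ((d : ℝ) / (Nat.totient d : ℝ) ^ 2) * WW s with hM
  have hMge : (y : ℝ) / d ≤ M := by
    have h1 : (1 : ℝ) / d ≤ (d : ℝ) / (Nat.totient d : ℝ) ^ 2 :=
      aux_frac hφd hdR (by exact_mod_cast Nat.totient_le d)
    have h4 : (y : ℝ) / d = (y : ℝ) * (1 / d) * 1 := by ring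
    rw [h4, hM]
    gcongr
  have hM0 : 0 < M := lt_of_lt_of_le hyd hMge
  have hmain : 2 * ((y : ℝ) / d) * ((d : ℝ) / Nat.totient d) ^ 2
      * (((2 * s : ℕ) : ℝ) / Nat.totient (2 * s)) / (Real.log R) ^ 2 = 2 * M / (Real.log R) ^ 2 := by
    rw [hM]
    unfold WW
    field_simp
  rw [hmain]
  have h5 : 2 * M / (Real.log R) ^ 2 ≤ 2 * M / (0.4615 * L) ^ 2 := by
    gcongr
  have h6 : 2 * M / (0.4615 * L) ^ 2 ≤ 9.391 * (M / L ^ 2) := aux_main hM0 hL0
  have h7 : ((R : ℝ) * (1 + Real.log R)) ^ 2 ≤ 0.009 * (M / L ^ 2) := by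
    have h8 : 0 ≤ 1 + Real.log R := by linarith
    have h9 : 1 + Real.log R ≤ L := by linarith
    calc ((R : ℝ) * (1 + Real.log R)) ^ 2 ≤ (Q * L) ^ 2 := by gcongr
      _ = Q ^ 2 * L ^ 2 := by ring
      _ = ((y : ℝ) / d) / L ^ 4 := by rw [hQsq]; field_simp
      _ ≤ M / L ^ 4 := by gcongr
      _ = (1 / L ^ 2) * (M / L ^ 2) := by field_simp
      _ ≤ 0.009 * (M / L ^ 2) := by
          have := aux_small hL
          gcongr
  have h10 : 9.4 * y * ((d : ℝ) / (Nat.totient d : ℝ) ^ 2) * WW s / L ^ 2 = 9.4 * (M / L ^ 2) := by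
    rw [hM]; ring
  rw [h10]
  linarith

end Pool.Agent.Work.MP_713a1e_co.E
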