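import Pool.Agent.Work.MP_713a1e_co.E.SelDefs
import Pool.Agent.Work.MP_713a1e_co.E.AvgPhi

/-! # JOB A2c: Steps 4 and 5 of Plan.txt, section 4 (uses `sum_xl`; `selA`, `selB` are hypotheses here) -/

namespace Pool.Agent.Work.MP_713a1e_co.E

open Finset

namespace SelC

/-- pairs `x < y` of elements of `S` -/
def lt2 (S : Finset ℕ) : Finset (ℕ × ℕ) := (S ×ˢ S).filter (fun q => q.1 < q.2)

theorem swap_card (S : Finset ℕ) (P : ℕ → ℕ → Prop) [DecidableRel P] :
    ((S ×ˢ S).filter (fun q => P q.2 q.1)).card = ((S ×ˢ S).filter (fun q => P q.1 q.2)).card := by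
  refine Finset.card_bij (fun q _ => (q.2, q.1)) ?_ ?_ ?_
  · intro q hq
    simp only [mem_filter, mem_product] at *
    tauto
  · rintro ⟨a, b⟩ _ ⟨c, d⟩ _ h
    simp only [Prod.mk.injEq] at h ⊢
    exact ⟨h.2, h.1⟩
  · rintro ⟨a, b⟩ hq
    refine ⟨(b, a), ?_, rfl⟩
    simp only [mem_filter, mem_product] at *
    tauto

theorem lt2_card (S : Finset ℕ) : 2 * (lt2 S).card ≤ S.card ^ 2 := by
  have h1 := swap_card S (fun a b => a < b)
  have h2 : (lt2 S).card + ((S ×ˢ S).filter (fun q => q.2 < q.1)).card ≤ (S ×ˢ S).card := by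
    unfold lt2
    rw [← card_union_of_disjoint]
    · exact card_le_card (union_subset (filter_subset _ _) (filter_subset _ _))
    · rw [disjoint_filter]
      intro q _ h1 h2
      omega
  rw [card_product] at h2
  have h3 : (lt2 S).card = ((S ×ˢ S).filter (fun q => q.1 < q.2)).card := rfl
  rw [h3] at h2 ⊢
  rw [h1] at h2
  nlinarith

/-- far pairs -/
def far (y : ℕ) (S : Finset ℕ) : Finset (ℕ × ℕ) := (S ×ˢ S).filter (fun q => q.1 + y ≤ q.2)

theorem far_card {y : ℕ} {S : Finset ℕ} {K : ℝ} (hy : ∀ b ∈ S, y ≤ b)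
    (h1 : ∀ b ∈ S, ((S.filter (fun a => b - y < a ∧ a ≤ b - y + y)).card : ℝ) ≤ K)
    (h2 : ∀ b ∈ S, ((S.filter (fun a => b < a ∧ a ≤ b + y)).card : ℝ) ≤ K) :
    (S.card : ℝ) ^ 2 ≤ 2 * ((far y S).card : ℝ) + 2 * K * S.card := by
  have e1 := swap_card S (fun a b => a + y ≤ b)
  have e2 : (S ×ˢ S).card ≤ (far y S).card + ((S ×ˢ S).filter (fun q => q.2 + y ≤ q.1)).card
      + ((S ×ˢ S).filter (fun q => q.1 < q.2 + y ∧ q.2 < q.1 + y)).card := by
    refine le_trans (card_le_card ?_) (le_trans (card_union_le _ _)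
      (Nat.add_le_add_right (card_union_le _ _) _))
    intro q hq
    simp only [far, mem_union, mem_filter, hq, true_and]
    omega
  have e3 : ((S ×ˢ S).filter (fun q => q.1 < q.2 + y ∧ q.2 < q.1 + y)).card
      = ∑ b ∈ S, (S.filter (fun a => a < b + y ∧ b < a + y)).card := by
    rw [card_filter, sum_product_right]
    refine sum_congr rfl fun b _ => ?_
    rw [card_filter]
  have e4 : ∀ b ∈ S, ((S.filter (fun a => a < b + y ∧ b < a + y)).card : ℝ) ≤ 2 * K := by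
    intro b hb
    have h3 : (S.filter (fun a => a < b + y ∧ b < a + y)).card ≤
        (S.filter (fun a => b - y < a ∧ a ≤ b - y + y)).card
          + (S.filter (fun a => b < a ∧ a ≤ b + y)).card := by
      refine le_trans (card_le_card ?_) (card_union_le _ _)
      intro a ha
      have := hy b hb
      simp only [mem_union, mem_filter] at *
      have h4 := ha.1
      simp only [h4, true_and]
      omega
    have h4 := h1 b hb
    have h5 := h2 b hb
    have h6 : ((S.filter (fun a => a < b + y ∧ b < a + y)).card : ℝ) ≤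
        ((S.filter (fun a => b - y < a ∧ a ≤ b - y + y)).card : ℝ)
          + ((S.filter (fun a => b < a ∧ a ≤ b + y)).card : ℝ) := by exact_mod_cast h3
    linarith
  have e5 : (((S ×ˢ S).filter (fun q => q.1 < q.2 + y ∧ q.2 < q.1 + y)).card : ℝ) ≤ 2 * K * S.card := by
    rw [e3, Nat.cast_sum]
    refine le_trans (sum_le_sum e4) ?_
    rw [sum_const, nsmul_eq_mul]
    linarith
  have e6 : ((S ×ˢ S).card : ℝ) ≤ ((far y S).card : ℝ) + (((S ×ˢ S).filter (fun q => q.2 + y ≤ q.1)).card : ℝ)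
      + (((S ×ˢ S).filter (fun q => q.1 < q.2 + y ∧ q.2 < q.1 + y)).card : ℝ) := by
    exact_mod_cast e2
  have e7 : (((S ×ˢ S).filter (fun q => q.2 + y ≤ q.1)).card : ℝ) = ((far y S).card : ℝ) := by
    exact_mod_cast e1
  rw [card_product, Nat.cast_mul] at e6
  rw [e7] at e6
  nlinarith

/-- `x_ℓ` for the primes `ℓ ≥ 7`, zero otherwise -/
noncomputable def yy (l : ℕ) : ℝ := if l.Prime ∧ 7 ≤ l then ((l : ℝ) / ((l : ℝ) - 1) ^ 2) ^ 2 else 0

theorem yy_eq {l : ℕ} (hl : l.Prime) (h : 7 ≤ l) : yy l = ((l : ℝ) / ((l : ℝ) - 1) ^ 2) ^ 2 := by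
  unfold yy
  rw [if_pos ⟨hl, h⟩]

theorem yy_nonneg (l : ℕ) : 0 ≤ yy l := by
  unfold yy
  split_ifs
  · positivity
  · exact le_refl _

/-- partial sums -/
noncomputable def AA (c : ℕ) : ℝ := ∑ a ∈ range c, yy a

theorem AA_nonneg (c : ℕ) : 0 ≤ AA c := sum_nonneg fun a _ => yy_nonneg a

theorem AA_succ (c : ℕ) : AA (c + 1) = AA c + yy c := sum_range_succ _ _

theorem AA_le (c : ℕ) : AA c ≤ 0.081 := by
  refine le_trans ?_ (sum_xl c)
  unfold AA yy
  rw [← sum_filter]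
  refine sum_le_sum_of_subset_of_nonneg ?_ ?_
  · intro l hl
    rw [mem_filter, mem_range] at hl
    rw [mem_filter, mem_Icc]
    exact ⟨⟨hl.2.2, hl.1.le⟩, hl.2.1⟩
  · intro l _ _
    positivity

theorem e2_eq (c : ℕ) : 2 * ∑ b ∈ range c, yy b * AA b + ∑ b ∈ range c, yy b ^ 2 = AA c ^ 2 := by
  induction c with
  | zero => simp [AA]
  | succ c ih =>
    rw [sum_range_succ, sum_range_succ, AA_succ]
    linear_combination ih

theorem e2_le {c : ℕ} (hc : 8 ≤ c) : ∑ b ∈ range c, yy b * AA b ≤ 0.002566 := by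
  have h1 := e2_eq c
  have h2 : yy 7 ^ 2 ≤ ∑ b ∈ range c, yy b ^ 2 :=
    single_le_sum (f := fun b => yy b ^ 2) (fun b _ => by positivity) (mem_range.2 (by omega))
  have h3 : yy 7 = 49 / 1296 := by
    unfold yy
    rw [if_pos ⟨by norm_num, le_refl _⟩]
    norm_num
  rw [h3] at h2
  have h4 := AA_le c
  have h5 := AA_nonneg c
  nlinarith

theorem e2_half (c : ℕ) : ∑ b ∈ range c, yy b * AA b ≤ AA c ^ 2 / 2 := by
  have h1 := e2_eq c
  have h2 : 0 ≤ ∑ b ∈ range c, yy b ^ 2 := sum_nonneg fun b _ => by positivity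
  linarith

theorem e3_aux (c : ℕ) : ∑ b ∈ range c, yy b * AA b ^ 2 ≤ AA c ^ 3 / 3 := by
  induction c with
  | zero => simp [AA]
  | succ c ih =>
    rw [sum_range_succ, AA_succ]
    have h1 := AA_nonneg c
    have h2 := yy_nonneg c
    have h3 : 0 ≤ AA c * yy c ^ 2 := by positivity
    have h4 : 0 ≤ yy c ^ 3 := by positivity
    nlinarith

theorem e3_le (c : ℕ) : ∑ k ∈ range c, yy k * (∑ b ∈ range k, yy b * AA b) ≤ 0.0000886 := by
  have h1 : ∑ k ∈ range c, yy k * (∑ b ∈ range k, yy b * AA b) ≤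
      (1 / 2) * ∑ k ∈ range c, yy k * AA k ^ 2 := by
    rw [mul_sum]
    refine sum_le_sum fun k _ => ?_
    have := mul_le_mul_of_nonneg_left (e2_half k) (yy_nonneg k)
    linarith
  have h2 := e3_aux c
  have h3 := AA_le c
  have h4 := AA_nonneg c
  have h5 : AA c ^ 3 ≤ 0.081 ^ 3 := pow_le_pow_left₀ h4 h3 3
  norm_num at h5 ⊢
  linarith

theorem sorted3 {S : Finset ℕ} (h : 3 ≤ S.card) : ∃ a ∈ S, ∃ b ∈ S, ∃ c ∈ S, a < b ∧ b < c := by
  refine ⟨S.orderEmbOfFin rfl ⟨0, by omega⟩, S.orderEmbOfFin_mem rfl _,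
    S.orderEmbOfFin rfl ⟨1, by omega⟩, S.orderEmbOfFin_mem rfl _,
    S.orderEmbOfFin rfl ⟨2, by omega⟩, S.orderEmbOfFin_mem rfl _, ?_, ?_⟩
  · exact (S.orderEmbOfFin rfl).strictMono (by simp [Fin.lt_def])
  · exact (S.orderEmbOfFin rfl).strictMono (by simp [Fin.lt_def])

theorem sorted2 {S : Finset ℕ} (h : 2 ≤ S.card) : ∃ a ∈ S, ∃ b ∈ S, a < b := by
  refine ⟨S.orderEmbOfFin rfl ⟨0, by omega⟩, S.orderEmbOfFin_mem rfl _,
    S.orderEmbOfFin rfl ⟨1, by omega⟩, S.orderEmbOfFin_mem rfl _, ?_⟩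
  exact (S.orderEmbOfFin rfl).strictMono (by simp [Fin.lt_def])

theorem small_prime {l : ℕ} (hl : l.Prime) (h3 : 3 ≤ l) (h7 : ¬ 7 ≤ l) : l = 3 ∨ l = 5 := by
  have : l < 7 := by omega
  interval_cases l
  · left; rfl
  · exact absurd hl (by norm_num)
  · right; rfl
  · exact absurd hl (by norm_num)

theorem cop {a b : ℕ} (ha : a.Prime) (hb : b.Prime) (h : a ≠ b) : Nat.Coprime a b :=
  (Nat.coprime_primes ha hb).2 h

theorem four_primes {g : ℕ} (hg : 4 ≤ (g.primeFactors.filter (fun ℓ => 3 ≤ ℓ)).card) :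
    (∃ a b : ℕ, a.Prime ∧ b.Prime ∧ 7 ≤ a ∧ a < b ∧ 15 * a * b ∣ g) ∨
    (∃ a b c : ℕ, a.Prime ∧ b.Prime ∧ c.Prime ∧ 7 ≤ a ∧ a < b ∧ b < c ∧ a * b * c ∣ g) := by
  classical
  set Q := g.primeFactors.filter (fun ℓ => 3 ≤ ℓ) with hQ
  have hQm : ∀ l ∈ Q, l.Prime ∧ l ∣ g ∧ 3 ≤ l := by
    intro l hl
    rw [hQ, mem_filter, Nat.mem_primeFactors] at hl
    exact ⟨hl.1.1, hl.1.2.1, hl.2⟩
  by_cases h3 : 3 ≤ (Q.filter (fun l => 7 ≤ l)).card
  · right
    obtain ⟨a, ha, b, hb, c, hc, hab, hbc⟩ := sorted3 h3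
    rw [mem_filter] at ha hb hc
    have ha' := hQm a ha.1
    have hb' := hQm b hb.1
    have hc' := hQm c hc.1
    refine ⟨a, b, c, ha'.1, hb'.1, hc'.1, ha.2, hab, hbc, ?_⟩
    have h1 : a * b ∣ g := (cop ha'.1 hb'.1 (by omega)).mul_dvd_of_dvd_of_dvd ha'.2.1 hb'.2.1
    refine Nat.Coprime.mul_dvd_of_dvd_of_dvd ?_ h1 hc'.2.1
    exact Nat.Coprime.mul_left (cop ha'.1 hc'.1 (by omega)) (cop hb'.1 hc'.1 (by omega))
  · left
    have h1 : Q ⊆ {3, 5} ∪ Q.filter (fun l => 7 ≤ l) := by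
      intro l hl
      have hl' := hQm l hl
      rw [mem_union, mem_filter]
      by_cases h7 : 7 ≤ l
      · exact Or.inr ⟨hl, h7⟩
      · left
        rcases small_prime hl'.1 hl'.2.2 h7 with h | h <;> simp [h]
    have h35 : ∀ l, l = 3 ∨ l = 5 → l ∈ Q := by
      intro l hl
      by_contra hn
      have h2 : Q ⊆ ({3, 5} : Finset ℕ).erase l ∪ Q.filter (fun l => 7 ≤ l) := by
        intro m hm
        have := h1 hm
        rw [mem_union] at this ⊢
        rcases this with h | h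
        · left
          rw [mem_erase]
          exact ⟨fun h' => hn (h' ▸ hm), h⟩
        · exact Or.inr h
      have h4 := le_trans (card_le_card h2) (card_union_le _ _)
      have h5 : (({3, 5} : Finset ℕ).erase l).card ≤ 1 := by
        rcases hl with rfl | rfl <;> decide
      omega
    have h4 := le_trans (card_le_card h1) (card_union_le _ _)
    have h5 : ({3, 5} : Finset ℕ).card = 2 := by decide
    obtain ⟨a, ha, b, hb, hab⟩ := sorted2 (S := Q.filter (fun l => 7 ≤ l)) (by omega)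
    rw [mem_filter] at ha hb
    have ha' := hQm a ha.1
    have hb' := hQm b hb.1
    have h3' := hQm 3 (h35 3 (Or.inl rfl))
    have h5' := hQm 5 (h35 5 (Or.inr rfl))
    refine ⟨a, b, ha'.1, hb'.1, ha.2, hab, ?_⟩
    have e1 : 15 ∣ g := by
      have : 3 * 5 ∣ g := (cop h3'.1 h5'.1 (by omega)).mul_dvd_of_dvd_of_dvd h3'.2.1 h5'.2.1
      simpa using this
    have c15 : ∀ l : ℕ, l.Prime → 7 ≤ l → Nat.Coprime 15 l := by
      intro l hl h7
      have := Nat.Coprime.mul_left (cop h3'.1 hl (by omega)) (cop h5'.1 hl (by omega))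
      simpa using this
    have e2 : 15 * a ∣ g := (c15 a ha'.1 ha.2).mul_dvd_of_dvd_of_dvd e1 ha'.2.1
    refine Nat.Coprime.mul_dvd_of_dvd_of_dvd ?_ e2 hb'.2.1
    exact Nat.Coprime.mul_left (c15 b hb'.1 hb.2) (cop ha'.1 hb'.1 (by omega))

theorem phi15 {a b : ℕ} (ha : a.Prime) (hb : b.Prime) (h7 : 7 ≤ a) (hab : a < b) :
    (((15 * a * b : ℕ) : ℝ) / (Nat.totient (15 * a * b) : ℝ) ^ 2) ^ 2 = (15 / 64) ^ 2 * (yy b * yy a) := by
  have c1 : Nat.Coprime 15 a := by
    have := Nat.Coprime.mul_left (cop Nat.prime_three ha (by omega)) (cop Nat.prime_five ha (by omega))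
    simpa using this
  have c2 : Nat.Coprime 15 b := by
    have := Nat.Coprime.mul_left (cop Nat.prime_three hb (by omega)) (cop Nat.prime_five hb (by omega))
    simpa using this
  have c3 : Nat.Coprime (15 * a) b := Nat.Coprime.mul_left c2 (cop ha hb (by omega))
  have t15 : Nat.totient 15 = 8 := by decide
  rw [Nat.totient_mul c3, Nat.totient_mul c1, t15, Nat.totient_prime ha, Nat.totient_prime hb]
  rw [yy_eq ha h7, yy_eq hb (by omega)]
  have ha1 : ((a - 1 : ℕ) : ℝ) = (a : ℝ) - 1 := by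
    rw [Nat.cast_sub (by omega)]; simp
  have hb1 : ((b - 1 : ℕ) : ℝ) = (b : ℝ) - 1 := by
    rw [Nat.cast_sub (by omega)]; simp
  push_cast
  rw [ha1, hb1]
  have ha2 : (a : ℝ) - 1 ≠ 0 := by
    have : (7 : ℝ) ≤ a := by exact_mod_cast h7
    linarith
  have hb2 : (b : ℝ) - 1 ≠ 0 := by
    have : (7 : ℝ) ≤ b := by exact_mod_cast (by omega : 7 ≤ b)
    linarith
  field_simp
  ring

theorem phi3 {a b c : ℕ} (ha : a.Prime) (hb : b.Prime) (hc : c.Prime) (h7 : 7 ≤ a) (hab : a < b)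
    (hbc : b < c) :
    (((a * b * c : ℕ) : ℝ) / (Nat.totient (a * b * c) : ℝ) ^ 2) ^ 2 = yy c * (yy b * yy a) := by
  have c3 : Nat.Coprime (a * b) c := Nat.Coprime.mul_left (cop ha hc (by omega)) (cop hb hc (by omega))
  rw [Nat.totient_mul c3, Nat.totient_mul (cop ha hb (by omega)), Nat.totient_prime ha,
    Nat.totient_prime hb, Nat.totient_prime hc]
  rw [yy_eq ha h7, yy_eq hb (by omega), yy_eq hc (by omega)]
  have ha1 : ((a - 1 : ℕ) : ℝ) = (a : ℝ) - 1 := by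
    rw [Nat.cast_sub (by omega)]; simp
  have hb1 : ((b - 1 : ℕ) : ℝ) = (b : ℝ) - 1 := by
    rw [Nat.cast_sub (by omega)]; simp
  have hc1 : ((c - 1 : ℕ) : ℝ) = (c : ℝ) - 1 := by
    rw [Nat.cast_sub (by omega)]; simp
  push_cast
  rw [ha1, hb1, hc1]
  have ha2 : (a : ℝ) - 1 ≠ 0 := by
    have : (7 : ℝ) ≤ a := by exact_mod_cast h7
    linarith
  have hb2 : (b : ℝ) - 1 ≠ 0 := by
    have : (7 : ℝ) ≤ b := by exact_mod_cast (by omega : 7 ≤ b)
    linarith
  have hc2 : (c : ℝ) - 1 ≠ 0 := by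
    have : (7 : ℝ) ≤ c := by exact_mod_cast (by omega : 7 ≤ c)
    linarith
  field_simp

/-- multiples of `d` in an interval -/
theorem mult_card {S : Finset ℕ} {t0 h d : ℕ} (hS : ∀ t ∈ S, t0 < t ∧ t ≤ t0 + h) (hd : 0 < d) (hdh : d ≤ h) :
    ((S.filter (fun t => d ∣ t)).card : ℝ) ≤ 2 * h / d := by
  have h1 : (S.filter (fun t => d ∣ t)).card ≤ (Ioc (t0 / d) ((t0 + h) / d)).card := by
    refine card_le_card_of_injOn (fun t => t / d) ?_ ?_
    · intro t ht
      rw [mem_coe, mem_filter] at ht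
      obtain ⟨k, rfl⟩ := ht.2
      have := hS _ ht.1
      rw [mem_coe, mem_Ioc]
      dsimp only
      rw [Nat.mul_div_cancel_left k hd]
      refine ⟨(Nat.div_lt_iff_lt_mul hd).2 (by linarith [this.1, mul_comm d k]), ?_⟩
      exact (Nat.le_div_iff_mul_le hd).2 (by linarith [this.2, mul_comm d k])
    · intro t ht u hu htu
      rw [mem_coe, mem_filter] at ht hu
      dsimp only at htu
      rw [← Nat.div_mul_cancel ht.2, ← Nat.div_mul_cancel hu.2, htu]
  rw [Nat.card_Ioc] at h1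
  have h2 : (t0 + h) / d ≤ t0 / d + h / d + 1 := by
    rw [Nat.add_div hd]
    split_ifs <;> omega
  have h3 : (S.filter (fun t => d ∣ t)).card ≤ h / d + 1 := by
    generalize h / d = u at *
    generalize t0 / d = v at *
    generalize (t0 + h) / d = w at *
    omega
  have h4 : ((h / d : ℕ) : ℝ) ≤ (h : ℝ) / d := Nat.cast_div_le
  have h5 : (1 : ℝ) ≤ (h : ℝ) / d := by
    rw [le_div_iff₀ (by exact_mod_cast hd), one_mul]
    exact_mod_cast hdh
  have h6 : ((S.filter (fun t => d ∣ t)).card : ℝ) ≤ ((h / d : ℕ) : ℝ) + 1 := by exact_mod_cast h3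
  have h7 : (2 : ℝ) * h / d = h / d + h / d := by ring
  rw [h7]
  linarith

/-- Step 5: a good pair.  `R` = the elements in the cell `(t0, t0 + h]`, `L = log n`, `w = W / L²`. -/
theorem good_pair {R : Finset ℕ} {t0 h y : ℕ} {L w : ℝ} (hR : ∀ t ∈ R, t0 < t ∧ t ≤ t0 + h) (hh0 : 0 < h)
    (hy0 : 0 < y) (hy : y ≤ t0) (hL : 1663.5 ≤ L) (hw : 2 / L ^ 2 ≤ w)
    (hρ : 0.158 * h * w ≤ (R.card : ℝ))
    (hyw : ∀ t ≤ t0 + h, ((R.filter (fun a => t < a ∧ a ≤ t + y)).card : ℝ) ≤ 0.0047 * h * w)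
    (hd : ∀ d : ℕ, Odd d → (d : ℝ) ≤ L ^ 5 → ((R.filter (fun t => d ∣ t)).card : ℝ) ≤
      9.4 * h * ((d : ℝ) / (Nat.totient d : ℝ) ^ 2) * w) :
    ∃ t2 ∈ R, ∃ t1 ∈ R, ∃ τ ∈ R, t2 + y ≤ t1 ∧ t1 + y ≤ τ ∧ ((Nat.gcd t1 t2 : ℝ) ≤ L ^ 5) ∧
      ((Nat.gcd t1 t2).primeFactors.filter (fun ℓ => 3 ≤ ℓ)).card ≤ 3 := by
  classical
  have hL0 : (0 : ℝ) < L := by linarith
  have hh1 : (0 : ℝ) < h := by exact_mod_cast hh0
  have hw0 : 0 < w := lt_of_lt_of_le (by positivity) hw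
  set ρ : ℝ := (R.card : ℝ) with hρdef
  have hρ0 : 0 < ρ := lt_of_lt_of_le (by positivity) hρ
  have hne : R.Nonempty := by
    rw [← card_pos]
    exact Nat.cast_pos.1 hρ0
  set τ := R.max' hne with hτ
  have hτR : τ ∈ R := R.max'_mem hne
  have hτmax : ∀ t ∈ R, t ≤ τ := fun t ht => R.le_max' t ht
  set D := R.filter (fun t => t + y ≤ τ) with hD
  have hDR : D ⊆ R := filter_subset _ _
  set K' : ℝ := 0.0047 * h * w with hK'
  have hK'ρ : K' ≤ 0.029748 * ρ := by
    rw [hK']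
    have : 0.0047 * (h : ℝ) * w = (0.0047 / 0.158) * (0.158 * h * w) := by ring
    rw [this]
    have h2 : (0.0047 / 0.158 : ℝ) ≤ 0.029748 := by norm_num
    exact mul_le_mul h2 hρ (by positivity) (by norm_num)
  have hcardD : ρ ≤ (D.card : ℝ) + K' := by
    have h1 : R.card ≤ D.card + (R.filter (fun a => τ - y < a ∧ a ≤ τ - y + y)).card := by
      refine le_trans (card_le_card ?_) (card_union_le _ _)
      intro a ha
      have h2 := hτmax a ha
      have h3 := hR τ hτR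
      rw [mem_union, mem_filter, mem_filter]
      by_cases h4 : a + y ≤ τ
      · exact Or.inl ⟨ha, h4⟩
      · exact Or.inr ⟨ha, by omega, by omega⟩
    have h2 := hyw (τ - y) (by have := (hR τ hτR).2; omega)
    have h3 : ρ ≤ (D.card : ℝ) + ((R.filter (fun a => τ - y < a ∧ a ≤ τ - y + y)).card : ℝ) := by
      rw [hρdef]
      exact_mod_cast h1
    linarith
  have hfar := far_card (y := y) (S := D) (K := K')
    (fun b hb => by have := (hR b (hDR hb)).1; omega)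
    (fun b hb => by
      refine le_trans ?_ (hyw (b - y) (by have := (hR b (hDR hb)).2; omega))
      exact_mod_cast card_le_card (filter_subset_filter _ hDR))
    (fun b hb => by
      refine le_trans ?_ (hyw b (hR b (hDR hb)).2)
      exact_mod_cast card_le_card (filter_subset_filter _ hDR))
  by_contra hno
  push Not at hno
  set K := ⌊L ^ 5⌋₊ with hK
  set S : ℕ → Finset ℕ := fun d => R.filter (fun t => d ∣ t) with hS
  set N := h + 8 with hN
  set badL := (Ioc K h).biUnion (fun d => lt2 (S d)) with hbadL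
  set bad2 := (range N).biUnion (fun b => (range b).biUnion (fun a =>
    if a.Prime ∧ b.Prime ∧ 7 ≤ a ∧ a < b ∧ ((15 * a * b : ℕ) : ℝ) ≤ L ^ 5 then lt2 (S (15 * a * b)) else ∅)) with hbad2
  set bad3 := (range N).biUnion (fun c => (range c).biUnion (fun b => (range b).biUnion (fun a =>
    if a.Prime ∧ b.Prime ∧ c.Prime ∧ 7 ≤ a ∧ a < b ∧ b < c ∧ ((a * b * c : ℕ) : ℝ) ≤ L ^ 5 then
      lt2 (S (a * b * c)) else ∅))) with hbad3
  -- membership
  have hL5 : (0 : ℝ) ≤ L ^ 5 := by positivity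
  have hsub : far y D ⊆ badL ∪ bad2 ∪ bad3 := by
    rintro ⟨t2, t1⟩ hq
    rw [far, mem_filter, mem_product] at hq
    obtain ⟨⟨hq1, hq2⟩, hq3⟩ := hq
    dsimp only at hq1 hq2 hq3
    have hR2 := hDR hq1
    have hR1 := hDR hq2
    have hτ1 : t1 + y ≤ τ := (mem_filter.1 hq2).2
    have hlt : t2 < t1 := by omega
    have hb1 := hR t1 hR1
    have hb2 := hR t2 hR2
    have hgd1 := Nat.gcd_dvd_left t1 t2
    have hgd2 := Nat.gcd_dvd_right t1 t2
    have hmem : ∀ d : ℕ, d ∣ t1 → d ∣ t2 → (t2, t1) ∈ lt2 (S d) := by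
      intro d h1 h2
      rw [lt2, mem_filter, mem_product]
      exact ⟨⟨mem_filter.2 ⟨hR2, h2⟩, mem_filter.2 ⟨hR1, h1⟩⟩, hlt⟩
    have hdh : ∀ d : ℕ, d ∣ t1 → d ∣ t2 → d ≤ h := by
      intro d h1 h2
      have h3 : d ∣ t1 - t2 := Nat.dvd_sub h1 h2
      have := Nat.le_of_dvd (by omega) h3
      omega
    have hbig : ∀ d : ℕ, d ∣ t1 → d ∣ t2 → L ^ 5 < (d : ℝ) → (t2, t1) ∈ badL ∪ bad2 ∪ bad3 := by
      intro d h1 h2 h3
      rw [mem_union, mem_union]
      left; left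
      rw [hbadL, mem_biUnion]
      exact ⟨d, mem_Ioc.2 ⟨(Nat.floor_lt hL5).2 h3, hdh d h1 h2⟩, hmem d h1 h2⟩
    by_cases hg : ((Nat.gcd t1 t2 : ℕ) : ℝ) ≤ L ^ 5
    · have h4 := hno t2 hR2 t1 hR1 τ hτR hq3 hτ1 hg
      rcases four_primes h4 with ⟨a, b, ha, hb, h7, hab, hdv⟩ | ⟨a, b, c, ha, hb, hc, h7, hab, hbc, hdv⟩
      · have e1 := dvd_trans hdv hgd1
        have e2 := dvd_trans hdv hgd2
        by_cases h5 : ((15 * a * b : ℕ) : ℝ) ≤ L ^ 5
        · rw [mem_union, mem_union]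
          left; right
          rw [hbad2, mem_biUnion]
          have h6 := hdh _ e1 e2
          refine ⟨b, mem_range.2 ?_, ?_⟩
          · nlinarith
          rw [mem_biUnion]
          refine ⟨a, mem_range.2 hab, ?_⟩
          rw [if_pos ⟨ha, hb, h7, hab, h5⟩]
          exact hmem _ e1 e2
        · exact hbig _ e1 e2 (not_le.1 h5)
      · have e1 := dvd_trans hdv hgd1
        have e2 := dvd_trans hdv hgd2
        by_cases h5 : ((a * b * c : ℕ) : ℝ) ≤ L ^ 5
        · rw [mem_union]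
          right
          rw [hbad3, mem_biUnion]
          have h6 := hdh _ e1 e2
          refine ⟨c, mem_range.2 ?_, ?_⟩
          · have : 1 ≤ a * b := Nat.mul_pos ha.pos hb.pos
            nlinarith
          rw [mem_biUnion]
          refine ⟨b, mem_range.2 hbc, ?_⟩
          rw [mem_biUnion]
          refine ⟨a, mem_range.2 hab, ?_⟩
          rw [if_pos ⟨ha, hb, hc, h7, hab, hbc, h5⟩]
          exact hmem _ e1 e2
        · exact hbig _ e1 e2 (not_le.1 h5)
    · exact hbig _ hgd1 hgd2 (not_le.1 hg)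
  -- cardinalities
  have key : ∀ d : ℕ, Odd d → (d : ℝ) ≤ L ^ 5 → ((lt2 (S d)).card : ℝ) ≤
      1769.75 * ρ ^ 2 * ((d : ℝ) / (Nat.totient d : ℝ) ^ 2) ^ 2 := by
    intro d h1 h2
    have h3 := hd d h1 h2
    have h4 : (2 : ℝ) * ((lt2 (S d)).card : ℝ) ≤ ((S d).card : ℝ) ^ 2 := by exact_mod_cast lt2_card (S d)
    set f : ℝ := (d : ℝ) / (Nat.totient d : ℝ) ^ 2 with hf
    have hf0 : 0 ≤ f := by positivity
    have h5 : ((S d).card : ℝ) ≤ (9.4 / 0.158) * (f * ρ) := by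
      have e1 : 9.4 * (h : ℝ) * f * w = (9.4 / 0.158) * (f * (0.158 * h * w)) := by ring
      rw [e1] at h3
      refine le_trans h3 ?_
      exact mul_le_mul_of_nonneg_left (mul_le_mul_of_nonneg_left hρ hf0) (by norm_num)
    have h6 : ((S d).card : ℝ) ^ 2 ≤ ((9.4 / 0.158) * (f * ρ)) ^ 2 :=
      pow_le_pow_left₀ (by positivity) h5 2
    have h7 : ((9.4 / 0.158) * (f * ρ)) ^ 2 = (9.4 / 0.158) ^ 2 * (f ^ 2 * ρ ^ 2) := by ring
    have h8 : (9.4 / 0.158 : ℝ) ^ 2 ≤ 2 * 1769.75 := by norm_num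
    have h9 : 0 ≤ f ^ 2 * ρ ^ 2 := by positivity
    have h10 := mul_le_mul_of_nonneg_right h8 h9
    rw [h7] at h6
    linarith
  have c1 : (badL.card : ℝ) ≤ 0.01206 * ρ ^ 2 := by
    have h1 : (badL.card : ℝ) ≤ ∑ d ∈ Ioc K h, 2 * (h : ℝ) ^ 2 * ((d : ℝ) ^ 2)⁻¹ := by
      have h2 : (badL.card : ℝ) ≤ ∑ d ∈ Ioc K h, ((lt2 (S d)).card : ℝ) := by
        exact_mod_cast card_biUnion_le
      refine le_trans h2 (sum_le_sum fun d hd => ?_)
      rw [mem_Ioc] at hd
      have h3 : (2 : ℝ) * ((lt2 (S d)).card : ℝ) ≤ ((S d).card : ℝ) ^ 2 := by exact_mod_cast lt2_card (S d)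
      have h4 := mult_card hR (by omega : 0 < d) hd.2
      have h5 : ((S d).card : ℝ) ^ 2 ≤ (2 * h / d) ^ 2 := pow_le_pow_left₀ (by positivity) h4 2
      have h6 : (2 * (h : ℝ) / d) ^ 2 = 2 * (2 * (h : ℝ) ^ 2 * ((d : ℝ) ^ 2)⁻¹) := by
        rw [div_pow]; ring
      rw [h6] at h5
      linarith
    rw [← mul_sum] at h1
    have hKbig : 0.999 * L ^ 5 ≤ (K : ℝ) := by
      have h2 := Nat.lt_floor_add_one (L ^ 5)
      have h3 : (1000 : ℝ) ≤ L ^ 5 := by
        have : (1663.5 : ℝ) ^ 5 ≤ L ^ 5 := pow_le_pow_left₀ (by norm_num) hL 5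
        refine le_trans ?_ this
        norm_num
      rw [hK]
      linarith
    have hK0 : (0 : ℝ) < K := lt_of_lt_of_le (by positivity) hKbig
    have hsum : ∑ d ∈ Ioc K h, ((d : ℝ) ^ 2)⁻¹ ≤ (K : ℝ)⁻¹ := by
      by_cases hKh : K ≤ h
      · have h2 := sum_Ioc_inv_sq_le_sub (α := ℝ) (k := K) (n := h) (by
          intro h0
          rw [h0] at hK0
          simp at hK0) hKh
        have h3 : (0 : ℝ) ≤ (h : ℝ)⁻¹ := by positivity
        linarith
      · rw [Ioc_eq_empty (by omega), sum_empty]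
        positivity
    have h2 : (badL.card : ℝ) ≤ 2 * (h : ℝ) ^ 2 * (K : ℝ)⁻¹ :=
      le_trans h1 (mul_le_mul_of_nonneg_left hsum (by positivity))
    set z : ℝ := h / L ^ 2 with hz
    have hz0 : 0 < z := by positivity
    have hzρ : 0.316 * z ≤ ρ := by
      refine le_trans ?_ hρ
      have h3 := mul_le_mul_of_nonneg_left hw (by positivity : (0 : ℝ) ≤ 0.158 * h)
      have h4 : 0.158 * (h : ℝ) * (2 / L ^ 2) = 0.316 * z := by rw [hz]; ring
      linarith
    have hzρ2 : (0.316 * z) ^ 2 ≤ ρ ^ 2 := pow_le_pow_left₀ (by positivity) hzρ 2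
    have hh2 : (h : ℝ) ^ 2 = z ^ 2 * L ^ 4 := by
      rw [hz]
      field_simp
    have h5 : 2 * (h : ℝ) ^ 2 * (K : ℝ)⁻¹ ≤ 0.001204 * z ^ 2 := by
      rw [← div_eq_mul_inv, div_le_iff₀ hK0, hh2]
      have h6 : z ^ 2 * (0.999 * L ^ 5) ≤ z ^ 2 * K := mul_le_mul_of_nonneg_left hKbig (by positivity)
      have h7 : z ^ 2 * L ^ 4 * 1663.5 ≤ z ^ 2 * L ^ 4 * L := mul_le_mul_of_nonneg_left hL (by positivity)
      have h8 : 0 ≤ z ^ 2 * L ^ 4 := by positivity
      nlinarith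
    nlinarith
  have c2 : (bad2.card : ℝ) ≤ 0.24946 * ρ ^ 2 := by
    have h1 : (bad2.card : ℝ) ≤ ∑ b ∈ range N, ∑ a ∈ range b, 1769.75 * ρ ^ 2 * ((15 / 64) ^ 2 * (yy b * yy a)) := by
      have h2 : (bad2.card : ℝ) ≤ ∑ b ∈ range N, (((range b).biUnion (fun a =>
          if a.Prime ∧ b.Prime ∧ 7 ≤ a ∧ a < b ∧ ((15 * a * b : ℕ) : ℝ) ≤ L ^ 5 then lt2 (S (15 * a * b)) else ∅)).card : ℝ) := by
        exact_mod_cast card_biUnion_le
      refine le_trans h2 (sum_le_sum fun b hb => ?_)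
      have h3 : (((range b).biUnion (fun a =>
          if a.Prime ∧ b.Prime ∧ 7 ≤ a ∧ a < b ∧ ((15 * a * b : ℕ) : ℝ) ≤ L ^ 5 then lt2 (S (15 * a * b)) else ∅)).card : ℝ)
          ≤ ∑ a ∈ range b, ((if a.Prime ∧ b.Prime ∧ 7 ≤ a ∧ a < b ∧ ((15 * a * b : ℕ) : ℝ) ≤ L ^ 5 then lt2 (S (15 * a * b)) else ∅).card : ℝ) := by
        exact_mod_cast card_biUnion_le
      refine le_trans h3 (sum_le_sum fun a ha => ?_)
      split_ifs with hc
      · obtain ⟨ha, hb, h7, hab, h5⟩ := hc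
        have hodd : Odd (15 * a * b) := by
          have o1 := ha.odd_of_ne_two (by omega)
          have o2 := hb.odd_of_ne_two (by omega)
          exact ((by decide : Odd 15).mul o1).mul o2
        have h6 := key _ hodd h5
        rwa [phi15 ha hb h7 hab] at h6
      · rw [card_empty, Nat.cast_zero]
        have := yy_nonneg a
        have := yy_nonneg b
        positivity
    have h2 : ∑ b ∈ range N, ∑ a ∈ range b, 1769.75 * ρ ^ 2 * ((15 / 64) ^ 2 * (yy b * yy a))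
        = 1769.75 * ρ ^ 2 * (15 / 64) ^ 2 * ∑ b ∈ range N, yy b * AA b := by
      rw [mul_sum]
      refine sum_congr rfl fun b _ => ?_
      unfold AA
      rw [mul_sum, mul_sum]
      refine sum_congr rfl fun a _ => ?_
      ring
    rw [h2] at h1
    have h3 := e2_le (c := N) (by omega)
    have h4 := mul_le_mul_of_nonneg_left h3 (by positivity : (0 : ℝ) ≤ 1769.75 * ρ ^ 2 * (15 / 64) ^ 2)
    have h5 : (0 : ℝ) ≤ ρ ^ 2 := by positivity
    norm_num at h4 ⊢
    nlinarith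
  have c3 : (bad3.card : ℝ) ≤ 0.1568 * ρ ^ 2 := by
    have h1 : (bad3.card : ℝ) ≤ ∑ c ∈ range N, ∑ b ∈ range c, ∑ a ∈ range b,
        1769.75 * ρ ^ 2 * (yy c * (yy b * yy a)) := by
      have h2 : (bad3.card : ℝ) ≤ ∑ c ∈ range N, (((range c).biUnion (fun b => (range b).biUnion (fun a =>
        if a.Prime ∧ b.Prime ∧ c.Prime ∧ 7 ≤ a ∧ a < b ∧ b < c ∧ ((a * b * c : ℕ) : ℝ) ≤ L ^ 5 then
          lt2 (S (a * b * c)) else ∅))).card : ℝ) := by
        exact_mod_cast card_biUnion_le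
      refine le_trans h2 (sum_le_sum fun c hc => ?_)
      have h3 : (((range c).biUnion (fun b => (range b).biUnion (fun a =>
        if a.Prime ∧ b.Prime ∧ c.Prime ∧ 7 ≤ a ∧ a < b ∧ b < c ∧ ((a * b * c : ℕ) : ℝ) ≤ L ^ 5 then
          lt2 (S (a * b * c)) else ∅))).card : ℝ) ≤ ∑ b ∈ range c, (((range b).biUnion (fun a =>
        if a.Prime ∧ b.Prime ∧ c.Prime ∧ 7 ≤ a ∧ a < b ∧ b < c ∧ ((a * b * c : ℕ) : ℝ) ≤ L ^ 5 then
          lt2 (S (a * b * c)) else ∅)).card : ℝ) := by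
        exact_mod_cast card_biUnion_le
      refine le_trans h3 (sum_le_sum fun b hb => ?_)
      have h4 : (((range b).biUnion (fun a =>
        if a.Prime ∧ b.Prime ∧ c.Prime ∧ 7 ≤ a ∧ a < b ∧ b < c ∧ ((a * b * c : ℕ) : ℝ) ≤ L ^ 5 then
          lt2 (S (a * b * c)) else ∅)).card : ℝ) ≤ ∑ a ∈ range b,
        ((if a.Prime ∧ b.Prime ∧ c.Prime ∧ 7 ≤ a ∧ a < b ∧ b < c ∧ ((a * b * c : ℕ) : ℝ) ≤ L ^ 5 then
          lt2 (S (a * b * c)) else ∅).card : ℝ) := by
        exact_mod_cast card_biUnion_le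
      refine le_trans h4 (sum_le_sum fun a ha => ?_)
      split_ifs with hc
      · obtain ⟨ha, hb, hc, h7, hab, hbc, h5⟩ := hc
        have hodd : Odd (a * b * c) := by
          have o1 := ha.odd_of_ne_two (by omega)
          have o2 := hb.odd_of_ne_two (by omega)
          have o3 := hc.odd_of_ne_two (by omega)
          exact (o1.mul o2).mul o3
        have h6 := key _ hodd h5
        rwa [phi3 ha hb hc h7 hab hbc] at h6
      · rw [card_empty, Nat.cast_zero]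
        have := yy_nonneg a
        have := yy_nonneg b
        have := yy_nonneg c
        positivity
    have h2 : ∑ c ∈ range N, ∑ b ∈ range c, ∑ a ∈ range b, 1769.75 * ρ ^ 2 * (yy c * (yy b * yy a))
        = 1769.75 * ρ ^ 2 * ∑ c ∈ range N, yy c * (∑ b ∈ range c, yy b * AA b) := by
      rw [mul_sum]
      refine sum_congr rfl fun c _ => ?_
      rw [mul_sum, mul_sum]
      refine sum_congr rfl fun b _ => ?_
      unfold AA
      rw [mul_sum, mul_sum, mul_sum]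
    rw [h2] at h1
    have h3 := e3_le N
    have h4 := mul_le_mul_of_nonneg_left h3 (by positivity : (0 : ℝ) ≤ 1769.75 * ρ ^ 2)
    have h5 : (0 : ℝ) ≤ ρ ^ 2 := by positivity
    norm_num at h4 ⊢
    nlinarith
  have c4 : ((far y D).card : ℝ) ≤ (badL.card : ℝ) + bad2.card + bad3.card := by
    have h1 : (far y D).card ≤ badL.card + bad2.card + bad3.card :=
      le_trans (card_le_card hsub) (le_trans (card_union_le _ _) (Nat.add_le_add_right (card_union_le _ _) _))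
    exact_mod_cast h1
  have hx1 : 0.9702 * ρ ≤ (D.card : ℝ) := by linarith
  have hx2 : 0.9107 * ρ ≤ (D.card : ℝ) - 2 * K' := by linarith
  have hx3 := mul_le_mul hx1 hx2 (by positivity) (by positivity)
  have hρ2 : 0 < ρ ^ 2 := by positivity
  nlinarith

theorem totient_two_mul_le (s : ℕ) : Nat.totient (2 * s) ≤ s := by
  rw [Nat.totient_eq_card_coprime]
  have h1 : ((range (2 * s)).filter (fun a => (2 * s).Coprime a)).card ≤ (range s).card := by
    refine card_le_card_of_injOn (fun a => a / 2) ?_ ?_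
    · intro a ha
      rw [mem_coe, mem_filter, mem_range] at ha
      rw [mem_coe, mem_range]
      dsimp only
      omega
    · intro a ha b hb hab
      rw [mem_coe, mem_filter] at ha hb
      have e1 : ∀ c : ℕ, (2 * s).Coprime c → c % 2 = 1 := by
        intro c hc
        have := Nat.Coprime.coprime_dvd_left (Dvd.intro s rfl : 2 ∣ 2 * s) hc
        rw [Nat.coprime_two_left] at this
        exact Nat.odd_iff.1 this
      have e2 := e1 a ha.2
      have e3 := e1 b hb.2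
      dsimp only at hab
      omega
  rwa [card_range] at h1

theorem WW_ge {s : ℕ} (hs : 0 < s) : 2 ≤ WW s := by
  unfold WW
  have h1 := totient_two_mul_le s
  have h2 : 0 < Nat.totient (2 * s) := Nat.totient_pos.2 (by omega)
  rw [le_div_iff₀ (by exact_mod_cast h2)]
  have h3 : (Nat.totient (2 * s) : ℝ) ≤ s := by exact_mod_cast h1
  push_cast
  linarith

theorem X0_big : 10 ^ 700 ≤ X0 := by
  unfold X0
  calc 10 ^ 700 ≤ 10 ^ 720 := Nat.pow_le_pow_right (by norm_num) (by norm_num)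
    _ = (10 ^ 3) ^ 240 := by rw [← pow_mul]
    _ ≤ (2 ^ 10) ^ 240 := Nat.pow_le_pow_left (by norm_num) 240
    _ = 2 ^ 2400 := by rw [← pow_mul]

theorem log_ge {n : ℕ} (hn : X0 ≤ n) : 1663.5 ≤ Real.log n := by
  have h1 : ((2 : ℝ) ^ 2400) ≤ n := by
    unfold X0 at hn
    have : (((2 ^ 2400 : ℕ)) : ℝ) ≤ (n : ℝ) := Nat.cast_le.2 hn
    rwa [Nat.cast_pow, Nat.cast_ofNat] at this
  have h2 := Real.log_le_log (by positivity) h1
  rw [Real.log_pow] at h2
  have h3 := Real.log_two_gt_d9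
  push_cast at h2
  linarith

theorem log_pow_le {n : ℕ} (hn : 10 ^ 50 ≤ n) : 10 ^ 20 * (Real.log n) ^ 5 ≤ n := by
  have hn1 : (10 : ℝ) ^ 50 ≤ n := by exact_mod_cast hn
  have hn0 : (0 : ℝ) ≤ n := Nat.cast_nonneg n
  have h1 := Real.log_le_rpow_div hn0 (by norm_num : (0 : ℝ) < 1 / 10)
  have h0 : 0 ≤ Real.log n := Real.log_nonneg (le_trans (by norm_num) hn1)
  have h2 : (Real.log n) ^ 5 ≤ ((n : ℝ) ^ (1 / 10 : ℝ) / (1 / 10)) ^ 5 := pow_le_pow_left₀ h0 h1 5
  have h3 : ((n : ℝ) ^ (1 / 10 : ℝ) / (1 / 10)) ^ 5 = 10 ^ 5 * Real.sqrt n := by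
    rw [div_pow, ← Real.rpow_natCast, ← Real.rpow_mul hn0, Real.sqrt_eq_rpow]
    norm_num
    ring
  rw [h3] at h2
  have h4 : (10 : ℝ) ^ 25 ≤ Real.sqrt n := by
    apply Real.le_sqrt_of_sq_le
    refine le_trans ?_ hn1
    norm_num
  have h5 := Real.mul_self_sqrt hn0
  nlinarith

end SelC

open SelC in
theorem selC {n x s : ℕ} (hn : X0 ≤ n) (hx : n ≤ x) (hx' : 10 * (x + LL n) ≤ 12 * n) (hxs : x < s)
    (hsx : s < x + LL n)
    (hA : 0.0818 * WW s * (LL n : ℝ) / (Real.log n) ^ 2 ≤ ((TT n x s).card : ℝ))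
    (hB : ∀ t0 y d : ℕ, y0 n ≤ y → 4 * (t0 + y) ≤ n → Odd d → (d : ℝ) ≤ (Real.log n) ^ 5 →
      (((Finset.Ioc t0 (t0 + y)).filter (fun t => d ∣ t ∧ (s - t).Prime ∧ (s + t).Prime)).card : ℝ) ≤
        9.4 * y * ((d : ℝ) / (Nat.totient d : ℝ) ^ 2) * WW s / (Real.log n) ^ 2) :
    ∃ t2 t1 τ : ℕ, t2 ∈ TT n x s ∧ t1 ∈ TT n x s ∧ τ ∈ TT n x s ∧
      3 * hh n < t2 ∧ t2 + y0 n ≤ t1 ∧ t1 + y0 n ≤ τ ∧ τ ≤ t2 + hh n ∧
      10 ^ 20 * Nat.gcd t1 t2 ≤ n ∧
      ((Nat.gcd t1 t2).primeFactors.filter (fun ℓ => 3 ≤ ℓ)).card ≤ 3 := by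
  classical
  have hbig : 10 ^ 50 ≤ n := le_trans (Nat.pow_le_pow_right (by norm_num) (by norm_num)) (le_trans X0_big hn)
  have hL := log_ge hn
  have hLn := log_pow_le hbig
  set L : ℝ := Real.log n with hLdef
  have hL0 : 0 < L := by linarith
  set h := hh n with hh
  set y := y0 n with hy
  have hhn : 10 ^ 14 * h ≤ n := by
    rw [hh]
    unfold MP_713a1e_co.E.hh
    exact Nat.mul_div_le n (10 ^ 14)
  have hh1 : 10 ^ 6 ≤ h := by
    rw [hh]
    unfold MP_713a1e_co.E.hh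
    rw [Nat.le_div_iff_mul_le (by norm_num)]
    exact le_trans (by norm_num) hbig
  have hy1 : 2000 * y ≤ h := by
    rw [hy]
    unfold y0
    exact Nat.mul_div_le _ 2000
  have hypos : 0 < y := by
    rw [hy]
    unfold y0
    exact Nat.div_pos (le_trans (by norm_num) hh1) (by norm_num)
  have hLL : LL n = 10 ^ 4 * h := rfl
  set w : ℝ := WW s / L ^ 2 with hw
  have hWW := WW_ge (s := s) (by omega)
  have hw0 : 0 < w := by positivity
  have hw2 : 2 / L ^ 2 ≤ w := div_le_div_of_nonneg_right hWW (by positivity)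
  have hhR : (0 : ℝ) < h := by exact_mod_cast (by omega : 0 < h)
  have hyR : (y : ℝ) ≤ h / 2000 := by
    rw [le_div_iff₀ (by norm_num)]
    have : ((2000 * y : ℕ) : ℝ) ≤ h := by exact_mod_cast hy1
    push_cast at this
    linarith
  have hT : ∀ t ∈ TT n x s, t < 5000 * h ∧ (s - t).Prime ∧ (s + t).Prime := by
    intro t ht
    unfold TT at ht
    rw [mem_filter, mem_Icc] at ht
    obtain ⟨⟨h1, h2⟩, h3, h4, h5, h6⟩ := ht
    rw [hLL] at h4
    refine ⟨?_, h5, h6⟩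
    omega
  have hcardT : 818 * (h : ℝ) * w ≤ ((TT n x s).card : ℝ) := by
    refine le_trans (le_of_eq ?_) hA
    rw [hLL, hw]
    push_cast
    ring
  -- counting via `hB`
  have hcount : ∀ t0 z d : ℕ, y ≤ z → 4 * (t0 + z) ≤ n → Odd d → (d : ℝ) ≤ L ^ 5 →
      (((TT n x s).filter (fun t => (t0 < t ∧ t ≤ t0 + z) ∧ d ∣ t)).card : ℝ) ≤
        9.4 * z * ((d : ℝ) / (Nat.totient d : ℝ) ^ 2) * w := by
    intro t0 z d h1 h2 h3 h4
    have h5 := hB t0 z d h1 h2 h3 h4
    have h6 : ((TT n x s).filter (fun t => (t0 < t ∧ t ≤ t0 + z) ∧ d ∣ t)).card ≤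
        ((Finset.Ioc t0 (t0 + z)).filter (fun t => d ∣ t ∧ (s - t).Prime ∧ (s + t).Prime)).card := by
      refine card_le_card ?_
      intro t ht
      rw [mem_filter] at ht
      have := hT t ht.1
      rw [mem_filter, mem_Ioc]
      exact ⟨ht.2.1, ht.2.2, this.2.1, this.2.2⟩
    have h7 : 9.4 * (z : ℝ) * ((d : ℝ) / (Nat.totient d : ℝ) ^ 2) * w =
        9.4 * z * ((d : ℝ) / (Nat.totient d : ℝ) ^ 2) * WW s / L ^ 2 := by
      rw [hw]
      ring
    rw [h7]
    exact le_trans (by exact_mod_cast h6) h5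
  have hone : ∀ t0 z : ℕ, y ≤ z → 4 * (t0 + z) ≤ n →
      (((TT n x s).filter (fun t => t0 < t ∧ t ≤ t0 + z)).card : ℝ) ≤ 9.4 * z * w := by
    intro t0 z h1 h2
    have h3 := hcount t0 z 1 h1 h2 odd_one (by
      rw [Nat.cast_one]
      exact one_le_pow₀ (by linarith))
    simpa using h3
  -- the cells
  set cell : ℕ → Finset ℕ := fun k => (TT n x s).filter (fun t => (k + 3) * h < t ∧ t ≤ (k + 3) * h + h) with hcell
  obtain ⟨k, hk, hρ⟩ : ∃ k ∈ range 4997, 0.158 * (h : ℝ) * w ≤ ((cell k).card : ℝ) := by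
    by_contra hcon
    push Not at hcon
    have h1 : (TT n x s).card ≤ ((TT n x s).filter (fun t => 0 < t ∧ t ≤ 0 + 3 * h)).card +
        ∑ k ∈ range 4997, (cell k).card := by
      refine le_trans (card_le_card ?_) (le_trans (card_union_le _ _) (Nat.add_le_add_left card_biUnion_le _))
      intro t ht
      have h2 := (hT t ht).1
      have h0 : 1 ≤ t := by
        unfold TT at ht
        rw [mem_filter, mem_Icc] at ht
        exact ht.1.1
      rw [mem_union]
      by_cases h3 : t ≤ 3 * h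
      · left
        rw [mem_filter]
        exact ⟨ht, h0, by omega⟩
      · right
        have hh0 : 0 < h := by omega
        have e1 : 3 ≤ (t - 1) / h := by
          rw [Nat.le_div_iff_mul_le hh0]
          omega
        have e2 : (t - 1) / h < 5000 := by
          rw [Nat.div_lt_iff_lt_mul hh0]
          omega
        have e3 := Nat.div_add_mod (t - 1) h
        have e4 := Nat.mod_lt (t - 1) hh0
        rw [mem_biUnion]
        refine ⟨(t - 1) / h - 3, mem_range.2 (by omega), ?_⟩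
        rw [hcell]
        dsimp only
        rw [mem_filter, Nat.sub_add_cancel e1]
        have e5 : (t - 1) / h * h = h * ((t - 1) / h) := mul_comm _ _
        refine ⟨ht, ?_, ?_⟩ <;> omega
    have h2 := hone 0 (3 * h) (by omega) (by omega)
    have h3 : ((TT n x s).card : ℝ) ≤ (((TT n x s).filter (fun t => 0 < t ∧ t ≤ 0 + 3 * h)).card : ℝ) +
        ∑ k ∈ range 4997, ((cell k).card : ℝ) := by exact_mod_cast h1
    have h4 : ∑ k ∈ range 4997, ((cell k).card : ℝ) ≤ ∑ _k ∈ range 4997, 0.158 * (h : ℝ) * w :=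
      sum_le_sum fun k hk => (hcon k hk).le
    rw [sum_const, card_range, nsmul_eq_mul] at h4
    push_cast at h2 h4
    have h5 : 0 < (h : ℝ) * w := by positivity
    clear hn hB hbig hcon h1
    have h6 : 818 * ((h : ℝ) * w) ≤ 28.2 * (h * w) + 789.526 * (h * w) := by linarith
    linarith
  rw [mem_range] at hk
  have hcellT : cell k ⊆ TT n x s := filter_subset _ _
  have hkh : (k + 3) * h ≤ 4999 * h := Nat.mul_le_mul_right h (by omega)
  have hkh' : 3 * h ≤ (k + 3) * h := Nat.mul_le_mul_right h (by omega)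
  obtain ⟨t2, ht2, t1, ht1, τ, hτ, a1, a2, a3, a4⟩ := good_pair (R := cell k) (t0 := (k + 3) * h) (h := h)
    (y := y) (L := L) (w := w) (fun t ht => (mem_filter.1 ht).2) (by omega) hypos (by omega) hL hw2 hρ
    (fun t ht => by
      have h1 := hone t y (le_refl _) (by omega)
      have h2 : (((cell k).filter (fun a => t < a ∧ a ≤ t + y)).card : ℝ) ≤
          (((TT n x s).filter (fun a => t < a ∧ a ≤ t + y)).card : ℝ) := by
        exact_mod_cast card_le_card (filter_subset_filter _ hcellT)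
      have h3 : 9.4 * (y : ℝ) * w ≤ 9.4 * (h / 2000) * w := by
        have := mul_le_mul_of_nonneg_right hyR hw0.le
        linarith
      have h4 : 9.4 * ((h : ℝ) / 2000) * w = 0.0047 * h * w := by ring
      linarith)
    (fun d hd1 hd2 => by
      have h1 := hcount ((k + 3) * h) h d (by omega) (by omega) hd1 hd2
      have h2 : (cell k).filter (fun t => d ∣ t) =
          (TT n x s).filter (fun t => ((k + 3) * h < t ∧ t ≤ (k + 3) * h + h) ∧ d ∣ t) := by
        rw [hcell]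
        dsimp only
        rw [filter_filter]
      rw [h2]
      exact h1)
  have b2 := (mem_filter.1 ht2).2
  have bτ := (mem_filter.1 hτ).2
  refine ⟨t2, t1, τ, hcellT ht2, hcellT ht1, hcellT hτ, by omega, a1, a2, by omega, ?_, a4⟩
  have h1 : ((10 ^ 20 * Nat.gcd t1 t2 : ℕ) : ℝ) ≤ (n : ℝ) := by
    have h2 := mul_le_mul_of_nonneg_left a3 (by norm_num : (0 : ℝ) ≤ 10 ^ 20)
    push_cast
    linarith
  exact_mod_cast h1

end Pool.Agent.Work.MP_713a1e_co.E
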