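import Pool.Agent.Work.MP_713a1e_co.E.Defs

/-! # Definitions for the selection of the sum `S = 2 s` (Plan.txt, section 4) -/

namespace Pool.Agent.Work.MP_713a1e_co.E

/-- the cell length `h` -/
def hh (n : ℕ) : ℕ := n / 10 ^ 14

/-- the length of `J` -/
def LL (n : ℕ) : ℕ := 10 ^ 4 * hh n

/-- the minimal spacing `y0` -/
def y0 (n : ℕ) : ℕ := hh n / 2000

/-- representations `2 s = (s - t) + (s + t)` by primes of `J = (x, x + LL n]` -/
def TT (n x s : ℕ) : Finset ℕ :=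
  (Finset.Icc 1 n).filter (fun t => x < s - t ∧ s + t ≤ x + LL n ∧ (s - t).Prime ∧ (s + t).Prime)

/-- `W = S/φ(S)` -/
noncomputable def WW (s : ℕ) : ℝ := ((2 * s : ℕ) : ℝ) / (Nat.totient (2 * s) : ℝ)

end Pool.Agent.Work.MP_713a1e_co.E
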