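import Pool.Agent.Work.MP_713a1e_co.E.SelA
import Pool.Agent.Work.MP_713a1e_co.E.SelB
import Pool.Agent.Work.MP_713a1e_co.E.SelC

/-!
# The sum `S` with three representations (job A2d; Plan.txt, section 4, Step 6)
-/

namespace Pool.Agent.Work.MP_713a1e_co.E

theorem big_of_X0 {n : ℕ} (hn : X0 ≤ n) : 10 ^ 40 ≤ n := by
  have h1 : (10 : ℕ) ^ 40 ≤ 2 ^ 200 := by norm_num
  have h2 : (2 : ℕ) ^ 200 ≤ X0 := by
    show (2 : ℕ) ^ 200 ≤ 2 ^ 2400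
    exact Nat.pow_le_pow_right (by norm_num) (by norm_num)
  exact h1.trans (h2.trans hn)

theorem select_arith {n x s t1 t2 τ a b u : ℕ} (hbig : 10 ^ 40 ≤ n) (hx : n ≤ x)
    (hx' : 10 * (x + 10 ^ 4 * (n / 10 ^ 14)) ≤ 12 * n) (a3 : x < s - t2) (b3 : x < s - t1)
    (b4 : s + t1 ≤ x + 10 ^ 4 * (n / 10 ^ 14)) (e3 : x < s - τ)
    (e4 : s + τ ≤ x + 10 ^ 4 * (n / 10 ^ 14)) (c1 : 3 * (n / 10 ^ 14) < t2)
    (c2 : t2 + n / 10 ^ 14 / 2000 ≤ t1) (c3 : t1 + n / 10 ^ 14 / 2000 ≤ τ)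
    (c4 : τ ≤ t2 + n / 10 ^ 14)
    (ha : t1 + t2 = 2 * a) (hb : t1 = t2 + 2 * b) (hu : τ = t1 + 2 * u) :
    n < s - t2 ∧ 10 * (s - t2) ≤ 12 * n ∧ b + u ≤ a ∧ 2 * 10 ^ 10 * (a + b) ≤ n ∧
      n ≤ 5 * 10 ^ 17 * b ∧ n ≤ 5 * 10 ^ 17 * u := by
  norm_num only at *
  generalize hh : n / 100000000000000 = h at *
  generalize hy : h / 2000 = y at *
  have i1 : 100000000000000 * h ≤ n := by omega
  have i2 : n < 100000000000000 * h + 100000000000000 := by omega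
  have i3 : 2000 * y ≤ h := by omega
  have i4 : h < 2000 * y + 2000 := by omega
  clear hh hy
  refine ⟨by omega, by omega, by omega, by omega, by omega, by omega⟩

theorem select_al {n x s t1 t2 τ : ℕ} (hx : 2 ≤ x) (h2 : t2 ∈ TT n x s)
    (h1 : t1 ∈ TT n x s) (hτ : τ ∈ TT n x s) (c2 : t2 ≤ t1) (c3 : t1 ≤ τ) :
    ∃ a b u : ℕ, t1 + t2 = 2 * a ∧ t1 = t2 + 2 * b ∧ τ = t1 + 2 * u ∧
      Al (s - t2) a ∧ Al (s - t2) (-(b : ℤ)) ∧ Al (s - t2) ((a : ℤ) - b) ∧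
      Al (s - t2) ((a : ℤ) + u) ∧ Al (s - t2) (-((b : ℤ) + u)) := by
  simp only [TT, Finset.mem_filter, Finset.mem_Icc] at h2 h1 hτ
  obtain ⟨⟨a1, a2⟩, a3, a4, a5, a6⟩ := h2
  obtain ⟨⟨b1, b2⟩, b3, b4, b5, b6⟩ := h1
  obtain ⟨⟨e1, e2⟩, e3, e4, e5, e6⟩ := hτ
  have o2 : (s - t2) % 2 = 1 := a5.eq_two_or_odd.resolve_left (by omega)
  have o1 : (s - t1) % 2 = 1 := b5.eq_two_or_odd.resolve_left (by omega)
  have oτ : (s - τ) % 2 = 1 := e5.eq_two_or_odd.resolve_left (by omega)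
  clear a2 a4 b2 b4 e2 e4
  obtain ⟨a, ha⟩ : ∃ a, t1 + t2 = 2 * a := ⟨(t1 + t2) / 2, by omega⟩
  obtain ⟨b, hb⟩ : ∃ b, t1 = t2 + 2 * b := ⟨(t1 - t2) / 2, by omega⟩
  obtain ⟨u, hu⟩ : ∃ u, τ = t1 + 2 * u := ⟨(τ - t1) / 2, by omega⟩
  exact ⟨a, b, u, ha, hb, hu, ⟨s + t1, b6, by omega⟩, ⟨s - t1, b5, by omega⟩,
    ⟨s + t2, a6, by omega⟩, ⟨s + τ, e6, by omega⟩, ⟨s - τ, e5, by omega⟩⟩

theorem select_gcd {a b t1 t2 : ℕ} (ha : t1 + t2 = 2 * a) (hb : t1 = t2 + 2 * b) (ht : 0 < t1) :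
    Nat.gcd a b ∣ Nat.gcd t1 t2 ∧ 0 < Nat.gcd t1 t2 := by
  have hab1 : t1 = a + b := by omega
  have hab2 : a = t2 + b := by omega
  refine ⟨?_, Nat.gcd_pos_of_pos_left _ ht⟩
  have q1 : Nat.gcd a b ∣ a := Nat.gcd_dvd_left a b
  have q2 : Nat.gcd a b ∣ b := Nat.gcd_dvd_right a b
  have q3 : Nat.gcd a b ∣ t1 := by rw [hab1]; exact dvd_add q1 q2
  have q4 : Nat.gcd a b ∣ t2 := by
    have : Nat.gcd a b ∣ t2 + b := by rw [← hab2]; exact q1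
    exact (Nat.dvd_add_left q2).mp this
  exact Nat.dvd_gcd q3 q4

theorem select {n : ℕ} (hn : X0 ≤ n) : ∃ p a b u : ℕ,
    p.Prime ∧ n < p ∧ 10 * p ≤ 12 * n ∧
    Al p a ∧ Al p (-(b : ℤ)) ∧ Al p ((a : ℤ) - b) ∧ Al p ((a : ℤ) + u) ∧ Al p (-((b : ℤ) + u)) ∧
    b + u ≤ a ∧ 2 * 10 ^ 10 * (a + b) ≤ n ∧ n ≤ 5 * 10 ^ 17 * b ∧ n ≤ 5 * 10 ^ 17 * u ∧
    10 ^ 20 * Nat.gcd a b ≤ n ∧
    ((Nat.gcd a b).primeFactors.filter (fun ℓ => 3 ≤ ℓ)).card ≤ 3 := by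
  have hbig : 10 ^ 40 ≤ n := big_of_X0 hn
  obtain ⟨x, s, hx, hx', hxs, hsx, hA⟩ := selA hn
  obtain ⟨t2, t1, τ, h2, h1, hτ, c1, c2, c3, c4, c5, c6⟩ := selC hn hx hx' hxs hsx hA
    (fun t0 y d hy ht hd hdL => selB hn (by omega) (by omega) hy ht hd hdL)
  clear hn hA
  have hx2 : 2 ≤ x := le_trans (le_trans (by norm_num) hbig) hx
  obtain ⟨a, b, u, ha, hb, hu, A1, A2, A3, A4, A5⟩ :=
    select_al hx2 h2 h1 hτ (by omega) (by omega)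
  simp only [TT, Finset.mem_filter, Finset.mem_Icc] at h2 h1 hτ
  obtain ⟨⟨a1, a2⟩, a3, a4, a5, a6⟩ := h2
  obtain ⟨⟨b1, b2⟩, b3, b4, b5, b6⟩ := h1
  obtain ⟨⟨e1, e2⟩, e3, e4, e5, e6⟩ := hτ
  obtain ⟨B1, B2, B3, B4, B5, B6⟩ :=
    select_arith hbig hx hx' a3 b3 b4 e3 e4 c1 c2 c3 c4 ha hb hu
  obtain ⟨hg, hg0⟩ := select_gcd ha hb b1
  refine ⟨s - t2, a, b, u, a5, B1, B2, A1, A2, A3, A4, A5, B3, B4, B5, B6, ?_, ?_⟩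
  · exact le_trans (Nat.mul_le_mul_left _ (Nat.le_of_dvd hg0 hg)) c5
  · refine le_trans (Finset.card_le_card ?_) c6
    exact Finset.filter_subset_filter _ (Nat.primeFactors_mono hg hg0.ne')

end Pool.Agent.Work.MP_713a1e_co.E
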