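import Pool.Agent.Work.MP_92f640_nt.Sieve

/-!
# Selberg weights for a general density function
-/

namespace Pool.Agent.Work.MP_713a1e_co.E

open Finset Pool.Agent.Work.MP_92f640_nt

/-- `∏_{p ∣ d} r(p)/(p - r(p))` -/
noncomputable def selH (r : ℕ → ℝ) (d : ℕ) : ℝ := ∏ p ∈ d.primeFactors, r p / ((p : ℝ) - r p)

/-- `∏_{p ∣ d} p / r(p)`, the inverse of the density -/
noncomputable def selI (r : ℕ → ℝ) (d : ℕ) : ℝ := ∏ p ∈ d.primeFactors, (p : ℝ) / r p

/-- The Selberg sum -/
noncomputable def selG (r : ℕ → ℝ) (D R : ℕ) : ℝ := ∑ d ∈ sqf D R, selH r d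

/-- The density function is admissible. -/
def Adm (r : ℕ → ℝ) : Prop := ∀ p : ℕ, p.Prime → 1 ≤ r p ∧ r p < p

theorem selH_pos {r : ℕ → ℝ} (hr : Adm r) (d : ℕ) : 0 < selH r d := by
  unfold selH
  apply Finset.prod_pos
  intro p hp
  obtain ⟨h1, h2⟩ := hr p (Nat.prime_of_mem_primeFactors hp)
  apply div_pos (by linarith) (by linarith)

theorem selI_pos {r : ℕ → ℝ} (hr : Adm r) (d : ℕ) : 0 < selI r d := by
  unfold selI
  apply Finset.prod_pos
  intro p hp
  obtain ⟨h1, h2⟩ := hr p (Nat.prime_of_mem_primeFactors hp)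
  apply div_pos (by linarith) (by linarith)

theorem selH_one (r : ℕ → ℝ) : selH r 1 = 1 := by simp [selH]

theorem selI_one (r : ℕ → ℝ) : selI r 1 = 1 := by simp [selI]

theorem selH_mul {r : ℕ → ℝ} {a b : ℕ} (h : Nat.Coprime a b) :
    selH r (a * b) = selH r a * selH r b := by
  unfold selH
  rw [h.primeFactors_mul, Finset.prod_union h.disjoint_primeFactors]

theorem one_le_selG {r : ℕ → ℝ} (hr : Adm r) {D R : ℕ} (hR : 1 ≤ R) : 1 ≤ selG r D R := by
  unfold selG
  have h := Finset.single_le_sum (f := fun d => selH r d)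
    (fun i _ => (selH_pos hr i).le) (one_mem_sqf (D := D) hR)
  simpa [selH_one] using h

theorem selG_pos {r : ℕ → ℝ} (hr : Adm r) {D R : ℕ} (hR : 1 ≤ R) : 0 < selG r D R :=
  lt_of_lt_of_le one_pos (one_le_selG hr hR)

/-- sums over the divisors of a squarefree number of a product over the primes -/
theorem sum_divisors_prod {n : ℕ} (hn : Squarefree n) (f : ℕ → ℝ) :
    ∑ d ∈ n.divisors, ∏ p ∈ d.primeFactors, f p = ∏ p ∈ n.primeFactors, (1 + f p) := by
  have h := (ArithmeticFunction.IsMultiplicative.prodPrimeFactors f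
    ).prodPrimeFactors_one_add_of_squarefree hn
  have h1 : ∀ d ∈ n.divisors, ArithmeticFunction.prodPrimeFactors f d
      = ∏ p ∈ d.primeFactors, f p := by
    intro d hd
    rw [ArithmeticFunction.prodPrimeFactors_apply (Nat.pos_of_mem_divisors hd).ne']
  rw [Finset.sum_congr rfl h1] at h
  rw [← h]
  apply Finset.prod_congr rfl
  intro p hp
  have hpp := Nat.prime_of_mem_primeFactors hp
  rw [ArithmeticFunction.prodPrimeFactors_apply hpp.ne_zero, hpp.primeFactors,
    Finset.prod_singleton]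

theorem sum_inv_selH {r : ℕ → ℝ} (hr : Adm r) {n : ℕ} (hn : Squarefree n) :
    ∑ l ∈ n.divisors, (selH r l)⁻¹ = selI r n := by
  have h := sum_divisors_prod hn (fun p => ((p : ℝ) - r p) / r p)
  unfold selI
  have h2 : ∏ p ∈ n.primeFactors, (1 + ((p : ℝ) - r p) / r p)
      = ∏ p ∈ n.primeFactors, (p : ℝ) / r p := by
    apply Finset.prod_congr rfl
    intro p hp
    obtain ⟨h1, h2⟩ := hr p (Nat.prime_of_mem_primeFactors hp)
    have : r p ≠ 0 := by linarith
    field_simp
    ring
  rw [← h2, ← h]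
  apply Finset.sum_congr rfl
  intro l _
  unfold selH
  rw [← Finset.prod_inv_distrib]
  apply Finset.prod_congr rfl
  intro p _
  rw [inv_div]

theorem sum_selH {r : ℕ → ℝ} (hr : Adm r) {n : ℕ} (hn : Squarefree n) :
    ∑ l ∈ n.divisors, selH r l = selH r n * selI r n := by
  unfold selH selI
  rw [sum_divisors_prod hn (fun p => r p / ((p : ℝ) - r p)), ← Finset.prod_mul_distrib]
  apply Finset.prod_congr rfl
  intro p hp
  obtain ⟨h1, h2⟩ := hr p (Nat.prime_of_mem_primeFactors hp)
  have : r p ≠ 0 := by linarith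
  have : (p : ℝ) - r p ≠ 0 := by linarith
  field_simp
  ring

/-- Selberg's weights -/
noncomputable def selLam (r : ℕ → ℝ) (D R d : ℕ) : ℝ :=
  (ArithmeticFunction.moebius d : ℝ) * selI r d *
    (∑ l ∈ (sqf D R).filter (fun l => d ∣ l), selH r l) / selG r D R

theorem selLam_one {r : ℕ → ℝ} (hr : Adm r) {D R : ℕ} (hR : 1 ≤ R) : selLam r D R 1 = 1 := by
  unfold selLam
  have : (sqf D R).filter (fun l => 1 ∣ l) = sqf D R := by
    apply Finset.filter_true_of_mem
    intro l _; exact one_dvd l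
  rw [this, selI_one]
  simp only [ArithmeticFunction.moebius_apply_one, Int.cast_one, one_mul]
  exact div_self (selG_pos hr hR).ne'

theorem selLam_sum {r : ℕ → ℝ} (hr : Adm r) {D R l : ℕ} (hR : 1 ≤ R) (hl : l ∈ sqf D R) :
    ∑ d ∈ (sqf D R).filter (fun d => l ∣ d), selLam r D R d / selI r d
      = (ArithmeticFunction.moebius l : ℝ) * selH r l / selG r D R := by
  have hG := (selG_pos hr (D := D) hR).ne'
  have h1 : ∀ d ∈ (sqf D R).filter (fun d => l ∣ d), selLam r D R d / selI r d
      = ∑ m ∈ sqf D R, (if d ∣ m then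
          (ArithmeticFunction.moebius d : ℝ) * (selH r m / selG r D R) else 0) := by
    intro d hd
    have hd0 : selI r d ≠ 0 := (selI_pos hr d).ne'
    unfold selLam
    rw [Finset.sum_filter]
    rw [show (ArithmeticFunction.moebius d : ℝ) * selI r d *
      (∑ a ∈ sqf D R, if d ∣ a then selH r a else 0) / selG r D R / selI r d
      = ∑ a ∈ sqf D R, (ArithmeticFunction.moebius d : ℝ) *
          ((if d ∣ a then selH r a else 0) / selG r D R) by
        rw [← Finset.mul_sum, ← Finset.sum_div]; field_simp]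
    apply Finset.sum_congr rfl
    intro m _
    split_ifs <;> simp
  rw [Finset.sum_congr rfl h1, Finset.sum_comm]
  have h2 : ∀ m ∈ sqf D R, ∑ d ∈ (sqf D R).filter (fun d => l ∣ d), (if d ∣ m then
          (ArithmeticFunction.moebius d : ℝ) * (selH r m / selG r D R) else 0)
      = if m = l then (ArithmeticFunction.moebius l : ℝ) * (selH r m / selG r D R)
        else 0 := by
    intro m hm
    rw [← Finset.sum_filter, Finset.filter_filter, ← Finset.sum_mul, sum_moebius_between hm]
    split_ifs <;> simp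
  rw [Finset.sum_congr rfl h2, Finset.sum_ite_eq' (sqf D R) l, if_pos hl]
  ring

theorem sum_inv_selH_gcd {r : ℕ → ℝ} (hr : Adm r) {D R d e : ℕ} (hd : d ∈ sqf D R) :
    ∑ l ∈ sqf D R, (if l ∣ d ∧ l ∣ e then (selH r l)⁻¹ else 0) = selI r (Nat.gcd d e) := by
  rw [← Finset.sum_filter]
  have hset : (sqf D R).filter (fun l => l ∣ d ∧ l ∣ e) = (Nat.gcd d e).divisors := by
    ext l
    rw [Finset.mem_filter, Nat.mem_divisors]
    constructor
    · rintro ⟨h1, h2, h3⟩
      refine ⟨Nat.dvd_gcd h2 h3, ?_⟩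
      have hd0 : 0 < d := (mem_sqf.1 hd).1.1
      exact (Nat.gcd_pos_of_pos_left e hd0).ne'
    · rintro ⟨h1, _⟩
      have h2 := h1.trans (Nat.gcd_dvd_left d e)
      exact ⟨mem_sqf_of_dvd hd h2, h2, h1.trans (Nat.gcd_dvd_right d e)⟩
  rw [hset]
  exact sum_inv_selH hr ((mem_sqf.1 hd).2.1.squarefree_of_dvd (Nat.gcd_dvd_left d e))

theorem primeFactors_lcm' {d e : ℕ} (hd : d ≠ 0) (he : e ≠ 0) :
    (Nat.lcm d e).primeFactors = d.primeFactors ∪ e.primeFactors := by
  ext p
  simp only [Nat.mem_primeFactors, Finset.mem_union]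
  constructor
  · rintro ⟨h1, h2, h3⟩
    rcases (Nat.Prime.dvd_mul h1).1 (h2.trans (Nat.lcm_dvd_mul d e)) with h | h
    · exact Or.inl ⟨h1, h, hd⟩
    · exact Or.inr ⟨h1, h, he⟩
  · rintro (⟨h1, h2, h3⟩ | ⟨h1, h2, h3⟩)
    · exact ⟨h1, h2.trans (Nat.dvd_lcm_left d e), Nat.lcm_ne_zero hd he⟩
    · exact ⟨h1, h2.trans (Nat.dvd_lcm_right d e), Nat.lcm_ne_zero hd he⟩

theorem selI_gcd_lcm {r : ℕ → ℝ} {d e : ℕ} (hd : d ≠ 0) (he : e ≠ 0) :
    selI r (Nat.gcd d e) * selI r (Nat.lcm d e) = selI r d * selI r e := by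
  unfold selI
  rw [Nat.primeFactors_gcd hd he, primeFactors_lcm' hd he, mul_comm, Finset.prod_union_inter]

/-- the main term of the sieve -/
theorem selLam_main {r : ℕ → ℝ} (hr : Adm r) {D R : ℕ} (hR : 1 ≤ R) :
    ∑ d ∈ sqf D R, ∑ e ∈ sqf D R, selLam r D R d * selLam r D R e / selI r (Nat.lcm d e)
      = (selG r D R)⁻¹ := by
  have hG := (selG_pos hr (D := D) hR).ne'
  have h1 : ∀ d ∈ sqf D R, ∀ e ∈ sqf D R, selLam r D R d * selLam r D R e / selI r (Nat.lcm d e)
      = ∑ l ∈ sqf D R, (selH r l)⁻¹ * ((if l ∣ d then selLam r D R d / selI r d else 0) *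
          (if l ∣ e then selLam r D R e / selI r e else 0)) := by
    intro d hd e he
    have hd0 : d ≠ 0 := by have := (mem_sqf.1 hd).1.1; omega
    have he0 : e ≠ 0 := by have := (mem_sqf.1 he).1.1; omega
    have hlcm := selI_gcd_lcm (r := r) hd0 he0
    have hl0 := selI_pos hr (Nat.lcm d e)
    have hid := selI_pos hr d
    have hie := selI_pos hr e
    have h2 : selLam r D R d * selLam r D R e / selI r (Nat.lcm d e)
        = selI r (Nat.gcd d e) * (selLam r D R d / selI r d * (selLam r D R e / selI r e)) := by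
      field_simp
      linear_combination (-(selLam r D R d * selLam r D R e)) * hlcm
    rw [h2, ← sum_inv_selH_gcd hr hd (e := e), Finset.sum_mul]
    apply Finset.sum_congr rfl
    intro l _
    by_cases h3 : l ∣ d <;> by_cases h4 : l ∣ e <;> simp [h3, h4]
  have h2 : ∑ d ∈ sqf D R, ∑ e ∈ sqf D R, selLam r D R d * selLam r D R e / selI r (Nat.lcm d e)
      = ∑ l ∈ sqf D R, (selH r l)⁻¹ *
        ((∑ d ∈ sqf D R, if l ∣ d then selLam r D R d / selI r d else 0) *
        (∑ e ∈ sqf D R, if l ∣ e then selLam r D R e / selI r e else 0)) := by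
    rw [Finset.sum_congr rfl (fun d hd => Finset.sum_congr rfl (fun e he => h1 d hd e he))]
    simp_rw [Finset.sum_mul_sum, Finset.mul_sum]
    rw [Finset.sum_congr rfl (fun d _ => Finset.sum_comm)]
    rw [Finset.sum_comm]
  rw [h2]
  have h3 : ∀ l ∈ sqf D R, (selH r l)⁻¹ *
        ((∑ d ∈ sqf D R, if l ∣ d then selLam r D R d / selI r d else 0) *
        (∑ e ∈ sqf D R, if l ∣ e then selLam r D R e / selI r e else 0))
      = selH r l / (selG r D R) ^ 2 := by
    intro l hl
    rw [← Finset.sum_filter, selLam_sum hr hR hl]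
    have hμ : ((ArithmeticFunction.moebius l : ℝ)) ^ 2 = 1 := by
      exact_mod_cast ArithmeticFunction.moebius_sq_eq_one_of_squarefree (mem_sqf.1 hl).2.1
    have hφ : selH r l ≠ 0 := (selH_pos hr l).ne'
    rw [show (selH r l)⁻¹ * ((ArithmeticFunction.moebius l : ℝ) * selH r l
        / selG r D R * ((ArithmeticFunction.moebius l : ℝ) * selH r l / selG r D R))
      = ((ArithmeticFunction.moebius l : ℝ)) ^ 2 * ((selH r l * (selH r l)⁻¹)
        * selH r l / (selG r D R) ^ 2) by ring]
    rw [hμ, mul_inv_cancel₀ hφ]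
    ring
  rw [Finset.sum_congr rfl h3, ← Finset.sum_div]
  change selG r D R / (selG r D R) ^ 2 = _
  field_simp

/-- Selberg's weights are at most one in absolute value. -/
theorem abs_selLam_le {r : ℕ → ℝ} (hr : Adm r) {D R d : ℕ} (hR : 1 ≤ R) (hd : d ∈ sqf D R) :
    |selLam r D R d| ≤ 1 := by
  have hG := selG_pos hr (D := D) hR
  have hμ : |(ArithmeticFunction.moebius d : ℝ)| ≤ 1 := by
    have := ArithmeticFunction.abs_moebius_le_one (n := d)
    exact_mod_cast this
  have hd' := mem_sqf.1 hd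
  have hd0 : 0 < d := hd'.1.1
  have hS0 : 0 ≤ ∑ l ∈ (sqf D R).filter (fun l => d ∣ l), selH r l :=
    Finset.sum_nonneg (fun i _ => (selH_pos hr i).le)
  have key : selI r d * ∑ l ∈ (sqf D R).filter (fun l => d ∣ l), selH r l ≤ selG r D R := by
    -- write `l = d * m`
    have h1 : ∀ l ∈ (sqf D R).filter (fun l => d ∣ l), selI r d * selH r l
        = ∑ k ∈ d.divisors, selH r (k * (l / d)) := by
      intro l hl
      rw [Finset.mem_filter] at hl
      obtain ⟨m, rfl⟩ := hl.2
      have hsq := (mem_sqf.1 hl.1).2.1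
      have hcop : Nat.Coprime d m := Nat.coprime_of_squarefree_mul hsq
      rw [Nat.mul_div_cancel_left m hd0, selH_mul hcop]
      have h2 : ∀ k ∈ d.divisors, selH r (k * m) = selH r k * selH r m := by
        intro k hk
        exact selH_mul (Nat.Coprime.coprime_dvd_left (Nat.dvd_of_mem_divisors hk) hcop)
      rw [Finset.sum_congr rfl h2, ← Finset.sum_mul, sum_selH hr hd'.2.1]
      ring
    rw [Finset.mul_sum, Finset.sum_congr rfl h1, ← Finset.sum_product']
    unfold selG
    rw [← Finset.sum_image (f := fun x => selH r x)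
      (s := (sqf D R).filter (fun l => d ∣ l) ×ˢ d.divisors)
      (g := fun x : ℕ × ℕ => x.2 * (x.1 / d))]
    · apply Finset.sum_le_sum_of_subset_of_nonneg
      · intro x hx
        rw [Finset.mem_image] at hx
        obtain ⟨⟨l, k⟩, hlk, rfl⟩ := hx
        rw [Finset.mem_product, Finset.mem_filter] at hlk
        obtain ⟨⟨h3, h4⟩, h5⟩ := hlk
        obtain ⟨m, rfl⟩ := h4
        apply mem_sqf_of_dvd h3
        change k * (d * m / d) ∣ d * m
        rw [Nat.mul_div_cancel_left m hd0]
        exact Nat.mul_dvd_mul_right (Nat.dvd_of_mem_divisors h5) m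
      · intro x _ _
        exact (selH_pos hr x).le
    · rintro ⟨l, k⟩ hlk ⟨l', k'⟩ hlk' heq
      rw [Finset.mem_coe, Finset.mem_product, Finset.mem_filter] at hlk hlk'
      obtain ⟨⟨h3, h4⟩, h5⟩ := hlk
      obtain ⟨⟨h3', h4'⟩, h5'⟩ := hlk'
      obtain ⟨m, rfl⟩ := h4
      obtain ⟨m', rfl⟩ := h4'
      have hcop : Nat.Coprime d m := Nat.coprime_of_squarefree_mul (mem_sqf.1 h3).2.1
      have hcop' : Nat.Coprime d m' := Nat.coprime_of_squarefree_mul (mem_sqf.1 h3').2.1
      have h6 : k * m = k' * m' := by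
        have : k * (d * m / d) = k' * (d * m' / d) := heq
        rwa [Nat.mul_div_cancel_left m hd0, Nat.mul_div_cancel_left m' hd0] at this
      have h5k : k ∣ d := Nat.dvd_of_mem_divisors h5
      have h5k' : k' ∣ d := Nat.dvd_of_mem_divisors h5'
      have h7 : k = k' := by
        apply Nat.dvd_antisymm
        · have h8 : k ∣ k' * m' := ⟨m, h6.symm⟩
          exact (Nat.Coprime.dvd_of_dvd_mul_right
            (Nat.Coprime.coprime_dvd_left h5k hcop') h8)
        · have h8 : k' ∣ k * m := ⟨m', h6⟩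
          exact (Nat.Coprime.dvd_of_dvd_mul_right
            (Nat.Coprime.coprime_dvd_left h5k' hcop) h8)
      subst h7
      have hk0 : 0 < k := Nat.pos_of_dvd_of_pos h5k hd0
      have h8 : m = m' := Nat.eq_of_mul_eq_mul_left hk0 h6
      subst h8
      rfl
  unfold selLam
  rw [abs_div, abs_mul, abs_mul, abs_of_pos hG, abs_of_nonneg hS0, abs_of_pos (selI_pos hr d),
    div_le_one hG, mul_assoc]
  have h0 : 0 ≤ selI r d * ∑ l ∈ (sqf D R).filter (fun l => d ∣ l), selH r l :=
    mul_nonneg (selI_pos hr d).le hS0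
  calc |(ArithmeticFunction.moebius d : ℝ)| *
        (selI r d * ∑ l ∈ (sqf D R).filter (fun l => d ∣ l), selH r l)
      ≤ 1 * (selI r d * ∑ l ∈ (sqf D R).filter (fun l => d ∣ l), selH r l) := by gcongr
    _ ≤ selG r D R := by rw [one_mul]; exact key

/-- the product of `r` over the prime factors -/
noncomputable def selRho (r : ℕ → ℝ) (d : ℕ) : ℝ := ∏ p ∈ d.primeFactors, r p

theorem one_le_prod_r {r : ℕ → ℝ} (hr : Adm r) (s : Finset ℕ) (hs : ∀ p ∈ s, p.Prime) :
    1 ≤ ∏ p ∈ s, r p := by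
  calc (1 : ℝ) = ∏ p ∈ s, (1 : ℝ) := by simp
    _ ≤ ∏ p ∈ s, r p := Finset.prod_le_prod (fun _ _ => zero_le_one)
        (fun p hp => (hr p (hs p hp)).1)

theorem one_le_selRho {r : ℕ → ℝ} (hr : Adm r) (d : ℕ) : 1 ≤ selRho r d :=
  one_le_prod_r hr _ (fun _ hp => Nat.prime_of_mem_primeFactors hp)

theorem selRho_lcm_le {r : ℕ → ℝ} (hr : Adm r) {d e : ℕ} (hd : d ≠ 0) (he : e ≠ 0) :
    selRho r (Nat.lcm d e) ≤ selRho r d * selRho r e := by
  unfold selRho
  rw [primeFactors_lcm' hd he, ← Finset.prod_union_inter]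
  have h1 : 1 ≤ ∏ p ∈ d.primeFactors ∪ e.primeFactors, r p := by
    apply one_le_prod_r hr
    intro p hp
    rcases Finset.mem_union.1 hp with h | h <;> exact Nat.prime_of_mem_primeFactors h
  have h2 : 1 ≤ ∏ p ∈ d.primeFactors ∩ e.primeFactors, r p := by
    apply one_le_prod_r hr
    intro p hp
    exact Nat.prime_of_mem_primeFactors (Finset.mem_inter.1 hp).1
  nlinarith

/-- lcm of squarefree numbers -/
theorem squarefree_lcm' {d e : ℕ} (hd : Squarefree d) (he : Squarefree e) :
    Squarefree (Nat.lcm d e) := by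
  have hd0 := hd.ne_zero
  have he0 := he.ne_zero
  rw [Nat.squarefree_iff_factorization_le_one (Nat.lcm_ne_zero hd0 he0)]
  intro p
  rw [Nat.factorization_lcm hd0 he0]
  exact sup_le (hd.natFactorization_le_one p) (he.natFactorization_le_one p)

/-- The Selberg sieve bound in general form. -/
theorem selberg_bound {r : ℕ → ℝ} (hr : Adm r) {D R : ℕ} (hR : 1 ≤ R) (Ω : Finset ℕ) (P : ℕ → ℕ)
    (Z : ℝ)
    (hcount : ∀ m : ℕ, Squarefree m → Nat.Coprime m D →
      |((Ω.filter (fun n => m ∣ P n)).card : ℝ) - Z / selI r m| ≤ selRho r m) :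
    ∑ n ∈ Ω, (∑ d ∈ sqf D R, if d ∣ P n then selLam r D R d else 0) ^ 2
      ≤ Z / selG r D R + (∑ d ∈ sqf D R, selRho r d) ^ 2 := by
  have h3 : ∑ n ∈ Ω, (∑ d ∈ sqf D R, if d ∣ P n then selLam r D R d else 0) ^ 2
      = ∑ d ∈ sqf D R, ∑ e ∈ sqf D R, selLam r D R d * selLam r D R e *
        ((Ω.filter (fun n => Nat.lcm d e ∣ P n)).card : ℝ) := by
    have h4 : ∀ n, (∑ d ∈ sqf D R, if d ∣ P n then selLam r D R d else 0) ^ 2
        = ∑ d ∈ sqf D R, ∑ e ∈ sqf D R,
          (if Nat.lcm d e ∣ P n then selLam r D R d * selLam r D R e else 0) := by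
      intro n
      rw [sq, Finset.sum_mul_sum]
      apply Finset.sum_congr rfl; intro d _
      apply Finset.sum_congr rfl; intro e _
      by_cases h5 : d ∣ P n <;> by_cases h6 : e ∣ P n <;> simp [h5, h6, Nat.lcm_dvd_iff]
    simp_rw [h4]
    rw [Finset.sum_comm]
    apply Finset.sum_congr rfl; intro d _
    rw [Finset.sum_comm]
    apply Finset.sum_congr rfl; intro e _
    rw [← Finset.sum_filter, Finset.sum_const, nsmul_eq_mul]
    ring
  rw [h3]
  have h5 : ∀ d ∈ sqf D R, ∀ e ∈ sqf D R, selLam r D R d * selLam r D R e *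
        ((Ω.filter (fun n => Nat.lcm d e ∣ P n)).card : ℝ)
      ≤ Z * (selLam r D R d * selLam r D R e / selI r (Nat.lcm d e))
        + selRho r d * selRho r e := by
    intro d hd e he
    have hd' := mem_sqf.1 hd
    have he' := mem_sqf.1 he
    have hd0 : d ≠ 0 := by have := hd'.1.1; omega
    have he0 : e ≠ 0 := by have := he'.1.1; omega
    have hcop : Nat.Coprime (Nat.lcm d e) D := by
      apply Nat.Coprime.coprime_dvd_left (Nat.lcm_dvd_mul d e)
      exact Nat.Coprime.mul_left hd'.2.2 he'.2.2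
    have h6 := hcount (Nat.lcm d e) (squarefree_lcm' hd'.2.1 he'.2.1) hcop
    set c : ℝ := ((Ω.filter (fun n => Nat.lcm d e ∣ P n)).card : ℝ)
    have hI := selI_pos hr (Nat.lcm d e)
    have h7 : selLam r D R d * selLam r D R e * c
        = Z * (selLam r D R d * selLam r D R e / selI r (Nat.lcm d e))
          + selLam r D R d * selLam r D R e * (c - Z / selI r (Nat.lcm d e)) := by
      ring
    rw [h7]
    have h8 : selLam r D R d * selLam r D R e * (c - Z / selI r (Nat.lcm d e))
        ≤ selRho r d * selRho r e := by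
      calc selLam r D R d * selLam r D R e * (c - Z / selI r (Nat.lcm d e))
          ≤ |selLam r D R d * selLam r D R e * (c - Z / selI r (Nat.lcm d e))| := le_abs_self _
        _ = |selLam r D R d| * |selLam r D R e| * |c - Z / selI r (Nat.lcm d e)| := by
            rw [abs_mul, abs_mul]
        _ ≤ 1 * 1 * (selRho r d * selRho r e) := by
            have h9 := abs_selLam_le hr hR hd
            have h10 := abs_selLam_le hr hR he
            have h11 := h6.trans (selRho_lcm_le hr hd0 he0)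
            gcongr
        _ = selRho r d * selRho r e := by ring
    linarith
  calc _ ≤ ∑ d ∈ sqf D R, ∑ e ∈ sqf D R,
        (Z * (selLam r D R d * selLam r D R e / selI r (Nat.lcm d e))
          + selRho r d * selRho r e) :=
        Finset.sum_le_sum (fun d hd => Finset.sum_le_sum (fun e he => h5 d hd e he))
    _ = Z * (∑ d ∈ sqf D R, ∑ e ∈ sqf D R,
          selLam r D R d * selLam r D R e / selI r (Nat.lcm d e))
        + (∑ d ∈ sqf D R, selRho r d) * (∑ d ∈ sqf D R, selRho r d) := by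
        simp_rw [Finset.sum_add_distrib]
        rw [Finset.sum_mul_sum]
        simp_rw [Finset.mul_sum]
    _ = Z / selG r D R + (∑ d ∈ sqf D R, selRho r d) ^ 2 := by
        rw [selLam_main hr hR]
        ring

end Pool.Agent.Work.MP_713a1e_co.E
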