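import Pool.Agent.Work.MP_713a1e_co.E.Mass
import Pool.Agent.Work.MP_713a1e_co.E.Moeb

/-!
# JOB N1, assembly: the Chebyshev bound from the five numerical facts
-/

namespace Pool.Agent.Work.MP_713a1e_co.E

open Chebyshev

/-- `n log n - n + 1 ≤ log n! ≤ (n + 1) log n - n + 1` -/
theorem sum_log_bounds (n : ℕ) :
    ((n : ℝ) + 1) * Real.log (n + 1) - (n + 1) + 1 ≤ ∑ i ∈ Finset.Ioc 0 (n + 1), Real.log i ∧
    ∑ i ∈ Finset.Ioc 0 (n + 1), Real.log i ≤ ((n : ℝ) + 2) * Real.log (n + 1) - (n + 1) + 1 := by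
  induction n with
  | zero => simp
  | succ n ih =>
    rw [Finset.sum_Ioc_succ_top (by omega)]
    obtain ⟨ih1, ih2⟩ := ih
    have hn : (0 : ℝ) ≤ n := Nat.cast_nonneg n
    have ha : (0 : ℝ) < n + 1 := by linarith
    have hb : (0 : ℝ) < n + 1 + 1 := by linarith
    have e1 : Real.log ((n + 1 + 1 : ℝ) / (n + 1)) ≤ (n + 1 + 1 : ℝ) / (n + 1) - 1 :=
      Real.log_le_sub_one_of_pos (by positivity)
    have e2 : Real.log ((n + 1 : ℝ) / (n + 1 + 1)) ≤ (n + 1 : ℝ) / (n + 1 + 1) - 1 :=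
      Real.log_le_sub_one_of_pos (by positivity)
    rw [Real.log_div hb.ne' ha.ne'] at e1
    rw [Real.log_div ha.ne' hb.ne'] at e2
    have e3 : (n + 1 + 1 : ℝ) / (n + 1) - 1 = 1 / (n + 1) := by field_simp; ring
    have e4 : (n + 1 : ℝ) / (n + 1 + 1) - 1 = - (1 / (n + 1 + 1)) := by field_simp; ring
    rw [e3] at e1
    rw [e4] at e2
    have e5 : ((n : ℝ) + 1) * (Real.log (n + 1 + 1) - Real.log (n + 1)) ≤ 1 := by
      calc _ ≤ ((n : ℝ) + 1) * (1 / (n + 1)) := by gcongr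
        _ = 1 := by field_simp
    have e6 : 1 ≤ ((n : ℝ) + 1 + 1) * (Real.log (n + 1 + 1) - Real.log (n + 1)) := by
      calc (1 : ℝ) = ((n : ℝ) + 1 + 1) * (1 / (n + 1 + 1)) := by field_simp
        _ ≤ _ := by
          apply mul_le_mul_of_nonneg_left _ hb.le
          linarith
    push_cast
    constructor
    · nlinarith
    · nlinarith

/-- Stirling with error `1 + log y` -/
theorem sum_log_near {y : ℝ} (hy : 1 ≤ y) :
    |∑ i ∈ Finset.Ioc 0 ⌊y⌋₊, Real.log i - y * (Real.log y - 1)| ≤ 1 + Real.log y := by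
  obtain ⟨n, hn⟩ : ∃ n, ⌊y⌋₊ = n + 1 := by
    have : 1 ≤ ⌊y⌋₊ := Nat.le_floor (by exact_mod_cast hy)
    exact ⟨⌊y⌋₊ - 1, by omega⟩
  have h1 : ((n : ℝ) + 1) ≤ y := by
    have := Nat.floor_le (show (0 : ℝ) ≤ y by linarith)
    rw [hn] at this
    exact_mod_cast this
  have h2 : y < (n : ℝ) + 1 + 1 := by
    have := Nat.lt_floor_add_one y
    rw [hn] at this
    exact_mod_cast this
  have hn0 : (0 : ℝ) ≤ n := Nat.cast_nonneg n
  have ha : (0 : ℝ) < n + 1 := by linarith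
  have hy0 : 0 < y := by linarith
  rw [hn]
  obtain ⟨s1, s2⟩ := sum_log_bounds n
  set S := ∑ i ∈ Finset.Ioc 0 (n + 1), Real.log i
  set a : ℝ := (n : ℝ) + 1 with hadef
  -- `f y - f a` for `f t = t log t - t`
  have e1 : Real.log (y / a) ≤ y / a - 1 := Real.log_le_sub_one_of_pos (by positivity)
  have e2 : Real.log (a / y) ≤ a / y - 1 := Real.log_le_sub_one_of_pos (by positivity)
  rw [Real.log_div hy0.ne' ha.ne'] at e1
  rw [Real.log_div ha.ne' hy0.ne'] at e2
  have e3 : a * (Real.log y - Real.log a) ≤ y - a := by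
    calc _ ≤ a * (y / a - 1) := by gcongr
      _ = y - a := by field_simp
  have e4 : y - a ≤ y * (Real.log y - Real.log a) := by
    calc y - a = y * (1 - a / y) := by field_simp
      _ ≤ _ := by
        apply mul_le_mul_of_nonneg_left _ hy0.le
        linarith
  have hla : 0 ≤ Real.log a := Real.log_nonneg (by linarith)
  have hly : 0 ≤ Real.log y := Real.log_nonneg hy
  have hlay : Real.log a ≤ Real.log y := Real.log_le_log ha h1
  have hya : y - a ≤ 1 := by linarith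
  have hya0 : 0 ≤ y - a := by linarith
  have e5 : (y - a) * Real.log y ≤ 1 * Real.log y := by gcongr
  have e6 : 0 ≤ (y - a) * Real.log a := mul_nonneg hya0 hla
  rw [abs_le]
  constructor
  · -- S ≥ a log a - a + 1, y log y - y ≤ a log a - a + (y - a) log y
    nlinarith
  · nlinarith

theorem fin_arith {P Th S cx x L TL q r : ℝ} (hpt1 : -TL ≤ P - Th) (hpt2 : P - Th ≤ TL)
    (h7 : TL ≤ 2 * q) (h8 : q ≤ 0.000001 * x) (h9 : r ≤ 0.0000001 * x) (h10 : 1 ≤ r)
    (hL : L ≤ r)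
    (hm1 : -(0.0125 * (2.05 * x) + 49 * (0.0000463 * x)) ≤ P - S)
    (hm2 : P - S ≤ 0.0125 * (2.05 * x) + 49 * (0.0000463 * x))
    (hl1 : -(96 * (1 + L)) ≤ S - cx) (hl2 : S - cx ≤ 96 * (1 + L))
    (hc1 : -(0.0003 * x) ≤ cx - x) (hc2 : cx - x ≤ 0.0003 * x) :
    -(0.0295 * x) ≤ Th - x ∧ Th - x ≤ 0.0295 * x := by
  norm_num at *
  constructor <;> linarith

theorem tail_arith {P A B a b q x : ℝ} (h : P ≤ A + B) (hA : A ≤ a) (ha : a ≤ 0.00004622 * x)
    (hB : B ≤ b) (hb : b ≤ 2 * q) (hq : q ≤ 0.00000001 * x) (hx : 0 < x) :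
    P ≤ 0.0000463 * x := by
  norm_num at *
  linarith

theorem small_coef {x : ℝ} (hx : 0 < x) : x / 10 ^ 20 ≤ 0.00000001 * x := by
  have : x / 10 ^ 20 = (1 / 10 ^ 20) * x := by ring
  rw [this]
  apply mul_le_mul_of_nonneg_right _ hx.le
  norm_num

theorem theta_near_of (ν : ℕ → ℝ)
    (h1 : ∑ k ∈ Finset.Icc 1 154, ν k / k = 0)
    (h2 : |(- ∑ k ∈ Finset.Icc 1 154, ν k * Real.log k / k) - 1| ≤ 0.0003)
    (h3 : ∑ k ∈ Finset.Icc 1 154, |ν k| ≤ 96)
    (h4 : ∑ j ∈ Finset.Icc 1 30000, |1 - EE (fun _ => 1) ν 154 j| / (j * (j + 1)) ≤ 0.0125)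
    (h5 : ∀ j, |1 - EE (fun _ => 1) ν 154 j| ≤ 49)
    {x : ℝ} (hx : (2 : ℝ) ^ 2399 ≤ x) : |theta x - x| ≤ 0.0295 * x := by
  obtain ⟨hL, hs1, hs2, hss⟩ := big_facts hx
  have hx0 : 0 < x := lt_of_lt_of_le (by positivity) hx
  have hx1 : 1 ≤ x := le_trans (one_le_pow₀ (by norm_num)) hx
  have hpm : ∀ j : ℕ, 1 ≤ j → j ≤ 30000 →
      psi (x / j) - psi (x / (j + 1)) ≤ 2.05 * x / (j * (j + 1)) :=
    fun j hj hj' => psi_mass hx hj hj'
  clear hx
  set L := Real.log x with hLdef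
  set T := √x with hT
  have hT0 : 0 < T := lt_of_lt_of_le (by positivity) hs2
  have hx50 : (10 : ℝ) ^ 100 * T ≤ x := by
    rw [← hss]; gcongr
  have hx100 : (10 : ℝ) ^ 100 ≤ x := by
    refine hs2.trans ?_
    have : (1 : ℝ) ≤ 10 ^ 100 := one_le_pow₀ (by norm_num)
    nlinarith
  have hLx : L ≤ x / 10 ^ 100 := by
    rw [le_div_iff₀ (by positivity)]
    have : L ≤ T := by
      have h : (1 : ℝ) ≤ 10 ^ 20 := one_le_pow₀ (by norm_num)
      have : 0 ≤ L := by linarith
      nlinarith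
    calc L * 10 ^ 100 ≤ T * 10 ^ 100 := by gcongr
      _ = 10 ^ 100 * T := by ring
      _ ≤ x := hx50
  -- the truncated Moebius identity
  have hm := moeb (g := fun _ => (1 : ℝ)) (by simp) (by simp) ν 154 30000 49
    (fun j _ => h5 j) hx1
  simp only [one_mul, mul_one] at hm
  have hpsi : ∑ m ∈ Finset.Ioc 0 ⌊x⌋₊, ArithmeticFunction.vonMangoldt m = psi x := rfl
  rw [hpsi] at hm
  -- the sum over j
  have hj : ∑ j ∈ Finset.Icc 1 30000, |1 - EE (fun _ => 1) ν 154 j| *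
      (psi (x / (j : ℕ)) - psi (x / ((j : ℕ) + 1))) ≤ 0.0125 * (2.05 * x) := by
    calc _ ≤ ∑ j ∈ Finset.Icc 1 30000,
          |1 - EE (fun _ => 1) ν 154 j| / (j * (j + 1)) * (2.05 * x) := by
          apply Finset.sum_le_sum
          intro j hj
          obtain ⟨hj1, hj2⟩ := Finset.mem_Icc.1 hj
          have h := hpm j hj1 hj2
          calc _ ≤ |1 - EE (fun _ => 1) ν 154 j| * (2.05 * x / (j * (j + 1))) := by
                apply mul_le_mul_of_nonneg_left h (abs_nonneg _)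
            _ = _ := by ring
      _ = (∑ j ∈ Finset.Icc 1 30000,
          |1 - EE (fun _ => 1) ν 154 j| / (j * (j + 1))) * (2.05 * x) := by
          rw [Finset.sum_mul]
      _ ≤ 0.0125 * (2.05 * x) := by
          apply mul_le_mul_of_nonneg_right h4 (by positivity)
  -- the tail
  have htail : psi (x / ((30000 : ℕ) + 1)) ≤ 0.0000463 * x := by
    set y := x / (((30000 : ℕ) : ℝ) + 1) with hy
    have hyx : y ≤ x := div_le_self hx0.le (by norm_num)
    have hy1 : 1 ≤ y := by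
      rw [hy, le_div_iff₀ (by norm_num)]
      refine le_trans ?_ hx100
      norm_num
    have h := psi_le hy1
    have hl4 : Real.log 4 ≤ 1.3863 := by
      have : Real.log 4 = 2 * Real.log 2 := by
        rw [show (4 : ℝ) = 2 ^ 2 by norm_num, Real.log_pow]; norm_num
      rw [this]
      have := Real.log_two_lt_d9
      linarith
    have hly : Real.log y ≤ L := Real.log_le_log (by linarith) hyx
    have hly0 : 0 ≤ Real.log y := Real.log_nonneg hy1
    have hsy : √y ≤ T := Real.sqrt_le_sqrt hyx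
    have h6 : 2 * √y * Real.log y ≤ 2 * T * L := by gcongr
    have h7 : 2 * T * L ≤ 2 * (x / 10 ^ 20) := by
      rw [← hss, mul_assoc, mul_div_assoc]
      have : L ≤ T / 10 ^ 20 := by
        rw [le_div_iff₀ (by positivity)]; linarith
      gcongr
    have h8 : Real.log 4 * y ≤ 1.3863 * (x / 30001) := by
      have : y = x / 30001 := by rw [hy]; norm_num
      rw [this]
      gcongr
    have h10 : 1.3863 * (x / 30001) ≤ 0.00004622 * x := by
      have : 1.3863 * (x / 30001) = (1.3863 / 30001) * x := by ring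
      rw [this]
      apply mul_le_mul_of_nonneg_right _ hx0.le
      norm_num
    exact tail_arith h h8 h10 h6 h7 (small_coef hx0) hx0
  -- the main term
  have hlogsum : |∑ k ∈ Finset.Icc 1 154, ν k * ∑ i ∈ Finset.Ioc 0 ⌊x / (k : ℕ)⌋₊, Real.log i
      - (- ∑ k ∈ Finset.Icc 1 154, ν k * Real.log k / k) * x| ≤ 96 * (1 + L) := by
    have e1 : (- ∑ k ∈ Finset.Icc 1 154, ν k * Real.log k / k) * x
        = ∑ k ∈ Finset.Icc 1 154, ν k * (x / (k : ℕ) * (Real.log (x / (k : ℕ)) - 1)) := by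
      have e2 : ∀ k ∈ Finset.Icc 1 154, ν k * (x / (k : ℕ) * (Real.log (x / (k : ℕ)) - 1))
          = ν k / k * (x * (L - 1)) - ν k * Real.log k / k * x := by
        intro k hk
        have hk1 : (0 : ℝ) < k := by
          have := (Finset.mem_Icc.1 hk).1
          exact_mod_cast this
        rw [Real.log_div hx0.ne' hk1.ne']
        ring
      rw [Finset.sum_congr rfl e2, Finset.sum_sub_distrib, ← Finset.sum_mul, ← Finset.sum_mul, h1]
      ring
    rw [e1, ← Finset.sum_sub_distrib]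
    calc _ ≤ ∑ k ∈ Finset.Icc 1 154, |ν k * ∑ i ∈ Finset.Ioc 0 ⌊x / (k : ℕ)⌋₊, Real.log i
          - ν k * (x / (k : ℕ) * (Real.log (x / (k : ℕ)) - 1))| := Finset.abs_sum_le_sum_abs _ _
      _ ≤ ∑ k ∈ Finset.Icc 1 154, |ν k| * (1 + L) := by
          apply Finset.sum_le_sum
          intro k hk
          obtain ⟨hk1, hk2⟩ := Finset.mem_Icc.1 hk
          have hk1' : (1 : ℝ) ≤ k := by exact_mod_cast hk1
          have hk2' : (k : ℝ) ≤ 154 := by exact_mod_cast hk2
          have hy1 : 1 ≤ x / (k : ℝ) := by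
            rw [le_div_iff₀ (by linarith), one_mul]
            refine hk2'.trans (le_trans ?_ hx100)
            norm_num
          have hyx : x / (k : ℝ) ≤ x := div_le_self hx0.le hk1'
          have hly : Real.log (x / (k : ℝ)) ≤ L := Real.log_le_log (by linarith) hyx
          rw [← mul_sub, abs_mul]
          apply mul_le_mul_of_nonneg_left _ (abs_nonneg _)
          exact (sum_log_near hy1).trans (by linarith)
      _ = (∑ k ∈ Finset.Icc 1 154, |ν k|) * (1 + L) := by rw [Finset.sum_mul]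
      _ ≤ 96 * (1 + L) := by
          apply mul_le_mul_of_nonneg_right h3 (by linarith)
  -- putting things together
  have hpt : |psi x - theta x| ≤ 2 * T * L := abs_psi_sub_theta_le_sqrt_mul_log hx1
  have h7 : 2 * T * L ≤ 2 * (x / 10 ^ 20) := by
    rw [← hss, mul_assoc, mul_div_assoc]
    have : L ≤ T / 10 ^ 20 := by
      rw [le_div_iff₀ (by positivity)]; linarith
    gcongr
  set c := - ∑ k ∈ Finset.Icc 1 154, ν k * Real.log k / k with hc
  set S := ∑ k ∈ Finset.Icc 1 154, ν k * ∑ i ∈ Finset.Ioc 0 ⌊x / (k : ℕ)⌋₊, Real.log i with hS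
  have hcx : |c * x - x| ≤ 0.0003 * x := by
    have : c * x - x = (c - 1) * x := by ring
    rw [this, abs_mul, abs_of_pos hx0]
    gcongr
  have hm' : |psi x - S| ≤ 0.0125 * (2.05 * x) + 49 * (0.0000463 * x) := by
    refine hm.trans ?_
    have : (49 : ℝ) * psi (x / ((30000 : ℕ) + 1)) ≤ 49 * (0.0000463 * x) := by gcongr
    exact add_le_add hj this
  have h8 : x / 10 ^ 20 ≤ 0.000001 * x := by
    refine (small_coef hx0).trans ?_
    apply mul_le_mul_of_nonneg_right _ hx0.le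
    norm_num
  have h9 : x / 10 ^ 100 ≤ 0.0000001 * x := by
    have : x / 10 ^ 100 = (1 / 10 ^ 100) * x := by ring
    rw [this]
    apply mul_le_mul_of_nonneg_right _ hx0.le
    norm_num
  have h10 : (1 : ℝ) ≤ x / 10 ^ 100 := by
    rw [le_div_iff₀ (by positivity), one_mul]
    exact hx100
  rw [abs_le] at hpt hlogsum hcx hm' ⊢
  exact fin_arith hpt.1 hpt.2 h7 h8 h9 h10 hLx hm'.1 hm'.2 hlogsum.1 hlogsum.2 hcx.1 hcx.2

end Pool.Agent.Work.MP_713a1e_co.E
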