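import Pool.Agent.Work.MP_713a1e_co.E.Moeb

/-!
# JOB N1, numerical part

The coefficients `nuT` (a truncated Moebius function, given by an explicit table and corrected at `154`
so that `∑ nuT k / k = 0`), and the value of the sum `∑_(j ≤ 30000) |1 - E(j)|/(j(j+1))`,
computed by the kernel in integers: `ff j` is an upper bound of `10^15 |1 - E(j)|/(j(j+1))`.
-/

namespace Pool.Agent.Work.MP_713a1e_co.E

namespace TN

/-- the `k ≤ 154` with `μ(k) = 1` -/
def posL : List ℕ := [1, 6, 10, 14, 15, 21, 22, 26, 33, 34, 35, 38, 39, 46, 51, 55, 57, 58, 62, 65, 69, 74, 77, 82, 85, 86, 87, 91, 93, 94, 95, 106, 111, 115, 118, 119, 122, 123, 129, 133, 134, 141, 142, 143, 145, 146]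

/-- the `k ≤ 154` with `μ(k) = -1` -/
def negL : List ℕ := [2, 3, 5, 7, 11, 13, 17, 19, 23, 29, 30, 31, 37, 41, 42, 43, 47, 53, 59, 61, 66, 67, 70, 71, 73, 78, 79, 83, 89, 97, 101, 102, 103, 105, 107, 109, 110, 113, 114, 127, 130, 131, 137, 138, 139, 149, 151, 154]

/-- evaluates its first argument before substituting it -/
@[inline] def force {β : Type} (n : ℕ) (f : ℕ → β) : β :=
  Nat.rec (motive := fun _ => β) (f 0) (fun k _ => f (Nat.succ k)) n

def posS (j : ℕ) : ℕ :=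
  Nat.add (Nat.div j 1) (Nat.add (Nat.div j 6) (Nat.add (Nat.div j 10) (Nat.add (Nat.div j 14)
  (Nat.add (Nat.div j 15) (Nat.add (Nat.div j 21) (Nat.add (Nat.div j 22) (Nat.add (Nat.div j 26)
  (Nat.add (Nat.div j 33) (Nat.add (Nat.div j 34) (Nat.add (Nat.div j 35) (Nat.add (Nat.div j 38)
  (Nat.add (Nat.div j 39) (Nat.add (Nat.div j 46) (Nat.add (Nat.div j 51) (Nat.add (Nat.div j 55)
  (Nat.add (Nat.div j 57) (Nat.add (Nat.div j 58) (Nat.add (Nat.div j 62) (Nat.add (Nat.div j 65)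
  (Nat.add (Nat.div j 69) (Nat.add (Nat.div j 74) (Nat.add (Nat.div j 77) (Nat.add (Nat.div j 82)
  (Nat.add (Nat.div j 85) (Nat.add (Nat.div j 86) (Nat.add (Nat.div j 87) (Nat.add (Nat.div j 91)
  (Nat.add (Nat.div j 93) (Nat.add (Nat.div j 94) (Nat.add (Nat.div j 95) (Nat.add (Nat.div j 106)
  (Nat.add (Nat.div j 111) (Nat.add (Nat.div j 115) (Nat.add (Nat.div j 118) (Nat.add (Nat.div j
  119) (Nat.add (Nat.div j 122) (Nat.add (Nat.div j 123) (Nat.add (Nat.div j 129) (Nat.add (Nat.div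
  j 133) (Nat.add (Nat.div j 134) (Nat.add (Nat.div j 141) (Nat.add (Nat.div j 142) (Nat.add
  (Nat.div j 143) (Nat.add (Nat.div j 145) (Nat.add (Nat.div j 146)
  0)))))))))))))))))))))))))))))))))))))))))))))

def negS (j : ℕ) : ℕ :=
  Nat.add (Nat.div j 2) (Nat.add (Nat.div j 3) (Nat.add (Nat.div j 5) (Nat.add (Nat.div j 7) (Nat.add
  (Nat.div j 11) (Nat.add (Nat.div j 13) (Nat.add (Nat.div j 17) (Nat.add (Nat.div j 19) (Nat.add
  (Nat.div j 23) (Nat.add (Nat.div j 29) (Nat.add (Nat.div j 30) (Nat.add (Nat.div j 31) (Nat.add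
  (Nat.div j 37) (Nat.add (Nat.div j 41) (Nat.add (Nat.div j 42) (Nat.add (Nat.div j 43) (Nat.add
  (Nat.div j 47) (Nat.add (Nat.div j 53) (Nat.add (Nat.div j 59) (Nat.add (Nat.div j 61) (Nat.add
  (Nat.div j 66) (Nat.add (Nat.div j 67) (Nat.add (Nat.div j 70) (Nat.add (Nat.div j 71) (Nat.add
  (Nat.div j 73) (Nat.add (Nat.div j 78) (Nat.add (Nat.div j 79) (Nat.add (Nat.div j 83) (Nat.add
  (Nat.div j 89) (Nat.add (Nat.div j 97) (Nat.add (Nat.div j 101) (Nat.add (Nat.div j 102) (Nat.add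
  (Nat.div j 103) (Nat.add (Nat.div j 105) (Nat.add (Nat.div j 107) (Nat.add (Nat.div j 109)
  (Nat.add (Nat.div j 110) (Nat.add (Nat.div j 113) (Nat.add (Nat.div j 114) (Nat.add (Nat.div j
  127) (Nat.add (Nat.div j 130) (Nat.add (Nat.div j 131) (Nat.add (Nat.div j 137) (Nat.add (Nat.div
  j 138) (Nat.add (Nat.div j 139) (Nat.add (Nat.div j 149) (Nat.add (Nat.div j 151) (Nat.add
  (Nat.div j 154) 0)))))))))))))))))))))))))))))))))))))))))))))))

def ff (j : ℕ) : ℕ :=
  force (Nat.add (Nat.mul 1000000000 (Nat.add 1 (negS j))) (Nat.mul 22244940 (Nat.div j 154))) fun X =>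
  force (Nat.mul 1000000000 (posS j)) fun Y =>
  Nat.add (Nat.div (Nat.mul (Nat.add (Nat.add (Nat.sub X Y) (Nat.sub Y X)) (Nat.div j 154)) 1000000)
    (Nat.mul j (Nat.add j 1))) 1

def rsum (f : ℕ → ℕ) (n : ℕ) : ℕ :=
  Nat.rec (motive := fun _ => ℕ) 0 (fun k ih => Nat.add (f k) ih) n

def tot (B : ℕ) : ℕ :=
  rsum (fun b => rsum (fun k => force (Nat.add (Nat.add (Nat.mul 100 b) k) 1) ff) 100) B

theorem tot_le : Nat.ble (tot 300) 12500000000000 = true := by decide +kernel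

theorem force_eq {β : Type} (n : ℕ) (f : ℕ → β) : force n f = f n := by
  cases n <;> rfl

theorem rsum_eq (f : ℕ → ℕ) (n : ℕ) : rsum f n = ∑ k ∈ Finset.range n, f k := by
  induction n with
  | zero => rfl
  | succ n ih =>
    rw [Finset.sum_range_succ, ← ih]
    exact Nat.add_comm (f n) (rsum f n)

theorem sum_blocks (f : ℕ → ℕ) (m B : ℕ) :
    ∑ b ∈ Finset.range B, ∑ k ∈ Finset.range m, f (m * b + k) = ∑ j ∈ Finset.range (m * B), f j := by
  induction B with
  | zero => simp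
  | succ B ih => rw [Finset.sum_range_succ, ih, Nat.mul_succ, Finset.sum_range_add]

theorem tot_eq (B : ℕ) : tot B = ∑ j ∈ Finset.range (100 * B), ff (j + 1) := by
  unfold tot
  rw [rsum_eq, ← sum_blocks]
  refine Finset.sum_congr rfl fun b _ => ?_
  rw [rsum_eq]
  refine Finset.sum_congr rfl fun k _ => ?_
  rw [force_eq]
  rfl

theorem posS_eq (j : ℕ) : posS j = (posL.map (fun k => j / k)).sum := by
  simp only [posL, List.map_cons, List.map_nil, List.sum_cons, List.sum_nil]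
  rfl

theorem negS_eq (j : ℕ) : negS j = (negL.map (fun k => j / k)).sum := by
  simp only [negL, List.map_cons, List.map_nil, List.sum_cons, List.sum_nil]
  rfl

theorem ff_eq (j : ℕ) : ff j =
    (((1000000000 * (1 + negS j) + 22244940 * (j / 154)) - 1000000000 * posS j) +
      (1000000000 * posS j - (1000000000 * (1 + negS j) + 22244940 * (j / 154))) + j / 154) * 1000000
      / (j * (j + 1)) + 1 := by
  unfold ff
  rw [force_eq, force_eq]
  rfl

end TN

open TN

/-- `∑_(k ≤ 154) μ(k)/k` -/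
noncomputable def sT : ℝ :=
  (posL.map (fun k : ℕ => 1 / (k : ℝ))).sum - (negL.map (fun k : ℕ => 1 / (k : ℝ))).sum

/-- the coefficients -/
noncomputable def nuT (k : ℕ) : ℝ :=
  (if k ∈ posL then 1 else 0) - (if k ∈ negL then 1 else 0) + (if k = 154 then -(154 * sT) else 0)

theorem sT_lo : (22244940 : ℝ) / 1000000000 ≤ 154 * sT := by
  unfold sT posL negL
  norm_num

theorem sT_hi : 154 * sT ≤ (22244941 : ℝ) / 1000000000 := by
  unfold sT posL negL
  norm_num

theorem sum_ite_list (L : List ℕ) (hn : L.Nodup) (hs : ∀ k ∈ L, k ∈ Finset.Icc 1 154) (f : ℕ → ℝ) :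
    ∑ k ∈ Finset.Icc 1 154, (if k ∈ L then f k else 0) = (L.map f).sum := by
  rw [← List.sum_toFinset f hn, ← Finset.sum_filter]
  refine Finset.sum_congr ?_ fun _ _ => rfl
  ext k
  simp only [Finset.mem_filter, List.mem_toFinset]
  exact ⟨fun h => h.2, fun h => ⟨hs k h, h⟩⟩

theorem posL_mem : ∀ k ∈ posL, k ∈ Finset.Icc 1 154 := by
  simp [posL]

theorem negL_mem : ∀ k ∈ negL, k ∈ Finset.Icc 1 154 := by
  simp [negL]

theorem posL_nodup : posL.Nodup := by decide +kernel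

theorem negL_nodup : negL.Nodup := by decide +kernel

theorem sum_nuT (f : ℕ → ℝ) : ∑ k ∈ Finset.Icc 1 154, nuT k * f k =
    (posL.map f).sum - (negL.map f).sum - 154 * sT * f 154 := by
  have h : ∀ k, nuT k * f k = (if k ∈ posL then f k else 0) - (if k ∈ negL then f k else 0)
      + (if k = 154 then -(154 * sT) * f k else 0) := by
    intro k
    unfold nuT
    split_ifs <;> ring
  simp_rw [h]
  rw [Finset.sum_add_distrib, Finset.sum_sub_distrib, sum_ite_list posL posL_nodup posL_mem,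
    sum_ite_list negL negL_nodup negL_mem, Finset.sum_ite_eq']
  simp only [Finset.mem_Icc, Nat.reduceLeDiff, le_refl, and_self, if_true]
  ring

theorem nuT_sum : ∑ k ∈ Finset.Icc 1 154, nuT k / k = 0 := by
  have h := sum_nuT (fun k => 1 / (k : ℝ))
  simp only [mul_one_div] at h
  rw [h]
  unfold sT
  push_cast
  ring

theorem nuT_abs : ∑ k ∈ Finset.Icc 1 154, |nuT k| ≤ 96 := by
  have h : ∀ k, |nuT k| ≤ (if k ∈ posL then (1 : ℝ) else 0) + (if k ∈ negL then (1 : ℝ) else 0)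
      + (if k = 154 then 154 * sT else 0) := by
    intro k
    have h1 := sT_lo
    have h2 : 0 ≤ 154 * sT := le_trans (by norm_num) h1
    unfold nuT
    refine abs_le.2 ⟨?_, ?_⟩ <;> split_ifs <;> linarith
  calc ∑ k ∈ Finset.Icc 1 154, |nuT k| ≤ ∑ k ∈ Finset.Icc 1 154,
        ((if k ∈ posL then (1 : ℝ) else 0) + (if k ∈ negL then (1 : ℝ) else 0)
          + (if k = 154 then 154 * sT else 0)) := Finset.sum_le_sum fun k _ => h k
    _ = 46 + 48 + 154 * sT := by
      rw [Finset.sum_add_distrib, Finset.sum_add_distrib,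
        sum_ite_list posL posL_nodup posL_mem (fun _ => 1),
        sum_ite_list negL negL_nodup negL_mem (fun _ => 1), Finset.sum_ite_eq']
      simp only [Finset.mem_Icc, Nat.reduceLeDiff, le_refl, and_self, if_true]
      simp only [posL, negL, List.map_cons, List.map_nil, List.sum_cons, List.sum_nil]
      norm_num
    _ ≤ 96 := by
      have := sT_hi
      linarith

theorem cast_list_sum (L : List ℕ) (j : ℕ) :
    (L.map (fun k => ((j / k : ℕ) : ℝ))).sum = (((L.map (fun k => j / k)).sum : ℕ) : ℝ) := by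
  induction L with
  | nil => simp
  | cons a L ih => simp only [List.map_cons, List.sum_cons, ih]; push_cast; ring

theorem EE_eq (j : ℕ) : EE (fun _ => 1) nuT 154 j = posS j - negS j - 154 * sT * ((j / 154 : ℕ) : ℝ) := by
  have h1 : EE (fun _ => 1) nuT 154 j = ∑ k ∈ Finset.Icc 1 154, nuT k * ((j / k : ℕ) : ℝ) := by
    unfold EE
    refine Finset.sum_congr rfl fun k _ => ?_
    simp
  rw [h1, sum_nuT (fun k => ((j / k : ℕ) : ℝ)), cast_list_sum, cast_list_sum, posS_eq, negS_eq]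

theorem core_abs (P N q : ℕ) {u : ℝ} (h1 : (22244940 : ℝ) / 1000000000 ≤ u) (h2 : u ≤ (22244941 : ℝ) / 1000000000) :
    1000000000 * |1 - ((P : ℝ) - N - u * (q : ℝ))| ≤
      (((1000000000 * (1 + N) + 22244940 * q) - 1000000000 * P +
        (1000000000 * P - (1000000000 * (1 + N) + 22244940 * q)) + q : ℕ) : ℝ) := by
  have hq : (0 : ℝ) ≤ q := Nat.cast_nonneg q
  have h3 : ∀ X Y : ℕ, ((X - Y + (Y - X) : ℕ) : ℝ) = |(X : ℝ) - Y| := by
    intro X Y
    rcases le_total X Y with h | h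
    · rw [Nat.sub_eq_zero_of_le h, abs_of_nonpos (sub_nonpos.2 (Nat.cast_le.2 h)), zero_add,
        Nat.cast_sub h]
      ring
    · rw [Nat.sub_eq_zero_of_le h, abs_of_nonneg (sub_nonneg.2 (Nat.cast_le.2 h)), add_zero,
        Nat.cast_sub h]
  rw [Nat.cast_add, h3]
  push_cast
  have h4 : 22244940 * (q : ℝ) ≤ 1000000000 * u * q := by
    apply mul_le_mul_of_nonneg_right _ hq
    linarith
  have h5 : 1000000000 * u * q ≤ 22244940 * (q : ℝ) + q := by
    have : 1000000000 * u ≤ 22244940 + 1 := by linarith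
    nlinarith
  have h6 := le_abs_self (1000000000 * (1 + (N : ℝ)) + 22244940 * q - 1000000000 * P)
  have h7 := neg_abs_le (1000000000 * (1 + (N : ℝ)) + 22244940 * q - 1000000000 * P)
  have h8 : 1000000000 * |1 - ((P : ℝ) - N - u * (q : ℝ))|
      = |1000000000 * (1 - ((P : ℝ) - N - u * (q : ℝ)))| := by
    rw [abs_mul, abs_of_pos (show (0 : ℝ) < 1000000000 by norm_num)]
  rw [h8]
  refine abs_le.2 ⟨?_, ?_⟩ <;> linarith

theorem core_div (T : ℕ) {j : ℕ} (hj : 1 ≤ j) {v : ℝ} (hv : 1000000000 * v ≤ T) :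
    v / (j * (j + 1)) ≤ ((T * 1000000 / (j * (j + 1)) + 1 : ℕ) : ℝ) / 1000000000000000 := by
  have hj0 : (0 : ℝ) < j := by exact_mod_cast hj
  have hden : (0 : ℝ) < (j : ℝ) * (j + 1) := by positivity
  have hdiv : ((T * 1000000 : ℕ) : ℝ) / ((j : ℝ) * (j + 1)) ≤
      ((T * 1000000 / (j * (j + 1)) + 1 : ℕ) : ℝ) := by
    rw [div_le_iff₀ hden]
    have h8 : T * 1000000 ≤ (T * 1000000 / (j * (j + 1)) + 1) * (j * (j + 1)) := by
      have h9 := Nat.div_add_mod (T * 1000000) (j * (j + 1))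
      have h10 := Nat.mod_lt (T * 1000000) (show 0 < j * (j + 1) by positivity)
      calc T * 1000000 = j * (j + 1) * (T * 1000000 / (j * (j + 1))) + T * 1000000 % (j * (j + 1)) := h9.symm
        _ ≤ j * (j + 1) * (T * 1000000 / (j * (j + 1))) + j * (j + 1) := by omega
        _ = _ := by ring
    exact_mod_cast h8
  calc v / (j * (j + 1)) = (1000000000 * v) * 1000000 / (j * (j + 1)) / 1000000000000000 := by
        field_simp
        ring
    _ ≤ ((T * 1000000 : ℕ) : ℝ) / ((j : ℝ) * (j + 1)) / 1000000000000000 := by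
        push_cast
        gcongr
    _ ≤ _ := by gcongr

theorem EE_term {j : ℕ} (hj : 1 ≤ j) :
    |1 - EE (fun _ => 1) nuT 154 j| / (j * (j + 1)) ≤ (ff j : ℝ) / 1000000000000000 := by
  rw [EE_eq, ff_eq]
  exact core_div _ hj (core_abs _ _ _ sT_lo sT_hi)

theorem EE_sum : ∑ j ∈ Finset.Icc 1 30000, |1 - EE (fun _ => 1) nuT 154 j| / (j * (j + 1)) ≤ 0.0125 := by
  have h1 : ∑ j ∈ Finset.Icc 1 30000, ff j ≤ 12500000000000 := by
    have h2 := Nat.le_of_ble_eq_true tot_le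
    rw [tot_eq] at h2
    have h3 : ∑ j ∈ Finset.Icc 1 30000, ff j = ∑ j ∈ Finset.range (100 * 300), ff (j + 1) := by
      rw [Finset.range_eq_Ico, Finset.sum_Ico_add' ff 0 (100 * 300) 1]
      rfl
    rw [h3]
    exact h2
  calc ∑ j ∈ Finset.Icc 1 30000, |1 - EE (fun _ => 1) nuT 154 j| / (j * (j + 1))
      ≤ ∑ j ∈ Finset.Icc 1 30000, (ff j : ℝ) / 1000000000000000 :=
        Finset.sum_le_sum fun j hj => EE_term (Finset.mem_Icc.1 hj).1
    _ = ((∑ j ∈ Finset.Icc 1 30000, ff j : ℕ) : ℝ) / 1000000000000000 := by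
        rw [Nat.cast_sum, Finset.sum_div]
    _ ≤ (12500000000000 : ℕ) / 1000000000000000 := by gcongr
    _ ≤ 0.0125 := by norm_num

theorem div_cast_eq (j : ℕ) {k : ℕ} (hk : 1 ≤ k) :
    ((j / k : ℕ) : ℝ) = (j : ℝ) * (1 / k) - ((j % k : ℕ) : ℝ) / k := by
  have h := Nat.div_add_mod j k
  have hk0 : (k : ℝ) ≠ 0 := by
    have : (0 : ℝ) < k := by exact_mod_cast hk
    exact this.ne'
  have h2 : (j : ℝ) = k * ((j / k : ℕ) : ℝ) + ((j % k : ℕ) : ℝ) := by exact_mod_cast h.symm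
  rw [h2]
  field_simp
  ring

theorem EE_bound (j : ℕ) : |1 - EE (fun _ => 1) nuT 154 j| ≤ 49 := by
  have h1 : EE (fun _ => 1) nuT 154 j = - ∑ k ∈ Finset.Icc 1 154, nuT k * (((j % k : ℕ) : ℝ) / k) := by
    have h2 : EE (fun _ => 1) nuT 154 j = ∑ k ∈ Finset.Icc 1 154,
        (j * (nuT k / k) - nuT k * (((j % k : ℕ) : ℝ) / k)) := by
      unfold EE
      refine Finset.sum_congr rfl fun k hk => ?_
      have := div_cast_eq j (Finset.mem_Icc.1 hk).1
      simp only [Finset.sum_const, Nat.card_Icc, Nat.add_sub_cancel, nsmul_eq_mul, mul_one]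
      rw [this]
      ring
    rw [h2, Finset.sum_sub_distrib, ← Finset.mul_sum, nuT_sum]
    ring
  rw [h1, sum_nuT (fun k => ((j % k : ℕ) : ℝ) / k)]
  have hb : ∀ k ∈ Finset.Icc 1 154, 0 ≤ ((j % k : ℕ) : ℝ) / k ∧ ((j % k : ℕ) : ℝ) / k ≤ 1 := by
    intro k hk
    have hk1 := (Finset.mem_Icc.1 hk).1
    have hk0 : (0 : ℝ) < k := by exact_mod_cast hk1
    refine ⟨by positivity, ?_⟩
    rw [div_le_one hk0]
    exact_mod_cast (Nat.mod_lt j hk1).le
  have hL : ∀ L : List ℕ, (∀ k ∈ L, k ∈ Finset.Icc 1 154) →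
      0 ≤ (L.map (fun k : ℕ => ((j % k : ℕ) : ℝ) / k)).sum ∧
        (L.map (fun k : ℕ => ((j % k : ℕ) : ℝ) / k)).sum ≤ L.length := by
    intro L hLm
    induction L with
    | nil => simp
    | cons a L ih =>
      obtain ⟨i1, i2⟩ := ih fun k hk => hLm k (List.mem_cons_of_mem _ hk)
      obtain ⟨i3, i4⟩ := hb a (hLm a List.mem_cons_self)
      simp only [List.map_cons, List.sum_cons, List.length_cons]
      push_cast
      constructor <;> linarith
  obtain ⟨p1, p2⟩ := hL posL posL_mem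
  obtain ⟨n1, n2⟩ := hL negL negL_mem
  obtain ⟨q1, q2⟩ := hb 154 (by simp)
  have s1 := sT_lo
  have s2 := sT_hi
  have hlp : (posL.length : ℝ) = 46 := by simp [posL]
  have hln : (negL.length : ℝ) = 48 := by simp [negL]
  rw [hlp] at p2
  rw [hln] at n2
  have hs0 : 0 ≤ 154 * sT := le_trans (by norm_num) s1
  have t1 : 0 ≤ 154 * sT * (((j % 154 : ℕ) : ℝ) / (154 : ℕ)) := mul_nonneg hs0 q1
  have t2 : 154 * sT * (((j % 154 : ℕ) : ℝ) / (154 : ℕ)) ≤ 154 * sT * 1 := mul_le_mul_of_nonneg_left q2 hs0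
  refine abs_le.2 ⟨?_, ?_⟩ <;> linarith

end Pool.Agent.Work.MP_713a1e_co.E
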